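import Pool.Agent.Lib.MP_a37f0b_ag.Q4.Cut

/-! Normal forms of rows over a localization. -/

namespace Pool.Agent.Lib.MP_a37f0b_ag.Q4

variable {S A : Type} [CommRing S] [CommRing A] [Algebra S A] [IsNoetherianRing S]

variable (S) in
/-- The primes associated with principal ideals have height one. -/
def S2 : Prop := ∀ b : S, b ≠ 0 → ∀ P ∈ associatedPrimes S (S ⧸ Ideal.span {b}), P.height ≤ 1

omit [IsNoetherianRing S] in
theorem nf_pow {ι : Type} (ρ : S) [IsLocalization.Away ρ A] {a : ι → S}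
    (ha : Um (algebraMap S A ∘ a)) {Q : Ideal S} (hQ : Q.IsPrime) (h : ∀ l, a l ∈ Q) : ρ ∈ Q := by
  have e : algebraMap S A 1 ∈ Q.map (algebraMap S A) := by
    refine (Ideal.span_le.2 ?_ : Ideal.span (Set.range (algebraMap S A ∘ a)) ≤ _) (ha ▸ trivial)
    rintro _ ⟨l, rfl⟩
    exact Ideal.mem_map_of_mem _ (h l)
  obtain ⟨_, ⟨k, rfl⟩, hk⟩ :=
    (IsLocalization.algebraMap_mem_map_algebraMap_iff (Submonoid.powers ρ) A Q 1).1 e
  exact hQ.mem_of_pow_mem k (mul_one (ρ ^ k) ▸ hk)

omit [IsNoetherianRing S] in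
theorem nf_two {P Q R : Ideal S} (hP : P.IsPrime) (hQ : Q.IsPrime) (hR : R.IsPrime) (h : P < Q)
    (h' : Q < R) : P.height + 2 ≤ R.height := by
  rw [← one_add_one_eq_two, ← add_assoc]
  exact (add_le_add_left (Ideal.height_add_one_le_of_lt_of_isPrime h) 1).trans
    (Ideal.height_add_one_le_of_lt_of_isPrime h')

omit [IsNoetherianRing S] in
theorem nf_one {P Q R : Ideal S} (hP : P.IsPrime) (hQ : Q.IsPrime) (hR : R.IsPrime) (h : P < Q)
    (H : R.height ≤ 1) : ¬ Q < R := fun h' =>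
  absurd (le_add_self.trans ((nf_two hP hQ hR h h').trans H)) (by decide)

omit [IsNoetherianRing S] in
theorem nf_den {ι : Type} [Fintype ι] [DecidableEq ι] (ρ : S) [IsLocalization.Away ρ A]
    (w : ι → A) : ∃ a : ι → S, GE w (algebraMap S A ∘ a) := by
  choose x hx using fun l => IsLocalization.surj (Submonoid.powers ρ) (w l)
  refine ⟨fun l => (x l).1, ?_⟩
  convert GE.scale w fun l => IsLocalization.map_units A (x l).2 using 1
  exact funext fun l => (hx l).symm.trans (mul_comm _ _)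

theorem nf_reg {I : Ideal S} {c : S} (h : ∀ P ∈ associatedPrimes S (S ⧸ I), c ∉ P) (x : S)
    (hx : c * x ∈ I) : x ∈ I := by
  by_contra n
  have : c ∈ ⋃ p ∈ associatedPrimes S (S ⧸ I), (p : Set S) := by
    rw [biUnion_associatedPrimes_eq_zero_divisors]
    exact ⟨Ideal.Quotient.mk I x, fun e => n (Ideal.Quotient.eq_zero_iff_mem.1 e),
      Ideal.Quotient.eq_zero_iff_mem.2 hx⟩
  obtain ⟨P, hP, hc⟩ := Set.mem_iUnion₂.1 this
  exact h P hP hc

omit [IsNoetherianRing S] in
theorem nf_ass {I P : Ideal S} (h : P ∈ associatedPrimes S (S ⧸ I)) : I ≤ P :=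
  le_of_eq_of_le (Ideal.annihilator_quotient.symm.trans Submodule.annihilator_top.symm)
    (IsAssociatedPrime.annihilator_le h)

theorem nf_step {ι : Type} [Fintype ι] [DecidableEq ι] (ρ : S) [IsLocalization.Away ρ A]
    (a : ι → S) (ha : Um (algebraMap S A ∘ a)) {i j : ι} (hij : i ≠ j) {F : Set ι} (hi : i ∉ F)
    (hj : j ∉ F) {T : Set (Ideal S)} (hT : T.Finite) (hp : ∀ Q ∈ T, Q.IsPrime)
    (hF : ∀ Q ∈ T, Ideal.span (a '' F) ≤ Q)
    (hc : ∀ Q ∈ T, ρ ∈ Q → ∀ Q' Q'' : Ideal S, Q'.IsPrime → Q''.IsPrime →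
      Ideal.span (a '' F) ≤ Q' → Q' < Q'' → ¬ Q'' < Q) :
    ∃ a' : ι → S, GE (algebraMap S A ∘ a) (algebraMap S A ∘ a') ∧ (∀ l ∈ F, a' l = a l) ∧
      ∀ Q ∈ T, a' i ∉ Q := by
  obtain ⟨y, hy, h1⟩ := davis (x := a j) (J := Ideal.span (a '' {l | l ≠ j}))
    (T := {P ∈ (Ideal.span (a '' F)).minimalPrimes | ρ ∉ P})
    ((Ideal.finite_minimalPrimes_of_isNoetherianRing S _).sep _) (fun P h => h.1.isPrime)
    fun P h e => h.2 (nf_pow ρ ha h.1.isPrime fun l => e (by
      rcases eq_or_ne l j with rfl | n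
      exacts [Ideal.mem_sup_left (Ideal.mem_span_singleton_self _),
        Ideal.mem_sup_right (Ideal.subset_span ⟨l, n, rfl⟩)]))
  set b := Function.update a j (a j + y) with hb
  have g1 : GE (algebraMap S A ∘ a) (algebraMap S A ∘ b) := by
    have := GE.add (algebraMap S A ∘ a) j (x := algebraMap S A y) (by
      rw [Set.image_comp, ← Ideal.map_span]; exact Ideal.mem_map_of_mem _ hy)
    rwa [hb, Function.comp_update, map_add]
  have u : Um (algebraMap S A ∘ b) := g1.span.trans ha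
  have bF : ∀ l ∈ F, b l = a l := fun l h => Function.update_of_ne (ne_of_mem_of_not_mem h hj) ..
  have hρ : IsUnit (algebraMap S A ρ) := IsLocalization.Away.algebraMap_isUnit ρ
  set B := (Ideal.span ((algebraMap S A ∘ b) '' {l | l ≠ i})).comap (algebraMap S A)
  have mB : ∀ l, l ≠ i → b l ∈ B := fun l n => Ideal.subset_span ⟨l, n, rfl⟩
  obtain ⟨z, hz, h2⟩ := davis (x := ρ * b i) (J := B) hT hp fun Q h e => by
    have := hp Q h
    have q : ρ ∈ Q := ((hp Q h).mem_or_mem
      (e (Ideal.mem_sup_left (Ideal.mem_span_singleton_self _)))).elim id fun l =>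
        nf_pow ρ u (hp Q h) fun m => by
          rcases eq_or_ne m i with rfl | n
          exacts [l, e (Ideal.mem_sup_right (mB m n))]
    obtain ⟨P, hP, l⟩ := Ideal.exists_minimalPrimes_le (le_sup_right.trans e)
    have := hP.isPrime
    have n : ρ ∉ P := fun m => by
      obtain ⟨t, t1, t2⟩ := Ideal.exists_mul_mem_of_mem_minimalPrimes hP m
      exact t1 ((Ideal.unit_mul_mem_iff_mem _ hρ).1
        (map_mul (algebraMap S A) ρ t ▸ Ideal.mem_comap.1 t2))
    obtain ⟨P', hP', l'⟩ := Ideal.exists_minimalPrimes_le (I := Ideal.span (a '' F)) (J := P)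
      (Ideal.span_le.2 (by
        rintro _ ⟨m, hm, rfl⟩
        exact bF m hm ▸ hP.le (mB m (ne_of_mem_of_not_mem hm hi))))
    refine hc Q h q P' P hP'.isPrime hP.isPrime hP'.le (l'.lt_of_ne ?_) (l.lt_of_ne ?_)
    · rintro rfl
      exact h1 _ ⟨hP', n⟩ (by simpa [hb] using hP.le (mB j hij.symm))
    · rintro rfl
      exact n q
  refine ⟨Function.update b i (ρ * b i + z), g1.trans ?_, fun l h => ?_, fun Q h => ?_⟩
  · have g2 := GE.scale (algebraMap S A ∘ b) (d := Function.update 1 i (algebraMap S A ρ))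
      fun l => by rcases eq_or_ne l i with rfl | n <;> simp [*]
    refine g2.trans ?_
    convert GE.add _ i (x := algebraMap S A z) ?_ using 1
    · funext l
      rcases eq_or_ne l i with rfl | n <;> simp [*]
    · convert Ideal.mem_comap.1 hz using 2
      exact Set.image_congr fun l (n : l ≠ i) => by simp [n]
  · rw [Function.update_of_ne (ne_of_mem_of_not_mem h hi), bF l h]
  · rw [Function.update_self]
    exact h2 Q h

theorem nf_top [IsDomain S] {ρ τ : S} [IsLocalization.Away ρ A] (hτ : τ ≠ 0) {d : ℕ}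
    {w : Fin (d + 1) → A} (hw : Um w) :
    ∃ (a : Fin d → S) (u : S), GE w (algebraMap S A ∘ (Fin.snoc a u : Fin (d + 1) → S)) ∧
      HT (Ideal.span {τ} ⊔ Ideal.span (Set.range a)) ⊤ (d + 1) := by
  have H : ∀ k ≤ d, ∃ x : Fin (d + 1) → S, GE w (algebraMap S A ∘ x) ∧
      HT (Ideal.span {τ} ⊔ Ideal.span (x '' {l | l.val < k})) ⊤ (k + 1) := fun k hk => by
    induction k with
    | zero =>
      obtain ⟨x, hx⟩ := nf_den ρ w
      refine ⟨x, hx, ((HT.zero ⊥ ⊤).succ (x := τ) fun P h _ m => hτ ?_).mono (by simp) le_rfl le_rfl⟩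
      rw [Ideal.minimalPrimes_eq_subsingleton_self] at h
      rwa [h] at m
    | succ k ih =>
      obtain ⟨x, hx, ht⟩ := ih (by omega)
      obtain ⟨x', g, e, n⟩ := nf_step ρ x (hx.span.trans hw) (i := ⟨k, by omega⟩)
        (j := Fin.last d) (F := {l | l.val < k}) (Fin.ne_of_val_ne (by simp; omega)) (by simp)
        (by simp; omega) (Ideal.finite_minimalPrimes_of_isNoetherianRing S
          (Ideal.span {τ} ⊔ Ideal.span (x '' {l | l.val < k}))) (fun P h => h.isPrime)
        (fun P h => le_sup_right.trans h.le) fun Q h _ Q' Q'' p' p'' l l' l'' => by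
          have := h.isPrime
          have m : Q ∈ (Q' ⊔ Ideal.span {τ}).minimalPrimes :=
            ⟨⟨this, sup_le (l'.trans l'').le (le_sup_left.trans h.le)⟩, fun P a b =>
              h.2 ⟨a.1, sup_le (le_sup_right.trans a.2) (l.trans (le_sup_left.trans a.2))⟩ b⟩
          have s : ∀ {P P' : Ideal S}, Q' ≤ P → P < P' →
              P.map (Ideal.Quotient.mk Q') < P'.map (Ideal.Quotient.mk Q') := fun a b =>
            (Ideal.map_mono b.le).lt_of_ne fun c => b.ne (by
              rw [← Ideal.comap_map_mk a, c, Ideal.comap_map_mk (a.trans b.le)])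
          have t : ∀ {P : Ideal S}, P.IsPrime → Q' ≤ P → (P.map (Ideal.Quotient.mk Q')).IsPrime :=
            fun a b => Ideal.map_isPrime_of_surjective Ideal.Quotient.mk_surjective (by simpa)
          exact nf_one (t p' le_rfl) (t p'' l'.le) (t this (l'.trans l'').le) (s le_rfl l')
            (Ideal.map_height_le_one_of_mem_minimalPrimes m) (s l'.le l'')
      refine ⟨x', hx.trans g, (ht.succ fun P h _ => n P h).mono
        (sup_le (sup_le le_sup_left (le_sup_of_le_right (Ideal.span_mono ?_)))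
          (le_sup_of_le_right (Ideal.span_mono ?_))) le_rfl le_rfl⟩
      · rintro _ ⟨l, h, rfl⟩
        exact ⟨l, Nat.lt_succ_of_lt h, e l h⟩
      · rintro _ rfl
        exact ⟨_, Nat.lt_succ_self k, rfl⟩
  obtain ⟨x, hx, ht⟩ := H d le_rfl
  refine ⟨Fin.init x, x (Fin.last d), by rwa [Fin.snoc_init_self],
    ht.mono (sup_le_sup_left (Ideal.span_mono ?_) _) le_rfl le_rfl⟩
  rintro _ ⟨l, h, rfl⟩
  exact ⟨⟨l, h⟩, rfl⟩

theorem nf_dev [IsDomain S] {r : S} [IsLocalization.Away r A] (hr : Prime r) (h1 : S2 S)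
    (h2 : S2 (S ⧸ Ideal.span {r})) {w : Fin 3 → A} (hw : Um w) :
    ∃ a b c : S, GE w (algebraMap S A ∘ ![a, b, c]) ∧ ¬ r ∣ b ∧ ¬ r ∣ c ∧
      (∀ x, c * x ∈ Ideal.span {r, b} → x ∈ Ideal.span {r, b}) ∧ ∀ x, b ∣ c * x → b ∣ x := by
  obtain ⟨x, hx⟩ := nf_den r w
  have pr : (Ideal.span {r}).IsPrime := (Ideal.span_singleton_prime hr.ne_zero).2 hr
  obtain ⟨y, g, -, n⟩ := nf_step r x (hx.span.trans hw) (i := 1) (j := 0) (F := ∅) (by decide)
    id id (Set.finite_singleton (Ideal.span {r})) (fun Q h => h ▸ pr) (by simp)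
    fun Q h _ Q' Q'' p' p'' _ l => h ▸ nf_one p' p'' pr l
      (Ideal.height_le_one_of_isPrincipal_of_mem_minimalPrimes (Ideal.span {r}) _
        (by rw [Ideal.minimalPrimes_eq_subsingleton_self]; rfl))
  have nb : ¬ r ∣ y 1 := fun l => n _ rfl (Ideal.mem_span_singleton.2 l)
  have b0 : y 1 ≠ 0 := fun l => nb (l ▸ dvd_zero r)
  set π := Ideal.Quotient.mk (Ideal.span {r})
  have b1 : π (y 1) ≠ 0 := fun l => n _ rfl (Ideal.Quotient.eq_zero_iff_mem.1 l)
  have im : y '' {1} = {y 1} := Set.image_singleton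
  obtain ⟨z, g', e, n'⟩ := nf_step r y ((hx.trans g).span.trans hw) (i := 2) (j := 0) (F := {1})
    (T := associatedPrimes S (S ⧸ Ideal.span {y 1}) ∪ Ideal.comap π ''
      associatedPrimes _ ((S ⧸ Ideal.span {r}) ⧸ Ideal.span {π (y 1)})) (by decide)
    (by simp) (by simp) ((associatedPrimes.finite _ _).union ((associatedPrimes.finite _ _).image _))
    (by
      rintro Q (h | ⟨P, h, rfl⟩)
      exacts [h.isPrime, h.isPrime.comap π])
    (by
      rintro Q (h | ⟨P, h, rfl⟩) <;> rw [im]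
      exacts [nf_ass h, (Ideal.span_singleton_le_iff_mem _).2
        (nf_ass h (Ideal.mem_span_singleton_self _))])
    (by
      rintro Q (h | ⟨P, h, rfl⟩) m Q' Q'' p' p'' l l' l''
      · exact nf_one p' p'' h.isPrime l' (h1 _ b0 _ h) l''
      · have := h.isPrime
        have a := Ideal.height_le_height_add_one_of_mem m
        rw [Ideal.map_comap_of_surjective _ Ideal.Quotient.mk_surjective] at a
        have b := Ideal.height_add_one_le_of_lt_of_isPrime (I := ⊥) (J := Q')
          (bot_lt_iff_ne_bot.2 fun c => b0 (by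
            simpa [c] using l (im ▸ Ideal.mem_span_singleton_self _)))
        exact absurd ((add_le_add_left (le_add_self.trans b) 2).trans
          ((nf_two p' p'' (this.comap π) l' l'').trans
            (a.trans (add_le_add_left (h2 _ b1 _ h) 1)))) (by decide))
  have e1 : z 1 = y 1 := e 1 rfl
  have r1 : ∀ t, z 2 * t ∈ Ideal.span {r, z 1} → t ∈ Ideal.span {r, z 1} := fun t => by
    rw [e1, Ideal.span_insert, sup_comm, ← Ideal.mem_quotient_iff_mem_sup,
      ← Ideal.mem_quotient_iff_mem_sup, Ideal.map_span, Set.image_singleton, map_mul]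
    exact nf_reg (fun P h => n' (P.comap π) (.inr ⟨P, h, rfl⟩)) _
  have r2 : ∀ t, z 1 ∣ z 2 * t → z 1 ∣ t := fun t => by
    rw [e1, ← Ideal.mem_span_singleton, ← Ideal.mem_span_singleton]
    exact nf_reg (fun P h => n' _ (.inl h)) _
  have G := (hx.trans g).trans g'
  rw [← e1] at nb
  by_cases hc : r ∣ z 2
  · refine ⟨z 0, z 1, z 2 + z 1, G.trans ?_, nb, fun l => nb ((dvd_add_right hc).1 l),
      fun t h => r1 t ?_, fun t h => r2 t ?_⟩
    · convert GE.add (algebraMap S A ∘ z) 2 (x := algebraMap S A (z 1))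
        (Ideal.subset_span ⟨1, by simp, rfl⟩) using 1
      funext l
      fin_cases l <;> simp
    · rw [add_mul] at h
      exact (Ideal.add_mem_iff_left _
        (Ideal.mul_mem_right _ _ (Ideal.subset_span (by simp)))).1 h
    · rw [add_mul] at h
      exact (dvd_add_left (dvd_mul_right _ _)).1 h
  · refine ⟨z 0, z 1, z 2, ?_, nb, hc, r1, r2⟩
    convert G using 2
    funext l
    fin_cases l <;> rfl

end Pool.Agent.Lib.MP_a37f0b_ag.Q4
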