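import Pool.Agent.Lib.MP_a37f0b_ag.Q4.Ser
import Pool.Agent.Lib.MP_a37f0b_ag.Q4.Nf
import Pool.Agent.Lib.MP_a37f0b_ag.PopSerre

/-! Homological properties of regular local rings and their localizations. -/

open IsLocalRing Pool.Agent.Lib.MP_a37f0b_ag.Pop

namespace Pool.Agent.Lib.MP_a37f0b_ag.Q4

section aux

open CategoryTheory Function

variable {R : Type} [CommRing R] {M : Type} [AddCommGroup M] [Module R M]

theorem hom_mono {n k : ℕ} (h : PD R M n) (hk : n ≤ k) : PD R M k := by
  induction hk with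
  | refl => exact h
  | step _ ih => exact pd_succ ih

theorem hom_zero [Subsingleton M] (n : ℕ) : PD R M n := hom_mono (cr_zero.2 inferInstance) n.zero_le

theorem hom_quot (I : Ideal R) (x : R) :
    Nonempty ((R ⧸ (I ⊔ Ideal.span {x})) ≃ₗ[R] QuotSMulTop x (R ⧸ I)) := by
  obtain ⟨g, g1, g2⟩ := pd_proj I x
  exact ⟨(g.quotKerEquivOfSurjective g1).symm.trans (Submodule.quotEquivOfEq _ _ (by
    ext y
    rw [LinearMap.mem_ker, g2, Submodule.mem_smul_pointwise_iff_exists]
    simp))⟩

theorem hom_sreg {I : Ideal R} {x : R} (hr : ∀ μ, x * μ ∈ I → μ ∈ I) :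
    IsSMulRegular (R ⧸ I) x := by
  refine .of_right_eq_zero_of_smul fun y hy => ?_
  obtain ⟨y, rfl⟩ := Submodule.mkQ_surjective I y
  rw [← map_smul, Submodule.mkQ_apply, Submodule.Quotient.mk_eq_zero] at hy
  rw [Submodule.mkQ_apply, Submodule.Quotient.mk_eq_zero]
  exact hr y hy

variable [IsNoetherianRing R]

theorem hom_primes {n : ℕ} (h : ∀ p : Ideal R, p.IsPrime → PD R (R ⧸ p) n) (M : Type)
    [AddCommGroup M] [Module R M] [hM : Module.Finite R M] : PD R M n := by
  induction hM using IsNoetherianRing.induction_on_isQuotientEquivQuotientPrime R with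
  | subsingleton N => exact hom_zero n
  | quotient N p f => exact pd_equiv f.symm (h p.1 p.2)
  | exact N₁ N₂ N₃ f g hf hg e h1 h3 => exact pd_mid hf hg e h1 h3

theorem hom_reg [Module.Finite R M] {I : Ideal R} (h : ∀ z : M, (∀ μ ∈ I, μ • z = 0) → z = 0) :
    ∃ x ∈ I, IsSMulRegular M x := by
  by_contra! H
  obtain ⟨P, hP, hle⟩ := (Ideal.subset_union_prime_finite (f := id) (I := I)
    (associatedPrimes.finite R M) ⊤ ⊤ fun P hP _ _ => hP.isPrime).1 fun x hx =>
      (biUnion_associatedPrimes_eq_compl_regular R M).ge (H x hx)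
  obtain ⟨hp, a, rfl⟩ := isAssociatedPrime_iff.1 hP
  refine hp.ne_top ((Ideal.eq_top_iff_one _).2 ?_)
  rw [h a fun r hr => by simpa using hle hr]
  simp

variable [IsLocalRing R]

theorem hom_drop [Module.Finite R M] {x : R} (hx : x ∈ maximalIdeal R) (hr : IsSMulRegular M x)
    {n : ℕ} (h : PD R (QuotSMulTop x M) (n + 1)) : PD R M n := by
  have h1 := (projectiveDimension_le_iff _ _).2 h
  rw [ModuleCat.projectiveDimension_quotSMulTop_eq_succ_of_isSMulRegular (ModuleCat.of R M) x hr hx,
    Nat.cast_succ, ENat.WithBot.add_le_add_one_right_iff] at h1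
  exact (projectiveDimension_le_iff _ _).1 h1

theorem hom_dim {J : Ideal R} {d : ℕ} (h : RS (maximalIdeal R) J d) :
    ringKrullDim (R ⧸ J) = d ∧ projectiveDimension (ModuleCat.of R (R ⧸ maximalIdeal R)) =
      projectiveDimension (ModuleCat.of R (R ⧸ J)) + d := by
  induction h with
  | zero => exact ⟨ringKrullDim_eq_zero_of_field (ResidueField R), by simp⟩
  | succ J d x hx hr _ ih =>
    obtain ⟨e⟩ := hom_quot J x
    constructor
    · rw [← Module.supportDim_quotient_eq_ringKrullDim,
        ← Module.supportDim_quotSMulTop_succ_eq_supportDim (hom_sreg hr) hx,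
        ← Module.supportDim_eq_of_equiv e, Module.supportDim_quotient_eq_ringKrullDim, ih.1,
        Nat.cast_succ]
    · rw [ih.2, ModuleCat.projectiveDimension_eq_of_linearEquiv
        (M := ModuleCat.of R (R ⧸ (J ⊔ Ideal.span {x}))) (N := ModuleCat.of R _) e,
        ModuleCat.projectiveDimension_quotSMulTop_eq_succ_of_isSMulRegular
        (ModuleCat.of R (R ⧸ J)) x (hom_sreg hr) hx, Nat.cast_succ, add_assoc, add_comm 1]

variable {d : ℕ} (h : RS (maximalIdeal R) ⊥ d)
include h

theorem hom_dim' : ringKrullDim R = d :=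
  (ringKrullDim_eq_of_ringEquiv (RingEquiv.quotientBot R)).symm.trans (hom_dim h).1

theorem hom_all {n : ℕ} (hn : d ≤ n) (M : Type) [AddCommGroup M] [Module R M]
    [Module.Finite R M] : PD R M n :=
  hom_primes (fun p _ => hom_mono (pd_all (h.pd pd_bot) p) (by omega)) M

theorem hom_le {n : ℕ} (hn : PD R (R ⧸ maximalIdeal R) n) : d ≤ n := by
  have h1 := (projectiveDimension_le_iff _ _).2 hn
  have : Nontrivial (R ⧸ (⊥ : Ideal R)) := Ideal.Quotient.nontrivial_iff.2 bot_ne_top
  have : Projective (ModuleCat.of R (R ⧸ (⊥ : Ideal R))) :=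
    (projective_iff_hasProjectiveDimensionLE_zero _).2 pd_bot
  rw [(hom_dim h).2, ModuleCat.projectiveDimension_eq_zero_of_projective, zero_add] at h1
  exact_mod_cast h1

/-- small projective dimension excludes a socle -/
theorem hom_soc {I : Ideal R} {n : ℕ} (hI : PD R (R ⧸ I) n) (hn : n < d) {x : R}
    (hx : ∀ μ ∈ maximalIdeal R, μ * x ∈ I) : x ∈ I := by
  by_contra k
  obtain ⟨d, rfl⟩ := Nat.exists_eq_succ_of_ne_zero (Nat.ne_zero_of_lt hn)
  let f := LinearMap.toSpanSingleton R (R ⧸ I) (I.mkQ x)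
  have hf : ∀ r, r ∈ LinearMap.ker f ↔ r * x ∈ I := fun r => by
    rw [LinearMap.mem_ker, LinearMap.toSpanSingleton_apply, ← map_smul, Submodule.mkQ_apply,
      Submodule.Quotient.mk_eq_zero, smul_eq_mul]
  have e : maximalIdeal R = LinearMap.ker f := (maximalIdeal.isMaximal R).eq_of_le
    (fun e => k (by simpa using (hf 1).1 (e ▸ Submodule.mem_top))) fun r hr => (hf r).2 (hx r hr)
  have h1 := pd_left (LinearMap.range f).injective_subtype (Submodule.mkQ_surjective _)
    (LinearMap.exact_subtype_mkQ _) (hom_mono hI (Nat.lt_succ_iff.1 hn)) (hom_all h le_rfl _)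
  exact Nat.not_succ_le_self d (hom_le h (pd_equiv
    ((Submodule.quotEquivOfEq _ _ e).trans f.quotKerEquivRange).symm h1))

end aux

variable {R : Type} [CommRing R] [IsRegularLocalRing R]

theorem gd_top {n : ℕ} (hd : ringKrullDim R ≤ n) : GD R ⊤ n := by
  obtain ⟨d, h⟩ := reg_rs (R := R)
  exact fun M _ _ _ _ => hom_all h (by exact_mod_cast (hom_dim' h).symm.trans_le hd) M

theorem gd_max {n : ℕ} (hd : ringKrullDim R ≤ (n + 1 : ℕ)) : GD R (maximalIdeal R) n := by
  intro M _ _ _ hM
  obtain ⟨x, hx, hr⟩ := hom_reg hM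
  exact hom_drop hx hr (gd_top hd _ fun z hz => by simpa using hz 1 trivial)

theorem gd_away {n : ℕ} (hd : ringKrullDim R ≤ (n + 1 : ℕ)) {ρ : R} (hρ : ρ ∈ maximalIdeal R)
    (A : Type) [CommRing A] [Algebra R A] [IsLocalization.Away ρ A] : GD A ⊤ n := by
  have := IsLocalization.isNoetherianRing (Submonoid.powers ρ) A inferInstance
  refine fun M _ _ _ _ => hom_primes (fun p hp => ?_) M
  have h1 : ρ ∉ p.comap (algebraMap R A) := fun k =>
    hp.ne_top (p.eq_top_of_isUnit_mem k (IsLocalization.Away.algebraMap_isUnit ρ))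
  have h2 := pd_loc (lc_of_isLocalization (B := A) (Submonoid.powers ρ))
    (hom_drop hρ (hom_sreg fun μ k => ((hp.comap (algebraMap R A)).mem_or_mem k).resolve_left h1)
      (gd_top hd _ fun z hz => by simpa using hz 1 trivial))
  rwa [IsLocalization.map_under (Submonoid.powers ρ) A p] at h2

attribute [local instance] RingHomInvPair.of_ringEquiv in
theorem GD.of_equiv {A B : Type} [CommRing A] [CommRing B] (e : A ≃+* B) {m : Ideal A} {n : ℕ}
    (h : GD A m n) : GD B (m.map e) n := by
  intro M _ _ _ hM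
  let _ : Algebra A B := e.toRingHom.toAlgebra
  let _ : Module A M := Module.compHom M e.toRingHom
  have : IsScalarTower A B M := IsScalarTower.of_algebraMap_smul fun _ _ => rfl
  have : Module.Finite A B := Module.Finite.of_surjective (Algebra.linearMap A B) e.surjective
  have : Module.Finite A M := Module.Finite.trans B M
  have h1 := h M fun z hz => hM z fun μ hμ => by
    obtain ⟨a, ha, rfl⟩ := (Ideal.mem_map_iff_of_surjective e e.surjective).1 hμ
    exact hz a ha
  unfold PD at h1 ⊢
  exact ModuleCat.hasProjectiveDimensionLE_of_semiLinearEquiv e (M := ModuleCat.of A M)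
    (N := ModuleCat.of B M) { AddEquiv.refl M with map_smul' := fun _ _ => rfl } n

theorem s2_away {ρ : R} (hρ : ρ ≠ 0) (A : Type) [CommRing A] [Algebra R A]
    [IsLocalization.Away ρ A] : S2 A := by
  have := reg_domain (R := R)
  have := IsLocalization.isNoetherianRing (Submonoid.powers ρ) A inferInstance
  have : IsDomain A := IsLocalization.isDomain_of_le_nonZeroDivisors A
    (powers_le_nonZeroDivisors_of_noZeroDivisors hρ)
  intro b hb P hP
  obtain ⟨hp, z, hz⟩ := isAssociatedPrime_iff.1 hP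
  obtain ⟨z, rfl⟩ := Submodule.mkQ_surjective _ z
  have hm : ∀ a, a ∈ P ↔ a * z ∈ Ideal.span {b} := fun a => by
    rw [hz, Submodule.mem_colon_singleton, ← map_smul, Submodule.mem_bot, Submodule.mkQ_apply,
      Submodule.Quotient.mk_eq_zero, smul_eq_mul]
  obtain ⟨L, _, ι, d, h1, h2⟩ :=
    ((serre R).loc (lc_of_isLocalization (B := A) (Submonoid.powers ρ))) P
  have := h1.isLocalization
  algebraize [ι]
  have := IsLocalization.AtPrime.isLocalRing L P
  have := IsLocalization.isNoetherianRing P.primeCompl L inferInstance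
  have : IsDomain L := IsLocalization.isDomain_of_le_nonZeroDivisors L
    P.primeCompl_le_nonZeroDivisors
  have inj : Function.Injective ι := IsLocalization.injective L P.primeCompl_le_nonZeroDivisors
  have e : P.map ι = maximalIdeal L := IsLocalization.AtPrime.map_eq_maximalIdeal P L
  rw [e] at h2
  have h3 := (IsLocalization.AtPrime.ringKrullDim_eq_height P L).symm.trans (hom_dim' h2)
  by_contra k
  have h4 : 1 < d := by
    by_contra k'
    refine k (WithBot.coe_le_coe.1 (h3.trans_le ?_))
    exact_mod_cast not_lt.1 k'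
  have h5 := (pd_ses ⊥ ⊥ (ι b) (fun μ => by simp [(map_ne_zero_iff ι inj).2 hb]) 0).2
    pd_bot (pd_succ pd_bot)
  have h6 : ι z ∈ (Ideal.span {b}).map ι := by
    rw [bot_sup_eq, ← Set.image_singleton, ← Ideal.map_span] at h5
    refine hom_soc h2 h5 h4 fun μ hμ => ?_
    rw [← e] at hμ
    refine Submodule.span_induction (p := fun μ _ => μ * ι z ∈ (Ideal.span {b}).map ι) ?_ (by simp)
      (fun x y _ _ a c => add_mul x y _ ▸ add_mem a c)
      (fun a x _ c => by rw [smul_eq_mul, mul_assoc]; exact Ideal.mul_mem_left _ _ c) hμ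
    rintro _ ⟨a, ha, rfl⟩
    exact map_mul ι a z ▸ Ideal.mem_map_of_mem ι ((hm a).1 ha)
  obtain ⟨t, ht, a, ha, h7⟩ := h1.mem_map h6
  exact ht ((hm t).2 (by rwa [mul_comm, inj ((map_mul ι z t).trans h7)]))

theorem S2.of_equiv {A B : Type} [CommRing A] [CommRing B] (e : A ≃+* B) (h : S2 A) : S2 B := by
  intro b hb P hP
  obtain ⟨hp, z, hz⟩ := Submodule.isAssociatedPrime_def.1 hP
  obtain ⟨z, rfl⟩ := Submodule.mkQ_surjective _ z
  obtain ⟨b, rfl⟩ := e.surjective b
  obtain ⟨z, rfl⟩ := e.surjective z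
  rw [← e.height_comap]
  refine h b (fun k => hb (by rw [k, map_zero])) _ (Submodule.isAssociatedPrime_def.2
    ⟨hp.comap e, Submodule.mkQ _ z, Ideal.ext fun a => ?_⟩)
  rw [Ideal.mem_comap, hz]
  refine exists_congr fun n => ?_
  simp only [Submodule.mem_colon_singleton, Submodule.mem_bot, Submodule.mkQ_apply,
    ← Submodule.Quotient.mk_smul, Submodule.Quotient.mk_eq_zero, smul_eq_mul,
    Ideal.mem_span_singleton, ← map_pow, ← map_mul, map_dvd_iff]

/-- A regular sequence of length two in dimension at least three has no socle. -/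
theorem soc_three (hd : (3 : ℕ) ≤ ringKrullDim R) {b c : R} (h : Reg2 b c) (x : R)
    (hx : ∀ μ ∈ maximalIdeal R, μ * x ∈ Ideal.span {b, c}) : x ∈ Ideal.span {b, c} := by
  obtain ⟨d, h1⟩ := reg_rs (R := R)
  exact hom_soc h1 (pd_reg2 h) (by exact_mod_cast hd.trans_eq (hom_dim' h1)) hx

theorem hom_fin {A N : Type} [CommRing A] [AddCommGroup N] [Module A N] [Module.Free A N]
    [Module.Finite A N] : ∃ l : ℕ, Nonempty (N ≃ₗ[A] (Fin l → A)) :=
  ⟨_, ⟨((Module.Free.chooseBasis A N).reindex (Fintype.equivFin _)).equivFun⟩⟩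

theorem hom_stably (T : Submonoid R) (A : Type) [CommRing A] [Algebra R A] [IsLocalization T A]
    (n : ℕ) (M P : Type) [AddCommGroup M] [Module R M] [Module.Finite R M] [AddCommGroup P]
    [Module A P] [Module R P] [IsScalarTower R A P] [Module.Finite A P] [Module.Projective A P]
    (f : M →ₗ[R] P) [IsLocalizedModule T f] (h : PD R M n) :
    ∃ k : ℕ, Module.Free A (P × (Fin k → A)) := by
  have := IsLocalization.isNoetherianRing T A inferInstance
  induction n generalizing M P with
  | zero =>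
    have := cr_zero.1 h
    have : Module.Free R M := Module.free_of_flat_of_isLocalRing
    have := Module.free_of_isLocalizedModule (Rₛ := A) T f
    exact ⟨0, inferInstance⟩
  | succ n ih =>
    obtain ⟨m, g, hg⟩ := Module.Finite.exists_fin' R M
    let f' : (Fin m → R) →ₗ[R] (Fin m → A) := .pi fun i => Algebra.linearMap R A ∘ₗ .proj i
    let φ := (IsLocalizedModule.map T f' f g).extendScalarsOfIsLocalization T A
    have h1 : Function.Surjective φ := IsLocalizedModule.map_surjective T f' f g hg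
    have h2 : Function.Exact ((LinearMap.ker g).localized' A T f').subtype φ := by
      rw [LinearMap.localized'_ker_eq_ker_localizedMap A T f' f g]
      exact φ.exact_subtype_ker_map
    have := cr_zero.1 ((cr_succ _ φ (Submodule.injective_subtype _) h2 h1 0).1
      (pd_succ (cr_zero.2 inferInstance)))
    obtain ⟨k, hk⟩ := ih _ _ ((LinearMap.ker g).toLocalized' A T f')
      ((cr_succ _ g (Submodule.injective_subtype _) g.exact_subtype_ker_map hg n).1 h)
    obtain ⟨l, ⟨e1⟩⟩ := hom_fin (A := A) (N := (LinearMap.ker g).localized' A T f' × (Fin k → A))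
    obtain ⟨s, hs⟩ := Module.projective_lifting_property φ LinearMap.id h1
    obtain ⟨e2, -⟩ := h2.splitSurjectiveEquiv (Submodule.injective_subtype _) ⟨s, hs⟩
    exact ⟨l, Module.Free.of_equiv ((((e2.trans (LinearEquiv.prodComm _ _ _)).prodCongr
      (LinearEquiv.refl A (Fin k → A))).trans (LinearEquiv.prodAssoc _ _ _ _)).trans
      ((LinearEquiv.refl A P).prodCongr e1))⟩

theorem stably (ρ : R) (A : Type) [CommRing A] [Algebra R A] [IsLocalization.Away ρ A] (P : Type)
    [AddCommGroup P] [Module A P] [Module.Finite A P] [Module.Projective A P] :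
    ∃ k l : ℕ, Nonempty ((P × (Fin k → A)) ≃ₗ[A] (Fin l → A)) := by
  let _ : Module R P := Module.compHom P (algebraMap R A)
  have : IsScalarTower R A P := IsScalarTower.of_algebraMap_smul fun _ _ => rfl
  obtain ⟨s, hs⟩ := Module.Finite.fg_top (R := A) (M := P)
  have : IsLocalizedModule (Submonoid.powers ρ) (Submodule.span R (s : Set P)).subtype :=
    ⟨(isLocalizedModule_id (Submonoid.powers ρ) P A).map_units, fun y => by
      obtain ⟨t, ht⟩ := multiple_mem_span_of_mem_localization_span (Submonoid.powers ρ) A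
        (s : Set P) y (hs ▸ Submodule.mem_top)
      exact ⟨⟨⟨_, ht⟩, t⟩, rfl⟩, fun e => ⟨1, by rw [Subtype.ext e]⟩⟩
  obtain ⟨d, h⟩ := reg_rs (R := R)
  obtain ⟨k, hk⟩ := hom_stably (Submonoid.powers ρ) A d _ P (Submodule.span R (s : Set P)).subtype
    (hom_all h le_rfl _)
  exact ⟨k, hom_fin⟩

end Pool.Agent.Lib.MP_a37f0b_ag.Q4
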