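import Pool.Agent.Lib.MP_a37f0b_ag.Q4.Cut

/-! Jets of branches of a reduced curve. -/

open IsLocalRing

namespace Pool.Agent.Lib.MP_a37f0b_ag.Q4

/-- A truncated discrete valuation ring that is finite over `R`. -/
structure Jet (R : Type) [CommRing R] (ρ : R) (N : ℕ) where
  J : Type
  [cr : CommRing J]
  [alg : Algebra R J]
  [fin : Module.Finite R J]
  [loc : IsLocalRing J]
  π : J
  f : ℕ
  pos : 0 < f
  max : maximalIdeal J = Ideal.span {π}
  nil : π ^ (f * N) = 0
  nz : π ^ (f * N - 1) ≠ 0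
  as : Associated (algebraMap R J ρ) (π ^ f)

attribute [instance] Jet.cr Jet.alg Jet.fin Jet.loc

/-- The jets of all orders of the branches of the curve `I`. -/
def Jets {R : Type} [CommRing R] (ρ : R) (I : Ideal R) : Prop :=
  ∃ c b : ℕ, ∀ N : ℕ, 0 < N → ∃ (κ : Type) (_ : Finite κ) (j : κ → Jet R ρ (c + N)),
    (∀ y : ∀ i, (j i).J, ∃ x : R, ∀ i, algebraMap R _ x = ρ ^ c • y i) ∧
    (∀ x : R, (∀ i, algebraMap R (j i).J x = 0) → ρ ^ b * x ∈ I ⊔ Ideal.span {ρ ^ (b + N)}) ∧
    ∀ x ∈ I, ∀ i, algebraMap R (j i).J x = 0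

theorem jet_one {V : Type} [CommRing V] [IsDomain V] [IsPrincipalIdealRing V] {ρ q u : V}
    (hq : Irreducible q) {e N : ℕ} (he : 0 < e) (hN : 0 < N) (hu : ¬ q ∣ u) (hρ : ρ = q ^ e * u) :
    ∃ j : Jet V ρ N, Function.Surjective (algebraMap V j.J) ∧
      ∀ x : V, algebraMap V j.J x = 0 ↔ q ^ (e * N) ∣ x := by
  have hk : 0 < e * N := Nat.mul_pos he hN
  have h0 : ∀ x : V, Ideal.Quotient.mk (Ideal.span {q ^ (e * N)}) x = 0 ↔ q ^ (e * N) ∣ x :=
    fun x => by rw [Ideal.Quotient.eq_zero_iff_mem, Ideal.mem_span_singleton]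
  have hunit : ∀ x : V, ¬ q ∣ x → IsUnit (Ideal.Quotient.mk (Ideal.span {q ^ (e * N)}) x) := by
    intro x hx
    obtain ⟨a, b, hab⟩ := (hq.coprime_iff_not_dvd.2 hx).pow_left (m := e * N)
    refine IsUnit.of_mul_eq_one_right (Ideal.Quotient.mk _ b) ?_
    have := congrArg (Ideal.Quotient.mk (Ideal.span {q ^ (e * N)})) hab
    rwa [map_add, map_mul, (h0 _).2 dvd_rfl, mul_zero, zero_add, map_mul, map_one] at this
  have hnz : Ideal.Quotient.mk (Ideal.span {q ^ (e * N)}) q ^ (e * N - 1) ≠ 0 := by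
    rw [← map_pow, Ne, h0, pow_dvd_pow_iff hq.ne_zero hq.not_isUnit]
    omega
  have hnil : Ideal.Quotient.mk (Ideal.span {q ^ (e * N)}) q ^ (e * N) = 0 := by
    rw [← map_pow, h0]
  have : Nontrivial (V ⧸ Ideal.span {q ^ (e * N)}) := ⟨_, _, hnz⟩
  have : IsLocalRing (V ⧸ Ideal.span {q ^ (e * N)}) := by
    refine IsLocalRing.of_isUnit_or_isUnit_one_sub_self fun a => ?_
    obtain ⟨x, rfl⟩ := Ideal.Quotient.mk_surjective a
    by_cases hx : q ∣ x
    · right
      rw [← map_one (Ideal.Quotient.mk (Ideal.span {q ^ (e * N)})), ← map_sub]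
      refine hunit _ fun h => hq.not_isUnit (isUnit_of_dvd_one ?_)
      simpa using dvd_add h hx
    · exact Or.inl (hunit x hx)
  refine ⟨⟨V ⧸ Ideal.span {q ^ (e * N)}, Ideal.Quotient.mk _ q, e, he, ?_, hnil, hnz, ?_⟩,
    Ideal.Quotient.mk_surjective, h0⟩
  · ext a
    obtain ⟨x, rfl⟩ := Ideal.Quotient.mk_surjective a
    rw [mem_maximalIdeal, mem_nonunits_iff, Ideal.mem_span_singleton]
    constructor
    · intro h
      by_contra hc
      exact h (hunit x fun hx => hc (map_dvd _ hx))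
    · intro h hx
      exact (IsNilpotent.mk _ _ hnil).not_isUnit (isUnit_of_dvd_unit h hx)
  · change Associated (Ideal.Quotient.mk _ ρ) _
    rw [hρ, map_mul, map_pow]
    exact associated_mul_unit_left _ _ (hunit u hu)

/-- Jets of a principal ideal domain. -/
theorem pid_jets {V : Type} [CommRing V] [IsDomain V] [IsPrincipalIdealRing V] {ρ : V}
    (hρ : ρ ≠ 0) {N : ℕ} (hN : 0 < N) : ∃ (κ : Type) (_ : Finite κ) (j : κ → Jet V ρ N),
      (∀ y : ∀ i, (j i).J, ∃ x : V, ∀ i, algebraMap V _ x = y i) ∧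
      ∀ x : V, (∀ i, algebraMap V (j i).J x = 0) → ρ ^ N ∣ x := by
  classical
  let := UniqueFactorizationMonoid.strongNormalizationMonoid (α := V)
  let s := UniqueFactorizationMonoid.normalizedFactors ρ
  have hirr : ∀ q : s.toFinset, Irreducible (q : V) := fun q =>
    UniqueFactorizationMonoid.irreducible_of_normalized_factor _ (Multiset.mem_toFinset.1 q.2)
  have hcop : ∀ q r : s.toFinset, q ≠ r → IsCoprime (q : V) (r : V) := fun q r hqr =>
    (hirr q).coprime_iff_not_dvd.2 fun h => hqr (Subtype.ext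
      (UniqueFactorizationMonoid.normalizedFactors_eq_of_dvd ρ _ (Multiset.mem_toFinset.1 q.2) _
        (Multiset.mem_toFinset.1 r.2) h))
  have hprod : Associated (∏ q : s.toFinset, (q : V) ^ s.count (q : V)) ρ := by
    rw [Finset.prod_coe_sort s.toFinset (fun q => q ^ s.count q), ← Finset.prod_multiset_count]
    exact UniqueFactorizationMonoid.prod_normalizedFactors hρ
  have key : ∀ q : s.toFinset, ∃ j : Jet V ρ N, Function.Surjective (algebraMap V j.J) ∧
      ∀ x : V, algebraMap V j.J x = 0 ↔ (q : V) ^ (s.count (q : V) * N) ∣ x := by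
    intro q
    obtain ⟨w, hw⟩ := hprod
    refine jet_one (u := (∏ r ∈ Finset.univ.erase q, (r : V) ^ s.count (r : V)) * w) (hirr q)
      (Multiset.count_pos.2 (Multiset.mem_toFinset.1 q.2)) hN ?_ ?_
    · rw [← (hirr q).coprime_iff_not_dvd]
      refine IsCoprime.mul_right (IsCoprime.prod_right fun r hr => ?_) ?_
      · exact (hcop q r (Finset.ne_of_mem_erase hr).symm).pow_right
      · exact (isCoprime_one_right).of_isCoprime_of_dvd_right w.isUnit.dvd
    · rw [← mul_assoc, Finset.mul_prod_erase Finset.univ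
        (fun r : s.toFinset => (r : V) ^ s.count (r : V)) (Finset.mem_univ q), hw]
  choose j hj1 hj2 using key
  refine ⟨s.toFinset, inferInstance, j, fun y => ?_, fun x hx => ?_⟩
  · choose z hz using fun i => hj1 i (y i)
    obtain ⟨x, hx⟩ := Ideal.exists_forall_sub_mem_ideal
      (I := fun q : s.toFinset => Ideal.span {(q : V) ^ (s.count (q : V) * N)})
      (fun q r hqr => (Ideal.isCoprime_span_singleton_iff _ _).2 (hcop q r hqr).pow) z
    refine ⟨x, fun i => ?_⟩
    rw [← hz i, ← sub_eq_zero, ← map_sub, hj2]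
    exact Ideal.mem_span_singleton.1 (hx i)
  · refine (hprod.symm.pow_pow (n := N)).dvd.trans ?_
    rw [← Finset.prod_pow]
    refine Finset.prod_dvd_of_coprime (fun q _ r _ hqr => (hcop q r hqr).pow.pow) fun q _ => ?_
    rw [← pow_mul]
    exact (hj2 q x).1 (hx q)

theorem jet_unif {W M : Type} [CommRing W] [AddCommGroup M] [Module W M] (p : W)
    {A : Submodule W M} (hA : A.FG) (B : Submodule W M) (h : ∀ y ∈ A, ∃ k : ℕ, p ^ k • y ∈ B) :
    ∃ c : ℕ, ∀ k, c ≤ k → ∀ y ∈ A, p ^ k • y ∈ B := by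
  classical
  obtain ⟨s, rfl⟩ := hA
  choose! f hf using h
  refine ⟨s.sup f, fun k hk y hy => ?_⟩
  induction hy using Submodule.span_induction with
  | mem x hx =>
    obtain ⟨d, rfl⟩ := Nat.exists_eq_add_of_le' ((Finset.le_sup (f := f) hx).trans hk)
    rw [pow_add, mul_smul]
    exact B.smul_mem _ (hf x (Submodule.subset_span hx))
  | zero => simp
  | add x y _ _ hx hy => rw [smul_add]; exact B.add_mem hx hy
  | smul a x _ hx => rw [smul_comm]; exact B.smul_mem _ hx

theorem jet_pid {W F : Type} [CommRing W] [IsDomain W] [IsDiscreteValuationRing W] [CharZero W]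
    [Field F] [Algebra W F] [Algebra (FractionRing W) F] [IsScalarTower W (FractionRing W) F]
    [Module.Finite (FractionRing W) F] : Module.Finite W (integralClosure W F) ∧
      IsPrincipalIdealRing (integralClosure W F) := by
  have := IsIntegralClosure.finite W (FractionRing W) F (integralClosure W F)
  have := integralClosure.isDedekindDomain W (FractionRing W) F
  refine ⟨inferInstance, IsPrincipalIdealRing.of_finite_maximals ?_⟩
  refine (Algebra.QuasiFinite.finite_primesOver (S := integralClosure W F)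
    (maximalIdeal W)).subset fun I hI => ?_
  have hI' : I.IsMaximal := hI
  exact ⟨hI'.isPrime, ⟨(eq_maximalIdeal (Ideal.isMaximal_comap_of_isIntegral_of_isMaximal I)).symm⟩⟩

/-- The normalization of a generically reduced finite algebra. -/
theorem norm_fin {W O : Type} [CommRing W] [IsDomain W] [IsDiscreteValuationRing W] [CharZero W]
    [CommRing O] [Algebra W O] [Module.Finite W O] {p : W} (hp : Irreducible p)
    (h : ∀ x : O, IsNilpotent x → ∃ j : ℕ, p ^ j • x = 0) :
    ∃ (κ : Type) (_ : Finite κ) (V : κ → Type) (_ : ∀ i, CommRing (V i)) (_ : ∀ i, IsDomain (V i))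
      (_ : ∀ i, IsPrincipalIdealRing (V i)) (_ : ∀ i, Algebra O (V i))
      (_ : ∀ i, Module.Finite O (V i)) (c : ℕ),
      (∀ i, algebraMap O (V i) (algebraMap W O p) ≠ 0) ∧
      (∀ y : ∀ i, V i, ∃ x : O, ∀ i, algebraMap O _ x = algebraMap W O p ^ c • y i) ∧
      ∀ x : O, (∀ i, algebraMap O (V i) x = 0) → p ^ c • x = 0 := by
  let E := Localization (Algebra.algebraMapSubmonoid O (nonZeroDivisors W))
  have hS : ∀ t : Algebra.algebraMapSubmonoid O (nonZeroDivisors W), ∃ (k : ℕ) (u : Wˣ),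
      (t : O) = algebraMap W O u * algebraMap W O p ^ k := by
    rintro ⟨_, t, ht, rfl⟩
    obtain ⟨k, u, rfl⟩ := IsDiscreteValuationRing.eq_unit_mul_pow_irreducible
      (nonZeroDivisors.ne_zero ht) hp
    exact ⟨k, u, (map_mul _ _ _).trans (by rw [map_pow])⟩
  have hu : ∀ u : Wˣ, algebraMap W O (u⁻¹ : Wˣ) * algebraMap W O u = 1 := fun u => by
    rw [← map_mul, Units.inv_mul, map_one]
  have hker : ∀ x : O, algebraMap O E x = 0 → ∃ k : ℕ, p ^ k • x = 0 := by
    intro x hx
    obtain ⟨t, ht⟩ := (IsLocalization.map_eq_zero_iff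
      (Algebra.algebraMapSubmonoid O (nonZeroDivisors W)) E x).1 hx
    obtain ⟨k, u, hk⟩ := hS t
    refine ⟨k, ?_⟩
    rw [hk] at ht
    rw [Algebra.smul_def, map_pow]
    linear_combination algebraMap W O (u⁻¹ : Wˣ) * ht - algebraMap W O p ^ k * x * hu u
  have hsur : ∀ e : E, ∃ (k : ℕ) (x : O),
      algebraMap O E x = algebraMap O E (algebraMap W O p ^ k) * e := by
    intro e
    obtain ⟨⟨x, t⟩, hx⟩ := IsLocalization.surj
      (Algebra.algebraMapSubmonoid O (nonZeroDivisors W)) e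
    obtain ⟨k, u, hk⟩ := hS t
    refine ⟨k, algebraMap W O (u⁻¹ : Wˣ) * x, ?_⟩
    dsimp only at hx
    rw [map_mul, ← hx, hk, mul_comm e, ← mul_assoc, ← map_mul, ← mul_assoc, hu, one_mul]
  have hpu : IsUnit (algebraMap O E (algebraMap W O p)) :=
    IsLocalization.map_units E (⟨_, p, mem_nonZeroDivisors_of_ne_zero hp.ne_zero, rfl⟩ :
      Algebra.algebraMapSubmonoid O (nonZeroDivisors W))
  have : IsReduced E := by
    refine ⟨fun e he => ?_⟩
    obtain ⟨k, x, hx⟩ := hsur e
    have h1 : IsNilpotent (algebraMap O E x) := by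
      rw [hx]
      exact (Commute.all _ _).isNilpotent_mul_left he
    obtain ⟨n, hn⟩ := h1
    rw [← map_pow] at hn
    obtain ⟨l, hl⟩ := hker _ hn
    rw [Algebra.smul_def] at hl
    obtain ⟨j, hj⟩ := h (algebraMap W O (p ^ l) * x) ⟨n + 1, by
      rw [mul_pow]
      linear_combination algebraMap W O (p ^ l) ^ n * x * hl⟩
    rw [Algebra.smul_def] at hj
    have h2 := congrArg (algebraMap O E) hj
    rw [map_mul, map_mul, hx, map_zero, map_pow, map_pow, map_pow, map_pow, map_pow] at h2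
    rwa [(hpu.pow j).mul_right_eq_zero, (hpu.pow l).mul_right_eq_zero,
      (hpu.pow k).mul_right_eq_zero] at h2
  have : IsArtinianRing E := IsArtinianRing.of_finite (FractionRing W) E
  let fld : ∀ m : MaximalSpectrum E, Field (E ⧸ m.asIdeal) := fun m =>
    @Ideal.Quotient.field _ _ m.asIdeal m.isMaximal
  have hV := fun m : MaximalSpectrum E => jet_pid (W := W) (F := E ⧸ m.asIdeal)
  let φ : ∀ m : MaximalSpectrum E, O →ₐ[W] integralClosure W (E ⧸ m.asIdeal) := fun m =>
    (IsScalarTower.toAlgHom W O (E ⧸ m.asIdeal)).codRestrict _ fun x =>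
      (Algebra.IsIntegral.isIntegral (R := W) x).map (IsScalarTower.toAlgHom W O (E ⧸ m.asIdeal))
  have hφ : ∀ m x, (φ m x : E ⧸ m.asIdeal) = Ideal.Quotient.mk _ (algebraMap O E x) :=
    fun m x => rfl
  have fin := fun m => (hV m).1
  let Φ : O →ₗ[W] ∀ m : MaximalSpectrum E, integralClosure W (E ⧸ m.asIdeal) :=
    LinearMap.pi fun m => (φ m).toLinearMap
  obtain ⟨c1, hc1⟩ := jet_unif p (A := ⊤) Module.Finite.fg_top (LinearMap.range Φ) (by
    intro y _
    obtain ⟨e, he⟩ := (IsArtinianRing.equivPi E).surjective fun m => (y m : E ⧸ m.asIdeal)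
    obtain ⟨k, x, hx⟩ := hsur e
    refine ⟨k, x, funext fun m => Subtype.ext ?_⟩
    have h1 : Ideal.Quotient.mk m.asIdeal e = (y m : E ⧸ m.asIdeal) := congrFun he m
    change (φ m x : E ⧸ m.asIdeal) = p ^ k • (y m : E ⧸ m.asIdeal)
    rw [hφ, hx, map_mul, h1, Algebra.smul_def, ← map_pow]
    rfl)
  obtain ⟨c2, hc2⟩ := jet_unif p (A := LinearMap.ker Φ) (IsNoetherian.noetherian _) ⊥ (by
    intro x hx
    refine hker x ((IsArtinianRing.equivPi E).injective (funext fun m => ?_))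
    rw [map_zero]
    exact congrArg Subtype.val (congrFun (LinearMap.mem_ker.1 hx) m))
  refine ⟨MaximalSpectrum E, inferInstance, fun m => integralClosure W (E ⧸ m.asIdeal),
    fun m => inferInstance, fun m => inferInstance, fun m => (hV m).2,
    fun m => (φ m).toRingHom.toAlgebra, fun m => ?_, max c1 c2, fun m h0 => ?_, fun y => ?_,
    fun x hx => hc2 _ (le_max_right _ _) x (LinearMap.mem_ker.2 (funext hx))⟩
  · exact (AlgHom.Finite.of_comp_finite (f := Algebra.ofId W O) (g := φ m) (by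
      rw [Subsingleton.elim ((φ m).comp (Algebra.ofId W O)) (Algebra.ofId W _)]
      exact RingHom.finite_algebraMap.2 (fin m)) :)
  · exact (hpu.map (Ideal.Quotient.mk m.asIdeal)).ne_zero (congrArg Subtype.val h0)
  · obtain ⟨x, hx⟩ := hc1 _ (le_max_left c1 c2) y trivial
    refine ⟨x, fun m => ?_⟩
    have h1 : φ m x = p ^ max c1 c2 • y m := congrFun hx m
    change φ m x = φ m (algebraMap W O p ^ max c1 c2) * y m
    rw [h1, ← map_pow, AlgHom.commutes, Algebra.smul_def]

/-- A jet over `S` as a jet over `R`. -/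
def Jet.res {R S : Type} [CommRing R] [CommRing S] (φ : R →+* S) {ρ : R} {N : ℕ}
    (j : Jet S (φ ρ) N) (h : ((algebraMap S j.J).comp φ).Finite) : Jet R ρ N :=
  @Jet.mk R _ ρ N j.J j.cr ((algebraMap S j.J).comp φ).toAlgebra h j.loc j.π j.f j.pos j.max
    j.nil j.nz j.as

theorem Jet.pow_zero {R : Type} [CommRing R] {ρ : R} {N : ℕ} (j : Jet R ρ N) :
    algebraMap R j.J (ρ ^ N) = 0 := by
  rw [map_pow, (j.as.pow_pow (n := N)).eq_zero_iff, ← pow_mul, j.nil]

theorem jets_of_red {W O : Type} [CommRing W] [IsDomain W] [IsDiscreteValuationRing W]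
    [CharZero W] [CommRing O] [Algebra W O] [Module.Finite W O] {p : W} (hp : Irreducible p)
    (h : ∀ x : O, IsNilpotent x → ∃ j : ℕ, p ^ j • x = 0) {ρ : O}
    (h1 : ∃ k : ℕ, ρ ∣ algebraMap W O p ^ k) (h2 : ∃ k : ℕ, algebraMap W O p ∣ ρ ^ k) :
    Jets ρ ⊥ := by
  obtain ⟨κ, _, V, _, _, _, _, _, c, a1, a2, a3⟩ := norm_fin hp h
  obtain ⟨k1, hk1⟩ := h1
  obtain ⟨k, z, hz⟩ := h2
  have hne : ∀ i, algebraMap O (V i) ρ ≠ 0 := by
    intro i h0
    have := map_dvd (algebraMap O (V i)) hk1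
    rw [h0, zero_dvd_iff, map_pow] at this
    exact pow_ne_zero _ (a1 i) this
  have hc : ρ ^ (k * c) = z ^ c * algebraMap W O p ^ c := by rw [pow_mul, hz, mul_pow, mul_comm]
  have b2 : ∀ y : ∀ i, V i, ∃ x : O, ∀ i, algebraMap O _ x = algebraMap O _ (ρ ^ (k * c)) * y i := by
    intro y
    obtain ⟨x, hx⟩ := a2 y
    refine ⟨z ^ c * x, fun i => ?_⟩
    rw [map_mul, hx i, hc, map_mul, Algebra.smul_def, mul_assoc]
  refine ⟨k * c, k * c, fun N hN => ?_⟩
  choose τ hτ j j1 j2 using fun i => pid_jets (hne i) (N := k * c + N) (by omega)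
  have hf : ∀ i l, ((algebraMap (V i) (j i l).J).comp (algebraMap O (V i))).Finite := fun i l =>
    RingHom.Finite.comp (RingHom.finite_algebraMap.2 inferInstance)
      (RingHom.finite_algebraMap.2 inferInstance)
  refine ⟨Σ i, τ i, inferInstance, fun a => (j a.1 a.2).res _ (hf a.1 a.2), fun y => ?_,
    fun x hx => ?_, fun x hx a => ?_⟩
  · choose v hv using fun i => j1 i (fun l => y ⟨i, l⟩)
    obtain ⟨x, hx⟩ := b2 v
    refine ⟨x, fun a => ?_⟩
    rw [Algebra.smul_def]
    change algebraMap (V a.1) (j a.1 a.2).J (algebraMap O _ x) =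
      algebraMap (V a.1) (j a.1 a.2).J (algebraMap O _ (ρ ^ (k * c))) *
        (show (j a.1 a.2).J from y a)
    rw [hx, map_mul, hv]
  · choose w hw using fun i => j2 i (algebraMap O _ x) (fun l => hx ⟨i, l⟩)
    obtain ⟨x', hx'⟩ := b2 w
    have h3 := a3 (x - ρ ^ N * x') fun i => by
      rw [map_sub, map_mul, hx', hw i, map_pow, map_pow]
      ring
    rw [Algebra.smul_def, map_pow] at h3
    refine Ideal.mem_sup_right (Ideal.mem_span_singleton.2 ⟨x', ?_⟩)
    rw [pow_add, hc]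
    linear_combination z ^ c * h3
  · rw [Ideal.mem_bot.1 hx, map_zero]

/-- Jets only depend on the completion. -/
theorem Jets.desc {R O : Type} [CommRing R] [IsLocalRing R] [CommRing O] (ψ : R →+* O) {ρ : R}
    {I : Ideal R} (hI : ∀ x ∈ I, ψ x = 0)
    (h1 : ∀ (n : ℕ) (y : O), ∃ x, y - ψ x ∈ Ideal.span {ψ ρ ^ n})
    (h2 : ∀ (n : ℕ) (x : R), ψ x ∈ Ideal.span {ψ ρ ^ n} → x ∈ I ⊔ Ideal.span {ρ ^ n})
    (h : Jets (ψ ρ) ⊥) : Jets ρ I := by
  obtain ⟨c, b, h⟩ := h
  refine ⟨c, b, fun N hN => ?_⟩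
  obtain ⟨κ, _, j, j1, j2, -⟩ := h N hN
  have happ : ∀ y : O, ∃ x : R, ∀ i, algebraMap O (j i).J (ψ x) = algebraMap O (j i).J y := by
    intro y
    obtain ⟨x, hx⟩ := h1 (c + N) y
    obtain ⟨w, hw⟩ := Ideal.mem_span_singleton.1 hx
    refine ⟨x, fun i => ?_⟩
    rw [eq_comm, ← sub_eq_zero, ← map_sub, hw, map_mul, (j i).pow_zero, zero_mul]
  have hf : ∀ i, ((algebraMap O (j i).J).comp ψ).Finite := by
    intro i
    have e1 : (algebraMap O (j i).J).range.subtype.Finite :=
      RingHom.Finite.of_comp_finite (f := (algebraMap O (j i).J).rangeRestrict)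
        (RingHom.finite_algebraMap.2 inferInstance)
    have e2 : ((algebraMap O (j i).J).rangeRestrict.comp ψ).Finite := by
      refine RingHom.Finite.of_surjective _ ?_
      rintro ⟨_, y, rfl⟩
      obtain ⟨x, hx⟩ := happ y
      exact ⟨x, Subtype.ext (hx i)⟩
    exact e1.comp e2
  refine ⟨κ, inferInstance, fun i => (j i).res ψ (hf i), fun y => ?_, fun x hx => ?_,
    fun x hx i => ?_⟩
  · obtain ⟨x, hx⟩ := j1 y
    obtain ⟨x', hx'⟩ := happ x
    refine ⟨x', fun i => ?_⟩
    rw [Algebra.smul_def]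
    change algebraMap O (j i).J (ψ x') = algebraMap O (j i).J (ψ (ρ ^ c)) *
      (show (j i).J from y i)
    rw [hx', hx, map_pow ψ]
    exact Algebra.smul_def _ _
  · refine h2 _ _ ?_
    have := j2 (ψ x) hx
    rwa [bot_sup_eq, ← map_pow ψ ρ b, ← map_mul] at this
  · change algebraMap O (j i).J (ψ x) = 0
    rw [hI x hx, map_zero]

end Pool.Agent.Lib.MP_a37f0b_ag.Q4
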