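import Pool.Agent.Lib.MP_a37f0b_ag.Q4.Cpl3
import Pool.Agent.Lib.MP_a37f0b_ag.Q4.Jet
import Pool.Agent.Lib.MP_a37f0b_ag.PopReg
import Pool.Agent.Lib.MP_9e3d42_al.CS.Cr

/-! Completions and reduced curves. -/

open IsLocalRing

namespace Pool.Agent.Lib.MP_a37f0b_ag.Q4

theorem cplA_noeth (R : Type) [CommRing R] [IsLocalRing R] [IsNoetherianRing R] :
    IsNoetherianRing (AdicCompletion (maximalIdeal R) R) := by
  obtain ⟨n, y, hy⟩ := Submodule.fg_iff_exists_fin_generating_family.1
    (maximalIdeal R).fg_of_isNoetherianRing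
  have hm : maximalIdeal (AdicCompletion (maximalIdeal R) R) =
      Ideal.span (Set.range fun i => algebraMap R (AdicCompletion (maximalIdeal R) R) (y i)) := by
    rw [AdicCompletion.maximalIdeal_eq_map]
    conv_lhs => enter [2]; rw [← hy]
    rw [Ideal.submodule_span_eq, Ideal.map_span, ← Set.range_comp]
    rfl
  obtain ⟨φ, h1, h2⟩ := MP_9e3d42_al.CS.exists_ev (σ := Fin n)
    (maximalIdeal (AdicCompletion (maximalIdeal R) R)) (algebraMap R _)
    (fun i => algebraMap R _ (y i)) fun i => hm.ge (Ideal.subset_span ⟨i, rfl⟩)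
  have hI : (Ideal.span (Set.range (MvPowerSeries.X : Fin n → MvPowerSeries (Fin n) R))).map φ =
      maximalIdeal (AdicCompletion (maximalIdeal R) R) := by
    rw [hm, Ideal.map_span, ← Set.range_comp]
    congr 2
    exact funext h2
  refine isNoetherianRing_of_surjective (MvPowerSeries (Fin n) R) _ φ ?_
  have : IsHausdorff ((Ideal.span (Set.range
      (MvPowerSeries.X : Fin n → MvPowerSeries (Fin n) R))).map φ)
      (AdicCompletion (maximalIdeal R) R) := hI ▸ inferInstance
  refine surjective_of_mk_map_comp_surjective φ (I := Ideal.span (Set.range MvPowerSeries.X))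
    fun a => ?_
  obtain ⟨a, rfl⟩ := Ideal.Quotient.mk_surjective a
  obtain ⟨b, hb⟩ := (AdicCompletion.residueField_map_bijective R).2 (residue _ a)
  obtain ⟨b, rfl⟩ := residue_surjective b
  refine ⟨MvPowerSeries.C b, Ideal.Quotient.eq.2 ?_⟩
  rw [hI, h1, ← residue_eq_zero_iff, map_sub, ← hb, ResidueField.map_residue, sub_self]

theorem cpl_reg (R : Type) [CommRing R] [IsRegularLocalRing R] :
    IsRegularLocalRing (AdicCompletion (maximalIdeal R) R) ∧
      ringKrullDim (AdicCompletion (maximalIdeal R) R) = ringKrullDim R := by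
  have := cplA_noeth R
  have h1 := AdicCompletion.spanFinrank_maximalIdeal_eq (R := R)
  have h2 : ((maximalIdeal R).spanFinrank : WithBot ℕ∞) = ringKrullDim R :=
    (isRegularLocalRing_iff R).1 inferInstance
  have h3 : ringKrullDim R ≤ ringKrullDim (AdicCompletion (maximalIdeal R) R) := by
    have : (maximalIdeal (AdicCompletion (maximalIdeal R) R)).LiesOver (maximalIdeal R) :=
      ⟨(IsLocalRing.maximalIdeal_comap (algebraMap R (AdicCompletion (maximalIdeal R) R))).symm⟩
    rw [← maximalIdeal_height_eq_ringKrullDim, ← maximalIdeal_height_eq_ringKrullDim,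
      Ideal.height_eq_height_add_of_liesOver_of_hasGoingDown (maximalIdeal R)
        (maximalIdeal (AdicCompletion (maximalIdeal R) R))]
    exact_mod_cast le_self_add
  refine ⟨.of_spanFinrank_maximalIdeal_le _ ?_, le_antisymm ?_ h3⟩
  · rw [h1, h2]; exact h3
  · rw [← h2, ← h1]; exact ringKrullDim_le_spanFinrank_maximalIdeal _

theorem cpl_den (R : Type) [CommRing R] [IsLocalRing R] [IsNoetherianRing R] (n : ℕ)
    (y : AdicCompletion (maximalIdeal R) R) :
    ∃ x : R, y - algebraMap R _ x ∈ maximalIdeal (AdicCompletion (maximalIdeal R) R) ^ n := by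
  rw [AdicCompletion.maximalIdeal_eq_map]
  refine MP_9e3d42_al.CS.approx _ _ (fun a => ?_) n y
  obtain ⟨b, hb⟩ := (AdicCompletion.residueField_map_bijective R).2 (residue _ a)
  obtain ⟨b, rfl⟩ := residue_surjective b
  refine ⟨b, ?_⟩
  rw [← AdicCompletion.maximalIdeal_eq_map, ← residue_eq_zero_iff, map_sub, ← hb,
    ResidueField.map_residue, sub_self]

theorem cpl_comap (R : Type) [CommRing R] [IsLocalRing R] [IsNoetherianRing R] (I : Ideal R) :
    (I.map (algebraMap R (AdicCompletion (maximalIdeal R) R))).comap (algebraMap R _) = I := by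
  have : Module.FaithfullyFlat R (AdicCompletion (maximalIdeal R) R) :=
    .of_flat_of_isLocalHom
  exact Ideal.comap_map_eq_self_of_faithfullyFlat I

/-- A Cohen ring. -/
theorem coef (T : Type) [CommRing T] [IsLocalRing T] [IsAdicComplete (maximalIdeal T) T] {p : ℕ}
    (hp : p.Prime) (hm : (p : T) ∈ maximalIdeal T) :
    ∃ (W : Type) (_ : CommRing W) (_ : IsDomain W) (_ : IsDiscreteValuationRing W)
      (_ : IsAdicComplete (maximalIdeal W) W) (_ : CharZero W) (ψ : W →+* T),
      Irreducible (p : W) ∧ ∀ a, ∃ o, a - ψ o ∈ maximalIdeal T := by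
  have := Fact.mk hp
  have : CharP (ResidueField T) p := (CharP.charP_iff_prime_eq_zero hp).2 (by
    rw [← map_natCast (residue T), residue_eq_zero_iff]; exact hm)
  obtain ⟨O, _, _, _, _, _, ρ, h1, h2, h3⟩ := MP_9e3d42_al.CS.cohen_ring (ResidueField T) p hp
  have h4 : (Ideal.span {(p : ℤ)}).map (algebraMap ℤ O) = RingHom.ker ρ := by
    simp [Ideal.map_span, h3]
  have : ((Ideal.span {(p : ℤ)}).map (algebraMap ℤ O)).IsMaximal :=
    h4 ▸ RingHom.ker_isMaximal_of_surjective ρ h2
  obtain ⟨g, hg⟩ := MP_9e3d42_al.CS.lift_adic (R := ℤ) (S := O) (I := Ideal.span {(p : ℤ)}) (by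
    let _ := Ideal.Quotient.field (Ideal.span {(p : ℤ)})
    let _ := Ideal.Quotient.field ((Ideal.span {(p : ℤ)}).map (algebraMap ℤ O))
    have := Ideal.finiteQuotientOfFreeOfNeBot (Ideal.span {(p : ℤ)}) (by simpa using hp.ne_zero)
    exact MP_9e3d42_al.CS.fs_field (ℤ ⧸ Ideal.span {(p : ℤ)}) _) (maximalIdeal T)
    (by simpa [Ideal.span_le] using hm) ρ.toIntAlgHom
  refine ⟨O, _, ‹_›, ‹_›, ‹_›, ‹_›, g, h1, fun a => ?_⟩
  obtain ⟨o, ho⟩ := h2 (residue T a)
  exact ⟨o, Ideal.Quotient.eq.1 ((hg o).trans ho).symm⟩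

/-- A generic element: away from its zeros the ring is unramified over the image of `Λ`. -/
theorem prim {Λ T : Type} [CommRing Λ] [CommRing T] [IsDomain T] [CharZero T] [Algebra Λ T]
    [Module.Finite Λ T] : ∃ (θ : T) (δ : Λ) (Q : Polynomial Λ), algebraMap Λ T δ ≠ 0 ∧
      (∀ y : T, δ • y ∈ Algebra.adjoin Λ {θ}) ∧ Polynomial.aeval θ Q = 0 ∧
      Polynomial.aeval θ Q.derivative ≠ 0 := by
  exact cplb_prim

/-- Moving the curve to a reduced curve. -/
theorem red {W T : Type} [CommRing W] [IsDomain W] [IsDiscreteValuationRing W]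
    [IsAdicComplete (maximalIdeal W) W] [CharZero W] [CommRing T] [IsDomain T] [IsLocalRing T]
    [IsNoetherianRing T] [IsAdicComplete (maximalIdeal T) T] [CharZero T] [Algebra W T] {p : ℕ}
    (hp : Irreducible (p : W)) (hm : (p : T) ∈ maximalIdeal T)
    (hs : ∀ a : T, ∃ o : W, a - algebraMap W T o ∈ maximalIdeal T) {d : ℕ}
    (hd : ringKrullDim T ≤ (d + 1 : ℕ)) (a : Fin d → T) (ha : ∀ i, a i ∈ maximalIdeal T)
    (h : maximalIdeal T ≤ (Ideal.span (Set.range a) ⊔ Ideal.span {(p : T)}).radical) (N : ℕ) :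
    ∃ k : Fin d → ℕ, (∀ i, N ≤ k i) ∧
      Module.Finite W (T ⧸ Ideal.span (Set.range fun i => a i - (p : T) ^ k i)) ∧
      ∀ x : T ⧸ Ideal.span (Set.range fun i => a i - (p : T) ^ k i), IsNilpotent x →
        ∃ j : ℕ, (p : W) ^ j • x = 0 := by
  exact cplb_red hp hm hs hd a ha h N

theorem cplA_sup_pow {R : Type} [CommRing R] (I J : Ideal R) (n : ℕ) : (I ⊔ J) ^ n ≤ I ⊔ J ^ n := by
  induction n with
  | zero => simp
  | succ n ih =>
    rw [pow_succ, pow_succ]
    refine (Ideal.mul_mono_left ih).trans ?_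
    rw [Ideal.sup_mul, Ideal.mul_sup (J ^ n)]
    refine sup_le ?_ (sup_le ?_ le_sup_right)
    · exact le_sup_of_le_left Ideal.mul_le_left
    · exact le_sup_of_le_left Ideal.mul_le_right

theorem cplA_nak {R : Type} [CommRing R] [IsLocalRing R] [IsNoetherianRing R] {d M : ℕ}
    (a a' : Fin d → R) (J : Ideal R) (h : maximalIdeal R ^ M ≤ Ideal.span (Set.range a) ⊔ J)
    (h' : ∀ i, a' i - a i ∈ maximalIdeal R ^ (M + 1)) :
    maximalIdeal R ^ M ≤ Ideal.span (Set.range a') ⊔ J := by
  refine h.trans (Submodule.le_of_le_smul_of_le_jacobson_bot (I := maximalIdeal R)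
    (IsNoetherian.noetherian _) (maximalIdeal_le_jacobson _) ?_)
  refine sup_le (Ideal.span_le.2 ?_) (le_sup_of_le_left le_sup_right)
  rintro _ ⟨i, rfl⟩
  have h1 : a' i - a i ∈ maximalIdeal R • (Ideal.span (Set.range a) ⊔ J) := by
    rw [smul_eq_mul]
    exact Ideal.mul_mono_right h (pow_succ' (maximalIdeal R) M ▸ h' i)
  rw [show a i = a' i - (a' i - a i) by ring]
  exact sub_mem (Submodule.mem_sup_left (Submodule.mem_sup_left (Ideal.subset_span ⟨i, rfl⟩)))
    (Submodule.mem_sup_right h1)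

theorem jets {R : Type} [CommRing R] [IsRegularLocalRing R] [CharZero R] {p : ℕ} (hp : p.Prime)
    (hm : (p : R) ∈ maximalIdeal R) {d : ℕ} (hd : ringKrullDim R = (d + 1 : ℕ)) {ρ : R}
    (hρ : ρ ∈ maximalIdeal R) (a : Fin d → R) (ha : ∀ i, a i ∈ maximalIdeal R)
    (h1 : maximalIdeal R ≤ (Ideal.span (Set.range a) ⊔ Ideal.span {(p : R)}).radical)
    (h2 : maximalIdeal R ≤ (Ideal.span (Set.range a) ⊔ Ideal.span {ρ}).radical) (N : ℕ) :
    ∃ a' : Fin d → R, (∀ i, a' i - a i ∈ maximalIdeal R ^ N) ∧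
      Jets ρ (Ideal.span (Set.range a')) := by
  obtain ⟨hT, hdim⟩ := cpl_reg R
  have hden := cpl_den R
  have hcom := cpl_comap R
  have hmax := AdicCompletion.maximalIdeal_eq_map (R := R)
  have hcpl : IsAdicComplete (maximalIdeal (AdicCompletion (maximalIdeal R) R))
    (AdicCompletion (maximalIdeal R) R) := inferInstance
  generalize_proofs at *
  set T := AdicCompletion (maximalIdeal R) R
  have : IsDomain T := Pop.reg_domain
  have hinj : Function.Injective (algebraMap R T) := by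
    rw [RingHom.injective_iff_ker_eq_bot, RingHom.ker_eq_comap_bot]
    simpa using hcom ⊥
  have : CharZero T := charZero_of_injective_ringHom hinj
  have hmem : ∀ x ∈ maximalIdeal R, algebraMap R T x ∈ maximalIdeal T := fun x hx =>
    hmax ▸ Ideal.mem_map_of_mem _ hx
  have hpT : (p : T) ∈ maximalIdeal T := by simpa using hmem _ hm
  obtain ⟨W, _, _, _, _, _, ψ, hW, hs⟩ := coef T hp hpT
  let _ : Algebra W T := ψ.toAlgebra
  obtain ⟨M1, hM1⟩ := Ideal.exists_pow_le_of_le_radical_of_fg h1 (IsNoetherian.noetherian _)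
  obtain ⟨M2, hM2⟩ := Ideal.exists_pow_le_of_le_radical_of_fg h2 (IsNoetherian.noetherian _)
  have e1 : ∀ b : Fin d → R, (Ideal.span (Set.range b)).map (algebraMap R T) =
      Ideal.span (Set.range fun i => algebraMap R T (b i)) := fun b => by
    rw [Ideal.map_span, ← Set.range_comp]; rfl
  obtain ⟨k, hk, hfin, hnil⟩ := red (W := W) (T := T) hW hpT hs (d := d) (by rw [hdim, hd])
    (fun i => algebraMap R T (a i)) (fun i => hmem _ (ha i)) (by
      rw [hmax]
      refine (Ideal.map_mono h1).trans ((Ideal.map_radical_le _).trans (Ideal.radical_mono ?_))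
      rw [Ideal.map_sup, e1, Ideal.map_span, Set.image_singleton, map_natCast])
    (N + (M1 + M2 + 1))
  have hpk : ∀ i, (a i - (p : R) ^ k i) - a i ∈ maximalIdeal R ^ (N + (M1 + M2 + 1)) := fun i => by
    rw [sub_sub_cancel_left]
    exact neg_mem (Ideal.pow_le_pow_right (hk i) (Ideal.pow_mem_pow hm _))
  have g1 := cplA_nak a (fun i => a i - (p : R) ^ k i) _ hM1 fun i =>
    Ideal.pow_le_pow_right (by omega) (hpk i)
  have g2 := cplA_nak a (fun i => a i - (p : R) ^ k i) _ hM2 fun i =>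
    Ideal.pow_le_pow_right (by omega) (hpk i)
  refine ⟨fun i => a i - (p : R) ^ k i, fun i => Ideal.pow_le_pow_right (by omega) (hpk i), ?_⟩
  have e2 := e1 fun i => a i - (p : R) ^ k i
  simp only [map_sub, map_pow, map_natCast] at e2
  set I : Ideal R := Ideal.span (Set.range fun i => a i - (p : R) ^ k i)
  set K : Ideal T := Ideal.span (Set.range fun i => algebraMap R T (a i) - (p : T) ^ k i)
  let φ : R →+* T ⧸ K := (Ideal.Quotient.mk K).comp (algebraMap R T)
  have hI : ∀ x ∈ I, φ x = 0 := fun x hx =>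
    Ideal.Quotient.eq_zero_iff_mem.2 (e2 ▸ Ideal.mem_map_of_mem _ hx)
  have hdv : ∀ x y : R, x ∈ I ⊔ Ideal.span {y} → φ y ∣ φ x := by
    intro x y h
    obtain ⟨u, hu, v, hv, rfl⟩ := Submodule.mem_sup.1 h
    rw [map_add, hI u hu, zero_add]
    exact map_dvd φ (Ideal.mem_span_singleton.1 hv)
  have e3 : ∀ y : R, ((I ⊔ Ideal.span {y}).map (algebraMap R T)) =
      (Ideal.span {φ y}).comap (Ideal.Quotient.mk K) := by
    intro y
    rw [Ideal.map_sup, e2, Ideal.map_span, Set.image_singleton, sup_comm,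
      show Ideal.span {φ y} = (Ideal.span {algebraMap R T y}).map (Ideal.Quotient.mk K) by
        rw [Ideal.map_span, Set.image_singleton]; rfl,
      Ideal.comap_map_of_surjective _ Ideal.Quotient.mk_surjective, ← RingHom.ker_eq_comap_bot,
      Ideal.mk_ker]
  refine Jets.desc φ hI (fun n y => ?_) (fun n x hx => ?_) (jets_of_red hW hnil ⟨M2, ?_⟩ ⟨M1, ?_⟩)
  · obtain ⟨y, rfl⟩ := Ideal.Quotient.mk_surjective y
    obtain ⟨x, hx⟩ := hden (M2 * n) y
    refine ⟨x, ?_⟩
    have h3 : maximalIdeal R ^ (M2 * n) ≤ I ⊔ Ideal.span {ρ ^ n} := by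
      rw [pow_mul, ← Ideal.span_singleton_pow]
      exact (Ideal.pow_right_mono g2 n).trans (cplA_sup_pow _ _ n)
    rw [hmax, ← Ideal.map_pow] at hx
    have h4 := Ideal.map_mono h3 hx
    rw [e3, Ideal.mem_comap, map_sub, map_pow] at h4
    exact h4
  · rw [← hcom (I ⊔ Ideal.span {ρ ^ n}), Ideal.mem_comap, e3, Ideal.mem_comap, map_pow]
    exact hx
  · have := hdv _ _ (g2 (Ideal.pow_mem_pow hm M2))
    rwa [map_pow, map_natCast, ← map_natCast (algebraMap W (T ⧸ K))] at this
  · have := hdv _ _ (g1 (Ideal.pow_mem_pow hρ M1))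
    rwa [map_pow, map_natCast, ← map_natCast (algebraMap W (T ⧸ K))] at this

end Pool.Agent.Lib.MP_a37f0b_ag.Q4
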