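import Pool.Agent.Lib.MP_a37f0b_ag.Q4.Cut
import Pool.Agent.Lib.MP_a37f0b_ag.PopReg

/-! Regular surfaces and curves that are finite over a regular local ring. -/

open MvPolynomial IsLocalRing

namespace Pool.Agent.Lib.MP_a37f0b_ag.Q4

/-- A surface `F = 0` with a curve `g = 0` on it; the variable `X 0` is the uniformizer. -/
structure Br (R : Type) [CommRing R] [IsLocalRing R] (r : R) (s q : ℕ) where
  F : Fin (s + 1 + q) → MvPolynomial (Fin (s + 1)) R
  g : MvPolynomial (Fin (s + 1)) R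
  M : Ideal (MvPolynomial (Fin (s + 1)) R)
  max : M.IsMaximal
  lies : (maximalIdeal R).map C ≤ M
  gen : M = Ideal.span (Set.range F) ⊔ Ideal.span {g, X 0}
  loc : ∀ M' : Ideal (MvPolynomial (Fin (s + 1)) R), M'.IsMaximal →
    Ideal.span (Set.range F) ⊔ (maximalIdeal R).map C ≤ M' → M' = M
  lead : ∀ j, ∃ i L, 2 ≤ L ∧ (F i - X j ^ L).totalDegree < L
  rT : ∃ i c c', c ∉ M ∧ F i = X 0 * c' - C r * c

variable {R : Type} [CommRing R]

/-- Monic relations in every variable give finiteness. -/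
theorem fin_of_lead {σ : Type} [Finite σ] (J : Ideal (MvPolynomial σ R))
    (h : ∀ j, ∃ f ∈ J, ∃ L, (f - X j ^ L).totalDegree < L) :
    Module.Finite R (MvPolynomial σ R ⧸ J) := by
  classical
  have := Fintype.ofFinite σ
  choose f hf L hL using h
  let W : Submodule R (MvPolynomial σ R) :=
    restrictTotalDegree σ R (∑ j, L j) ⊔ J.restrictScalars R
  have key : ∀ n, ∀ p : MvPolynomial σ R, p.totalDegree < n → p ∈ W := by
    intro n
    induction n with
    | zero => intro p hp; exact absurd hp (Nat.not_lt_zero _)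
    | succ n ih =>
      intro p hp
      rw [p.as_sum]
      refine W.sum_mem fun m hm => ?_
      have h1 : (m.sum fun _ e => e) ≤ n := Nat.lt_succ_iff.1 ((le_totalDegree hm).trans_lt hp)
      by_cases h2 : ∀ j, m j ≤ L j
      · refine Submodule.mem_sup_left ((mem_restrictTotalDegree _ _ _).2
          ((totalDegree_monomial_le _ _).trans ?_))
        rw [Finsupp.sum_fintype _ _ (fun _ => rfl)]
        exact Finset.sum_le_sum fun j _ => h2 j
      · push Not at h2
        obtain ⟨j, hj⟩ := h2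
        have h3 : Finsupp.single j (L j) ≤ m := Finsupp.single_le_iff.2 hj.le
        obtain ⟨m', rfl⟩ := exists_add_of_le h3
        have h4 : (monomial (Finsupp.single j (L j) + m') (coeff (Finsupp.single j (L j) + m') p) :
            MvPolynomial σ R) = monomial m' (coeff (Finsupp.single j (L j) + m') p) * f j -
            monomial m' (coeff (Finsupp.single j (L j) + m') p) * (f j - X j ^ L j) := by
          rw [← mul_sub, sub_sub_cancel, X_pow_eq_monomial, monomial_mul, mul_one, add_comm]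
        rw [h4]
        refine W.sub_mem (Submodule.mem_sup_right (J.mul_mem_left _ (hf j))) (ih _ ?_)
        rw [Finsupp.sum_add_index' (fun _ => rfl) (fun _ _ _ => rfl),
          Finsupp.sum_single_index rfl] at h1
        have h5 := totalDegree_mul (monomial m' (coeff (Finsupp.single j (L j) + m') p))
          (f j - X j ^ L j)
        have h6 := totalDegree_monomial_le m' (coeff (Finsupp.single j (L j) + m') p)
        have h7 := hL j
        have h8 : (m'.sum fun _ => id) = m'.sum fun _ e => e := rfl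
        omega
  refine Module.Finite.of_surjective ((Ideal.Quotient.mkₐ R J).toLinearMap ∘ₗ
    (restrictTotalDegree σ R (∑ j, L j)).subtype) fun y => ?_
  obtain ⟨p, rfl⟩ := Ideal.Quotient.mk_surjective y
  obtain ⟨a, ha, b, hb, e⟩ := Submodule.mem_sup.1 (key _ p (Nat.lt_succ_self _))
  refine ⟨⟨a, ha⟩, ?_⟩
  change Ideal.Quotient.mk J a = _
  rw [← e, map_add, Ideal.Quotient.eq_zero_iff_mem.2 (show b ∈ J from hb), add_zero]

theorem br_lies [IsLocalRing R] {σ : Type} {J M' : Ideal (MvPolynomial σ R)}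
    (hf : Module.Finite R (MvPolynomial σ R ⧸ J)) (h : M'.IsMaximal) (h' : J ≤ M') :
    (maximalIdeal R).map C ≤ M' := by
  have h1 : (M'.map (Ideal.Quotient.mk J)).IsMaximal :=
    Ideal.IsMaximal.map_of_surjective_of_ker_le Ideal.Quotient.mk_surjective
      (by rwa [Ideal.mk_ker])
  have h2 := Ideal.isMaximal_comap_of_isIntegral_of_isMaximal (R := R)
    (M'.map (Ideal.Quotient.mk J))
  rw [Ideal.map_le_iff_le_comap, ← eq_maximalIdeal h2]
  intro a ha
  have h3 : C a ∈ (M'.map (Ideal.Quotient.mk J)).comap (Ideal.Quotient.mk J) := ha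
  rwa [Ideal.comap_map_of_surjective _ Ideal.Quotient.mk_surjective, ← RingHom.ker_eq_comap_bot,
    Ideal.mk_ker, sup_eq_left.2 h'] at h3

theorem br_ht [IsNoetherianRing R] (n : ℕ) : ∀ M : Ideal (MvPolynomial (Fin n) R), M.IsMaximal →
    ((Ideal.Quotient.mk M).comp C).IsIntegral → (M.comap C).height + n ≤ M.height := by
  induction n with
  | zero =>
    intro M _ _
    have h := RingEquiv.height_comap (isEmptyRingEquiv R (Fin 0)).symm M
    have e : M.comap (isEmptyRingEquiv R (Fin 0)).symm = M.comap C := by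
      ext a
      rw [Ideal.mem_comap, Ideal.mem_comap, isEmptyRingEquiv_symm_apply]
    rw [← h, e, Nat.cast_zero, add_zero]
  | succ n ih =>
    intro M hM hi
    let e := (finSuccEquiv R n).symm.toRingEquiv
    let φ : MvPolynomial (Fin n) R →+* MvPolynomial (Fin (n + 1)) R ⧸ M :=
      (Ideal.Quotient.mk M).comp (e.toRingHom.comp Polynomial.C)
    have hC : ∀ a : R, e (Polynomial.C (C a)) = C a := fun a =>
      (finSuccEquiv R n).symm.commutes a
    have h1 : φ.comp C = (Ideal.Quotient.mk M).comp C :=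
      RingHom.ext fun a => congrArg (Ideal.Quotient.mk M) (hC a)
    have h2 : (M.comap e).under (MvPolynomial (Fin n) R) = RingHom.ker φ := by
      ext a
      rw [RingHom.mem_ker]
      exact (Ideal.Quotient.eq_zero_iff_mem (I := M)).symm
    have h3 : (RingHom.ker φ).IsMaximal := by
      let _ := Ideal.Quotient.field M
      exact Ideal.isMaximal_comap_of_isIntegral_of_isMaximal' φ
        (RingHom.IsIntegral.tower_top C φ (h1 ▸ hi)) ⊥
    have h4 : ((Ideal.Quotient.mk (RingHom.ker φ)).comp C).IsIntegral :=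
      RingHom.IsIntegral.tower_bot _ φ.kerLift φ.kerLift_injective (by
        have : φ.kerLift.comp ((Ideal.Quotient.mk (RingHom.ker φ)).comp C) = φ.comp C :=
          RingHom.ext fun a => φ.kerLift_mk _
        rw [this, h1]; exact hi)
    have h5 := ih _ h3 h4
    have h6 : (RingHom.ker φ).comap C = M.comap C := by
      ext a
      rw [Ideal.mem_comap, Ideal.mem_comap, RingHom.mem_ker, ← Ideal.Quotient.eq_zero_iff_mem]
      exact (congrArg (· = 0) (RingHom.congr_fun h1 a)).to_iff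
    have h7 : (M.comap e).IsMaximal := Ideal.comap_isMaximal_of_equiv e
    have h8 := Polynomial.height_eq_height_add_one
      ((M.comap e).under (MvPolynomial (Fin n) R)) (M.comap e)
    rw [RingEquiv.height_comap, h2] at h8
    rw [h8, ← h6, Nat.cast_succ, ← add_assoc]
    gcongr

namespace Br

section

variable [IsLocalRing R] {r : R} {s q : ℕ} (B : Br R r s q)

/-- The ideal of the surface. -/
noncomputable def S : Ideal (MvPolynomial (Fin (s + 1)) R) := Ideal.span (Set.range B.F)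

/-- The ideal of the curve. -/
noncomputable def P : Ideal (MvPolynomial (Fin (s + 1)) R) := B.S ⊔ Ideal.span {B.g}

theorem fin : Module.Finite R (MvPolynomial (Fin (s + 1)) R ⧸ B.S) := by
  refine fin_of_lead _ fun j => ?_
  obtain ⟨i, L, -, h⟩ := B.lead j
  exact ⟨B.F i, Ideal.subset_span ⟨i, rfl⟩, L, h⟩

theorem eq_M {M' : Ideal (MvPolynomial (Fin (s + 1)) R)} (h : M'.IsMaximal) (h' : B.S ≤ M') :
    M' = B.M := by
  exact B.loc M' h (sup_le h' (br_lies B.fin h h'))

theorem unit {x : MvPolynomial (Fin (s + 1)) R} (h : x ∉ B.M) : B.S ⊔ Ideal.span {x} = ⊤ := by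
  by_contra h1
  obtain ⟨M', h2, h3⟩ := Ideal.exists_le_maximal _ h1
  exact h (B.eq_M h2 (le_sup_left.trans h3) ▸
    h3 (Ideal.mem_sup_right (Ideal.mem_span_singleton_self x)))

theorem br_SM : B.S ≤ B.M := B.gen ▸ le_sup_left

theorem br_gen : B.M = B.P ⊔ Ideal.span {X 0} := by
  rw [B.gen, Ideal.span_insert, ← sup_assoc]; rfl

theorem br_PM : B.P ≤ B.M := B.br_gen ▸ le_sup_left

theorem br_loc {J : Ideal (MvPolynomial (Fin (s + 1)) R)} (h1 : B.S ≤ J) (h2 : J ≤ B.M) :
    IsLocalRing (MvPolynomial (Fin (s + 1)) R ⧸ J) := by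
  have := Ideal.Quotient.nontrivial_iff.2 (ne_top_of_le_ne_top B.max.ne_top h2)
  have h3 : ∀ x ∉ B.M, IsUnit (Ideal.Quotient.mk J x) := fun x hx => by
    obtain ⟨a, ha, b, hb, e⟩ := Submodule.mem_sup.1 ((Ideal.eq_top_iff_one _).1 (B.unit hx))
    obtain ⟨c, rfl⟩ := Ideal.mem_span_singleton'.1 hb
    refine IsUnit.of_mul_eq_one (Ideal.Quotient.mk J c) ?_
    rw [← map_mul, mul_comm, ← map_one (Ideal.Quotient.mk J), ← e, map_add,
      Ideal.Quotient.eq_zero_iff_mem.2 (h1 ha), zero_add]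
  refine IsLocalRing.of_isUnit_or_isUnit_one_sub_self fun y => ?_
  obtain ⟨x, rfl⟩ := Ideal.Quotient.mk_surjective y
  by_cases hx : x ∈ B.M
  · refine Or.inr (h3 (1 - x) fun h => B.max.ne_top ((Ideal.eq_top_iff_one _).2 ?_))
    simpa using B.M.add_mem h hx
  · exact Or.inl (h3 x hx)

theorem br_max {J : Ideal (MvPolynomial (Fin (s + 1)) R)} (h2 : J ≤ B.M)
    [IsLocalRing (MvPolynomial (Fin (s + 1)) R ⧸ J)] :
    maximalIdeal (MvPolynomial (Fin (s + 1)) R ⧸ J) = B.M.map (Ideal.Quotient.mk J) :=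
  have := B.max
  (eq_maximalIdeal (Ideal.IsMaximal.map_of_surjective_of_ker_le Ideal.Quotient.mk_surjective
    (by rwa [Ideal.mk_ker]))).symm

theorem br_max' {J : Ideal (MvPolynomial (Fin (s + 1)) R)} {u : Set (MvPolynomial (Fin (s + 1)) R)}
    (h : B.M = J ⊔ Ideal.span u) [IsLocalRing (MvPolynomial (Fin (s + 1)) R ⧸ J)] :
    maximalIdeal (MvPolynomial (Fin (s + 1)) R ⧸ J) = Ideal.span (Ideal.Quotient.mk J '' u) := by
  rw [B.br_max (h ▸ le_sup_left), h, Ideal.map_sup, Ideal.map_quotient_self, bot_sup_eq,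
    Ideal.map_span]

theorem br_up {J : Ideal (MvPolynomial (Fin (s + 1)) R)} {u : Set (MvPolynomial (Fin (s + 1)) R)}
    (h : B.M = J ⊔ Ideal.span u) (hu : u.Finite) [IsLocalRing (MvPolynomial (Fin (s + 1)) R ⧸ J)] :
    (maximalIdeal (MvPolynomial (Fin (s + 1)) R ⧸ J)).spanFinrank ≤ u.ncard := by
  rw [B.br_max' h]
  exact (Submodule.spanFinrank_span_le_ncard_of_finite (hu.image _)).trans (Set.ncard_image_le hu)

theorem br_up2 [IsLocalRing (MvPolynomial (Fin (s + 1)) R ⧸ B.S)] :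
    (maximalIdeal (MvPolynomial (Fin (s + 1)) R ⧸ B.S)).spanFinrank ≤ 2 :=
  (B.br_up (J := B.S) B.gen (Set.toFinite _)).trans ((Set.ncard_insert_le _ _).trans (by simp))

theorem dim [IsNoetherianRing R] :
    ringKrullDim (MvPolynomial (Fin (s + 1)) R ⧸ B.S) ≤ (2 : ℕ) := by
  have := B.br_loc le_rfl B.br_SM
  exact (ringKrullDim_le_spanFinrank_maximalIdeal _).trans (by exact_mod_cast B.br_up2)

/-- Changing the surface and keeping the curve. -/
theorem pert [IsNoetherianRing R] (hr : r ∈ maximalIdeal R)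
    (ε : Fin (s + 1 + q) → MvPolynomial (Fin (s + 1)) R) (h1 : ∀ i, ε i ∈ B.P)
    (h2 : ∀ i, (ε i).totalDegree ≤ 1) :
    ∃ B' : Br R r s q, (∀ i, B'.F i = B.F i + C r * ε i) ∧ B'.g = B.g ∧ B'.M = B.M ∧
      B'.P = B.P := by
  have hrM : (C r : MvPolynomial (Fin (s + 1)) R) ∈ (maximalIdeal R).map C :=
    Ideal.mem_map_of_mem _ hr
  let S' : Ideal (MvPolynomial (Fin (s + 1)) R) := Ideal.span (Set.range fun i => B.F i + C r * ε i)
  have hlead : ∀ j, ∃ i L, 2 ≤ L ∧ (B.F i + C r * ε i - X j ^ L).totalDegree < L := fun j => by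
    obtain ⟨i, L, h3, h4⟩ := B.lead j
    refine ⟨i, L, h3, ?_⟩
    rw [add_sub_right_comm]
    refine (totalDegree_add _ _).trans_lt (max_lt h4 ((totalDegree_mul _ _).trans_lt ?_))
    have := h2 i
    rw [totalDegree_C]
    omega
  have hloc : ∀ M' : Ideal (MvPolynomial (Fin (s + 1)) R), M'.IsMaximal →
      S' ⊔ (maximalIdeal R).map C ≤ M' → M' = B.M := fun M' h3 h4 => by
    refine B.loc M' h3 (sup_le (Ideal.span_le.2 ?_) (le_sup_right.trans h4))
    rintro _ ⟨i, rfl⟩
    have h5 : B.F i + C r * ε i ∈ M' := h4 (Ideal.mem_sup_left (Ideal.subset_span ⟨i, rfl⟩))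
    simpa using M'.sub_mem h5 (M'.mul_mem_right (ε i) (h4 (Ideal.mem_sup_right hrM)))
  have hfin : Module.Finite R (MvPolynomial (Fin (s + 1)) R ⧸ S') := fin_of_lead _ fun j => by
    obtain ⟨i, L, -, h⟩ := hlead j
    exact ⟨_, Ideal.subset_span ⟨i, rfl⟩, L, h⟩
  have hP : S' ⊔ Ideal.span {B.g} = B.P := by
    refine le_antisymm (sup_le (Ideal.span_le.2 ?_) le_sup_right) ?_
    · rintro _ ⟨i, rfl⟩
      exact B.P.add_mem (Ideal.mem_sup_left (Ideal.subset_span ⟨i, rfl⟩))
        (B.P.mul_mem_left _ (h1 i))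
    obtain ⟨u, hu, h3⟩ := Submodule.exists_sub_one_mem_and_smul_le_of_fg_of_le_sup
      (I := (maximalIdeal R).map C) (N := S' ⊔ Ideal.span {B.g}) (N' := B.P) (P := B.P)
      B.P.fg_of_isNoetherianRing le_rfl (sup_le (Ideal.span_le.2 (by
        rintro _ ⟨i, rfl⟩
        have h5 : B.F i + C r * ε i ∈ S' := Ideal.subset_span ⟨i, rfl⟩
        simpa using Ideal.sub_mem _ (Ideal.mem_sup_left (Ideal.mem_sup_left h5))
          (Ideal.mem_sup_right (Ideal.mul_mem_mul hrM (h1 i)))))
        (le_sup_right.trans le_sup_left))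
    have h4 : S' ⊔ Ideal.span {u} = ⊤ := by
      by_contra h5
      obtain ⟨M', h6, h7⟩ := Ideal.exists_le_maximal _ h5
      have h8 := br_lies hfin h6 (le_sup_left.trans h7)
      refine h6.ne_top ((Ideal.eq_top_iff_one _).2 ?_)
      simpa using M'.sub_mem (h7 (Ideal.mem_sup_right (Ideal.mem_span_singleton_self u))) (h8 hu)
    obtain ⟨a, ha, b, hb, e⟩ := Submodule.mem_sup.1 ((Ideal.eq_top_iff_one _).1 h4)
    obtain ⟨c, rfl⟩ := Ideal.mem_span_singleton'.1 hb
    intro x hx
    have h5 : u * x ∈ S' ⊔ Ideal.span {B.g} := h3 (Submodule.smul_mem_pointwise_smul x u _ hx)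
    have h6 : x = a * x + c * (u * x) := by rw [← mul_assoc, ← add_mul, e, one_mul]
    rw [h6]
    exact Ideal.add_mem _ (Ideal.mem_sup_left (S'.mul_mem_right _ ha)) (Ideal.mul_mem_left _ _ h5)
  refine ⟨⟨fun i => B.F i + C r * ε i, B.g, B.M, B.max, B.lies, ?_, hloc, hlead, ?_⟩,
    fun _ => rfl, rfl, rfl, hP⟩
  · rw [B.br_gen, ← hP, Ideal.span_insert, ← sup_assoc]
  · obtain ⟨i, c, c', h3, h4⟩ := B.rT
    refine ⟨i, c - ε i, c', fun h => h3 ?_, ?_⟩
    · simpa using B.M.add_mem h (B.br_PM (h1 i))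
    · rw [h4]; ring

end

variable [IsRegularLocalRing R] {r : R} {s q : ℕ} (B : Br R r s q)

theorem br_low (hd : ringKrullDim R = (q + 2 : ℕ)) {t : Set (MvPolynomial (Fin (s + 1)) R)}
    (ht : t ⊆ B.M) {a b : ℕ} (hab : a + b = 2) (h : t.encard ≤ (s + 1 + q + a : ℕ)) :
    (b : WithBot ℕ∞) ≤ ringKrullDim (MvPolynomial (Fin (s + 1)) R ⧸ Ideal.span t) := by
  have := B.max
  have h1 : Module.Finite R (MvPolynomial (Fin (s + 1)) R ⧸ B.M) :=
    have := B.fin
    Module.Finite.of_surjective (Ideal.Quotient.factorₐ R B.br_SM).toLinearMap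
      (Ideal.Quotient.factor_surjective B.br_SM)
  have h2 := br_ht (s + 1) B.M B.max
    (fun y => (Algebra.IsIntegral.of_finite R _).isIntegral y)
  have h3 : B.M.comap C = maximalIdeal R :=
    ((maximalIdeal.isMaximal R).eq_of_le (Ideal.comap_ne_top _ B.max.ne_top)
      (Ideal.map_le_iff_le_comap.1 B.lies)).symm
  have h4 : (maximalIdeal R).height = (q + 2 : ℕ) := by
    have := maximalIdeal_height_eq_ringKrullDim (R := R)
    rw [hd] at this
    exact WithBot.coe_injective this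
  rw [h3, h4] at h2
  have h5 := Ideal.height_le_height_add_encard_of_subset t ht
  have h6 : (B.M.map (Ideal.Quotient.mk (Ideal.span t))).IsMaximal :=
    Ideal.IsMaximal.map_of_surjective_of_ker_le Ideal.Quotient.mk_surjective
      (by rwa [Ideal.mk_ker, Ideal.span_le])
  refine le_trans ?_ (Ideal.height_le_ringKrullDim_of_ne_top h6.ne_top)
  have h7 : ((b + (s + 1 + q + a) : ℕ) : ℕ∞) ≤
      (B.M.map (Ideal.Quotient.mk (Ideal.span t))).height + (s + 1 + q + a : ℕ) := by
    refine le_trans ?_ (h2.trans (h5.trans (by gcongr)))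
    rw [← Nat.cast_add]
    exact Nat.cast_le.2 (by omega)
  rw [Nat.cast_add b] at h7
  exact_mod_cast (ENat.add_le_add_iff_right (ENat.natCast_ne_top _)).1 h7

theorem br_card : (Set.range B.F).encard ≤ (s + 1 + q : ℕ) := by
  rw [← Set.image_univ]
  refine (Set.encard_image_le _ _).trans ?_
  simp

theorem br_dimS (hd : ringKrullDim R = (q + 2 : ℕ)) :
    ((2 : ℕ) : WithBot ℕ∞) ≤ ringKrullDim (MvPolynomial (Fin (s + 1)) R ⧸ B.S) :=
  B.br_low hd (Ideal.span_le.1 B.br_SM) (a := 0) rfl B.br_card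

theorem br_dimP (hd : ringKrullDim R = (q + 2 : ℕ)) :
    ((1 : ℕ) : WithBot ℕ∞) ≤ ringKrullDim (MvPolynomial (Fin (s + 1)) R ⧸ B.P) := by
  have e : B.P = Ideal.span (Set.range B.F ∪ {B.g}) := (Ideal.span_union _ _).symm
  have h := B.br_PM
  rw [e] at h ⊢
  refine B.br_low hd (Ideal.span_le.1 h) (a := 1) rfl ((Set.encard_union_le _ _).trans ?_)
  rw [Set.encard_singleton, Nat.cast_succ]
  gcongr
  exact B.br_card

theorem reg (hd : ringKrullDim R = (q + 2 : ℕ)) :
    B.S.IsPrime ∧ B.g ∉ B.S ∧ B.P.IsPrime ∧ X 0 ∉ B.P := by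
  have h1 := B.br_loc le_rfl B.br_SM
  have h2 := B.br_loc (J := B.P) le_sup_left B.br_PM
  have h3 := B.br_up B.br_gen (Set.toFinite _)
  rw [Set.ncard_singleton] at h3
  have h4 : IsRegularLocalRing (MvPolynomial (Fin (s + 1)) R ⧸ B.S) :=
    IsRegularLocalRing.of_spanFinrank_maximalIdeal_le _
      (le_trans (by exact_mod_cast B.br_up2) (B.br_dimS hd))
  have h5 : IsRegularLocalRing (MvPolynomial (Fin (s + 1)) R ⧸ B.P) :=
    IsRegularLocalRing.of_spanFinrank_maximalIdeal_le _
      (le_trans (by exact_mod_cast h3) (B.br_dimP hd))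
  refine ⟨(Ideal.Quotient.isDomain_iff_prime _).1 Pop.reg_domain, fun h => ?_,
    (Ideal.Quotient.isDomain_iff_prime _).1 Pop.reg_domain, fun h => ?_⟩
  · have e : B.M = B.S ⊔ Ideal.span {X 0} := by
      rw [B.br_gen, P, sup_eq_left.2 ((Ideal.span_singleton_le_iff_mem _).2 h)]
    have h6 := B.br_up e (Set.toFinite _)
    rw [Set.ncard_singleton] at h6
    have h7 := (B.br_dimS hd).trans (ringKrullDim_le_spanFinrank_maximalIdeal _)
    have h8 : 2 ≤ (maximalIdeal (MvPolynomial (Fin (s + 1)) R ⧸ B.S)).spanFinrank := by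
      exact_mod_cast h7
    omega
  · have e : B.M = B.P ⊔ Ideal.span ∅ := by
      rw [B.br_gen, sup_eq_left.2 ((Ideal.span_singleton_le_iff_mem _).2 h), Ideal.span_empty,
        sup_bot_eq]
    have h6 := B.br_up e Set.finite_empty
    rw [Set.ncard_empty] at h6
    have h7 := (B.br_dimP hd).trans (ringKrullDim_le_spanFinrank_maximalIdeal _)
    have h8 : 1 ≤ (maximalIdeal (MvPolynomial (Fin (s + 1)) R ⧸ B.P)).spanFinrank := by
      exact_mod_cast h7
    omega

theorem val (hd : ringKrullDim R = (q + 2 : ℕ)) {x : MvPolynomial (Fin (s + 1)) R}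
    (hx : x ∉ B.P) : ∃ u ∉ B.M, ∃ j : ℕ, x - u * X 0 ^ j ∈ B.P := by
  have h1 := (B.reg hd).2.2.1
  have h2 := B.br_loc (J := B.P) le_sup_left B.br_PM
  have h3 := B.br_max' B.br_gen
  rw [Set.image_singleton] at h3
  have h4 : ¬ IsUnit (Ideal.Quotient.mk B.P (X 0)) :=
    (mem_maximalIdeal _).1 (h3 ▸ Ideal.mem_span_singleton_self _)
  obtain ⟨j, a, h5, h6⟩ := WfDvdMonoid.max_power_factor'
    (mt Ideal.Quotient.eq_zero_iff_mem.1 hx) h4
  obtain ⟨u, rfl⟩ := Ideal.Quotient.mk_surjective a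
  refine ⟨u, fun h => h5 ?_, j, ?_⟩
  · rw [← Ideal.mem_span_singleton, ← h3, B.br_max B.br_PM]
    exact Ideal.mem_map_of_mem _ h
  · rw [← Ideal.Quotient.eq, h6, map_mul, map_pow, mul_comm]

end Br

end Pool.Agent.Lib.MP_a37f0b_ag.Q4
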