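import Pool.Agent.Lib.MP_a37f0b_ag.Q4.Imm

/-! General position: cutting the incidence schemes of secants and tangents. -/

open MvPolynomial IsLocalRing

namespace Pool.Agent.Lib.MP_a37f0b_ag.Q4

variable {R D : Type} [CommRing R] [CommRing D]

theorem gn_cut [IsLocalRing R] [IsNoetherianRing D] {r : R} (hr : r ∈ maximalIdeal R)
    (α : R →+* D) (hu : IsUnit (α r)) {I E : Ideal D} {h N m : ℕ} (H : HT I E h) (f : Fin N → D)
    (e : Fin m → D) (hE : E ≤ Ideal.span (Set.range e)) :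
    Ev N fun κ => HT (I ⊔ Ideal.span (Set.range fun i =>
      f i + ∑ l, (α r ^ κ i) ^ (l.1 + 1) * (α r * e l))) E (h + N) := by
  refine H.cut (fun i k => f i + ∑ l, (α r ^ k) ^ (l.1 + 1) * (α r * e l)) fun i P hP hn => ?_
  have un : ∀ y, IsUnit y → y ∉ P := fun y hy h => hP.ne_top (P.eq_top_of_isUnit_mem h hy)
  refine fin_bad _ _ _ hP (un _ hu) (fun k hk => un _ ?_) ?_
  · simpa using (isUnit_one_sub_self_of_mem_nonunits _
      ((maximalIdeal R).pow_mem_of_mem hr k hk)).map α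
  · by_contra hc
    push Not at hc
    exact hn (hE.trans (Ideal.span_le.2 (Set.range_subset_iff.2 fun l =>
      (hP.mem_or_mem (hc l)).resolve_left (un _ hu))))

theorem gn_dim [IsNoetherianRing D] {d : ℕ} (h : ringKrullDim D ≤ d) (ι : Type) [Finite ι] {n : ℕ}
    (hn : d + Nat.card ι < n) : ringKrullDim (MvPolynomial ι D) < n := by
  rw [MvPolynomial.ringKrullDim_of_isNoetherianRing]
  refine lt_of_le_of_lt (add_le_add_left h _) ?_
  exact_mod_cast hn

theorem gn_one [IsDomain D] [IsNoetherianRing D] {ι : Type} [Finite ι] (j : ι)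
    (E : Ideal (MvPolynomial ι D)) : HT (⊥ ⊔ Ideal.span {X j - 1}) E (0 + 1) := by
  refine (HT.zero ⊥ E).succ fun P hP _ h => ?_
  rw [Ideal.minimalPrimes_eq_subsingleton_self, Set.mem_singleton_iff] at hP
  rw [hP, Ideal.mem_bot] at h
  simpa using congrArg constantCoeff h

/-- The perturbation. -/
noncomputable def gnE {s m : ℕ} (r c : R) (b : Fin s → R) (w : Fin m → R) (k k' : ℕ) :
    MvPolynomial (Fin s) R :=
  ∑ j, C ((r ^ k) ^ (j.1 + 1)) * (C c * X j + C (b j)) + C (∑ l, (r ^ k') ^ (l.1 + 1) * w l)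

section
variable {s m : ℕ} (r c : R) (b : Fin s → R) (w : Fin m → R) (k k' : ℕ) (α : R →+* D)
  (x v : Fin s → D) (τ : D) (F : MvPolynomial (Fin s) R)

theorem gnE_ev : eval₂ α x (F + C r * gnE r c b w k k') =
    (eval₂ α x F + ∑ j, (α r ^ k) ^ (j.1 + 1) * (α r * (α c * x j + α (b j)))) +
      ∑ l, (α r ^ k') ^ (l.1 + 1) * (α r * α (w l)) := by
  simp only [gnE, eval₂_add, eval₂_mul, eval₂_C, eval₂_sum, eval₂_X, map_sum α, map_mul α,
    map_pow α, mul_add, Finset.mul_sum, add_assoc, mul_left_comm (α r)]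

theorem gnE_dd : dd α x v τ (F + C r * gnE r c b w k k') =
    dd α x v τ F + ∑ j, (α r ^ k) ^ (j.1 + 1) * (α r * (α c * v j)) := by
  have h := map_sum (AddMonoidHom.mk' (dd α x v τ) (dd_add α x v τ))
    (fun j : Fin s => C ((r ^ k) ^ (j.1 + 1)) * (C c * X j + C (b j))) Finset.univ
  simp only [AddMonoidHom.mk'_apply] at h
  simp only [gnE, dd_add, dd_C_mul, dd_C, dd_X, h, map_pow α, add_zero, Finset.mul_sum,
    mul_left_comm (α r)]

theorem gnE_deg [Nontrivial R] : (gnE r c b w k k').totalDegree ≤ 1 := by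
  refine (totalDegree_add _ _).trans (max_le (totalDegree_finsetSum_le fun j _ => ?_) (by
    rw [totalDegree_C]; exact zero_le_one))
  refine (totalDegree_mul _ _).trans ?_
  rw [totalDegree_C, zero_add]
  refine (totalDegree_add _ _).trans (max_le ((totalDegree_mul _ _).trans ?_) ?_) <;>
    simp [totalDegree_C, totalDegree_X]

variable {Ω : Type} [CommRing Ω] (ψ : D →+* Ω) {α x v τ} {β : R →+* Ω} {x' v' : Fin s → Ω} {τ' : Ω}

theorem gn_ev (h1 : ψ.comp α = β) (h2 : ∀ l, ψ (x l) = x' l) : ψ (eval₂ α x F) = eval₂ β x' F := by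
  rw [eval₂_comp_left, h1, show ψ ∘ x = x' from funext h2]

theorem gn_dd (h1 : ψ.comp α = β) (h2 : ∀ l, ψ (x l) = x' l) (h3 : ∀ l, ψ (v l) = v' l)
    (h4 : ψ τ = τ') : ψ (dd α x v τ F) = dd β x' v' τ' F := by
  rw [dd_nat, h1, show ψ ∘ x = x' from funext h2, show ψ ∘ v = v' from funext h3, h4]

end

theorem gn_unit {m : ℕ} {u : D} (hu : IsUnit u) (v : Fin m → D) (j : Fin m) :
    Ideal.span {v j} ≤ Ideal.span (Set.range fun l => u * v l) :=
  (Ideal.span_singleton_le_iff_mem _).2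
    ((Ideal.unit_mul_mem_iff_mem _ hu).1 (Ideal.subset_span ⟨j, rfl⟩))

theorem gn_v {Ω : Type} [CommRing Ω] (ψ : D →+* Ω) {y : D} (h : ψ y = 1) :
    ⊥ ⊔ Ideal.span {y - 1} ≤ RingHom.ker ψ :=
  sup_le bot_le ((Ideal.span_singleton_le_iff_mem _).2 (by simp [h]))

theorem gn_span {Ω κ : Type} [CommRing Ω] (ψ : D →+* Ω) {f : κ → D} (h : ∀ i, ψ (f i) = 0) :
    Ideal.span (Set.range f) ≤ RingHom.ker ψ := Ideal.span_le.2 (Set.range_subset_iff.2 h)

section
variable [IsLocalRing R] {A : Type} [CommRing A] [IsNoetherianRing A] (α : R →+* A) {r c : R}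
  (hr : r ∈ maximalIdeal R) (hu : IsUnit (α r)) {s q m : ℕ}
  (F : Fin (s + q) → MvPolynomial (Fin s) R) (b : Fin s → R) (w : Fin m → R)
include hr hu

/-- no tangent vector or secant at a fixed point of the closed fibre -/
theorem gn_fb [IsDomain A] (hc : IsUnit (α c)) (hq : 2 ≤ q) (hd : ringKrullDim A ≤ (0 : ℕ))
    (θ : Fin s → A) (j : Fin s) : Ev (s + q) fun κ => ∀ (κ' : Fin (s + q) → ℕ) (Ω : Type) [Field Ω]
      (φ : A →+* Ω) (v : Fin s → Ω) (τ : Ω), v j = 1 → ¬ ∀ i, dd (φ.comp α) (fun l => φ (θ l)) v τ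
        (F i + C r * gnE r c b w (κ i) (κ' i)) = 0 := by
  let β : R →+* MvPolynomial (Option (Fin s)) A := C.comp α
  refine (gn_cut hr β (hu.map C) (gn_one (some j) (Ideal.span {X (some j)}))
    (fun i => dd β (fun l => C (θ l)) (fun l => X (some l)) (X none) (F i))
    (fun l => β c * X (some l)) (gn_unit (hc.map C) (fun l => X (some l)) j)).mono
    fun κ H κ' Ω _ φ v τ hv h2 => ?_
  let ψ := eval₂Hom φ fun o : Option (Fin s) => o.elim τ v
  have k := H.le (gn_dim hd _ (by simp; omega)) (RingHom.ker_isPrime ψ)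
    (sup_le (gn_v ψ (by simp [ψ, hv])) (gn_span ψ fun i => by
      rw [← gnE_dd r c b w (κ i) (κ' i)]
      exact (gn_dd _ ψ (by ext a; simp [ψ, β]) (by simp [ψ]) (by simp [ψ])
        (by simp [ψ])).trans (h2 i)))
  simpa [ψ, hv] using k (Ideal.mem_span_singleton_self _)

/-- one point on the closed fibre -/
theorem gn_fa (hq : 2 ≤ q) (hd : ringKrullDim A ≤ (0 : ℕ)) (hw : ∀ l, α (w l) = 0) :
    Ev (s + q) fun κ => ∀ (κ' : Fin (s + q) → ℕ) (Ω : Type) [Field Ω] (φ : A →+* Ω)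
      (x : Fin s → Ω), (∀ i, eval₂ (φ.comp α) x (F i + C r * gnE r c b w (κ i) (κ' i)) = 0) →
      ∀ l, φ (α c) * x l + φ (α (b l)) = 0 := by
  let β : R →+* MvPolynomial (Fin s) A := C.comp α
  refine (gn_cut hr β (hu.map C) (HT.zero ⊥ _) (fun i => eval₂ β X (F i))
    (fun l => β c * X l + β (b l)) le_rfl).mono fun κ H κ' Ω _ φ x h1 l => ?_
  have w0 : ∀ l, β (w l) = 0 := fun l => by simp [β, hw]
  have k := H.le (gn_dim hd _ (by simp; omega)) (RingHom.ker_isPrime (eval₂Hom φ x))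
    (sup_le bot_le (gn_span _ fun i => by
      have e := gnE_ev r c b w (κ i) (κ' i) β X (F i)
      simp only [w0, mul_zero, Finset.sum_const_zero, add_zero] at e
      rw [← e]
      exact (gn_ev _ (eval₂Hom φ x) (by ext a; simp [β]) (by simp)).trans (h1 i)))
  simpa [β] using k (Ideal.subset_span ⟨l, rfl⟩)

/-- missing a curve -/
theorem gn_fj (hq : 2 ≤ q) (hd : ringKrullDim A ≤ (1 : ℕ))
    (hw : Ideal.span (Set.range fun l => α (w l)) = ⊤) (κ : Fin (s + q) → ℕ) :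
    Ev (s + q) fun κ' => ∀ (Ω : Type) [Field Ω] (φ : A →+* Ω) (x : Fin s → Ω),
      ¬ ∀ i, eval₂ (φ.comp α) x (F i + C r * gnE r c b w (κ i) (κ' i)) = 0 := by
  let β : R →+* MvPolynomial (Fin s) A := C.comp α
  refine (gn_cut hr β (hu.map C) (HT.zero ⊥ ⊤)
    (fun i => eval₂ β X (F i) + ∑ l, (β r ^ κ i) ^ (l.1 + 1) * (β r * (β c * X l + β (b l))))
    (fun l => β (w l)) ?_).mono fun κ' H Ω _ φ x h1 => ?_
  · rw [← Ideal.map_top (C : A →+* MvPolynomial (Fin s) A), ← hw, Ideal.map_span,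
      ← Set.range_comp]
    exact le_rfl
  · have k := H.le (gn_dim hd _ (by simp; omega)) (RingHom.ker_isPrime (eval₂Hom φ x))
      (sup_le bot_le (gn_span _ fun i => by
        rw [← gnE_ev r c b w (κ i) (κ' i)]
        exact (gn_ev _ (eval₂Hom φ x) (by ext a; simp [β]) (by simp)).trans (h1 i)))
    simpa using k (Submodule.mem_top (x := 1))

/-- secants and tangent vectors lie over the closed fibre -/
theorem gn_fd [IsDomain A] (hc : IsUnit (α c)) (hq : 2 ≤ q) (hd : ringKrullDim A ≤ (q + 1 : ℕ))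
    (j : Fin s) : Ev (s + q) fun κ => Ev (s + q) fun κ' => ∀ (Ω : Type) [Field Ω] (φ : A →+* Ω)
      (x v : Fin s → Ω) (τ : Ω), v j = 1 →
      (∀ i, eval₂ (φ.comp α) x (F i + C r * gnE r c b w (κ i) (κ' i)) = 0) →
      (∀ i, dd (φ.comp α) x v τ (F i + C r * gnE r c b w (κ i) (κ' i)) = 0) →
      ∀ l, φ (α (w l)) = 0 := by
  let β : R →+* MvPolynomial (Fin s ⊕ Option (Fin s)) A := C.comp α
  let xx : Fin s → MvPolynomial (Fin s ⊕ Option (Fin s)) A := fun l => X (.inl l)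
  let vv : Fin s → MvPolynomial (Fin s ⊕ Option (Fin s)) A := fun l => X (.inr (some l))
  have hβ : IsUnit (β r) := hu.map C
  refine (gn_cut hr β hβ (gn_one (.inr (some j)) (Ideal.span {vv j}))
    (fun i => dd β xx vv (X (.inr none)) (F i)) (fun l => β c * vv l)
    (gn_unit (u := β c) (hc.map C) vv j)).mono fun κ H => ?_
  refine (gn_cut hr β hβ
    (H.mono le_rfl (inf_le_left (b := Ideal.span (Set.range fun l => β (w l)))) le_rfl)
    (fun i => eval₂ β xx (F i) + ∑ l, (β r ^ κ i) ^ (l.1 + 1) * (β r * (β c * xx l + β (b l))))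
    (fun l => β (w l)) inf_le_right).mono fun κ' H' Ω _ φ x v τ hv h1 h2 l => ?_
  let ψ := eval₂Hom φ (Sum.elim x fun o : Option (Fin s) => o.elim τ v)
  have e0 : ψ.comp β = φ.comp α := by ext a; simp [ψ, β]
  have k := H'.le (gn_dim hd _ (by simp; omega)) (RingHom.ker_isPrime ψ)
    (sup_le (sup_le (gn_v ψ (by simp [ψ, hv])) (gn_span ψ fun i => by
      rw [← gnE_dd r c b w (κ i) (κ' i)]
      exact (gn_dd _ ψ e0 (by simp [ψ, xx]) (by simp [ψ, vv]) (by simp [ψ])).trans (h2 i)))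
      (gn_span ψ fun i => by
        rw [← gnE_ev r c b w (κ i) (κ' i)]
        exact (gn_ev _ ψ e0 (by simp [ψ, xx])).trans (h1 i)))
  simpa [ψ, β, vv, hv] using k (Ideal.mul_le_inf (Ideal.mul_mem_mul
    (Ideal.mem_span_singleton_self _) (Ideal.subset_span ⟨l, rfl⟩)))

theorem gn_core [IsDomain A] (hc : IsUnit (α c)) (hq : 2 ≤ q)
    (hd : ringKrullDim A ≤ (q + 1 : ℕ)) {n J : Ideal A}
    (hw : n = Ideal.span (Set.range fun l => α (w l))) (hn : n.IsMaximal)
    (hJ : ringKrullDim (A ⧸ J) ≤ (1 : ℕ)) (hJn : J ⊔ n = ⊤) :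
    ∃ κ κ' : Fin (s + q) → ℕ,
      (∀ (Ω : Type) [Field Ω] (φ : A →+* Ω) (x v : Fin s → Ω) (τ : Ω) (j : Fin s), v j = 1 →
        (∀ i, eval₂ (φ.comp α) x (F i + C r * gnE r c b w (κ i) (κ' i)) = 0) →
          ¬ ∀ i, dd (φ.comp α) x v τ (F i + C r * gnE r c b w (κ i) (κ' i)) = 0) ∧
      ∀ (Ω : Type) [Field Ω] (φ : A →+* Ω) (x : Fin s → Ω), J ≤ RingHom.ker φ →
        ¬ ∀ i, eval₂ (φ.comp α) x (F i + C r * gnE r c b w (κ i) (κ' i)) = 0 := by
  obtain ⟨u, hcu⟩ := hc.exists_right_inv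
  have hK : ringKrullDim (A ⧸ n) ≤ (0 : ℕ) := (ringKrullDim_eq_zero_of_isField
    ((Ideal.Quotient.maximal_ideal_iff_isField_quotient n).1 hn)).le
  obtain ⟨κ, H1, H2, H3⟩ := ((Ev.all fun j => gn_fd α hr hu F b w hc hq hd j).and
    ((gn_fa (c := c) ((Ideal.Quotient.mk n).comp α) hr (hu.map (Ideal.Quotient.mk n)) F b w hq hK
      fun l =>
      Ideal.Quotient.eq_zero_iff_mem.2 (hw ▸ Ideal.subset_span ⟨l, rfl⟩)).and
    (Ev.all fun j => gn_fb (c := c) ((Ideal.Quotient.mk n).comp α) hr (hu.map (Ideal.Quotient.mk n)) F b w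
      (hc.map (Ideal.Quotient.mk n)) hq hK
      (fun l => Ideal.Quotient.mk n (-(u * α (b l)))) j))).exists
  obtain ⟨κ', H4, H5⟩ := ((Ev.all H1).and
    (gn_fj (c := c) ((Ideal.Quotient.mk J).comp α) hr (hu.map (Ideal.Quotient.mk J)) F b w hq hJ (by
      have h := congrArg (Ideal.map (Ideal.Quotient.mk J)) hJn
      rwa [Ideal.map_sup, Ideal.map_quotient_self, bot_sup_eq, Ideal.map_top, hw, Ideal.map_span,
        ← Set.range_comp] at h) κ)).exists
  refine ⟨κ, κ', fun Ω _ φ x v τ j hv h1 h2 => ?_, fun Ω _ φ x hφ h1 =>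
    H5 Ω (Ideal.Quotient.lift J φ hφ) x h1⟩
  have k2 : ∀ a ∈ n, φ a = 0 := hw ▸ gn_span φ (H4 j Ω φ x v τ hv h1 h2)
  have k3 := H2 κ' Ω (Ideal.Quotient.lift n φ k2) x h1
  refine H3 j κ' Ω (Ideal.Quotient.lift n φ k2) v τ hv ?_
  have e : (fun l => Ideal.Quotient.lift n φ k2 (Ideal.Quotient.mk n (-(u * α (b l))))) = x :=
    funext fun l => by
      have e : φ (α c) * x l + φ (α (b l)) = 0 := k3 l
      have e' : φ (α c) * φ u = 1 := by rw [← map_mul, hcu, map_one]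
      rw [Ideal.Quotient.lift_mk, map_neg, map_mul]
      linear_combination (-φ u) * e + x l * e'
  rw [e]
  exact h2

end

end Pool.Agent.Lib.MP_a37f0b_ag.Q4
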