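import Pool.Agent.Lib.MP_a37f0b_ag.Q4.Good
import Pool.Agent.Lib.MP_a37f0b_ag.Q4.Br
import Pool.Agent.Lib.MP_a37f0b_ag.Q4.GenA

/-! Surfaces in general position through a branch. -/

open MvPolynomial IsLocalRing

namespace Pool.Agent.Lib.MP_a37f0b_ag.Q4

namespace Br

variable {R : Type} [CommRing R] [IsRegularLocalRing R] {r ρ : R} {s q : ℕ} (B : Br R r s q)
  (A : Type) [CommRing A] [Algebra R A]

/-- The closed point of the localization given by the curve. -/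
noncomputable def n : Ideal A := (B.P.comap C).map (algebraMap R A)

/-- The curve is birational onto its image. -/
def Bir (ρ : R) : Prop :=
  C ρ ∉ B.P ∧ ∃ c : ℕ, ∀ j, ∃ b : R, C (ρ ^ c) * X j - C b ∈ B.P

variable [IsLocalization.Away ρ A]

theorem genb_unit {I : Ideal (MvPolynomial (Fin (s + 1)) R)} (hI : B.S ≤ I)
    {x : MvPolynomial (Fin (s + 1)) R} (hx : x ∉ B.M) : IsUnit (Ideal.Quotient.mk I x) := by
  obtain ⟨a, ha, b, hb, e⟩ := Submodule.mem_sup.1 ((Ideal.eq_top_iff_one _).1 (B.unit hx))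
  obtain ⟨c, rfl⟩ := Ideal.mem_span_singleton'.1 hb
  refine IsUnit.of_mul_eq_one_right (Ideal.Quotient.mk I c) ?_
  rw [← map_mul, ← map_one (Ideal.Quotient.mk I), ← e, map_add,
    Ideal.Quotient.eq_zero_iff_mem.2 (hI ha), zero_add]

theorem genb_bir (h : B.Bir ρ) (y : MvPolynomial (Fin (s + 1)) R) : ∃ (N : ℕ) (b : R),
    Ideal.Quotient.mk B.P (C ρ) ^ N * Ideal.Quotient.mk B.P y = Ideal.Quotient.mk B.P (C b) := by
  obtain ⟨-, c, hc⟩ := h
  induction y using MvPolynomial.induction_on with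
  | C a => exact ⟨0, a, by rw [pow_zero, one_mul]⟩
  | add p p' hp hp' =>
    obtain ⟨N, b, e⟩ := hp
    obtain ⟨N', b', e'⟩ := hp'
    refine ⟨N + N', ρ ^ N' * b + ρ ^ N * b', ?_⟩
    simp only [map_add, map_mul, map_pow, ← e, ← e']
    ring
  | mul_X p j hp =>
    obtain ⟨N, b, e⟩ := hp
    obtain ⟨b', e'⟩ := hc j
    rw [← Ideal.Quotient.eq, map_mul, map_pow, map_pow] at e'
    refine ⟨N + c, b * b', ?_⟩
    simp only [map_mul, ← e, ← e']
    ring

theorem genb_ev {A σ : Type} [CommRing A] {I : Ideal (MvPolynomial σ A)} {θ : σ → A}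
    (h : ∀ j, X j - C (θ j) ∈ I) (z : MvPolynomial σ A) : eval θ z ∈ I.comap C ↔ z ∈ I := by
  have : Ideal.Quotient.mk I (C (eval θ z)) = Ideal.Quotient.mk I z := by
    induction z using MvPolynomial.induction_on with
    | C a => rw [eval_C]
    | add p p' hp hp' => simp only [map_add, hp, hp']
    | mul_X p j hp => simp only [map_mul, hp, eval_X, Ideal.Quotient.eq.2 (h j)]
  rw [Ideal.mem_comap, ← Ideal.Quotient.eq_zero_iff_mem, this, Ideal.Quotient.eq_zero_iff_mem]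

theorem genb_span : B.S.map (map (algebraMap R A)) =
    Ideal.span (Set.range fun i => map (algebraMap R A) (B.F i)) := by
  rw [S, Ideal.map_span, ← Set.range_comp]
  rfl

theorem n_max (hd : ringKrullDim R = (q + 2 : ℕ)) (hr : r ∈ maximalIdeal R) (hρ : r ∣ ρ)
    (h : B.Bir ρ) : (B.n A).IsMaximal := by
  obtain ⟨-, -, hP, -⟩ := B.reg hd
  have hp : (B.P.comap (C : R →+* _)).IsPrime := Ideal.comap_isPrime _ _
  refine Ideal.isMaximal_iff.2 ⟨(Ideal.ne_top_iff_one _).1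
    (IsLocalization.isPrime_of_isPrime_disjoint (.powers ρ) A _ hp
      ((Ideal.disjoint_powers_iff_notMem ρ hp.isRadical).2 h.1)).ne_top, fun J a hJ ha haJ => ?_⟩
  obtain ⟨k, b, e⟩ := IsLocalization.Away.surj ρ a
  have hu := IsLocalization.Away.algebraMap_isUnit (S := A) ρ
  have hb : C b ∉ B.P := fun t => ha ((Ideal.mul_unit_mem_iff_mem _ (hu.pow k)).1
    (e ▸ Ideal.mem_map_of_mem _ t))
  obtain ⟨u, hu', j, e1⟩ := B.val hd hb
  obtain ⟨i, c, c', hc, e2⟩ := B.rT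
  obtain ⟨t, rfl⟩ := hρ
  obtain ⟨u', e3⟩ := (B.genb_unit (I := B.P) le_sup_left hu').exists_right_inv
  obtain ⟨c'', e4⟩ := (B.genb_unit (I := B.P) le_sup_left hc).exists_right_inv
  obtain ⟨y, hy⟩ := Ideal.Quotient.mk_surjective
    (u' * (Ideal.Quotient.mk B.P c' * c'' * Ideal.Quotient.mk B.P (C t)) ^ j)
  obtain ⟨N, b', e5⟩ := B.genb_bir h y
  have e6 : b * b' - (r * t) ^ (N + j) ∈ B.P.comap C := by
    have q : B.F i ∈ B.P := Ideal.mem_sup_left (Ideal.subset_span ⟨i, rfl⟩)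
    rw [e2, ← Ideal.Quotient.eq, map_mul, map_mul] at q
    rw [← Ideal.Quotient.eq, map_mul, map_pow] at e1
    rw [Ideal.mem_comap, map_sub, ← Ideal.Quotient.eq]
    simp only [map_mul, map_pow] at e5 ⊢
    rw [← e5, e1, hy, pow_add, mul_left_comm, mul_mul_mul_comm, e3, one_mul, ← mul_pow,
      ← mul_assoc, ← mul_assoc, q, mul_assoc _ _ c'', e4, mul_one]
  have e7 := hJ (Ideal.mem_map_of_mem (algebraMap R A) e6)
  rw [map_sub, map_mul, ← e, map_pow, Submodule.sub_mem_iff_right _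
    (J.mul_mem_right _ (J.mul_mem_right _ haJ))] at e7
  exact (J.eq_top_iff_one).1 (J.eq_top_of_isUnit_mem e7 (hu.pow _))

/-- General position. -/
theorem gen_pos (hq : 2 ≤ q) (hd : ringKrullDim R = (q + 2 : ℕ)) (hr : r ∈ maximalIdeal R)
    (hρ : r ∣ ρ) (h : B.Bir ρ) {J : Ideal A} (hJ : ringKrullDim (A ⧸ J) ≤ (1 : ℕ))
    (hn : J ⊔ B.n A = ⊤) :
    ∃ ε : Fin (s + 1 + q) → MvPolynomial (Fin (s + 1)) R, (∀ i, ε i ∈ B.P) ∧
      (∀ i, (ε i).totalDegree ≤ 1) ∧
      (∀ (Ω : Type) [Field Ω] (φ : A →+* Ω) (x v : Fin (s + 1) → Ω) (τ : Ω) (j : Fin (s + 1)),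
        v j = 1 → (∀ i, eval₂ (φ.comp (algebraMap R A)) x (B.F i + C r * ε i) = 0) →
          ¬ ∀ i, dd (φ.comp (algebraMap R A)) x v τ (B.F i + C r * ε i) = 0) ∧
      J.map C ⊔ Ideal.span (Set.range fun i => map (algebraMap R A) (B.F i + C r * ε i)) = ⊤ := by
  have := Pop.reg_domain (R := R)
  have h0 : ρ ≠ 0 := fun e => h.1 (by rw [e, C_0]; exact zero_mem _)
  have := IsLocalization.isDomain_of_le_nonZeroDivisors A
    (powers_le_nonZeroDivisors_of_noZeroDivisors h0)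
  have := IsLocalization.isNoetherianRing (.powers ρ) A inferInstance
  have hu := IsLocalization.Away.algebraMap_isUnit (S := A) ρ
  obtain ⟨c, hc⟩ := h.2
  choose b hb using hc
  obtain ⟨m, w, hw⟩ := Submodule.fg_iff_exists_fin_generating_family.1
    (IsNoetherian.noetherian (B.P.comap (C : R →+* _)))
  obtain ⟨κ, κ', H1, H2⟩ := gn_core (c := ρ ^ c) (algebraMap R A) hr
    (isUnit_of_dvd_unit (map_dvd _ hρ) hu) B.F (fun j => -b j) w (by rw [map_pow]; exact hu.pow c)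
    hq (dim_away (Ideal.mem_of_dvd _ hρ hr) hd.le)
    (by rw [n, ← hw]; exact (Ideal.map_span _ _).trans (by rw [← Set.range_comp]; rfl))
    (B.n_max A hd hr hρ h) hJ hn
  refine ⟨fun i => gnE r (ρ ^ c) (fun j => -b j) w (κ i) (κ' i), fun i =>
    add_mem (Ideal.sum_mem _ fun j _ => Ideal.mul_mem_left _ _ ?_) ?_,
    fun i => gnE_deg _ _ _ _ _ _, H1, ?_⟩
  · rw [C_neg, ← sub_eq_add_neg]
    exact hb j
  · exact (Ideal.sum_mem (B.P.comap C) fun l _ => Ideal.mul_mem_left _ _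
      (hw.le (Submodule.subset_span ⟨l, rfl⟩)) :)
  · by_contra t
    obtain ⟨M, hM, t⟩ := Ideal.exists_le_maximal _ t
    let := Ideal.Quotient.field M
    refine H2 _ ((Ideal.Quotient.mk M).comp C) (fun j => Ideal.Quotient.mk M (X j))
      (fun a ha => Ideal.Quotient.eq_zero_iff_mem.2
        (t (Ideal.mem_sup_left (Ideal.mem_map_of_mem _ ha)))) fun i => ?_
    have e := Ideal.Quotient.eq_zero_iff_mem.2
      (t (Ideal.mem_sup_right (Ideal.subset_span ⟨i, rfl⟩)))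
    rw [map_eq_eval₂Hom_C_comp] at e
    exact (gn_ev _ (Ideal.Quotient.mk M) (α := C.comp (algebraMap R A)) (x := X)
      (RingHom.comp_assoc _ _ _).symm fun _ => rfl).symm.trans e

/-- A surface that is closed in the localization is a good curve. -/
theorem good_of (hq : 2 ≤ q) (hd : ringKrullDim R = (q + 2 : ℕ)) (hr : r ∈ maximalIdeal R)
    (hρ : r ∣ ρ) (h : B.Bir ρ)
    (hθ : ∀ j, ∃ θ : A, X j - C θ ∈ B.S.map (map (algebraMap R A))) :
    Good (B.n A) ((B.S.map (map (algebraMap R A))).comap C) q := by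
  obtain ⟨hS, hg, hP, -⟩ := B.reg hd
  choose θ hθ' using hθ
  have hn := B.n_max A hd hr hρ h
  have hu := IsLocalization.Away.algebraMap_isUnit (S := A) ρ
  have := IsLocalization.isNoetherianRing (.powers ρ) A inferInstance
  obtain ⟨K, hK⟩ : ∃ K, K = (B.S.map (map (algebraMap R A))).comap (C : A →+* _) := ⟨_, rfl⟩
  obtain ⟨φ, h1, h2⟩ : ∃ φ : MvPolynomial (Fin (s + 1)) R →+* A,
      (∀ b, φ (C b) = algebraMap R A b) ∧ ∀ x, φ x ∈ K ↔ x ∈ B.S := by
    refine ⟨(eval θ).comp (map (algebraMap R A)), fun b => by simp, fun x => ?_⟩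
    let := MvPolynomial.algebraMvPolynomial (σ := Fin (s + 1)) (R := R) (S := A)
    have e := IsLocalization.under_map_of_isPrime_disjoint ((Submonoid.powers ρ).map C)
      (MvPolynomial (Fin (s + 1)) A) hS (by
        rw [Submonoid.map_powers]
        exact (Ideal.disjoint_powers_iff_notMem _ hS.isRadical).2 fun t =>
          h.1 (Ideal.mem_sup_left t))
    rw [hK, RingHom.comp_apply, genb_ev hθ']
    exact Ideal.ext_iff.1 e x
  have h3 : ∀ a : A, ∃ (k : ℕ) (x : _), a * algebraMap R A ρ ^ k = φ x := fun a => by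
    obtain ⟨k, b, e⟩ := IsLocalization.Away.surj ρ a
    exact ⟨k, C b, e.trans (h1 b).symm⟩
  have h4 : ∀ x ∈ B.P, φ x ∈ K ⊔ Ideal.span {φ B.g} := fun x hx => by
    obtain ⟨a, ha, b, hb, rfl⟩ := Submodule.mem_sup.1 hx
    obtain ⟨c, rfl⟩ := Ideal.mem_span_singleton'.1 hb
    rw [map_add, map_mul]
    exact Submodule.add_mem_sup ((h2 a).2 ha) (Ideal.mul_mem_left _ _ (Ideal.subset_span rfl))
  have h5 : B.n A = K ⊔ Ideal.span {φ B.g} := by
    refine hn.eq_of_le (fun t => ?_) (Ideal.map_le_iff_le_comap.2 fun b hb =>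
      Ideal.mem_comap.2 (h1 b ▸ h4 _ hb))
    obtain ⟨a, ha, b, hb, e⟩ := Submodule.mem_sup.1 ((Ideal.eq_top_iff_one _).1 t)
    obtain ⟨c, rfl⟩ := Ideal.mem_span_singleton'.1 hb
    obtain ⟨k, x, e'⟩ := h3 c
    have q : C ρ ^ k - x * B.g ∈ B.S := (h2 _).1 (by
      rw [map_sub, map_mul, map_pow, h1, ← e']
      convert K.mul_mem_left (algebraMap R A ρ ^ k) ha using 1
      linear_combination (-algebraMap R A ρ ^ k) * e)
    have t := Submodule.add_mem_sup q (Ideal.mul_mem_left _ x (Ideal.mem_span_singleton_self B.g))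
    rw [sub_add_cancel] at t
    exact h.1 (hP.mem_of_pow_mem k t)
  let ψ : (MvPolynomial (Fin (s + 1)) R ⧸ B.S) →+* A ⧸ K :=
    Ideal.quotientMap K φ fun x hx => (h2 x).2 hx
  have h6 : ∀ x, ψ (Ideal.Quotient.mk _ x) = Ideal.Quotient.mk K (φ x) := fun _ => rfl
  have hdim : ringKrullDim (A ⧸ K) ≤ (1 : ℕ) := by
    have : Nontrivial (MvPolynomial (Fin (s + 1)) R ⧸ B.S) :=
      Ideal.Quotient.nontrivial_iff.2 hS.ne_top
    have : IsLocalRing (MvPolynomial (Fin (s + 1)) R ⧸ B.S) :=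
      .of_isUnit_or_isUnit_one_sub_self fun x => by
        obtain ⟨x, rfl⟩ := Ideal.Quotient.mk_surjective x
        by_cases t : x ∈ B.M
        · exact .inr (B.genb_unit le_rfl (x := 1 - x) fun t' =>
            B.max.ne_top ((Ideal.eq_top_iff_one _).2 (by simpa using add_mem t' t)))
        · exact .inl (B.genb_unit le_rfl t)
    let := ψ.toAlgebra
    have : IsLocalization.Away (Ideal.Quotient.mk B.S (C ρ)) (A ⧸ K) := by
      refine .mk _ ((h1 ρ ▸ hu :).map (Ideal.Quotient.mk K)) (fun a => ?_) fun a b e =>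
        ⟨0, congrArg _ (Ideal.quotientMap_injective' (fun x hx => (h2 x).1 hx) e)⟩
      obtain ⟨a, rfl⟩ := Ideal.Quotient.mk_surjective a
      obtain ⟨k, x, e⟩ := h3 a
      exact ⟨k, Ideal.Quotient.mk _ x, by
        rw [RingHom.algebraMap_toAlgebra, h6, h6, h1, ← e, map_mul, map_pow]⟩
    refine dim_away (ρ := Ideal.Quotient.mk B.S (C ρ)) (fun t => ?_) B.dim
    obtain ⟨y, hy⟩ := t.exists_right_inv
    obtain ⟨y, rfl⟩ := Ideal.Quotient.mk_surjective y
    have q : C ρ * y - 1 ∈ B.M := B.gen ▸ Ideal.mem_sup_left (Ideal.Quotient.eq.1 hy)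
    rw [Submodule.sub_mem_iff_right _ (B.M.mul_mem_right _
      (B.lies (Ideal.mem_map_of_mem _ (Ideal.mem_of_dvd _ hρ hr))))] at q
    exact B.max.ne_top ((Ideal.eq_top_iff_one _).2 q)
  obtain ⟨m, hm, gen⟩ := conorm hq (fun i => map (algebraMap R A) (B.F i))
    (fun j => ⟨θ j, B.genb_span A ▸ hθ' j⟩) (B.genb_span A ▸ hK) hdim
  rw [← hK]
  refine good_max hn (h5 ▸ le_sup_left) ⟨φ B.g, h5, fun c hc => ?_⟩ (fun a ha => ?_) hdim m hm gen
  · obtain ⟨k, x, e⟩ := h3 c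
    refine (K.mul_unit_mem_iff_mem (hu.pow k)).1
      (e ▸ (h2 x).2 ((hS.mem_or_mem ((h2 _).1 ?_)).resolve_right hg))
    rw [map_mul, ← e, mul_right_comm]
    exact K.mul_mem_right _ hc
  · obtain ⟨k, x, e⟩ := h3 a
    obtain ⟨u, hu', j, e1⟩ := B.val hd (x := x) fun t => ha
      ((Ideal.mul_unit_mem_iff_mem _ (hu.pow k)).1 (e ▸ h5 ▸ h4 x t))
    obtain ⟨i, c, c', hc, e2⟩ := B.rT
    obtain ⟨v, hv⟩ := (hu.pow k).exists_right_inv
    have u0 : IsUnit (Ideal.Quotient.mk K (φ (X 0))) := by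
      have q : B.F i ∈ B.S := Ideal.subset_span ⟨i, rfl⟩
      rw [e2, ← h2, map_sub, ← Ideal.Quotient.eq, map_mul, map_mul, map_mul, map_mul, h1] at q
      exact isUnit_of_mul_isUnit_left (q ▸ ((isUnit_of_dvd_unit (map_dvd _ hρ) hu).map _).mul
        (h6 c ▸ (B.genb_unit le_rfl hc).map ψ))
    have u1 : IsUnit (Ideal.Quotient.mk K (φ (u * X 0 ^ j) * v)) := by
      simp only [map_mul, map_pow]
      exact ((h6 u ▸ (B.genb_unit le_rfl hu').map ψ :).mul (u0.pow j)).mul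
        ((IsUnit.of_mul_eq_one_right _ hv).map _)
    refine ⟨φ (u * X 0 ^ j) * v, ?_, ?_⟩
    · obtain ⟨y, hy⟩ := u1.exists_left_inv
      obtain ⟨y, rfl⟩ := Ideal.Quotient.mk_surjective y
      have q := Submodule.add_mem_sup (K.neg_mem (Ideal.Quotient.eq.1 hy))
        (Ideal.mul_mem_left _ y (Ideal.subset_span (s := {φ (u * X 0 ^ j) * v}) rfl))
      exact (Ideal.eq_top_iff_one _).2 (by simpa using q)
    · have q := Ideal.mul_mem_left _ (-v) (h5 ▸ h4 _ e1)
      rw [map_sub, ← e] at q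
      convert q using 1
      linear_combination a * hv

theorem good (hq : 2 ≤ q) (hd : ringKrullDim R = (q + 2 : ℕ)) (hr : r ∈ maximalIdeal R)
    (hρ : r ∣ ρ) (h : B.Bir ρ) (J : Ideal A) (hJ : ringKrullDim (A ⧸ J) ≤ (1 : ℕ))
    (hn : J ⊔ B.n A = ⊤) : ∃ K, Good (B.n A) K q ∧ K ⊔ J = ⊤ := by
  obtain ⟨ε, h1, h2, h3, h4⟩ := B.gen_pos A hq hd hr hρ h hJ hn
  obtain ⟨B', e1, -, -, e2⟩ := B.pert hr ε h1 h2
  simp only [← e1] at h3 h4
  have : Module.Finite A (MvPolynomial (Fin (s + 1)) A ⧸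
      Ideal.span (Set.range fun i => map (algebraMap R A) (B'.F i))) := fin_of_lead _ fun j => by
    obtain ⟨i, L, -, e⟩ := B'.lead j
    refine ⟨_, Ideal.subset_span ⟨i, rfl⟩, L, lt_of_le_of_lt ?_ e⟩
    rw [← map_X (algebraMap R A), ← map_pow, ← map_sub]
    exact Finset.sup_mono (support_map_subset _ _)
  have hθ := imm (fun i => map (algebraMap R A) (B'.F i)) fun Ω _ φ x v τ j a b => by
    simpa only [dd_map] using h3 Ω φ x v τ j a fun i => (eval₂_map _ _ _ _).symm.trans (b i)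
  rw [← B'.genb_span A] at hθ h4
  refine ⟨_, (show B'.n A = B.n A by rw [n, n, e2]) ▸
    B'.good_of A hq hd hr hρ (by rwa [Bir, e2]) hθ, ?_⟩
  choose θ hθ using hθ
  obtain ⟨a, ha, b, hb, e⟩ := Submodule.mem_sup.1 ((Ideal.eq_top_iff_one _).1 h4)
  have q : eval θ a ∈ J := (Ideal.map_le_iff_le_comap (K := J.comap (eval θ))).2
    (fun x hx => by simpa using hx) ha
  have t := Submodule.add_mem_sup ((genb_ev hθ b).2 hb) q
  rw [← map_add, add_comm b, e, map_one] at t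
  exact (Ideal.eq_top_iff_one _).2 t

end Br

end Pool.Agent.Lib.MP_a37f0b_ag.Q4
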