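import Pool.Agent.Lib.MP_a37f0b_ag.Q4.Gen

/-! From jets to branches: the two applications of the lemma of Nakayama. -/

open MvPolynomial IsLocalRing

namespace Pool.Agent.Lib.MP_a37f0b_ag.Q4

theorem top2_nak {R : Type} [CommRing R] [IsLocalRing R] [IsNoetherianRing R] {ρ : R}
    (hρ : ρ ∈ maximalIdeal R) {κ : Type} [Finite κ] (V : κ → Type) [∀ i, CommRing (V i)]
    [∀ i, IsDomain (V i)] [∀ i, Algebra R (V i)] [∀ i, Module.Finite R (V i)]
    (h0 : ∀ i, algebraMap R (V i) ρ ≠ 0) {b c N d : ℕ} (hN : b + 1 ≤ N) (a : Fin d → R)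
    (h1 : ∀ y : ∀ i, V i, ∃ (x : R) (z : ∀ i, V i), ∀ i,
      algebraMap R _ x = ρ ^ c • y i + ρ ^ (c + N) • z i)
    (h2 : ∀ x : R, (∀ i, algebraMap R (V i) x = 0) →
      ρ ^ b * x ∈ Ideal.span (Set.range a) ⊔ Ideal.span {ρ ^ (b + N)})
    (h3 : ∀ l i, ∃ z : V i, algebraMap R _ (a l) = ρ ^ (c + N) • z) :
    (∀ y : ∀ i, V i, ∃ x : R, ∀ i, algebraMap R _ x = ρ ^ c • y i) ∧
    ∃ a' : Fin d → R, (∀ l, a' l - a l ∈ Ideal.span {ρ ^ N}) ∧
      (∀ l i, algebraMap R (V i) (a' l) = 0) ∧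
      ∀ x : R, (∀ i, algebraMap R (V i) x = 0) → ρ ^ b * x ∈ Ideal.span (Set.range a') := by
  have hj : Ideal.span {ρ} ≤ Ideal.jacobson ⊥ :=
    ((Ideal.span_singleton_le_iff_mem _).2 hρ).trans (maximalIdeal_le_jacobson _)
  obtain ⟨n, rfl⟩ : ∃ n, N = b + n + 1 := ⟨N - b - 1, by omega⟩
  have c1 : ∀ y : ∀ i, V i, ∃ x : R, ∀ i, algebraMap R _ x = ρ ^ c • y i := by
    have := Submodule.le_of_le_smul_of_le_jacobson_bot
      (N := LinearMap.range (Algebra.linearMap R (∀ i, V i)))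
      (N' := LinearMap.range (LinearMap.lsmul R (∀ i, V i) (ρ ^ c)))
      (IsNoetherian.noetherian _) hj (by
        rintro _ ⟨y, rfl⟩
        obtain ⟨x, z, h⟩ := h1 y
        refine Submodule.mem_sup.2 ⟨_, ⟨x, rfl⟩, ρ • (ρ ^ c • -(ρ ^ (b + n) • z)),
          Submodule.smul_mem_smul (Ideal.mem_span_singleton_self ρ) ⟨_, rfl⟩, funext fun i => ?_⟩
        simp only [Algebra.linearMap_apply, Pi.add_apply, Pi.algebraMap_apply, h, Pi.smul_apply,
          Pi.neg_apply, LinearMap.lsmul_apply]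
        module)
    intro y
    obtain ⟨x, hx⟩ := this ⟨y, rfl⟩
    exact ⟨x, fun i => congrFun hx i⟩
  refine ⟨c1, ?_⟩
  choose z hz using h3
  choose o ho using fun l => c1 (z l)
  let I : Ideal R := RingHom.ker (algebraMap R (∀ i, V i))
  have hI : ∀ x, x ∈ I ↔ ∀ i, algebraMap R (V i) x = 0 := fun x => funext_iff
  have hs : ∀ k x, ρ ^ k * x ∈ I → x ∈ I := fun k x h => (hI x).2 fun i => by
    have := (hI _).1 h i
    rw [map_mul, map_pow] at this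
    exact (mul_eq_zero.1 this).resolve_left (pow_ne_zero _ (h0 i))
  have ha : ∀ l i, algebraMap R (V i) (a l - ρ ^ (b + n + 1) * o l) = 0 := fun l i => by
    rw [map_sub, map_mul, hz, ho, ← Algebra.smul_def]
    module
  refine ⟨fun l => a l - ρ ^ (b + n + 1) * o l, fun l => Ideal.mem_span_singleton'.2
    ⟨-o l, by ring⟩, ha, fun x hx => ?_⟩
  set I' := Ideal.span (Set.range fun l => a l - ρ ^ (b + n + 1) * o l)
  have hle : I' ≤ I := Ideal.span_le.2 (by rintro _ ⟨l, rfl⟩; exact (hI _).2 (ha l))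
  refine Submodule.le_of_le_smul_of_le_jacobson_bot
    (N := Submodule.comap (LinearMap.lsmul R R (ρ ^ b)) I') (N' := I)
    (IsNoetherian.noetherian _) hj (fun x hx => ?_) ((hI x).2 hx)
  have : Ideal.span (Set.range a) ⊔ Ideal.span {ρ ^ (b + (b + n + 1))} ≤
      I' ⊔ Ideal.span {ρ ^ (b + n + 1)} := by
    refine sup_le (Ideal.span_le.2 ?_) (le_sup_of_le_right
      (Ideal.span_singleton_le_span_singleton.2 (pow_dvd_pow _ (by omega))))
    rintro _ ⟨l, rfl⟩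
    exact Submodule.mem_sup.2 ⟨_, Ideal.subset_span ⟨l, rfl⟩, ρ ^ (b + n + 1) * o l,
      Ideal.mul_mem_right _ _ (Ideal.mem_span_singleton_self _), by ring⟩
  obtain ⟨α, hα, _, hw, e⟩ := Submodule.mem_sup.1 (this (h2 x ((hI x).1 hx)))
  obtain ⟨w, rfl⟩ := Ideal.mem_span_singleton'.1 hw
  have e1 : ρ ^ b * (x - ρ * (ρ ^ n * w)) = α := by linear_combination -e
  have e2 : ρ ^ 1 * (ρ ^ n * w) ∈ I := by
    convert sub_mem hx (hs b _ (e1 ▸ hle hα)) using 1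
    ring
  exact Submodule.mem_sup.2 ⟨x - ρ * (ρ ^ n * w), show ρ ^ b * _ ∈ I' from e1 ▸ hα, ρ • (ρ ^ n * w),
    Submodule.smul_mem_smul (Ideal.mem_span_singleton_self ρ) (hs 1 _ e2), sub_add_cancel _ _⟩

theorem top2_ker {R : Type} [CommRing R] [IsRegularLocalRing R] {r ρ : R} {s q f n : ℕ}
    (hd : ringKrullDim R = (q + 2 : ℕ)) (B : Br R r s q) (hf : 0 < f) (hn : 2 ≤ n)
    {u : MvPolynomial (Fin (s + 1)) R}
    (hu : C ρ * u - X 0 ^ f ∈ B.P ⊔ Ideal.span {X 0 ^ (f * n)}) :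
    C ρ ∉ B.P ∧ ∀ y ∈ B.P ⊔ Ideal.span {X 0 ^ (f * n)}, ∃ z, y - C (ρ ^ n) * z ∈ B.P := by
  obtain ⟨-, -, hP, hX⟩ := B.reg hd
  obtain ⟨p, hp, _, hw, e⟩ := Submodule.mem_sup.1 hu
  obtain ⟨y, rfl⟩ := Ideal.mem_span_singleton'.1 hw
  obtain ⟨k, hk⟩ : ∃ k, f * n = f + (k + 1) := ⟨f * n - f - 1, by
    have := Nat.mul_le_mul_left f hn
    omega⟩
  have h1 : 1 + y * X 0 ^ (k + 1) ∉ B.M := fun h => B.max.ne_top ((Ideal.eq_top_iff_one _).2 (by
    have hx : X 0 ∈ B.M := B.gen.ge (Ideal.mem_sup_right (Ideal.subset_span (by simp)))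
    simpa using sub_mem h (B.M.mul_mem_left y (B.M.pow_mem_of_mem hx _ k.succ_pos))))
  obtain ⟨t, ht, _, hw, e'⟩ := Submodule.mem_sup.1 ((Ideal.eq_top_iff_one _).1 (B.unit h1))
  obtain ⟨w, rfl⟩ := Ideal.mem_span_singleton'.1 hw
  have h2 : X 0 ^ f - C ρ * (u * w) ∈ B.P := by
    convert sub_mem (B.P.mul_mem_left (X 0 ^ f) (Ideal.mem_sup_left ht)) (B.P.mul_mem_left w hp)
      using 1
    rw [hk] at e
    linear_combination w * e - X 0 ^ f * e'
  refine ⟨fun h => hX (hP.mem_of_pow_mem f ?_), fun z hz => ?_⟩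
  · simpa using add_mem h2 (B.P.mul_mem_right (u * w) h)
  · obtain ⟨p', hp', _, hw, rfl⟩ := Submodule.mem_sup.1 hz
    obtain ⟨y', rfl⟩ := Ideal.mem_span_singleton'.1 hw
    refine ⟨y' * (u * w) ^ n, ?_⟩
    obtain ⟨v, hv⟩ := sub_dvd_pow_sub_pow (X 0 ^ f) (C ρ * (u * w)) n
    convert add_mem hp' (B.P.mul_mem_left (y' * v) h2) using 1
    rw [map_pow, pow_mul]
    linear_combination y' * hv

theorem top2_rad {R : Type} [CommRing R] [IsLocalRing R] [IsNoetherianRing R] {I J : Ideal R}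
    {n : ℕ} (hd : ringKrullDim R = n) (h : HT I ⊤ n) (hJ : I ≤ J) :
    maximalIdeal R ≤ J.radical := by
  rw [Ideal.radical_eq_sInf]
  refine le_sInf fun P hP => ?_
  have := hP.2
  refine (Ideal.eq_of_le_of_height_le P (le_maximalIdeal hP.2.ne_top) ?_).ge
  refine le_trans (le_of_eq ?_) (h P hP.2 (hJ.trans hP.1) fun h => hP.2.ne_top (top_le_iff.1 h))
  exact WithBot.coe_injective (maximalIdeal_height_eq_ringKrullDim.trans hd)

end Pool.Agent.Lib.MP_a37f0b_ag.Q4
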