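import Pool.Agent.Lib.MP_a37f0b_ag.Q4.TopA
import Pool.Agent.Lib.MP_a37f0b_ag.Q4.Gen
import Pool.Agent.Lib.MP_a37f0b_ag.Q4.Cpl
import Pool.Agent.Lib.MP_a37f0b_ag.Q4.Nf
import Pool.Agent.Lib.MP_a37f0b_ag.Q4.Top2

/-! Rows of top length. -/

open MvPolynomial IsLocalRing

namespace Pool.Agent.Lib.MP_a37f0b_ag.Q4

/-- Maximal ideals of polynomial rings over fields. -/
theorem max_gen {k : Type} [Field k] {s : ℕ} (M : Ideal (MvPolynomial (Fin s) k))
    (hM : M.IsMaximal) : ∃ P : Fin s → MvPolynomial (Fin s) k, M = Ideal.span (Set.range P) :=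
  topa_max_gen s M hM

/-- A jet is the jet of a branch. -/
theorem jet_br {R : Type} [CommRing R] [IsLocalRing R] {r : R} {q : ℕ} (hq : 0 < q)
    (x : Fin (q + 1) → R)
    (hx : maximalIdeal R = Ideal.span {r} ⊔ Ideal.span (Set.range x)) {ρ : R} {N : ℕ}
    (hN : 0 < N) (j : Jet R ρ N) (hr : algebraMap R j.J r ≠ 0) :
    ∃ (s : ℕ) (B : Br R r s q) (ψ : MvPolynomial (Fin (s + 1)) R →ₐ[R] j.J),
      Function.Surjective ψ ∧ ψ (X 0) = j.π ∧
      ∀ y, ψ y = 0 ↔ y ∈ B.P ⊔ Ideal.span {X 0 ^ (j.f * N)} := by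
  have _ := hr
  exact topa_jet_br hq x hx hN j

variable {R : Type} [CommRing R] [IsRegularLocalRing R] {r ρ : R} (A : Type) [CommRing A]
  [Algebra R A] [IsLocalization.Away ρ A]

/-- A curve with jets is close to a union of branches. -/
theorem branches {q : ℕ} (hq : 0 < q) (hd : ringKrullDim R = (q + 2 : ℕ))
    (x : Fin (q + 1) → R)
    (hx : maximalIdeal R = Ideal.span {r} ⊔ Ideal.span (Set.range x)) (hρ : r ∣ ρ)
    {a : Fin (q + 1) → R} (h : Jets ρ (Ideal.span (Set.range a))) (N : ℕ) :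
    ∃ (a' : Fin (q + 1) → R) (κ : Type) (_ : Finite κ) (s : κ → ℕ) (B : ∀ i, Br R r (s i) q),
      (∀ i, a' i - a i ∈ Ideal.span {ρ ^ N}) ∧ (∀ i, (B i).Bir ρ) ∧
      (Function.Injective fun i => (B i).n A) ∧
      Ideal.span (Set.range (algebraMap R A ∘ a')) = ⨅ i, (B i).n A := by
  classical
  obtain ⟨c, b, h⟩ := h
  obtain ⟨κ, _, j, h1, h2, h3⟩ := h (N + b + 2) (by omega)
  have hm : ρ ∈ maximalIdeal R := by
    obtain ⟨t, rfl⟩ := hρ
    exact Ideal.mul_mem_right _ _ (hx.ge (Ideal.mem_sup_left (Ideal.mem_span_singleton_self r)))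
  have hr : ∀ i, algebraMap R (j i).J r ≠ 0 := fun i h0 => (j i).nz (by
    have e : (j i).π ^ (j i).f = 0 := (j i).as.eq_zero_iff.1
      (zero_dvd_iff.1 (h0 ▸ map_dvd (algebraMap R (j i).J) hρ))
    refine pow_eq_zero_of_le ?_ e
    have := Nat.mul_le_mul_left (j i).f (show 2 ≤ c + (N + b + 2) by omega)
    have := (j i).pos
    omega)
  choose s B ψ hs h0 hk using fun i => jet_br hq x hx (by omega) (j i) (hr i)
  have hψ : ∀ i (y : R), ψ i (C y) = algebraMap R _ y := fun i y => (ψ i).commutes y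
  have hK := fun i => (hs i ((j i).as.choose : (j i).J)).elim fun u hu =>
    top2_ker (ρ := ρ) (u := u) hd (B i) (j i).pos (show 2 ≤ c + (N + b + 2) by omega)
      ((hk i _).1 (by rw [map_sub, map_mul, map_pow, hψ, hu, h0, (j i).as.choose_spec, sub_self]))
  have hP : ∀ i, (B i).P.IsPrime := fun i => ((B i).reg hd).2.2.1
  let V : κ → Type := fun i => MvPolynomial (Fin (s i + 1)) R ⧸ (B i).P
  have hF : ∀ i, Module.Finite R (V i) := fun i => by
    have := (B i).fin
    exact Module.Finite.of_surjective (Ideal.Quotient.factorₐ R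
      (le_sup_left : (B i).S ≤ (B i).P)).toLinearMap
      (Ideal.Quotient.factor_surjective le_sup_left)
  have hV : ∀ i (y : R), algebraMap R (V i) y = 0 ↔ C y ∈ (B i).P := fun i y =>
    Ideal.Quotient.eq_zero_iff_mem
  have hS : ∀ i (y : R) z, y • Ideal.Quotient.mk (B i).P z = Ideal.Quotient.mk (B i).P (C y * z) :=
    fun i y z => by rw [← smul_eq_C_mul]; rfl
  obtain ⟨c1, a', c2, c3, c4⟩ := top2_nak hm V (fun i h => (hK i).1 ((hV i ρ).1 h)) (b := b) (c := c)
    (N := N + b + 2) (by omega) a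
    (fun y => by
      choose y' hy' using fun i => Ideal.Quotient.mk_surjective (y i)
      obtain ⟨x, hx⟩ := h1 fun i => ψ i (y' i)
      choose z hz using fun i => (hK i).2 (C x - C (ρ ^ c) * y' i) ((hk i _).1 (by
        rw [map_sub, map_mul, hψ, hψ, hx, Algebra.smul_def, sub_self]))
      refine ⟨x, fun i => Ideal.Quotient.mk _ (z i), fun i => ?_⟩
      rw [← hy', hS, hS, ← map_add]
      refine Ideal.Quotient.eq.2 ?_
      rw [← sub_sub]
      exact hz i)
    (fun x hx => h2 x fun i => by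
      rw [← hψ]
      exact (hk i _).2 (Ideal.mem_sup_left ((hV i x).1 (hx i))))
    fun l i => by
      obtain ⟨z, hz⟩ := (hK i).2 (C (a l)) ((hk i _).1
        ((hψ i _).trans (h3 _ (Ideal.subset_span ⟨l, rfl⟩) i)))
      exact ⟨Ideal.Quotient.mk _ z, by rw [hS]; exact Ideal.Quotient.eq.2 hz⟩
  have hn : ∀ i (y : R), algebraMap R A y ∈ (B i).n A ↔ C y ∈ (B i).P := fun i y => by
    rw [Br.n, IsLocalization.algebraMap_mem_map_algebraMap_iff (Submonoid.powers ρ)]
    refine ⟨?_, fun h => ⟨1, one_mem _, by simpa using h⟩⟩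
    rintro ⟨_, ⟨k, rfl⟩, h⟩
    rw [Ideal.mem_comap, map_mul, map_pow] at h
    exact ((hP i).mem_or_mem h).resolve_left fun h => (hK i).1 ((hP i).mem_of_pow_mem k h)
  refine ⟨a', κ, inferInstance, s, B, fun l => Ideal.span_singleton_le_span_singleton.2
    (pow_dvd_pow _ (by omega)) (c2 l), fun i => ⟨(hK i).1, c, fun l => ?_⟩, fun i i' e => ?_,
    le_antisymm (Ideal.span_le.2 ?_) fun z hz => ?_⟩
  · obtain ⟨y, hy⟩ := c1 (Pi.single i (Ideal.Quotient.mk _ (X l)))
    have := hy i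
    rw [Pi.single_eq_same, hS] at this
    exact ⟨y, Ideal.Quotient.eq.1 this.symm⟩
  · by_contra hne
    obtain ⟨y, hy⟩ := c1 (Pi.single i 1)
    have e1 := hy i'
    have e2 := hy i
    rw [Pi.single_eq_of_ne' hne, smul_zero, hV, ← hn, ← show (B i).n A = (B i').n A from e, hn,
      ← hV] at e1
    rw [Pi.single_eq_same, e1, ← Algebra.algebraMap_eq_smul_one, eq_comm, hV, map_pow] at e2
    exact (hK i).1 ((hP i).mem_of_pow_mem c e2)
  · rintro _ ⟨l, rfl⟩
    exact Ideal.mem_iInf.2 fun i => (hn i _).2 ((hV i _).1 (c3 l i))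
  · obtain ⟨⟨y, t⟩, e⟩ := IsLocalization.surj (Submonoid.powers ρ) z
    rw [Set.range_comp, ← Ideal.map_span,
      ← Ideal.mul_unit_mem_iff_mem _ (IsLocalization.map_units A t), e,
      IsLocalization.algebraMap_mem_map_algebraMap_iff (Submonoid.powers ρ)]
    refine ⟨_, ⟨b, rfl⟩, c4 y fun i => (hV i y).2 ((hn i y).1 ?_)⟩
    exact e ▸ Ideal.mul_mem_right _ _ (Ideal.mem_iInf.1 hz i)

theorem exists_par {q : ℕ} (hd : ringKrullDim R = (q + 2 : ℕ)) (hr : r ∈ maximalIdeal R)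
    (hr2 : r ∉ maximalIdeal R ^ 2) :
    ∃ x : Fin (q + 1) → R, maximalIdeal R = Ideal.span {r} ⊔ Ideal.span (Set.range x) := by
  classical
  obtain ⟨s, hs, e⟩ := Submodule.FG.exists_span_finset_card_eq_spanFinrank
    (maximalIdeal R).fg_of_isNoetherianRing
  have hc : s.card = q + 2 := by
    have := IsRegularLocalRing.spanFinrank_maximalIdeal (R := R)
    rw [hd, ← hs] at this
    exact_mod_cast this
  obtain ⟨c, -, hc'⟩ := Submodule.mem_span_finset.1 (e.ge hr)
  obtain ⟨y, hy, hu⟩ : ∃ y ∈ s, IsUnit (c y) := by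
    by_contra! h
    exact hr2 (hc' ▸ pow_two (maximalIdeal R) ▸ Ideal.sum_mem _ fun y hy =>
      Ideal.mul_mem_mul (h y hy) (e.le (Submodule.subset_span hy)))
  have h1 : (s.erase y).card = q + 1 := by rw [Finset.card_erase_of_mem hy, hc]; rfl
  refine ⟨Subtype.val ∘ (Finset.equivFinOfCardEq h1).symm, ?_⟩
  rw [(Finset.equivFinOfCardEq h1).symm.surjective.range_comp, Subtype.range_coe]
  refine le_antisymm (e.ge.trans (Ideal.span_le.2 fun z hz => ?_)) (sup_le
    ((Ideal.span_singleton_le_iff_mem _).2 hr) ((Ideal.span_mono (by simp)).trans e.le))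
  by_cases hz' : z = y
  · rw [hz', SetLike.mem_coe, ← Ideal.unit_mul_mem_iff_mem _ hu, ← smul_eq_mul,
      eq_sub_of_add_eq ((Finset.add_sum_erase s (fun a => c a • a) hy).trans hc')]
    exact sub_mem (Ideal.mem_sup_left (Ideal.mem_span_singleton_self r)) (Ideal.mem_sup_right
      (Ideal.sum_mem _ fun a ha => Ideal.mul_mem_left _ _ (Ideal.subset_span ha)))
  · exact Ideal.mem_sup_right (Ideal.subset_span (by simp [hz', hz]))

theorem top_row [CharZero R] {p : ℕ} (hp : p.Prime) (hm : (p : R) ∈ maximalIdeal R) {q : ℕ}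
    (hq : 2 ≤ q) (hd : ringKrullDim R = (q + 2 : ℕ)) (hr : r ∈ maximalIdeal R)
    (hr2 : r ∉ maximalIdeal R ^ 2) (hρ : r ∣ ρ) {w : Fin (q + 2) → A} (hw : Um w) : Triv w := by
  have := Pop.reg_domain (R := R)
  have := IsLocalization.isNoetherianRing (Submonoid.powers ρ) A inferInstance
  by_cases h0 : ρ = 0
  · have := IsLocalization.subsingleton (M := Submonoid.powers ρ) (S := A) ⟨1, by simp [h0]⟩
    exact Triv.of_unit (i := 0) (isUnit_of_subsingleton _)
  have hρm : ρ ∈ maximalIdeal R := by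
    obtain ⟨t, rfl⟩ := hρ
    exact Ideal.mul_mem_right _ _ hr
  obtain ⟨a, u, hg, hT⟩ := nf_top (ρ := ρ) (τ := p * ρ)
    (mul_ne_zero (Nat.cast_ne_zero.2 hp.ne_zero) h0) hw
  refine Triv.of_ge hg ?_
  have hu : Um (algebraMap R A ∘ (Fin.snoc a u : Fin (q + 2) → R)) := hg.span.trans hw
  by_cases ha : ∀ i, a i ∈ maximalIdeal R
  swap
  · obtain ⟨i, hi⟩ := not_forall.1 ha
    refine Triv.of_unit (i := i.castSucc) ?_
    simpa using (notMem_maximalIdeal.1 hi).map (algebraMap R A)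
  have h1 := top2_rad hd hT (J := Ideal.span (Set.range a) ⊔ Ideal.span {(p : R)}) (sup_le
    (le_sup_of_le_right (Ideal.span_singleton_le_span_singleton.2 (dvd_mul_right _ _))) le_sup_left)
  have h2 := top2_rad hd hT (J := Ideal.span (Set.range a) ⊔ Ideal.span {ρ}) (sup_le
    (le_sup_of_le_right (Ideal.span_singleton_le_span_singleton.2 (dvd_mul_left _ _))) le_sup_left)
  obtain ⟨N, hN⟩ : ∃ N : ℕ, maximalIdeal R ^ N ≤
      Ideal.span (Set.range (Fin.snoc a u : Fin (q + 2) → R)) := by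
    refine Ideal.exists_pow_le_of_le_radical_of_fg (h2.trans (Ideal.radical_le_radical_iff.2
      (sup_le (le_trans (Ideal.span_mono ?_) Ideal.le_radical) ?_)))
      (maximalIdeal R).fg_of_isNoetherianRing
    · rw [Fin.range_snoc]
      exact Set.subset_insert _ _
    · rw [Um, Set.range_comp, ← Ideal.map_span, Ideal.eq_top_iff_one, ← map_one (algebraMap R A),
        IsLocalization.algebraMap_mem_map_algebraMap_iff (Submonoid.powers ρ)] at hu
      obtain ⟨_, ⟨k, rfl⟩, h⟩ := hu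
      exact (Ideal.span_singleton_le_iff_mem _).2 ⟨k, by simpa using h⟩
  obtain ⟨a1, e1, hJ⟩ := jets hp hm (d := q + 1) hd hρm a ha h1 h2 (N + 1)
  obtain ⟨x, hx⟩ := exists_par hd hr hr2
  obtain ⟨a2, κ, _, s, B, e2, hB, hi, e3⟩ := branches A (by omega) hd x hx hρ hJ (N + 1)
  have hg2 : GE (Fin.snoc a u : Fin (q + 2) → R) (Fin.snoc a2 u) := GE.pert fun i => by
    refine Fin.lastCases (by simp) (fun i => ?_) i
    simp only [Fin.snoc_castSucc]
    refine Ideal.mul_mono_right hN (pow_succ' (maximalIdeal R) N ▸ ?_)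
    rw [← sub_add_sub_cancel _ (a1 i)]
    exact add_mem ((Ideal.span_singleton_le_iff_mem _).2 (Ideal.pow_mem_pow hρm _) (e2 i)) (e1 i)
  have hg3 := hg2.map (algebraMap R A)
  refine Triv.of_ge hg3 ?_
  obtain ⟨K, hK⟩ := good_iInf (q := q) _ (fun i => (B i).n_max A hd hr hρ (hB i)) hi
    fun i J hJ hn => (B i).good A hq hd hr hρ (hB i) J hJ hn
  rw [Fin.comp_snoc]
  refine Good.triv hq (e3 ▸ hK) ?_
  have := hg3.span.trans hu
  rwa [Fin.comp_snoc, Fin.range_snoc, Ideal.span_insert, sup_comm] at this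

theorem top [CharZero R] {p : ℕ} (hp : p.Prime) (hm : (p : R) ∈ maximalIdeal R) {q : ℕ}
    (hq : 2 ≤ q) (hd : ringKrullDim R = (q + 2 : ℕ)) (hr : r ∈ maximalIdeal R)
    (hr2 : r ∉ maximalIdeal R ^ 2) (hρ : r ∣ ρ) : TR A (q + 2) := by
  intro κ _ _ hκ v hv
  rcases hκ.eq_or_lt with e | e
  · refine Triv.reindex (Fintype.equivFinOfCardEq e.symm).symm
      (top_row A hp hm hq hd hr hr2 hρ ?_)
    rwa [Um, (Fintype.equivFinOfCardEq e.symm).symm.surjective.range_comp]
  · have := IsLocalization.isNoetherianRing (Submonoid.powers ρ) A inferInstance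
    obtain ⟨t, ht⟩ := hρ
    exact bass (dim_away (ρ := ρ) (ht ▸ Ideal.mul_mem_right _ _ hr) (n := q + 1) hd.le) κ e v hv

end Pool.Agent.Lib.MP_a37f0b_ag.Q4
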