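import Pool.Agent.Lib.MP_a37f0b_ag.Q4.Dv2
import Pool.Agent.Lib.MP_a37f0b_ag.Q4.Hom
import Pool.Agent.Lib.MP_a37f0b_ag.Q4.Top
import Pool.Agent.Lib.MP_a37f0b_ag.Unram

/-! The question of Nori and Rao in dimension four and in top rank. -/

open IsLocalRing Pool.Agent.Lib.MP_a37f0b_ag.Pop

namespace Pool.Agent.Lib.MP_a37f0b_ag.Q4

variable {R : Type} [CommRing R] [IsRegularLocalRing R] {t : ℕ}

/-- Part of a regular system of parameters. -/
def Par (r : Fin t → R) : Prop := (∀ i, r i ∈ maximalIdeal R) ∧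
  ∀ a : Fin t → R, ∑ i, a i * r i ∈ maximalIdeal R ^ 2 → ∀ i, a i ∈ maximalIdeal R

theorem Par.sq {r : Fin t → R} (h : Par r) (i : Fin t) : r i ∉ maximalIdeal R ^ 2 := fun e => by
  have := h.2 (Pi.single i 1) (by simpa [Pi.single_apply] using e) i
  simp at this

theorem Par.ne {r : Fin t → R} (h : Par r) : ∏ i, r i ≠ 0 :=
  have : IsDomain R := reg_domain
  Finset.prod_ne_zero_iff.2 fun i _ e => h.sq i (e ▸ zero_mem _)

theorem Par.tail {r : Fin (t + 1) → R} (h : Par r) : Par fun i : Fin t => r i.succ :=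
  ⟨fun _ => h.1 _, fun a e i => h.2 (Fin.cons 0 a) (by simpa [Fin.sum_univ_succ] using e) i.succ⟩

theorem Par.quot {r : Fin (t + 1) → R} (h : Par r) [IsRegularLocalRing (R ⧸ Ideal.span {r 0})] :
    Par fun i : Fin t => Ideal.Quotient.mk (Ideal.span {r 0}) (r i.succ) := by
  have e := map_maximalIdeal_of_surjective (Ideal.Quotient.mk (Ideal.span {r 0}))
    Ideal.Quotient.mk_surjective
  refine ⟨fun i => e ▸ Ideal.mem_map_of_mem _ (h.1 _), fun a ha i => ?_⟩
  choose a' h' using fun i => Ideal.Quotient.mk_surjective (a i)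
  simp only [← h', ← map_mul, ← map_sum, ← e, ← Ideal.map_pow] at ha ⊢
  obtain ⟨y, hy, z, hz, e'⟩ := Submodule.mem_sup.1 (Ideal.mem_quotient_iff_mem_sup.1 ha)
  obtain ⟨k, rfl⟩ := Ideal.mem_span_singleton'.1 hz
  refine Ideal.mem_map_of_mem _ (h.2 (Fin.cons (-k) a') ?_ i.succ)
  rw [Fin.sum_univ_succ]
  simp only [Fin.cons_zero, Fin.cons_succ, ← e']
  convert hy using 1
  ring

theorem fin_dim {x : R} (hx : x ≠ 0) {n : ℕ} (hd : ringKrullDim R ≤ (n + 1 : ℕ)) :
    ringKrullDim (R ⧸ Ideal.span {x}) ≤ n := by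
  have : IsDomain R := reg_domain
  exact ENat.WithBot.add_le_add_one_right_iff.1 ((ringKrullDim_quotient_succ_le_of_nonZeroDivisor
    (mem_nonZeroDivisors_of_ne_zero hx)).trans (by exact_mod_cast hd))

theorem fin_loc (R : Type) [CommRing R] [IsLocalRing R] : AF R := fun _ _ _ _ _ =>
  Module.free_of_flat_of_isLocalRing

theorem fin_s2 : S2 R :=
  have := IsLocalization.away_of_isUnit_of_bijective (R := R) R isUnit_one Function.bijective_id
  s2_away (ρ := (1 : R)) one_ne_zero R

/-- Either the ring contains a field or it has mixed characteristic. -/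
theorem equi_or {r : Fin t → R} (h : Par r) : AF (Localization.Away (∏ i, r i)) ∨
    (CharZero R ∧ ∃ p : ℕ, p.Prime ∧ (p : R) ∈ maximalIdeal R) := by
  have : IsDomain R := reg_domain
  set P := (maximalIdeal R).comap (Int.castRingHom R)
  obtain ⟨π, hπ⟩ : ∃ π : ℕ, Ideal.span {(π : ℤ)} = P :=
    ⟨(Submodule.IsPrincipal.generator P).natAbs, by
      rw [Int.span_natAbs, Ideal.span_singleton_generator]⟩
  by_cases h0 : (π : R) = 0
  · have : PerfectField P.ResidueField := by
      by_cases hP : P = ⊥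
      · have := charZero_of_injective_algebraMap ((RingHom.injective_iff_ker_eq_bot _).2
          ((Ideal.ker_algebraMap_residueField P).trans hP))
        infer_instance
      · have := Ring.DimensionLEOne.maximalOfPrime hP inferInstance
        have := Ideal.finiteQuotientOfFreeOfNeBot P hP
        have := Finite.of_surjective _ (Ideal.bijective_algebraMap_quotient_residueField P).2
        infer_instance
    exact .inl fun M _ _ _ _ => (unram (Int.castRingHom R) hπ h.1 h.2 fun I => .inl (by
      simp [h0])).free M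
  · have h1 : π ≠ 0 := fun e => h0 (by simp [e])
    have h2 : π.Prime := Int.prime_iff_natAbs_prime.1 ((Ideal.span_singleton_prime
      (Int.natCast_ne_zero.2 h1)).1 (hπ ▸ inferInstance))
    refine .inr ⟨?_, π, h2, by simpa [P] using hπ.le (Ideal.mem_span_singleton_self _)⟩
    obtain ⟨p, hp⟩ := CharP.exists R
    rcases CharP.char_is_prime_or_zero R p with e | rfl
    · have : (π : ℤ) ∣ p := Ideal.mem_span_singleton.1 (hπ.ge (by simp [P]))
      rw [(Nat.prime_dvd_prime_iff_eq h2 e).1 (Int.natCast_dvd_natCast.1 this)] at h0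
      exact absurd (CharP.cast_eq_zero R p) h0
    · exact CharP.charP_to_charZero R

theorem tr_or {r : Fin (t + 1) → R} (h : Par r) {n : ℕ} (hd : ringKrullDim R ≤ (n + 4 : ℕ)) :
    AF (Localization.Away (∏ i, r i)) ∨ TR (Localization.Away (∏ i, r i)) (n + 4) := by
  refine (equi_or h).imp_right fun ⟨_, p, hp, hm⟩ => ?_
  by_cases h3 : ringKrullDim R ≤ (n + 2 + 1 : ℕ)
  · exact bass (dim_away (Ideal.prod_mem _ (Finset.mem_univ 0) (h.1 0)) h3)
  · refine top (q := n + 2) _ hp hm (by omega) ?_ (h.1 0) (h.sq 0)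
      (Finset.dvd_prod_of_mem r (Finset.mem_univ 0))
    rw [← IsRegularLocalRing.spanFinrank_maximalIdeal] at hd h3 ⊢
    norm_cast at hd h3 ⊢
    omega

theorem fin_mem {S : Type} [CommRing S] {r b c x : S} :
    Ideal.Quotient.mk (Ideal.span {r}) x ∈ Ideal.span {Ideal.Quotient.mk (Ideal.span {r}) b,
      Ideal.Quotient.mk (Ideal.span {r}) c} ↔ x ∈ Ideal.span {r, b, c} := by
  rw [← Set.image_pair, ← Ideal.map_span, Ideal.mem_quotient_iff_mem_sup, sup_comm,
    ← Ideal.span_insert]

/-- One more divisor. -/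
theorem step {S A : Type} [CommRing S] [IsDomain S] [IsNoetherianRing S] [CommRing A] [Algebra S A]
    {r : S} [IsLocalization.Away r A] (hr : Prime r) (h1 : S2 S) (h2 : S2 (S ⧸ Ideal.span {r}))
    {m : Ideal S} (hs : ∀ b c : S ⧸ Ideal.span {r}, Reg2 b c → ∀ x,
      (∀ μ ∈ m.map (Ideal.Quotient.mk _), μ * x ∈ Ideal.span {b, c}) → x ∈ Ideal.span {b, c})
    (h3 : GD S m 3) (h4 : GD (S ⧸ Ideal.span {r}) (m.map (Ideal.Quotient.mk _)) 2) (hS : AF S)
    (hB : AF (S ⧸ Ideal.span {r})) (hT : TR A 4) {w : Fin 3 → A} (hw : Um w) :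
    Module.Free A (Ker w) := by
  obtain ⟨a, b, c, g, hb, hc, rbc, bc⟩ := nf_dev hr h1 h2 hw
  have := (Ideal.span_singleton_prime hr.ne_zero).2 hr
  have e : ∀ x, x ∈ Ideal.span {r, b} ↔
      Ideal.Quotient.mk (Ideal.span {r}) b ∣ Ideal.Quotient.mk (Ideal.span {r}) x := fun x => by
    rw [← Ideal.mem_span_singleton, ← Set.image_singleton, ← Ideal.map_span,
      Ideal.mem_quotient_iff_mem_sup, sup_comm, ← Ideal.span_insert]
  have := dev hr hb hc bc rbc (m := m) (fun x hx => fin_mem.1 (hs _ _ ⟨fun y hy => ?_, fun y hy => ?_⟩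
    _ fun μ hμ => ?_)) h3 h4 hS hB hT (g.span.trans hw)
  · exact .of_equiv g.ker.some.symm
  · exact (mul_eq_zero.1 hy).resolve_left fun h =>
      hb (Ideal.mem_span_singleton.1 (Ideal.Quotient.eq_zero_iff_mem.1 h))
  · obtain ⟨y, rfl⟩ := Ideal.Quotient.mk_surjective y
    exact (e y).1 (rbc y ((e _).2 hy))
  · obtain ⟨ν, hν, rfl⟩ := (Ideal.mem_map_iff_of_surjective _ Ideal.Quotient.mk_surjective).1 hμ
    exact fin_mem.2 (hx ν hν)

theorem fin_af {r : Fin (t + 1) → R} (h : Par r) (hd : ringKrullDim R ≤ (4 : ℕ))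
    (H : TR (Localization.Away (∏ i, r i)) 4 → ∀ w : Fin 3 → Localization.Away (∏ i, r i), Um w →
      Module.Free (Localization.Away (∏ i, r i)) (Ker w)) : AF (Localization.Away (∏ i, r i)) := by
  have : IsDomain R := reg_domain
  have := IsLocalization.isDomain_localization (powers_le_nonZeroDivisors_of_noZeroDivisors h.ne)
  refine (tr_or h (n := 0) hd).elim id fun hT P _ _ _ _ => ?_
  obtain ⟨k, l, ⟨e⟩⟩ := stably (∏ i, r i) (Localization.Away (∏ i, r i)) P
  exact free_of_three hT (H hT) e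

theorem fin_one {r : Fin 1 → R} (h : Par r) (hd : ringKrullDim R ≤ (4 : ℕ)) :
    AF (Localization.Away (∏ i, r i)) := by
  have : IsDomain R := reg_domain
  have := reg_quot (h.1 0) (h.sq 0)
  have h0 : r 0 ≠ 0 := fun e => h.sq 0 (e ▸ zero_mem _)
  have hr : Prime (r 0) := (Ideal.span_singleton_prime h0).1
    ((Ideal.Quotient.isDomain_iff_prime _).1 reg_domain)
  have : IsLocalization.Away (r 0) (Localization.Away (∏ i, r i)) :=
    .of_associated (Associated.of_eq (Fin.prod_univ_one r))
  refine fin_af h hd fun hT w hw => ?_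
  by_cases h3 : ringKrullDim R ≤ (3 : ℕ)
  · refine step hr fin_s2 fin_s2 (m := ⊤) (fun b c _ x hx => ?_) (gd_top h3) ?_ (fin_loc _)
      (fin_loc _) hT hw
    · simpa using hx 1 (by rw [Ideal.map_top]; trivial)
    · rw [Ideal.map_top]
      exact gd_top (fin_dim h0 h3)
  · have e := map_maximalIdeal_of_surjective (Ideal.Quotient.mk (Ideal.span {r 0}))
      Ideal.Quotient.mk_surjective
    refine step hr fin_s2 fin_s2 (m := maximalIdeal R) (fun b c h' => ?_) (gd_max hd) ?_
      (fin_loc _) (fin_loc _) hT hw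
    · rw [e]
      refine soc_three ?_ h'
      have h1 := ringKrullDim_le_ringKrullDim_quotient_add_encard {r 0}
        (by simpa [ringJacobson_eq_maximalIdeal] using h.1 0)
      rw [Set.encard_singleton, ← IsRegularLocalRing.spanFinrank_maximalIdeal] at h1
      rw [← IsRegularLocalRing.spanFinrank_maximalIdeal] at h1 h3 ⊢
      norm_cast at h1 h3 ⊢
      omega
    · rw [e]
      exact gd_max (fin_dim h0 hd)

theorem dim_four (t : ℕ) : ∀ (R : Type) [CommRing R] [IsRegularLocalRing R] (r : Fin t → R),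
    Par r → ringKrullDim R ≤ (4 : ℕ) → AF (Localization.Away (∏ i, r i)) := by
  induction t with
  | zero =>
    exact fun R _ _ r _ _ => (fin_loc R).of_equiv (IsLocalization.atUnit R _ (∏ i, r i)
      (by simp)).toRingEquiv
  | succ t ih =>
    intro R _ _ r h hd
    rcases t with _ | t
    · exact fin_one h hd
    have : IsDomain R := reg_domain
    have := reg_quot (h.1 0) (h.sq 0)
    have : IsDomain (R ⧸ Ideal.span {r 0}) := reg_domain
    have h0 : r 0 ≠ 0 := fun e => h.sq 0 (e ▸ zero_mem _)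
    have hq := fin_dim h0 hd
    refine fin_af h hd fun hT w hw => ?_
    let ρ := ∏ i : Fin (t + 1), r i.succ
    let S := Localization.Away ρ
    have hn := powers_le_nonZeroDivisors_of_noZeroDivisors h.tail.ne
    have : IsDomain S := IsLocalization.isDomain_localization hn
    let x := algebraMap R S (r 0)
    have : IsLocalization.Away (∏ i, r i) (Localization.Away x) :=
      Fin.prod_univ_succ r ▸ .mul S _ ρ (r 0)
    let e := IsLocalization.algEquiv (.powers (∏ i, r i)) (Localization.Away x)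
      (Localization.Away (∏ i, r i))
    let _ := (e.toRingEquiv.toRingHom.comp (algebraMap S _)).toAlgebra
    have : IsLocalization.Away x (Localization.Away (∏ i, r i)) :=
      IsLocalization.isLocalization_of_algEquiv _ (AlgEquiv.ofRingEquiv (f := e.toRingEquiv) fun _ => rfl)
    let _ := (Ideal.quotientMap (I := Ideal.span {r 0}) (Ideal.span {x}) (algebraMap R S)
      (by simp [x, Ideal.span_le])).toAlgebra
    have : IsLocalization.Away (∏ i : Fin (t + 1), Ideal.Quotient.mk (Ideal.span {r 0}) (r i.succ))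
        (S ⧸ Ideal.span {x}) := by
      have := IsLocalization.of_surjective (.powers ρ) S (Ideal.Quotient.mk (Ideal.span {r 0}))
        Ideal.Quotient.mk_surjective (Ideal.Quotient.mk (Ideal.span {x}))
        Ideal.Quotient.mk_surjective rfl (by simp [x, Ideal.map_span])
      rwa [Submonoid.map_powers, map_prod] at this
    have hr : Prime x := (Ideal.span_singleton_prime fun e => h0
      (IsLocalization.injective S hn (e.trans (map_zero _).symm))).1
      ((Ideal.Quotient.isDomain_iff_prime _).1 (IsLocalization.isDomain_of_le_nonZeroDivisors _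
        (powers_le_nonZeroDivisors_of_noZeroDivisors h.quot.ne)))
    refine step hr (s2_away h.tail.ne S) (s2_away h.quot.ne _) (m := ⊤) (fun b c _ x hx => ?_)
      (gd_away (ρ := ρ) hd (Ideal.prod_mem _ (Finset.mem_univ 0) (h.tail.1 0)) S) ?_ (ih R _ h.tail hd)
      ((ih _ _ h.quot (hq.trans (by norm_cast))).of_equiv
        (IsLocalization.algEquiv (.powers (∏ i : Fin (t + 1),
          Ideal.Quotient.mk (Ideal.span {r 0}) (r i.succ))) _ _).toRingEquiv) hT hw
    · simpa using hx 1 (by rw [Ideal.map_top]; trivial)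
    · rw [Ideal.map_top]
      exact gd_away (ρ := ∏ i : Fin (t + 1), Ideal.Quotient.mk (Ideal.span {r 0}) (r i.succ)) hq
        (Ideal.prod_mem _ (Finset.mem_univ 0) (h.quot.1 0)) _

theorem main {r : Fin t → R} (h : Par r) (P : Type) [AddCommGroup P]
    [Module (Localization.Away (∏ i, r i)) P] [Module.Finite (Localization.Away (∏ i, r i)) P]
    [Module.Projective (Localization.Away (∏ i, r i)) P]
    (hP : ringKrullDim R ≤ 4 ∨
      ringKrullDim R ≤ (Module.finrank (Localization.Away (∏ i, r i)) P + 1 : ℕ)) :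
    Module.Free (Localization.Away (∏ i, r i)) P := by
  by_cases h4 : ringKrullDim R ≤ (4 : ℕ)
  · exact dim_four t R r h h4 P
  have hP := hP.resolve_left h4
  rcases t with _ | t
  · exact (fin_loc R).of_equiv (IsLocalization.atUnit R _ (∏ i, r i) (by simp)).toRingEquiv P
  have : IsDomain R := reg_domain
  have := IsLocalization.isDomain_localization (powers_le_nonZeroDivisors_of_noZeroDivisors h.ne)
  obtain ⟨n, hn⟩ : ∃ n, Module.finrank (Localization.Away (∏ i, r i)) P = n + 3 := by
    rw [← IsRegularLocalRing.spanFinrank_maximalIdeal] at hP h4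
    norm_cast at hP h4
    exact ⟨_, (Nat.sub_add_cancel (by omega)).symm⟩
  rw [hn] at hP
  refine (tr_or h (n := n) hP).elim (fun H => H P) fun hT => ?_
  obtain ⟨k, l, ⟨e⟩⟩ := stably (∏ i, r i) (Localization.Away (∏ i, r i)) P
  exact free_of_rank (m := n + 3) hT hn.ge e

end Pool.Agent.Lib.MP_a37f0b_ag.Q4
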