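import Pool.Agent.Lib.MP_a37f0b_ag.Q4.Cut

/-! The stable range theorem and cancellation. -/

open Matrix

namespace Pool.Agent.Lib.MP_a37f0b_ag.Q4

variable {A : Type} [CommRing A] {P : Type} [AddCommGroup P] [Module A P]

theorem bass [IsNoetherianRing A] {n : ℕ} (h : ringKrullDim A ≤ n) : TR A (n + 2) := by
  intro κ _ _ hκ v hv
  have key : ∀ m, m < Fintype.card κ → ∃ w, GE v w ∧ ∃ F : Finset κ, F.card = m ∧
      HT (Ideal.span (w '' F)) ⊤ m := by
    intro m
    induction m with
    | zero => exact fun _ => ⟨v, .refl v, ∅, rfl, HT.zero _ _⟩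
    | succ m ih =>
      intro hm
      obtain ⟨w, g, F, hF, H⟩ := ih (by omega)
      obtain ⟨i, -, hi⟩ := Finset.exists_mem_notMem_of_card_lt_card (t := Finset.univ)
        (show F.card < Fintype.card κ by omega)
      obtain ⟨x, hx, e⟩ := davis (x := w i) (J := Ideal.span (w '' {j | j ≠ i}))
        ((Ideal.span (w '' F)).finite_minimalPrimes_of_isNoetherianRing A) (fun P a => a.1.1)
        fun P a b => a.1.1.ne_top (top_le_iff.1 (by
          rw [← show Ideal.span (Set.range w) = ⊤ from g.span.trans hv, Ideal.span_le]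
          rintro _ ⟨j, rfl⟩
          by_cases c : j = i
          · exact b (Ideal.mem_sup_left (c ▸ Ideal.mem_span_singleton_self _))
          · exact b (Ideal.mem_sup_right (Ideal.subset_span ⟨j, c, rfl⟩))))
      refine ⟨_, g.trans (GE.add w i hx), insert i F, by rw [Finset.card_insert_of_notMem hi, hF],
        (H.succ fun P a _ => e P a).mono (sup_le (Ideal.span_mono ?_) (Ideal.span_mono ?_))
          le_rfl le_rfl⟩
      · rintro _ ⟨j, a, rfl⟩
        have a' : j ∈ F := a
        exact ⟨j, by simp [a'], Function.update_of_ne (fun c : j = i => hi (c ▸ a')) _ _⟩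
      · exact Set.singleton_subset_iff.2 ⟨i, by simp, Function.update_self ..⟩
  obtain ⟨w, g, F, hF, H⟩ := key (n + 1) hκ
  obtain ⟨i, -, hi⟩ := Finset.exists_mem_notMem_of_card_lt_card (t := Finset.univ)
    (show F.card < Fintype.card κ by omega)
  refine Triv.of_ge g (Triv.of_sub i ?_)
  by_contra c
  obtain ⟨P, hP, a⟩ := Ideal.exists_le_maximal _ c
  have l : (n : WithBot ℕ∞) < (n + 1 : ℕ) := by exact_mod_cast n.lt_succ_self
  have s : (F : Set κ) ⊆ {j | j ≠ i} := fun j (b : j ∈ F) (e : j = i) => hi (e ▸ b)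
  exact hP.ne_top (top_le_iff.1 (H.le (h.trans_lt l) hP.isPrime
    ((Ideal.span_mono (Set.image_mono s)).trans a)))

theorem bass_dot {m : ℕ} (φ : (Fin m → A) →ₗ[A] A) (x : Fin m → A) :
    (fun i => φ (Pi.single i 1)) ⬝ᵥ x = φ x := by
  rw [φ.pi_apply_eq_sum_univ x, dotProduct]
  refine Finset.sum_congr rfl fun i _ => ?_
  rw [smul_eq_mul, mul_comm]
  congr 2
  funext j
  simp [Pi.single_apply, eq_comm]

theorem bass_um {m : ℕ} {v w : Fin m → A} (h : v ⬝ᵥ w = 1) : Um w :=
  (Ideal.eq_top_iff_one _).2 (h ▸ Ideal.sum_mem _ fun i _ =>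
    Ideal.mul_mem_left _ _ (Ideal.subset_span ⟨i, rfl⟩))

theorem bass_cancel {r : ℕ} (h : TR A (r + 1)) (e : (P × A) ≃ₗ[A] (Fin (r + 1) → A)) :
    Nonempty (P ≃ₗ[A] (Fin r → A)) := by
  obtain ⟨σ, hσ, i, c, hc⟩ := h (Fin (r + 1)) (by simp) (e (0, 1))
    (bass_um ((bass_dot (LinearMap.snd A P A ∘ₗ e.symm.toLinearMap) _).trans (by simp)))
  obtain ⟨τ, -, h1, h2⟩ := El.inv hσ
  let e' := e.trans (Matrix.toLin'OfInv h1 h2)
  have he : e' (0, 1) i = c := hc.symm
  clear_value e'
  have s : ∀ p a, e' (p, a) = e' (p, 0) + a • e' (0, 1) := fun p a => by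
    rw [← map_smul, ← map_add]
    simp
  let f : P →ₗ[A] (Fin r → A) := LinearMap.pi fun j =>
    (LinearMap.proj (i.succAbove j) - (e' (0, 1) (i.succAbove j) * ↑c⁻¹) • LinearMap.proj i) ∘ₗ
      e'.toLinearMap ∘ₗ LinearMap.inl A P A
  have hf : ∀ p j, f p j =
      e' (p, 0) (i.succAbove j) - e' (0, 1) (i.succAbove j) * ↑c⁻¹ * e' (p, 0) i := fun _ _ => rfl
  refine ⟨.ofBijective f ⟨(injective_iff_map_eq_zero f).2 fun p hp => ?_, fun z => ?_⟩⟩
  · have : e' (p, -(↑c⁻¹ * e' (p, 0) i)) = 0 := by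
      rw [s]
      funext j
      refine i.succAboveCases ?_ (fun j => ?_) j
      · simp only [Pi.add_apply, Pi.smul_apply, smul_eq_mul, Pi.zero_apply, he]
        linear_combination -e' (p, 0) i * c.inv_mul
      · have := congrFun hp j
        rw [hf] at this
        simp only [Pi.add_apply, Pi.smul_apply, smul_eq_mul, Pi.zero_apply] at this ⊢
        linear_combination this
    exact congrArg Prod.fst (e'.map_eq_zero_iff.1 this)
  · obtain ⟨⟨p, a⟩, hp⟩ := e'.surjective (i.insertNth 0 z)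
    refine ⟨p, funext fun j => ?_⟩
    rw [s] at hp
    have a1 := congrFun hp i
    have a2 := congrFun hp (i.succAbove j)
    simp only [Pi.add_apply, Pi.smul_apply, smul_eq_mul, Fin.insertNth_apply_same,
      Fin.insertNth_apply_succAbove, he] at a1 a2
    rw [hf]
    linear_combination a2 - e' (0, 1) (i.succAbove j) * ↑c⁻¹ * a1 +
      a * e' (0, 1) (i.succAbove j) * c.inv_mul

theorem bass_mono {m m' : ℕ} (h : TR A m) (h' : m ≤ m') : TR A m' :=
  fun κ _ _ a => h κ (h'.trans a)

/-- Splitting off the first coordinate. -/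
noncomputable def bassCons (A : Type) [CommRing A] (k : ℕ) :
    (A × (Fin k → A)) ≃ₗ[A] (Fin (k + 1) → A) := Fin.consLinearEquiv A fun _ => A

/-- Cancellation for stably free modules. -/
theorem free_of_stably {m : ℕ} (h : TR A (m + 1)) (k : ℕ)
    (e : (P × (Fin k → A)) ≃ₗ[A] (Fin (m + k) → A)) : Nonempty (P ≃ₗ[A] (Fin m → A)) := by
  induction k with
  | zero => exact ⟨LinearEquiv.prodUnique.symm.trans e⟩
  | succ k ih =>
    obtain ⟨f⟩ := bass_cancel (P := P × (Fin k → A)) (bass_mono h (by omega : _ ≤ m + k + 1))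
      ((LinearEquiv.prodAssoc A _ _ _).trans (((LinearEquiv.refl A P).prodCongr
        ((LinearEquiv.prodComm A _ _).trans (bassCons A k))).trans e))
    exact ih f

theorem ker_row {m : ℕ} (e : (P × A) ≃ₗ[A] (Fin m → A)) :
    ∃ w : Fin m → A, Um w ∧ Nonempty (P ≃ₗ[A] Ker w) := by
  have d := bass_dot (LinearMap.snd A P A ∘ₗ e.symm.toLinearMap)
  refine ⟨_, bass_um ((dotProduct_comm _ _).trans ((d (e (0, 1))).trans (by simp))),
    ⟨.ofBijective ((e.toLinearMap ∘ₗ LinearMap.inl A P A).codRestrict _ fun p =>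
      (d _).trans (by simp)) ⟨fun p q a => ?_, fun x => ⟨(e.symm x).1, Subtype.ext ?_⟩⟩⟩⟩
  · exact congrArg Prod.fst (e.injective (congrArg Subtype.val a))
  · have : (e.symm x).2 = 0 := (d _).symm.trans x.2
    change e ((e.symm x).1, 0) = x
    rw [← this, Prod.mk.eta, e.apply_symm_apply]

theorem bass_up {m k : ℕ} (e : (P × (Fin k → A)) ≃ₗ[A] (Fin (m + k) → A)) :
    Nonempty (((P × A) × (Fin k → A)) ≃ₗ[A] (Fin (m + 1 + k) → A)) :=
  ⟨(((LinearEquiv.prodComm A P A).prodCongr (.refl A _)).trans (LinearEquiv.prodAssoc A _ _ _)).trans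
    ((((LinearEquiv.refl A A).prodCongr e).trans (bassCons A _)).trans
      (LinearEquiv.funCongrLeft A A (finCongr (by omega))))⟩

theorem bass_two {w : Fin 2 → A} (h : Um w) : Module.Free A (Ker w) := by
  obtain ⟨c, hc⟩ := Ideal.mem_span_range_iff_exists_fun.1 ((Ideal.eq_top_iff_one _).1 h)
  rw [Fin.sum_univ_two] at hc
  refine .of_equiv (LinearEquiv.ofBijective (LinearMap.toSpanSingleton A (Ker w)
    ⟨![w 1, -w 0], show w ⬝ᵥ _ = 0 by simp [dotProduct, mul_comm]⟩)
    ⟨(injective_iff_map_eq_zero _).2 fun a ha => ?_, fun x => ⟨c 1 * x.1 0 - c 0 * x.1 1, ?_⟩⟩)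
  · have a0 : a * w 1 = 0 := congrFun (congrArg Subtype.val ha) 0
    have a1 : a * -w 0 = 0 := congrFun (congrArg Subtype.val ha) 1
    linear_combination c 1 * a0 - c 0 * a1 - a * hc
  · have hx : w ⬝ᵥ x.1 = 0 := x.2
    rw [dotProduct, Fin.sum_univ_two] at hx
    refine Subtype.ext (funext (Fin.forall_fin_two.2 ⟨?_, ?_⟩))
    · change (c 1 * x.1 0 - c 0 * x.1 1) * w 1 = x.1 0
      linear_combination x.1 0 * hc - c 0 * hx
    · change (c 1 * x.1 0 - c 0 * x.1 1) * -w 0 = x.1 1
      linear_combination x.1 1 * hc - c 1 * hx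

/-- Freeness from rows: long rows are trivial and kernels of rows of length three are free. -/
theorem free_of_three [Nontrivial A] (h : TR A 4)
    (h3 : ∀ w : Fin 3 → A, Um w → Module.Free A (Ker w)) [Module.Finite A P] {k l : ℕ}
    (e : (P × (Fin k → A)) ≃ₗ[A] (Fin l → A)) : Module.Free A P := by
  obtain ⟨m, rfl⟩ := Nat.exists_eq_add_of_le' (le_of_fin_injective A
    (e.toLinearMap ∘ₗ LinearMap.inr A P _) (e.injective.comp LinearMap.inr_injective))
  have two : ∀ {Q : Type} [AddCommGroup Q] [Module A Q],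
      ((Q × (Fin k → A)) ≃ₗ[A] (Fin (2 + k) → A)) → Module.Free A Q := fun e => by
    obtain ⟨f⟩ := bass_up e
    obtain ⟨g⟩ := free_of_stably h k f
    obtain ⟨w, hw, ⟨g'⟩⟩ := ker_row g
    have := h3 w hw
    exact .of_equiv g'.symm
  obtain _ | _ | _ | m := m
  · have i := OrzechProperty.injective_of_surjective_of_injective
      (e.trans (LinearEquiv.funCongrLeft A A (finCongr (Nat.zero_add k).symm))).toLinearMap
      (LinearMap.snd A P _) (LinearEquiv.injective _) Prod.snd_surjective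
    have : Subsingleton P := ⟨fun a b => congrArg Prod.fst (@i (a, 0) (b, 0) rfl)⟩
    infer_instance
  · obtain ⟨f⟩ := bass_up e
    have := two f
    have r := f.finrank_eq
    rw [Module.finrank_prod, Module.finrank_fin_fun, Module.finrank_fin_fun] at r
    obtain ⟨w, hw, ⟨g⟩⟩ := ker_row
      (Module.finBasisOfFinrankEq A (P × A) (show _ = 2 by omega)).equivFun
    have := bass_two hw
    exact .of_equiv g.symm
  · exact two e
  · obtain ⟨g⟩ := free_of_stably (bass_mono h (by omega)) k e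
    exact .of_equiv g.symm

/-- Freeness in large rank. -/
theorem free_of_rank [Nontrivial A] {m : ℕ} (h : TR A (m + 1)) (hm : m ≤ Module.finrank A P)
    {k l : ℕ} (e : (P × (Fin k → A)) ≃ₗ[A] (Fin l → A)) : Module.Free A P := by
  have r := (rank_add_rank_le_rank_prod A P (M₁ := Fin k → A)).trans_eq e.rank_eq
  rw [rank_fin_fun, rank_fin_fun] at r
  have r2 : Module.finrank A P + k ≤ l := by
    exact_mod_cast (add_le_add_left (Cardinal.cast_toNat_of_lt_aleph0
      ((le_self_add.trans r).trans_lt Cardinal.natCast_lt_aleph0)).le _).trans r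
  obtain ⟨m', rfl⟩ := Nat.exists_eq_add_of_le' (show k ≤ l by omega)
  obtain ⟨g⟩ := free_of_stably (bass_mono h (by omega : _ ≤ m' + 1)) k e
  exact .of_equiv g.symm

end Pool.Agent.Lib.MP_a37f0b_ag.Q4
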