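import Pool.Agent.Lib.MP_a37f0b_ag.Q4.Cut
import Pool.Agent.Lib.MP_9e3d42_al.CS.Cr

/-! Generic elements. -/

open IsLocalRing

namespace Pool.Agent.Lib.MP_a37f0b_ag.Q4

open Polynomial in
theorem cplb_poly {Λ T : Type} [CommRing Λ] [CommRing T] [IsDomain T] [CharZero T] [Algebra Λ T]
    {θ : T} (n : ℕ) : ∀ Q : Λ[X], (Q.map (algebraMap Λ T)).natDegree = n →
      Q.map (algebraMap Λ T) ≠ 0 → aeval θ Q = 0 →
      ∃ Q : Λ[X], aeval θ Q = 0 ∧ aeval θ Q.derivative ≠ 0 := by
  induction n using Nat.strong_induction_on with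
  | _ n ih =>
    intro Q hn h0 hQ
    by_cases h : aeval θ Q.derivative = 0
    · have h1 : (Q.map (algebraMap Λ T)).natDegree ≠ 0 := by
        intro h2
        rw [eq_C_of_natDegree_eq_zero h2] at h0
        rw [aeval_def, ← eval_map, eq_C_of_natDegree_eq_zero h2, eval_C] at hQ
        exact h0 (by rw [hQ, C_0])
      refine ih _ ?_ Q.derivative rfl ?_ h
      · rw [← derivative_map, ← hn]
        exact natDegree_derivative_lt h1
      · rw [← derivative_map]
        exact fun h2 => h1 (derivative_eq_zero.1 h2)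
    · exact ⟨Q, hQ, h⟩

attribute [local instance] FractionRing.liftAlgebra in
theorem cplb_gen {Λ T : Type} [CommRing Λ] [IsDomain Λ] [CommRing T] [IsDomain T] [CharZero T]
    [Algebra Λ T] [FaithfulSMul Λ T] [Module.Finite Λ T] :
    ∃ (θ : T) (δ : Λ), δ ≠ 0 ∧ ∀ y : T, δ • y ∈ Algebra.adjoin Λ {θ} := by
  classical
  have : CharZero Λ := RingHom.charZero (algebraMap Λ T)
  obtain ⟨α, hα⟩ := Field.exists_primitive_element (FractionRing Λ) (FractionRing T)
  obtain ⟨t, u, hu, rfl⟩ := IsFractionRing.div_surjective (A := T) α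
  have hu0 : u ≠ 0 := nonZeroDivisors.ne_zero hu
  obtain ⟨θ, e, he, h1⟩ := Algebra.IsAlgebraic.exists_smul_eq_mul Λ t hu0
  have hu1 : algebraMap T (FractionRing T) u ≠ 0 := by simpa using hu0
  have he1 : algebraMap Λ (FractionRing Λ) e ≠ 0 := by simpa using he
  have h2 : algebraMap T (FractionRing T) t / algebraMap T (FractionRing T) u =
      (algebraMap Λ (FractionRing Λ) e)⁻¹ • algebraMap T (FractionRing T) θ := by
    rw [eq_inv_smul_iff₀ he1, algebraMap_smul, ← smul_div_assoc, div_eq_iff hu1, ← map_mul,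
      mul_comm, ← h1, Algebra.smul_def, Algebra.smul_def, map_mul,
      ← IsScalarTower.algebraMap_apply]
  have h3 : ∀ y : FractionRing T,
      y ∈ Algebra.adjoin (FractionRing Λ) {algebraMap T (FractionRing T) θ} := by
    intro y
    have h4 := IntermediateField.adjoin_simple_toSubalgebra_of_isAlgebraic
      (Algebra.IsAlgebraic.isAlgebraic (R := FractionRing Λ)
        (algebraMap T (FractionRing T) t / algebraMap T (FractionRing T) u))
    rw [hα] at h4
    have h5 : y ∈ Algebra.adjoin (FractionRing Λ)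
        {algebraMap T (FractionRing T) t / algebraMap T (FractionRing T) u} := by
      rw [← h4]; trivial
    refine Algebra.adjoin_le ?_ h5
    rw [Set.singleton_subset_iff, h2]
    exact Subalgebra.smul_mem _ (Algebra.self_mem_adjoin_singleton _ _) _
  have h6 : ∀ y : T, ∃ δ : Λ, δ ≠ 0 ∧ δ • y ∈ Algebra.adjoin Λ {θ} := by
    intro y
    obtain ⟨δ, hδ⟩ := multiple_mem_adjoin_of_mem_localization_adjoin (nonZeroDivisors Λ)
      (FractionRing Λ) _ _ (h3 (algebraMap T (FractionRing T) y))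
    refine ⟨δ, nonZeroDivisors.ne_zero δ.2, ?_⟩
    rw [← Set.image_singleton, ← IsScalarTower.coe_toAlgHom' Λ T (FractionRing T),
      ← AlgHom.map_adjoin] at hδ
    obtain ⟨z, hz, h7⟩ := hδ
    have h8 : z = (δ : Λ) • y := by
      apply IsFractionRing.injective T (FractionRing T)
      rw [Algebra.smul_def, map_mul, ← IsScalarTower.algebraMap_apply, ← Algebra.smul_def]
      exact h7
    exact h8 ▸ hz
  choose δ hδ0 hδ using h6
  obtain ⟨s, hs⟩ := Module.Finite.fg_top (R := Λ) (M := T)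
  refine ⟨θ, ∏ y ∈ s, δ y, Finset.prod_ne_zero_iff.2 fun y _ => hδ0 y, fun y => ?_⟩
  have hy : y ∈ Submodule.span Λ (s : Set T) := by rw [hs]; trivial
  induction hy using Submodule.span_induction with
  | mem y hy =>
    rw [← Finset.prod_erase_mul s δ hy, mul_smul]
    exact Subalgebra.smul_mem _ (hδ y) _
  | zero => rw [smul_zero]; exact zero_mem _
  | add x y _ _ h1 h2 => rw [smul_add]; exact add_mem h1 h2
  | smul c x _ h1 => rw [smul_comm]; exact Subalgebra.smul_mem _ h1 _

theorem cplb_prim {Λ T : Type} [CommRing Λ] [CommRing T] [IsDomain T] [CharZero T] [Algebra Λ T]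
    [Module.Finite Λ T] : ∃ (θ : T) (δ : Λ) (Q : Polynomial Λ), algebraMap Λ T δ ≠ 0 ∧
      (∀ y : T, δ • y ∈ Algebra.adjoin Λ {θ}) ∧ Polynomial.aeval θ Q = 0 ∧
      Polynomial.aeval θ Q.derivative ≠ 0 := by
  have : Module.Finite (⊥ : Subalgebra Λ T) T :=
    Module.Finite.of_restrictScalars_finite Λ (⊥ : Subalgebra Λ T) T
  obtain ⟨θ, ⟨δ, hδ⟩, h0, h1⟩ := cplb_gen (Λ := (⊥ : Subalgebra Λ T)) (T := T)
  obtain ⟨δ, rfl⟩ := Algebra.mem_bot.1 hδ
  obtain ⟨Q, hQ, hQ0⟩ : IsIntegral Λ θ := Algebra.IsIntegral.isIntegral θ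
  obtain ⟨Q', h2, h3⟩ := cplb_poly (θ := θ) _ Q rfl (hQ.map _).ne_zero hQ0
  refine ⟨θ, δ, Q', fun h => h0 (Subtype.ext h), fun y => ?_, h2, h3⟩
  have h4 : ∀ z ∈ Algebra.adjoin (⊥ : Subalgebra Λ T) {θ}, z ∈ Algebra.adjoin Λ {θ} := by
    intro z hz
    induction hz using Algebra.adjoin_induction with
    | mem x hx => exact Algebra.subset_adjoin hx
    | algebraMap r => exact bot_le (a := Algebra.adjoin Λ {θ}) r.2
    | add x y _ _ h1 h2 => exact add_mem h1 h2
    | mul x y _ _ h1 h2 => exact mul_mem h1 h2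
  rw [Algebra.smul_def]
  exact h4 _ (h1 y)

open Polynomial in
/-- A monogenic algebra over a field at whose generator a vanishing polynomial is separable. -/
theorem cplb_core {K E T Λ : Type} [Field K] [CommRing E] [Algebra K E] [CommRing T] [CommRing Λ]
    [Algebra Λ T] (π : T →+* E) (hΛ : ∀ l, ∃ k, algebraMap K E k = π (algebraMap Λ T l))
    (hE : ∀ y : E, ∃ (k : K) (t : T), y = k • π t) {θ : T} {δ : Λ} {Q : Λ[X]}
    (hδ : ∀ y : T, δ • y ∈ Algebra.adjoin Λ {θ}) (hQ : aeval θ Q = 0)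
    (hu : IsUnit (π (algebraMap Λ T δ * aeval θ Q.derivative))) : IsReduced E := by
  rcases subsingleton_or_nontrivial E with hs | hs
  · infer_instance
  rw [map_mul] at hu
  have h1 : ∀ z ∈ Algebra.adjoin Λ {θ}, π z ∈ Algebra.adjoin K {π θ} := by
    intro z hz
    induction hz using Algebra.adjoin_induction with
    | mem x hx => rw [hx]; exact Algebra.self_mem_adjoin_singleton _ _
    | algebraMap r =>
      obtain ⟨k, hk⟩ := hΛ r
      rw [← hk]; exact Subalgebra.algebraMap_mem _ _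
    | add x y _ _ h1 h2 => rw [map_add]; exact add_mem h1 h2
    | mul x y _ _ h1 h2 => rw [map_mul]; exact mul_mem h1 h2
  have h2 : ∀ y : E, ∃ g : K[X], aeval (π θ) g = y := by
    intro y
    obtain ⟨k, t, rfl⟩ := hE y
    obtain ⟨k0, hk0⟩ := hΛ δ
    have h3 : k0 ≠ 0 := by
      rintro rfl
      have := isUnit_of_mul_isUnit_left hu
      rw [← hk0, map_zero] at this
      exact not_isUnit_zero this
    have h4 := h1 _ (hδ t)
    rw [Algebra.smul_def, map_mul, ← hk0, ← Algebra.smul_def] at h4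
    have h5 : k • π t ∈ Algebra.adjoin K {π θ} := by
      rw [← inv_smul_smul₀ h3 (π t)]
      exact Subalgebra.smul_mem _ (Subalgebra.smul_mem _ h4 _) _
    rw [Algebra.adjoin_singleton_eq_range_aeval] at h5
    exact h5
  obtain ⟨P, hP⟩ : Q.map (π.comp (algebraMap Λ T)) ∈ lifts (algebraMap K E) := by
    rw [lifts_iff_coeff_lifts]
    intro n
    rw [coeff_map]
    exact hΛ _
  have hP' : P.map (algebraMap K E) = Q.map (π.comp (algebraMap Λ T)) := hP
  have h6 : aeval (π θ) P = 0 := by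
    rw [aeval_def, ← eval_map, hP', eval_map, ← hom_eval₂, ← aeval_def, hQ, map_zero]
  have h7 : IsUnit (aeval (π θ) P.derivative) := by
    rw [aeval_def, ← eval_map, ← derivative_map, hP', derivative_map, eval_map, ← hom_eval₂,
      ← aeval_def]
    exact isUnit_of_mul_isUnit_right hu
  obtain ⟨h, rfl⟩ := minpoly.dvd K (π θ) h6
  rw [derivative_mul, map_add, map_mul, map_mul, minpoly.aeval, zero_mul, add_zero] at h7
  obtain ⟨u, hu'⟩ := (isUnit_of_mul_isUnit_left h7).exists_left_inv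
  obtain ⟨r, rfl⟩ := h2 u
  obtain ⟨c, hc⟩ := minpoly.dvd K (π θ) (p := 1 - r * derivative (minpoly K (π θ)))
    (by rw [map_sub, map_one, map_mul, hu', sub_self])
  have h8 : (minpoly K (π θ)).Separable := ⟨c, r, by rw [mul_comm c, ← hc]; ring⟩
  refine ⟨fun y ⟨n, hn⟩ => ?_⟩
  obtain ⟨g, rfl⟩ := h2 y
  obtain ⟨e, rfl⟩ := h8.squarefree.isRadical n g
    (minpoly.dvd K (π θ) (by rw [map_pow, hn]))
  rw [map_mul, minpoly.aeval, zero_mul]

end Pool.Agent.Lib.MP_a37f0b_ag.Q4
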