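import Pool.Agent.Lib.MP_a37f0b_ag.Q4.Cpl2

/-! Complete Nakayama lemma and reduced curves. -/

open IsLocalRing

namespace Pool.Agent.Lib.MP_a37f0b_ag.Q4

theorem cplb_mem_pi {R ι : Type} [CommRing R] [Finite ι] (J : Ideal R) (x : ι → R) :
    x ∈ (J • ⊤ : Submodule R (ι → R)) ↔ ∀ i, x i ∈ (J • ⊤ : Submodule R R) := by
  classical
  cases nonempty_fintype ι
  constructor
  · intro h i
    refine Submodule.smul_induction_on h (fun r hr n _ => ?_) fun x y h1 h2 => add_mem h1 h2
    exact Submodule.smul_mem_smul hr trivial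
  · intro h
    rw [← Finset.univ_sum_single x]
    refine Submodule.sum_mem _ fun i _ => ?_
    have h1 : Pi.single i (x i) = x i • (Pi.single i 1 : ι → R) := by
      rw [← Pi.single_smul, smul_eq_mul, mul_one]
    rw [h1]
    exact Submodule.smul_mem_smul (by simpa using h i) trivial

theorem cplb_pre {R : Type} [CommRing R] (I : Ideal R) [h : IsPrecomplete I R] (ι : Type)
    [Finite ι] : IsPrecomplete I (ι → R) := ⟨fun f hf => by
  simp only [SModEq.sub_mem, cplb_mem_pi] at hf ⊢
  choose L hL using fun i => h.prec (f := fun n => f n i) fun {m n} e =>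
    SModEq.sub_mem.2 (hf e i)
  exact ⟨L, fun n i => SModEq.sub_mem.1 (hL i n)⟩⟩

/-- The complete Nakayama lemma. -/
theorem cplb_nak {R M : Type} [CommRing R] [AddCommGroup M] [Module R M] (I : Ideal R)
    [IsPrecomplete I R] [IsHausdorff I M] {s : Set M} (hs : s.Finite)
    (h : ∀ m, ∃ x ∈ Submodule.span R s, m - x ∈ (I • ⊤ : Submodule R M)) : Module.Finite R M := by
  have := hs.fintype
  have := cplb_pre I s
  refine Module.Finite.of_surjective (Fintype.linearCombination R (Subtype.val : s → M))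
    (surjective_of_mkQ_comp_surjective (I := I) fun y => ?_)
  obtain ⟨y, rfl⟩ := Submodule.mkQ_surjective _ y
  obtain ⟨x, hx, h1⟩ := h y
  rw [← Subtype.range_coe (s := s), ← Fintype.range_linearCombination] at hx
  obtain ⟨c, rfl⟩ := hx
  exact ⟨c, ((Submodule.Quotient.eq _).2 h1).symm⟩

theorem cplb_pow {W T : Type} [CommRing W] [CommRing T] [IsLocalRing T] [IsNoetherianRing T]
    [Algebra W T] (hs : ∀ a : T, ∃ o : W, a - algebraMap W T o ∈ maximalIdeal T) (n : ℕ) :
    ∃ s : Set T, s.Finite ∧ ∀ t, ∃ x ∈ Submodule.span W s, t - x ∈ maximalIdeal T ^ n := by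
  induction n with
  | zero => exact ⟨∅, Set.finite_empty, fun t => ⟨0, zero_mem _, by simp⟩⟩
  | succ n ih =>
    obtain ⟨s, h1, h2⟩ := ih
    obtain ⟨G, hG⟩ := Ideal.fg_of_isNoetherianRing (maximalIdeal T ^ n)
    have key : ∀ b ∈ Ideal.span (G : Set T), ∀ c, ∃ y ∈ Submodule.span W (G : Set T),
        c * b - y ∈ maximalIdeal T ^ (n + 1) := by
      intro b hb
      induction hb using Submodule.span_induction with
      | mem g hg =>
        intro c
        obtain ⟨o, ho⟩ := hs c
        refine ⟨o • g, Submodule.smul_mem _ _ (Submodule.subset_span hg), ?_⟩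
        rw [Algebra.smul_def, ← sub_mul, pow_succ']
        exact Ideal.mul_mem_mul ho (hG ▸ Ideal.subset_span hg)
      | zero => exact fun c => ⟨0, zero_mem _, by simp⟩
      | add x y _ _ h1 h2 =>
        intro c
        obtain ⟨q, hq, hq'⟩ := h1 c
        obtain ⟨r, hr, hr'⟩ := h2 c
        exact ⟨q + r, add_mem hq hr, by convert add_mem hq' hr' using 1; ring⟩
      | smul d x _ h1 => exact fun c => by simpa only [smul_eq_mul, mul_assoc] using h1 (c * d)
    refine ⟨s ∪ G, h1.union G.finite_toSet, fun t => ?_⟩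
    obtain ⟨x, hx, h3⟩ := h2 t
    obtain ⟨y, hy, h4⟩ := key _ (hG ▸ h3) 1
    exact ⟨x + y, add_mem (Submodule.span_mono Set.subset_union_left hx)
      (Submodule.span_mono Set.subset_union_right hy), by rwa [← sub_sub, ← one_mul (t - x)]⟩

theorem cplb_fin {W T : Type} [CommRing W] [IsDomain W] [IsDiscreteValuationRing W]
    [IsAdicComplete (maximalIdeal W) W] [CommRing T] [IsLocalRing T] [IsNoetherianRing T]
    [Algebra W T] {p : ℕ} (hp : Irreducible (p : W)) (hm : (p : T) ∈ maximalIdeal T)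
    (hs : ∀ a : T, ∃ o : W, a - algebraMap W T o ∈ maximalIdeal T) {I : Ideal T}
    (h : maximalIdeal T ≤ (I ⊔ Ideal.span {(p : T)}).radical) : Module.Finite W (T ⧸ I) := by
  obtain ⟨n, hn⟩ := Ideal.exists_pow_le_of_le_radical_of_fg h (Ideal.fg_of_isNoetherianRing _)
  obtain ⟨s, h1, h2⟩ := cplb_pow hs n
  have : IsHausdorff (maximalIdeal W) (T ⧸ I) := .of_map (S := T) (J := maximalIdeal T) (by
    rw [hp.maximalIdeal_eq, Ideal.map_span, Set.image_singleton, map_natCast]
    exact (Ideal.span_singleton_le_iff_mem _).2 hm)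
  refine cplb_nak (maximalIdeal W) (h1.image (Ideal.Quotient.mkₐ W I).toLinearMap) fun t => ?_
  obtain ⟨t, rfl⟩ := Ideal.Quotient.mk_surjective t
  obtain ⟨x, hx, h3⟩ := h2 t
  refine ⟨_, Submodule.apply_mem_span_image_of_mem_span _ hx, ?_⟩
  obtain ⟨i, hi, z, hz, h4⟩ := Submodule.mem_sup.1 (hn h3)
  obtain ⟨c, rfl⟩ := Ideal.mem_span_singleton'.1 hz
  have h5 : Ideal.Quotient.mk I t - (Ideal.Quotient.mkₐ W I).toLinearMap x =
      (p : W) • Ideal.Quotient.mk I c := by
    change Ideal.Quotient.mk I t - Ideal.Quotient.mk I x = _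
    rw [← map_sub, ← h4, map_add, Ideal.Quotient.eq_zero_iff_mem.2 hi, zero_add, map_mul,
      map_natCast, Algebra.smul_def, map_natCast, mul_comm]
  rw [h5]
  exact Submodule.smul_mem_smul (hp.maximalIdeal_eq ▸ Ideal.mem_span_singleton_self _) trivial

open MvPowerSeries in
theorem cplb_dec {W : Type} [CommRing W] {d : ℕ} (q : MvPowerSeries (Fin d) W) :
    ∃ (c : W) (g : Fin d → MvPowerSeries (Fin d) W), q = C c + ∑ i, X i * g i := by
  classical
  have hc : ∀ m : Fin d →₀ ℕ, m ≠ 0 → ∃ i, m i ≠ 0 := fun m hm => by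
    by_contra h
    push Not at h
    exact hm (Finsupp.ext h)
  choose c hc using hc
  obtain ⟨g, hg⟩ : ∃ g : Fin d → MvPowerSeries (Fin d) W, ∀ i n, coeff n (g i) =
      if ∃ h, c (n + Finsupp.single i 1) h = i then coeff (n + Finsupp.single i 1) q else 0 :=
    ⟨fun i n => if ∃ h, c (n + Finsupp.single i 1) h = i then
      coeff (n + Finsupp.single i 1) q else 0, fun _ _ => rfl⟩
  refine ⟨constantCoeff q, g, ?_⟩
  ext m
  rw [map_add, map_sum, coeff_C]
  simp only [X_def, coeff_monomial_mul, one_mul]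
  by_cases hm : m = 0
  · subst hm
    rw [if_pos rfl, Finset.sum_eq_zero, add_zero, coeff_zero_eq_constantCoeff_apply]
    intro i _
    rw [if_neg]
    simp
  · rw [if_neg hm, zero_add, Finset.sum_eq_single (c m hm)]
    · have h1 : Finsupp.single (c m hm) 1 ≤ m :=
        Finsupp.single_le_iff.2 (Nat.one_le_iff_ne_zero.2 (hc m hm))
      rw [if_pos h1, hg]
      simp only [tsub_add_cancel_of_le h1]
      rw [if_pos ⟨hm, trivial⟩]
    · intro i _ hi
      split_ifs with h1
      · rw [hg]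
        simp only [tsub_add_cancel_of_le h1]
        rw [if_neg]
        rintro ⟨_, h2⟩
        exact hi h2.symm
      · rfl
    · simp

/-- The image of the power series ring in the curve is the image of `W`. -/
theorem cplb_img {W O : Type} [CommRing W] [IsDomain W] [IsDiscreteValuationRing W] [CommRing O]
    [Algebra W O] [Module.Finite W O] {p : ℕ} (hp : Irreducible (p : W)) {d : ℕ}
    (σ : MvPowerSeries (Fin d) W →+* O) (hC : ∀ o, σ (.C o) = algebraMap W O o) {k : Fin d → ℕ}
    (hk : ∀ i, k i ≠ 0) (hX : ∀ i, σ (.X i) = (p : O) ^ k i) (l : MvPowerSeries (Fin d) W) :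
    ∃ w, algebraMap W O w = σ l := by
  have h1 : Submodule.span W (Set.range σ) ≤ Submodule.span W {1} := by
    refine Submodule.le_of_le_smul_of_le_jacobson_bot (I := maximalIdeal W)
      (IsNoetherian.noetherian _) (maximalIdeal_le_jacobson _) (Submodule.span_le.2 ?_)
    rintro _ ⟨q, rfl⟩
    obtain ⟨c, g, rfl⟩ := cplb_dec q
    rw [map_add, map_sum, hC]
    refine add_mem (Submodule.mem_sup_left ?_) (Submodule.mem_sup_right
      (Submodule.sum_mem _ fun i _ => ?_))
    · exact Submodule.mem_span_singleton.2 ⟨c, (Algebra.algebraMap_eq_smul_one c).symm⟩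
    · have h2 : σ (.X i * g i) = (p : W) ^ k i • σ (g i) := by
        rw [map_mul, hX, Algebra.smul_def, map_pow, map_natCast]
      rw [h2]
      exact Submodule.smul_mem_smul (Ideal.pow_mem_of_mem _
        (hp.maximalIdeal_eq ▸ Ideal.mem_span_singleton_self _) _ (Nat.pos_of_ne_zero (hk i)))
        (Submodule.subset_span ⟨_, rfl⟩)
  obtain ⟨w, hw⟩ := Submodule.mem_span_singleton.1 (h1 (Submodule.subset_span ⟨l, rfl⟩))
  exact ⟨w, (Algebra.algebraMap_eq_smul_one w).trans hw⟩

theorem cplb_tors {W O T Λ : Type} [CommRing W] [IsDomain W] [IsDiscreteValuationRing W]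
    [CommRing O] [Algebra W O] [CommRing T] [CommRing Λ] [Algebra Λ T] {p : ℕ}
    (hp : Irreducible (p : W)) (π : T →+* O) (hπ : Function.Surjective π)
    (hΛ : ∀ l, ∃ w, algebraMap W O w = π (algebraMap Λ T l)) {θ : T} {δ : Λ} {Q : Polynomial Λ}
    (hδ : ∀ y : T, δ • y ∈ Algebra.adjoin Λ {θ}) (hQ : Polynomial.aeval θ Q = 0) {j : ℕ}
    (hu : π (algebraMap Λ T δ * Polynomial.aeval θ Q.derivative) ∣ (p : O) ^ j) (x : O)
    (hx : IsNilpotent x) : ∃ j : ℕ, (p : W) ^ j • x = 0 := by
  let E := Localization.Away (p : O)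
  let ψ : W →+* E := (algebraMap O E).comp (algebraMap W O)
  have hpE : IsUnit (algebraMap O E p) := IsLocalization.Away.algebraMap_isUnit (p : O)
  have hψ : ∀ w : nonZeroDivisors W, IsUnit (ψ w) := by
    rintro ⟨w, hw⟩
    obtain ⟨n, u, rfl⟩ := IsDiscreteValuationRing.eq_unit_mul_pow_irreducible
      (nonZeroDivisors.ne_zero hw) hp
    change IsUnit (ψ (u * (p : W) ^ n))
    rw [map_mul, map_pow, map_natCast]
    rw [map_natCast] at hpE
    exact (u.isUnit.map ψ).mul (hpE.pow n)
  let _ : Algebra (FractionRing W) E := (IsLocalization.lift hψ).toAlgebra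
  have hK : ∀ w, algebraMap (FractionRing W) E (algebraMap W _ w) = ψ w :=
    IsLocalization.lift_eq hψ
  have : IsReduced E := by
    refine cplb_core (K := FractionRing W) ((algebraMap O E).comp π) (fun l => ?_) (fun y => ?_)
      hδ hQ ?_
    · obtain ⟨w, hw⟩ := hΛ l
      exact ⟨algebraMap W _ w, by rw [hK, RingHom.comp_apply, RingHom.comp_apply, hw]⟩
    · obtain ⟨⟨z, _, n, rfl⟩, hz⟩ := IsLocalization.surj (Submonoid.powers (p : O)) y
      obtain ⟨t, rfl⟩ := hπ z
      have h0 : algebraMap W (FractionRing W) ((p : W) ^ n) ≠ 0 :=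
        (map_ne_zero_iff _ (IsFractionRing.injective W _)).2 (pow_ne_zero n hp.ne_zero)
      refine ⟨(algebraMap W (FractionRing W) ((p : W) ^ n))⁻¹, t, ?_⟩
      rw [eq_inv_smul_iff₀ h0, Algebra.smul_def, hK, RingHom.comp_apply, RingHom.comp_apply,
        map_pow, map_natCast, mul_comm]
      exact hz
    · refine isUnit_of_dvd_unit (map_dvd (algebraMap O E) hu) ?_
      rw [map_pow]
      exact hpE.pow j
  obtain ⟨⟨_, n, rfl⟩, hn⟩ := (IsLocalization.map_eq_zero_iff (Submonoid.powers (p : O)) E x).1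
    (hx.map (algebraMap O E)).eq_zero
  exact ⟨n, by rw [Algebra.smul_def, map_pow, map_natCast]; exact hn⟩

theorem cplb_red {W T : Type} [CommRing W] [IsDomain W] [IsDiscreteValuationRing W]
    [IsAdicComplete (maximalIdeal W) W] [CommRing T] [IsDomain T] [IsLocalRing T]
    [IsNoetherianRing T] [IsAdicComplete (maximalIdeal T) T] [CharZero T] [Algebra W T] {p : ℕ}
    (hp : Irreducible (p : W)) (hm : (p : T) ∈ maximalIdeal T)
    (hs : ∀ a : T, ∃ o : W, a - algebraMap W T o ∈ maximalIdeal T) {d : ℕ}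
    (hd : ringKrullDim T ≤ (d + 1 : ℕ)) (a : Fin d → T) (ha : ∀ i, a i ∈ maximalIdeal T)
    (h : maximalIdeal T ≤ (Ideal.span (Set.range a) ⊔ Ideal.span {(p : T)}).radical) (N : ℕ) :
    ∃ k : Fin d → ℕ, (∀ i, N ≤ k i) ∧
      Module.Finite W (T ⧸ Ideal.span (Set.range fun i => a i - (p : T) ^ k i)) ∧
      ∀ x : T ⧸ Ideal.span (Set.range fun i => a i - (p : T) ^ k i), IsNilpotent x →
        ∃ j : ℕ, (p : W) ^ j • x = 0 := by
  obtain ⟨φ, h1, h2⟩ := MP_9e3d42_al.CS.exists_ev (maximalIdeal T) (algebraMap W T) a ha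
  let _ : Algebra (MvPowerSeries (Fin d) W) T := φ.toAlgebra
  have hJ : (Ideal.span (Set.range MvPowerSeries.X)).map
      (algebraMap (MvPowerSeries (Fin d) W) T) = Ideal.span (Set.range a) := by
    rw [Ideal.map_span, ← Set.range_comp]
    congr 2
    exact funext h2
  have : Module.Finite (MvPowerSeries (Fin d) W) T := by
    obtain ⟨s, hs'⟩ := (cplb_fin hp hm hs h).fg_top
    have : IsHausdorff (Ideal.span (Set.range (MvPowerSeries.X (σ := Fin d) (R := W)))) T :=
      .of_map (S := T) (J := maximalIdeal T) (by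
        rw [hJ, Ideal.span_le]
        rintro _ ⟨i, rfl⟩
        exact ha i)
    choose r hr using Ideal.Quotient.mk_surjective (I := Ideal.span (Set.range a))
    refine cplb_nak (Ideal.span (Set.range MvPowerSeries.X)) (s.finite_toSet.image r) fun t => ?_
    have key : ∀ z ∈ Submodule.span W (s : Set (T ⧸ Ideal.span (Set.range a))),
        ∃ x ∈ Submodule.span (MvPowerSeries (Fin d) W) (r '' s), Ideal.Quotient.mk _ x = z := by
      intro z hz
      induction hz using Submodule.span_induction with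
      | mem z hz => exact ⟨r z, Submodule.subset_span ⟨z, hz, rfl⟩, hr z⟩
      | zero => exact ⟨0, zero_mem _, map_zero _⟩
      | add x y _ _ e1 e2 =>
        obtain ⟨x, hx, rfl⟩ := e1
        obtain ⟨y, hy, rfl⟩ := e2
        exact ⟨x + y, add_mem hx hy, map_add _ _ _⟩
      | smul c x _ e1 =>
        obtain ⟨x, hx, rfl⟩ := e1
        refine ⟨(MvPowerSeries.C c : MvPowerSeries (Fin d) W) • x, Submodule.smul_mem _ _ hx, ?_⟩
        change Ideal.Quotient.mk _ (φ (.C c) * x) = _
        rw [h1, ← Algebra.smul_def]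
        rfl
    obtain ⟨x, hx, h3⟩ := key (Ideal.Quotient.mk _ t) (by rw [hs']; trivial)
    refine ⟨x, hx, ?_⟩
    rw [Ideal.smul_top_eq_map, hJ]
    exact Ideal.Quotient.eq.1 h3.symm
  obtain ⟨θ, δ, Q, e1, e2, e3, e4⟩ := cplb_prim (Λ := MvPowerSeries (Fin d) W) (T := T)
  have H := (HT.zero ⊥ (Ideal.span {(p : T)})).succ
    (x := algebraMap _ T δ * Polynomial.aeval θ Q.derivative) (fun P hP _ => by
      rw [Ideal.minimalPrimes_eq_subsingleton_self, Set.mem_singleton_iff] at hP
      rw [hP]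
      exact mul_ne_zero e1 e4)
  obtain ⟨κ, hκ⟩ := (H.cut (fun i k => a i - (p : T) ^ (k + N + 1)) (fun i P hP hE => by
    rw [Ideal.span_singleton_le_iff_mem] at hE
    have key : ∀ k l : ℕ, k < l → a i - (p : T) ^ (k + N + 1) ∈ P →
        a i - (p : T) ^ (l + N + 1) ∈ P → False := by
      intro k l hkl hk hl
      obtain ⟨c, rfl⟩ := Nat.exists_eq_add_of_lt hkl
      have h4 : (p : T) ^ (k + N + 1) * (1 - (p : T) ^ (c + 1)) ∈ P := by
        convert sub_mem hl hk using 1
        ring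
      rcases hP.mem_or_mem h4 with h5 | h5
      · exact hE (hP.mem_of_pow_mem _ h5)
      · exact hP.ne_top (P.eq_top_of_isUnit_mem h5 (isUnit_one_sub_self_of_mem_nonunits _
          (Ideal.pow_mem_of_mem (maximalIdeal T) hm _ c.succ_pos)))
    refine Set.Subsingleton.finite fun k hk l hl => ?_
    rcases lt_trichotomy k l with h3 | h3 | h3
    · exact (key k l h3 hk hl).elim
    · exact h3
    · exact (key l k h3 hl hk).elim)).exists
  set I := Ideal.span (Set.range fun i => a i - (p : T) ^ (κ i + N + 1)) with hI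
  have hfin : Module.Finite W (T ⧸ I) := by
    refine cplb_fin hp hm hs (h.trans (Ideal.radical_mono (sup_le ?_ le_sup_right)))
    rw [Ideal.span_le]
    rintro _ ⟨i, rfl⟩
    rw [← sub_add_cancel (a i) ((p : T) ^ (κ i + N + 1))]
    exact add_mem (Ideal.mem_sup_left (Ideal.subset_span ⟨i, rfl⟩)) (Ideal.mem_sup_right
      (Ideal.pow_mem_of_mem _ (Ideal.mem_span_singleton_self _) _ (Nat.succ_pos _)))
  refine ⟨fun i => κ i + N + 1, fun i => (Nat.le_add_left N _).trans (Nat.le_succ _), hfin, ?_⟩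
  have hrad : (p : T) ∈ (⊥ ⊔ Ideal.span {algebraMap _ T δ * Polynomial.aeval θ Q.derivative}
      ⊔ I).radical := by
    rw [Ideal.radical_eq_sInf, Submodule.mem_sInf]
    rintro P ⟨h3, hP⟩
    by_contra hp'
    have h4 := hκ P hP h3 (by rwa [Ideal.span_singleton_le_iff_mem])
    have h5 : P < maximalIdeal T :=
      lt_of_le_of_ne (le_maximalIdeal hP.ne_top) fun h6 => hp' (h6 ▸ hm)
    have h6 := (add_le_add_left h4 1).trans (Ideal.height_add_one_le_of_lt_of_isPrime h5)
    have h7 := (WithBot.coe_le_coe.2 h6).trans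
      ((Ideal.height_le_ringKrullDim_of_ne_top (maximalIdeal.isMaximal T).ne_top).trans hd)
    have h8 : 0 + 1 + d + 1 ≤ d + 1 := by exact_mod_cast h7
    omega
  obtain ⟨j, hj⟩ := hrad
  rw [bot_sup_eq] at hj
  obtain ⟨z, hz, i, hi, h3⟩ := Submodule.mem_sup.1 hj
  refine cplb_tors hp (Ideal.Quotient.mk I) Ideal.Quotient.mk_surjective
    (cplb_img hp ((Ideal.Quotient.mk I).comp φ) (fun o => by rw [RingHom.comp_apply, h1]; rfl)
      (k := fun i => κ i + N + 1) (fun i => Nat.succ_ne_zero _) fun i => ?_) e2 e3 (j := j) ?_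
  · rw [RingHom.comp_apply, h2, ← map_natCast (Ideal.Quotient.mk I), ← map_pow, Ideal.Quotient.eq]
    exact Ideal.subset_span ⟨i, rfl⟩
  · rw [← map_natCast (Ideal.Quotient.mk I), ← map_pow, ← h3, map_add,
      Ideal.Quotient.eq_zero_iff_mem.2 hi, add_zero]
    exact map_dvd _ (Ideal.mem_span_singleton.1 hz)

end Pool.Agent.Lib.MP_a37f0b_ag.Q4
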