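import Pool.Agent.Lib.MP_a37f0b_ag.Q4.Row

/-! Cutting by elements in general position. -/

open Filter

namespace Pool.Agent.Lib.MP_a37f0b_ag.Q4

variable {D : Type} [CommRing D]

/-- The primes above `I` that do not contain `E` have height at least `h`. -/
def HT (I E : Ideal D) (h : ℕ) : Prop :=
  ∀ P : Ideal D, P.IsPrime → I ≤ P → ¬ E ≤ P → (h : ℕ∞) ≤ P.height

/-- Almost all choices, made one after the other. -/
def Ev : (N : ℕ) → ((Fin N → ℕ) → Prop) → Prop
  | 0, p => p Fin.elim0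
  | N + 1, p => ∀ᶠ k in cofinite, Ev N fun κ => p (Fin.cons k κ)

theorem Ev.mono {N : ℕ} {p q : (Fin N → ℕ) → Prop} (h : Ev N p) (H : ∀ κ, p κ → q κ) : Ev N q := by
  induction N with
  | zero => exact H _ h
  | succ N ih => exact Eventually.mono h fun k hk => ih hk fun _ => H _

theorem Ev.and {N : ℕ} {p q : (Fin N → ℕ) → Prop} (h : Ev N p) (h' : Ev N q) :
    Ev N fun κ => p κ ∧ q κ := by
  induction N with
  | zero => exact ⟨h, h'⟩
  | succ N ih => exact (Eventually.and h h').mono fun k hk => ih hk.1 hk.2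

theorem Ev.all {N : ℕ} {α : Type} [Finite α] {p : α → (Fin N → ℕ) → Prop} (h : ∀ a, Ev N (p a)) :
    Ev N fun κ => ∀ a, p a κ := by
  induction N with
  | zero => exact h
  | succ N ih => exact (eventually_all.2 h).mono fun k hk => ih hk

theorem Ev.exists {N : ℕ} {p : (Fin N → ℕ) → Prop} (h : Ev N p) : ∃ κ, p κ := by
  induction N with
  | zero => exact ⟨_, h⟩
  | succ N ih =>
    obtain ⟨k, hk⟩ := Eventually.exists h
    obtain ⟨κ, hκ⟩ := ih hk
    exact ⟨_, hκ⟩

theorem HT.zero (I E : Ideal D) : HT I E 0 := by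
  intro P _ _ _
  simp

theorem HT.mono {I I' E E' : Ideal D} {h h' : ℕ} (H : HT I E h) (h1 : I ≤ I') (h2 : E' ≤ E)
    (h3 : h' ≤ h) : HT I' E' h' := by
  intro P hP a b
  exact le_trans (by exact_mod_cast h3) (H P hP (h1.trans a) fun c => b (h2.trans c))

/-- One element outside the relevant minimal primes raises the height. -/
theorem HT.succ [IsNoetherianRing D] {I E : Ideal D} {h : ℕ} (H : HT I E h) {x : D}
    (hx : ∀ P ∈ I.minimalPrimes, ¬ E ≤ P → x ∉ P) : HT (I ⊔ Ideal.span {x}) E (h + 1) := by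
  intro P hP a b
  obtain ⟨Q, hQ, e⟩ := Ideal.exists_minimalPrimes_le (le_sup_left.trans a)
  have c : ¬ E ≤ Q := fun c => b (c.trans e)
  have := hQ.1.1
  have l : Q < P := lt_of_le_of_ne e fun q => hx Q hQ c
    (q ▸ a (Ideal.mem_sup_right (Ideal.mem_span_singleton_self x)))
  refine le_trans ?_ (Ideal.height_add_one_le_of_lt_of_isPrime l)
  push_cast
  exact add_le_add_left (H Q this hQ.1.2 c) 1

theorem HT.cut [IsNoetherianRing D] {I E : Ideal D} {h : ℕ} (H : HT I E h) {N : ℕ}
    (f : Fin N → ℕ → D) (hf : ∀ i, ∀ P : Ideal D, P.IsPrime → ¬ E ≤ P → {k | f i k ∈ P}.Finite) :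
    Ev N fun κ => HT (I ⊔ Ideal.span (Set.range fun i => f i (κ i))) E (h + N) := by
  induction N generalizing I h with
  | zero => exact H.mono le_sup_left le_rfl le_rfl
  | succ N ih =>
    have a : ∀ᶠ k in cofinite, ∀ P ∈ I.minimalPrimes, ¬ E ≤ P → f 0 k ∉ P := by
      refine (eventually_all_finite (I.finite_minimalPrimes_of_isNoetherianRing D)).2
        fun P hP => ?_
      by_cases c : E ≤ P
      · exact .of_forall fun _ d => absurd c d
      · exact mem_of_superset (hf 0 P hP.1.1 c).compl_mem_cofinite fun _ d _ => d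
    refine a.mono fun k hk => (ih (H.succ hk) (fun i => f i.succ) fun i => hf i.succ).mono
      fun κ b => b.mono (sup_le (sup_le le_sup_left ?_) ?_) le_rfl (by omega)
    · exact le_sup_of_le_right (Ideal.span_mono (Set.singleton_subset_iff.2 ⟨0, rfl⟩))
    · exact le_sup_of_le_right (Ideal.span_mono (Set.range_subset_iff.2 fun i => ⟨i.succ, rfl⟩))

theorem HT.le {I E : Ideal D} {h : ℕ} (H : HT I E h) (hd : ringKrullDim D < h) {P : Ideal D}
    (hP : P.IsPrime) (hI : I ≤ P) : E ≤ P := by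
  by_contra c
  refine hd.not_ge (le_trans ?_ (Ideal.height_le_ringKrullDim_of_isPrime (I := P)))
  exact_mod_cast H P hP hI c

/-- Points of a moment curve meet a hyperplane finitely often. -/
theorem fin_bad {s : ℕ} (f t : D) (e : Fin s → D) {P : Ideal D} (hP : P.IsPrime) (ht : t ∉ P)
    (h1 : ∀ k, 0 < k → 1 - t ^ k ∉ P) (he : ∃ l, e l ∉ P) :
    {k : ℕ | f + ∑ l, (t ^ k) ^ (l.1 + 1) * e l ∈ P}.Finite := by
  obtain ⟨l, hl⟩ := he
  let φ := Ideal.Quotient.mk P
  let q : Polynomial (D ⧸ P) :=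
    Polynomial.C (φ f) + ∑ l, Polynomial.monomial (l.1 + 1) (φ (e l))
  have q0 : q ≠ 0 := fun h => hl (Ideal.Quotient.eq_zero_iff_mem.1 (by
    have := congrArg (·.coeff (l.1 + 1)) h
    simpa [q, Polynomial.coeff_monomial, Fin.val_inj] using this))
  have i : Function.Injective fun k : ℕ => φ t ^ k := by
    refine Function.Injective.of_lt_imp_ne fun a b hab c => ?_
    obtain ⟨d, rfl⟩ := Nat.exists_eq_add_of_lt hab
    refine (hP.mem_or_mem (x := t ^ a) (y := 1 - t ^ (d + 1)) ?_).elim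
      (fun x => ht (hP.mem_of_pow_mem _ x)) (h1 _ d.succ_pos)
    rw [← Ideal.Quotient.eq_zero_iff_mem, mul_sub, mul_one, ← pow_add, ← add_assoc, map_sub,
      map_pow, map_pow]
    exact sub_eq_zero.2 c
  refine ((Polynomial.finite_setOfPred_isRoot q0).preimage i.injOn).subset fun k hk => ?_
  have := Ideal.Quotient.eq_zero_iff_mem.2 hk
  simpa [q, Polynomial.eval_finsetSum, mul_comm] using this

/-- Prime avoidance for a coset. -/
theorem davis {x : D} {J : Ideal D} {T : Set (Ideal D)} (hT : T.Finite) (hp : ∀ P ∈ T, P.IsPrime)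
    (h : ∀ P ∈ T, ¬ Ideal.span {x} ⊔ J ≤ P) : ∃ j ∈ J, ∀ P ∈ T, x + j ∉ P := by
  induction T, hT using Set.Finite.induction_on with
  | empty => exact ⟨0, J.zero_mem, fun _ h => h.elim⟩
  | @insert P T _ hT ih =>
    obtain ⟨j, hj, H⟩ := ih (fun Q a => hp Q (.inr a)) fun Q a => h Q (.inr a)
    by_cases c : x + j ∈ P
    swap
    · exact ⟨j, hj, Set.forall_mem_insert.2 ⟨c, H⟩⟩
    have p := hp P (.inl rfl)
    have hT' := hT.subset (Set.sep_subset T fun Q => ¬ Q ≤ P)
    have n : ¬ J ⊓ hT'.toFinset.inf id ≤ P := by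
      rw [p.inf_le, p.inf_le']
      rintro (a | ⟨Q, a, b⟩)
      · exact h P (.inl rfl) (sup_le ((Ideal.span_singleton_le_iff_mem _).2
          ((P.add_mem_iff_left (a hj)).1 c)) a)
      · exact (hT'.mem_toFinset.1 a).2 b
    obtain ⟨y, y1, y2⟩ := SetLike.not_le_iff_exists.1 n
    have y3 : x + (j + y) ∉ P := fun a => y2 ((P.add_mem_iff_right c).1 (add_assoc x j y ▸ a))
    refine ⟨j + y, J.add_mem hj y1.1, Set.forall_mem_insert.2 ⟨y3, fun Q a b => ?_⟩⟩
    by_cases d : Q ≤ P
    · exact y3 (d b)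
    · have : y ∈ Q := Finset.inf_le (f := id) (hT'.mem_toFinset.2 ⟨a, d⟩) y1.2
      exact H Q a ((Q.add_mem_iff_left this).1 (add_assoc x j y ▸ b))

/-- Inverting an element of the maximal ideal lowers the dimension. -/
theorem dim_away {R A : Type} [CommRing R] [IsLocalRing R] [CommRing A] [Algebra R A] {ρ : R}
    (hρ : ρ ∈ IsLocalRing.maximalIdeal R) [IsLocalization.Away ρ A] {n : ℕ}
    (h : ringKrullDim R ≤ (n + 1 : ℕ)) : ringKrullDim A ≤ n := by
  refine (ringKrullDim_le_iff_height_le _).2 fun P hP => ?_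
  have l : P.under R < IsLocalRing.maximalIdeal R :=
    lt_of_le_of_ne (IsLocalRing.le_maximalIdeal (Ideal.IsPrime.under R P).ne_top) fun e =>
      hP.ne_top (P.eq_top_of_isUnit_mem (show ρ ∈ P.under R from e ▸ hρ)
        (IsLocalization.Away.algebraMap_isUnit ρ))
  have a := Ideal.height_add_one_le_of_lt_of_isPrime l
  have b := (Ideal.height_le_ringKrullDim_of_isPrime (I := IsLocalRing.maximalIdeal R)).trans h
  rw [IsLocalization.height_under (Submonoid.powers ρ)] at a
  have c : (IsLocalRing.maximalIdeal R).height ≤ (n : ℕ∞) + 1 := by exact_mod_cast b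
  exact_mod_cast (ENat.add_le_add_iff_right ENat.one_ne_top).1 (a.trans c)

end Pool.Agent.Lib.MP_a37f0b_ag.Q4
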