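import Pool.Agent.Lib.MP_a37f0b_ag.Q4.Ser
import Pool.Agent.Lib.MP_a37f0b_ag.Q4.Cut

/-! Extension of a symplectic module over a regular divisor. -/

open Matrix Pool.Agent.Lib.MP_a37f0b_ag.Pop

namespace Pool.Agent.Lib.MP_a37f0b_ag.Q4

/-- A row in normal form, its lattices, and the matrices of the pairing. -/
structure DD (S : Type) [CommRing S] where
  (a b c r : S)
  (s t : ℕ)
  u : Fin s → S
  w : Fin (t + 1) → S
  L : Matrix (Fin s) (Fin s) S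
  L1 : Matrix (Fin s) (Fin (t + 1)) S
  L2 : Matrix (Fin (t + 1)) (Fin (t + 1)) S
  hr : Prime r
  hb : ¬ r ∣ b
  hc : ¬ r ∣ c
  bc : ∀ x, b ∣ c * x → b ∣ x
  rbc : ∀ x, c * x ∈ Ideal.span {r, b} → x ∈ Ideal.span {r, b}
  pw : ∃ N : ℕ, r ^ N ∈ Ideal.span {a, b, c}
  w0 : w 0 = a
  bc_le : Ideal.span {b, c} ≤ Ideal.span (Set.range w)
  le : Ideal.span (Set.range w) ≤ Ideal.span (Set.range u)
  mem_u : ∀ x, x ∈ Ideal.span (Set.range u) ↔
    ∀ y ∈ Ideal.span (Set.range w), x * y ∈ Ideal.span {a, b, c}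
  mem_w : ∀ x, x ∈ Ideal.span (Set.range w) ↔
    ∀ y ∈ Ideal.span (Set.range u), x * y ∈ Ideal.span {a, b, c}
  ru : ∀ i, r * u i ∈ Ideal.span (Set.range w)
  sL : L.IsSymm
  sL2 : L2.IsSymm
  hL : ∀ i j, a * L i j - r * (u i * u j) ∈ Ideal.span {b, c}
  hL1 : ∀ i j, a * L1 i j - u i * w j ∈ Ideal.span {b, c}
  hL2 : ∀ i j, a * L2 i j - w i * w j ∈ Ideal.span {b, c}

variable {S : Type} [CommRing S] [IsDomain S] [IsNoetherianRing S]

omit [IsDomain S] [IsNoetherianRing S] in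
theorem dv_mem {a b c x : S} :
    x ∈ Ideal.span {a, b, c} ↔ ∃ k, a * k - x ∈ Ideal.span {b, c} := by
  rw [Ideal.mem_span_insert]
  refine ⟨fun ⟨k, z, hz, e⟩ => ⟨k, ?_⟩, fun ⟨k, h⟩ => ⟨k, _, neg_mem h, by ring⟩⟩
  rw [show a * k - x = -z by rw [e]; ring]
  exact neg_mem hz

omit [IsDomain S] [IsNoetherianRing S] in
theorem dv_dot {n : ℕ} {v : Fin n → S} {x : S} :
    x ∈ Ideal.span (Set.range v) ↔ ∃ y, v ⬝ᵥ y = x := by
  rw [Ideal.mem_span_range_iff_exists_fun]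
  exact exists_congr fun y => by rw [dotProduct_comm]; rfl

theorem exists_dd {a b c r : S} (hr : Prime r) (hb : ¬ r ∣ b) (hc : ¬ r ∣ c)
    (bc : ∀ x, b ∣ c * x → b ∣ x)
    (rbc : ∀ x, c * x ∈ Ideal.span {r, b} → x ∈ Ideal.span {r, b})
    (pw : ∃ N : ℕ, r ^ N ∈ Ideal.span {a, b, c}) :
    ∃ D : DD S, D.a = a ∧ D.b = b ∧ D.c = c ∧ D.r = r := by
  classical
  obtain ⟨N, hN⟩ := pw
  obtain ⟨l, l', h1, h2, h3, h4, h5⟩ := lattice _ hN
  obtain ⟨s, u, hu⟩ := Submodule.fg_iff_exists_fin_generating_family.1 (IsNoetherian.noetherian l')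
  obtain ⟨t, w, hw⟩ := Submodule.fg_iff_exists_fin_generating_family.1 (IsNoetherian.noetherian l)
  have ha : a ∈ l := h1 (Ideal.subset_span (by simp))
  have hu' : Ideal.span (Set.range u) = l' := hu
  have hw' : Ideal.span (Set.range (Fin.cons a w : Fin (t + 1) → S)) = l := by
    rw [Fin.range_cons, Ideal.span_insert, show Ideal.span (Set.range w) = l from hw]
    exact sup_eq_right.2 ((Ideal.span_singleton_le_iff_mem _).2 ha)
  have mu : ∀ i, u i ∈ l' := fun i => hu' ▸ Ideal.subset_span ⟨i, rfl⟩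
  have mw : ∀ i, (Fin.cons a w : Fin (t + 1) → S) i ∈ l := fun i =>
    hw' ▸ Ideal.subset_span ⟨i, rfl⟩
  have hch : ∀ x, ∃ k, x ∈ Ideal.span {a, b, c} → a * k - x ∈ Ideal.span {b, c} := fun x => by
    by_cases h : x ∈ Ideal.span {a, b, c}
    · exact (dv_mem.1 h).imp fun _ h _ => h
    · exact ⟨0, fun h' => absurd h' h⟩
  choose ch hch using hch
  set v : Fin (t + 1) → S := Fin.cons a w with hv
  exact ⟨{ a := a, b := b, c := c, r := r, s := s, t := t, u := u, w := v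
           L := of fun i j => ch (r * (u i * u j)), L1 := of fun i j => ch (u i * v j)
           L2 := of fun i j => ch (v i * v j), hr := hr, hb := hb, hc := hc, bc := bc, rbc := rbc
           pw := ⟨N, hN⟩, w0 := rfl
           bc_le := hw' ▸ (Ideal.span_mono (Set.subset_insert _ _)).trans h1
           le := by rw [hw', hu']; exact h2
           mem_u := by rw [hw', hu']; exact h3
           mem_w := by rw [hw', hu']; exact h4
           ru := fun i => hw' ▸ h5 _ (mu i)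
           sL := IsSymm.ext fun i j => by simp only [of_apply, mul_comm (u i)]
           sL2 := IsSymm.ext fun i j => by simp only [of_apply, mul_comm (v i)]
           hL := fun i j => hch _ (mul_assoc r _ _ ▸ (h4 _).1 (h5 _ (mu i)) _ (mu j))
           hL1 := fun i j => hch _ ((h3 _).1 (mu i) _ (mw j))
           hL2 := fun i j => hch _ ((h3 _).1 (h2 (mw i)) _ (mw j)) }, rfl, rfl, rfl, rfl⟩

namespace DD

variable (D : DD S)

/-- The projection to the divisor. -/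
abbrev π : S →+* S ⧸ Ideal.span {D.r} := Ideal.Quotient.mk _

theorem r_reg {x : S} (h : D.r * x ∈ Ideal.span {D.b, D.c}) : x ∈ Ideal.span {D.b, D.c} := by
  obtain ⟨y, z, e⟩ := Ideal.mem_span_pair.1 h
  obtain ⟨z1, z2, e2⟩ := Ideal.mem_span_pair.1
    (D.rbc z (Ideal.mem_span_pair.2 ⟨x, -y, by linear_combination -e⟩))
  obtain ⟨k, hk⟩ := (D.hr.dvd_or_dvd (show D.r ∣ D.b * (y + D.c * z2) from
    ⟨x - D.c * z1, by linear_combination e + D.c * e2⟩)).resolve_left D.hb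
  refine Ideal.mem_span_pair.2 ⟨k, z1, mul_left_cancel₀ D.hr.ne_zero ?_⟩
  linear_combination e + D.c * e2 - D.b * hk

theorem rp_reg (N : ℕ) {x : S} (h : D.r ^ N * x ∈ Ideal.span {D.b, D.c}) :
    x ∈ Ideal.span {D.b, D.c} := by
  induction N with
  | zero => simpa using h
  | succ N ih => exact ih (D.r_reg (by rwa [pow_succ', mul_assoc] at h))

theorem a_reg {x : S} (h : D.a * x ∈ Ideal.span {D.b, D.c}) : x ∈ Ideal.span {D.b, D.c} := by
  obtain ⟨N, hN⟩ := D.pw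
  obtain ⟨k, hk⟩ := dv_mem.1 hN
  refine D.rp_reg N ?_
  rw [show D.r ^ N * x = k * (D.a * x) - x * (D.a * k - D.r ^ N) by ring]
  exact sub_mem (Ideal.mul_mem_left _ _ h) (Ideal.mul_mem_left _ _ hk)

omit [IsNoetherianRing S] in
theorem dom : IsDomain (S ⧸ Ideal.span {D.r}) :=
  (Ideal.Quotient.isDomain_iff_prime _).2 ((Ideal.span_singleton_prime D.hr.ne_zero).2 D.hr)

omit [IsDomain S] [IsNoetherianRing S] in
theorem pi_zero {x : S} : D.π x = 0 ↔ D.r ∣ x :=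
  Ideal.Quotient.eq_zero_iff_mem.trans Ideal.mem_span_singleton

omit [IsDomain S] [IsNoetherianRing S] in
theorem pi_mem {x : S} : D.π x ∈ Ideal.span {D.π D.b, D.π D.c} ↔
    ∃ k, D.r * k - x ∈ Ideal.span {D.b, D.c} := by
  constructor
  · intro h
    obtain ⟨y, z, e⟩ := Ideal.mem_span_pair.1 h
    obtain ⟨y, rfl⟩ := Ideal.Quotient.mk_surjective y
    obtain ⟨z, rfl⟩ := Ideal.Quotient.mk_surjective z
    obtain ⟨k, hk⟩ := D.pi_zero.1 (show D.π (x - (y * D.b + z * D.c)) = 0 by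
      rw [map_sub, ← e, map_add, map_mul, map_mul, sub_self])
    exact ⟨k, Ideal.mem_span_pair.2 ⟨-y, -z, by linear_combination hk⟩⟩
  · rintro ⟨k, h⟩
    obtain ⟨y, z, e⟩ := Ideal.mem_span_pair.1 h
    refine Ideal.mem_span_pair.2 ⟨-D.π y, -D.π z, ?_⟩
    rw [show x = D.r * k - (y * D.b + z * D.c) by rw [e]; ring, map_sub, map_add, map_mul, map_mul,
      map_mul, D.pi_zero.2 dvd_rfl]
    ring

omit [IsDomain S] [IsNoetherianRing S] in
theorem mem_bcr {x : S} : x ∈ Ideal.span {D.b, D.c, D.r} ↔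
    ∃ k, D.r * k - x ∈ Ideal.span {D.b, D.c} := by
  rw [← dv_mem, Set.insert_comm D.r, Set.pair_comm D.r]

theorem reg : Reg2 D.b D.c ∧ Reg2 (D.π D.b) (D.π D.c) := by
  have := D.dom
  refine ⟨⟨fun x h => (mul_eq_zero.1 h).resolve_left fun e => D.hb (e ▸ dvd_zero _), D.bc⟩,
    fun x h => (mul_eq_zero.1 h).resolve_left fun e => D.hb (D.pi_zero.1 e), ?_⟩
  rintro x ⟨y, e⟩
  obtain ⟨x, rfl⟩ := Ideal.Quotient.mk_surjective x
  obtain ⟨y, rfl⟩ := Ideal.Quotient.mk_surjective y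
  obtain ⟨k, hk⟩ := D.pi_zero.1 (show D.π (D.c * x - D.b * y) = 0 by
    rw [map_sub, map_mul, map_mul, e, sub_self])
  obtain ⟨z1, z2, e2⟩ := Ideal.mem_span_pair.1
    (D.rbc x (Ideal.mem_span_pair.2 ⟨k, y, by linear_combination -hk⟩))
  exact ⟨D.π z2, by rw [← e2, map_add, map_mul, map_mul, D.pi_zero.2 dvd_rfl]; ring⟩

/-- No socle modulo the row. -/
def Soc (m : Ideal S) : Prop :=
  ∀ x, (∀ μ ∈ m, μ * x ∈ Ideal.span {D.a, D.b, D.c}) → x ∈ Ideal.span {D.a, D.b, D.c}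

theorem soc {m : Ideal S}
    (h : ∀ x, (∀ μ ∈ m, μ * x ∈ Ideal.span {D.r, D.b, D.c}) → x ∈ Ideal.span {D.r, D.b, D.c}) :
    D.Soc m := by
  have key : ∀ (N : ℕ) (x : S), (∀ μ ∈ m, μ * x ∈ Ideal.span {D.r ^ N, D.b, D.c}) →
      x ∈ Ideal.span {D.r ^ N, D.b, D.c} := fun N => by
    induction N with
    | zero => exact fun x _ => dv_mem.2 ⟨x, by simp⟩
    | succ N ih =>
      intro x hx
      obtain ⟨k, hk⟩ := dv_mem.1 (h x fun μ hμ => (dv_mem.1 (hx μ hμ)).elim fun k hk =>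
        dv_mem.2 ⟨D.r ^ N * k, by rwa [← mul_assoc, ← pow_succ']⟩)
      obtain ⟨j, hj⟩ := dv_mem.1 (ih k fun μ hμ => (dv_mem.1 (hx μ hμ)).elim fun j hj =>
        dv_mem.2 ⟨j, D.r_reg (by
          rw [show D.r * (D.r ^ N * j - μ * k) = D.r ^ (N + 1) * j - μ * x - μ * (D.r * k - x) by
            ring]
          exact sub_mem hj (Ideal.mul_mem_left _ _ hk))⟩)
      refine dv_mem.2 ⟨j, ?_⟩
      rw [show D.r ^ (N + 1) * j - x = D.r * (D.r ^ N * j - k) + (D.r * k - x) by ring]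
      exact add_mem (Ideal.mul_mem_left _ _ hj) hk
  intro x hx
  obtain ⟨N, hN⟩ := D.pw
  obtain ⟨e, he⟩ := dv_mem.1 hN
  obtain ⟨k, hk⟩ := dv_mem.1 (key N (e * x) fun μ hμ => (dv_mem.1 (hx μ hμ)).elim fun y hy =>
    dv_mem.2 ⟨y, by
      rw [show D.r ^ N * y - μ * (e * x) = e * (D.a * y - μ * x) - y * (D.a * e - D.r ^ N) by ring]
      exact sub_mem (Ideal.mul_mem_left _ _ hy) (Ideal.mul_mem_left _ _ he)⟩)
  refine dv_mem.2 ⟨k, D.rp_reg N ?_⟩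
  rw [show D.r ^ N * (D.a * k - x) = D.a * (D.r ^ N * k - e * x) + x * (D.a * e - D.r ^ N) by ring]
  exact add_mem (Ideal.mul_mem_left _ _ hk) (Ideal.mul_mem_left _ _ he)

/-- Relations modulo `b` and `c`. -/
def Rel {n : ℕ} (v : Fin n → S) : Submodule S (Fin n → S) :=
  Submodule.comap (Fintype.linearCombination S v) (Ideal.span {D.b, D.c})

omit [IsDomain S] [IsNoetherianRing S] in
theorem mem_rel {n : ℕ} {v x : Fin n → S} : x ∈ D.Rel v ↔ v ⬝ᵥ x ∈ Ideal.span {D.b, D.c} := by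
  rw [dotProduct_comm]; rfl

theorem pd_rel {m : Ideal S} (hs : D.Soc m) (h : GD S m 3) {n : ℕ} {v : Fin n → S} {T : Ideal S}
    (h1 : Ideal.span {D.b, D.c} ≤ Ideal.span (Set.range v))
    (h2 : ∀ x, x ∈ Ideal.span (Set.range v) ↔ ∀ y ∈ T, x * y ∈ Ideal.span {D.a, D.b, D.c}) :
    PD S ((Fin n → S) ⧸ D.Rel v) 2 := by
  let f : ((Fin n → S) ⧸ D.Rel v) →ₗ[S] S ⧸ Ideal.span {D.b, D.c} :=
    (D.Rel v).mapQ (Ideal.span {D.b, D.c}) (Fintype.linearCombination S v) le_rfl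
  let g : (S ⧸ Ideal.span {D.b, D.c}) →ₗ[S] S ⧸ Ideal.span (Set.range v) := Submodule.factor h1
  refine pd_left (f := f) (g := g) ?_ (Submodule.factor_surjective h1) (fun z => ?_)
    (pd_reg2 D.reg.1) (h _ fun z hz => ?_)
  · refine (injective_iff_map_eq_zero f).2 fun z hz => ?_
    obtain ⟨x, rfl⟩ := Submodule.Quotient.mk_surjective _ z
    exact (Submodule.Quotient.mk_eq_zero _).2
      ((Submodule.Quotient.mk_eq_zero (Ideal.span {D.b, D.c})).1 hz)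
  · obtain ⟨x, rfl⟩ := Submodule.Quotient.mk_surjective _ z
    refine (Submodule.Quotient.mk_eq_zero (Ideal.span (Set.range v))).trans ⟨fun hx => ?_, ?_⟩
    · obtain ⟨y, rfl⟩ := Ideal.mem_span_range_iff_exists_fun.1 hx
      exact ⟨Submodule.Quotient.mk y, rfl⟩
    · rintro ⟨y, hy⟩
      obtain ⟨y, rfl⟩ := Submodule.Quotient.mk_surjective _ y
      have h3 : Fintype.linearCombination S v y - x ∈ Ideal.span {D.b, D.c} :=
        (Submodule.Quotient.eq _).1 hy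
      have h4 : Fintype.linearCombination S v y ∈ Ideal.span (Set.range v) :=
        Ideal.mem_span_range_iff_exists_fun.2 ⟨y, rfl⟩
      simpa using sub_mem h4 (h1 h3)
  · obtain ⟨x, rfl⟩ := Submodule.Quotient.mk_surjective _ z
    refine (Submodule.Quotient.mk_eq_zero _).2 ((h2 x).2 fun y hy => hs _ fun μ hμ => ?_)
    rw [← mul_assoc]
    exact (h2 _).1 ((Submodule.Quotient.mk_eq_zero _).1 (hz μ hμ)) y hy

theorem pd_u {m : Ideal S} (hs : D.Soc m) (h : GD S m 3) : PD S ((Fin D.s → S) ⧸ D.Rel D.u) 2 := by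
  exact D.pd_rel hs h (D.bc_le.trans D.le) D.mem_u

theorem pd_w {m : Ideal S} (hs : D.Soc m) (h : GD S m 3) :
    PD S ((Fin (D.t + 1) → S) ⧸ D.Rel D.w) 2 := by
  exact D.pd_rel hs h D.bc_le D.mem_w

omit [IsDomain S] [IsNoetherianRing S] in
theorem aL (x : Fin D.s → S) (i : Fin D.s) :
    D.a * (D.L *ᵥ x) i - D.r * (D.u i * D.u ⬝ᵥ x) ∈ Ideal.span {D.b, D.c} := by
  have e : D.a * (D.L *ᵥ x) i - D.r * (D.u i * D.u ⬝ᵥ x) =
      ∑ j, x j * (D.a * D.L i j - D.r * (D.u i * D.u j)) := by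
    simp only [mulVec, dotProduct, Finset.mul_sum, ← Finset.sum_sub_distrib]
    exact Finset.sum_congr rfl fun j _ => by ring
  rw [e]
  exact Ideal.sum_mem _ fun j _ => Ideal.mul_mem_left _ _ (D.hL i j)

omit [IsDomain S] [IsNoetherianRing S] in
theorem pi_mulVec {n : ℕ} (M : Matrix (Fin n) (Fin n) S) (x : Fin n → S) (i : Fin n) :
    (M.map D.π *ᵥ fun j => D.π (x j)) i = D.π ((M *ᵥ x) i) := (RingHom.map_mulVec D.π M x i).symm

omit [IsDomain S] [IsNoetherianRing S] in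
theorem pi_dot {n : ℕ} (κ x : Fin n → S) :
    ((fun j => D.π (κ j)) ⬝ᵥ fun j => D.π (x j)) = D.π (κ ⬝ᵥ x) := by
  simp only [dotProduct, map_sum, map_mul]

omit [IsDomain S] [IsNoetherianRing S] in
theorem pi_lift {n : ℕ} (x : Fin n → S ⧸ Ideal.span {D.r}) :
    ∃ y : Fin n → S, (fun i => D.π (y i)) = x :=
  ⟨fun i => (Ideal.Quotient.mk_surjective (x i)).choose,
    funext fun i => (Ideal.Quotient.mk_surjective (x i)).choose_spec⟩

theorem rad_iff (x : Fin D.s → S) : (fun i => D.π (x i)) ∈ Rad (D.L.map D.π) (D.π D.b) (D.π D.c) ↔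
    D.u ⬝ᵥ x ∈ Ideal.span (Set.range D.w) := by
  simp only [mem_rad, pi_mulVec, pi_mem]
  refine ⟨fun h => (D.mem_w _).2 fun y hy => ?_, fun h i => ?_⟩
  · obtain ⟨z, rfl⟩ := Ideal.mem_span_range_iff_exists_fun.1 hy
    rw [Finset.mul_sum]
    refine Ideal.sum_mem _ fun i _ => ?_
    obtain ⟨k, hk⟩ := h i
    rw [mul_left_comm]
    refine Ideal.mul_mem_left _ _ (dv_mem.2 ⟨k, D.r_reg ?_⟩)
    rw [show D.r * (D.a * k - D.u ⬝ᵥ x * D.u i) = D.a * (D.r * k - (D.L *ᵥ x) i) +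
      (D.a * (D.L *ᵥ x) i - D.r * (D.u i * D.u ⬝ᵥ x)) by ring]
    exact add_mem (Ideal.mul_mem_left _ _ hk) (D.aL x i)
  · obtain ⟨k, hk⟩ := dv_mem.1 ((D.mem_w _).1 h _ (Ideal.subset_span ⟨i, rfl⟩))
    refine ⟨k, D.a_reg ?_⟩
    rw [show D.a * (D.r * k - (D.L *ᵥ x) i) = D.r * (D.a * k - D.u ⬝ᵥ x * D.u i) -
      (D.a * (D.L *ᵥ x) i - D.r * (D.u i * D.u ⬝ᵥ x)) by ring]
    exact sub_mem (Ideal.mul_mem_left _ _ hk) (D.aL x i)

theorem perf_B (h : PD S ((Fin D.s → S) ⧸ D.Rel D.u) 2) :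
    Perf (D.L.map D.π) (D.π D.b) (D.π D.c) := by
  intro κ hκ
  obtain ⟨κ, rfl⟩ := D.pi_lift κ
  have H : ∀ x, D.u ⬝ᵥ x ∈ Ideal.span (Set.range D.w) → κ ⬝ᵥ x ∈ Ideal.span {D.b, D.c, D.r} :=
    fun x hx => D.mem_bcr.2 (D.pi_mem.1 (D.pi_dot κ x ▸ hκ _ ((D.rad_iff x).2 hx)))
  obtain ⟨κ', k1, k2⟩ := lift_hom (G := D.Rel D.u) D.reg.1 D.reg.2
    (fun x => D.mem_rel.2 (by
      rw [dotProduct_smul]; exact Ideal.mul_mem_right _ _ (Ideal.subset_span (by simp))))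
    (fun x => D.mem_rel.2 (by
      rw [dotProduct_smul]; exact Ideal.mul_mem_right _ _ (Ideal.subset_span (by simp))))
    (fun x hx => D.mem_rel.2 (D.r_reg (by simpa only [mem_rel, dotProduct_smul, smul_eq_mul] using hx))) h κ
    fun x hx => H x (D.bc_le (D.mem_rel.1 hx))
  have H' : ∀ x, D.u ⬝ᵥ x ∈ Ideal.span (Set.range D.w) →
      ∃ k, D.r * k - κ' ⬝ᵥ x ∈ Ideal.span {D.b, D.c} := fun x hx => D.mem_bcr.1 (by
    rw [show κ' ⬝ᵥ x = κ ⬝ᵥ x - (κ - κ') ⬝ᵥ x by rw [sub_dotProduct]; ring]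
    exact sub_mem (H x hx) (Ideal.sum_mem _ fun i _ => Ideal.mul_mem_right _ _ (k2 i)))
  have ha : D.a ∈ Ideal.span (Set.range D.w) := Ideal.subset_span ⟨0, D.w0⟩
  obtain ⟨xa, hxa⟩ := dv_dot.1 (D.le ha)
  obtain ⟨θ, hθ⟩ := H' xa (hxa ▸ ha)
  have K : ∀ x, D.a * κ' ⬝ᵥ x - D.r * (θ * D.u ⬝ᵥ x) ∈ Ideal.span {D.b, D.c} := fun x => by
    have h1 := k1 (D.a • x - (D.u ⬝ᵥ x) • xa) (D.mem_rel.2 (by
      rw [dotProduct_sub, dotProduct_smul, dotProduct_smul, hxa, smul_eq_mul, smul_eq_mul,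
        mul_comm, sub_self]
      exact zero_mem _))
    rw [dotProduct_sub, dotProduct_smul, dotProduct_smul, smul_eq_mul, smul_eq_mul] at h1
    rw [show D.a * κ' ⬝ᵥ x - D.r * (θ * D.u ⬝ᵥ x) = D.a * κ' ⬝ᵥ x - D.u ⬝ᵥ x * κ' ⬝ᵥ xa -
      D.u ⬝ᵥ x * (D.r * θ - κ' ⬝ᵥ xa) by ring]
    exact sub_mem h1 (Ideal.mul_mem_left _ _ hθ)
  obtain ⟨x, hx⟩ := dv_dot.1 ((D.mem_u θ).2 fun y hy => by
    obtain ⟨z, rfl⟩ := dv_dot.1 (D.le hy)
    obtain ⟨k, hk⟩ := H' z hy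
    refine dv_mem.2 ⟨k, D.r_reg ?_⟩
    rw [show D.r * (D.a * k - θ * D.u ⬝ᵥ z) = D.a * (D.r * k - κ' ⬝ᵥ z) +
      (D.a * κ' ⬝ᵥ z - D.r * (θ * D.u ⬝ᵥ z)) by ring]
    exact add_mem (Ideal.mul_mem_left _ _ hk) (K z))
  refine ⟨fun j => D.π (x j), fun i => ?_⟩
  rw [pi_mulVec, ← map_sub, pi_mem]
  obtain ⟨k, hk⟩ := D.mem_bcr.1 (k2 i)
  have h1 := K (Pi.single i 1)
  simp only [dotProduct_single, mul_one] at h1
  have h2 : κ' i - (D.L *ᵥ x) i ∈ Ideal.span {D.b, D.c} := D.a_reg (by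
    rw [show D.a * (κ' i - (D.L *ᵥ x) i) = D.a * κ' i - D.r * (θ * D.u i) -
      (D.a * (D.L *ᵥ x) i - D.r * (D.u i * D.u ⬝ᵥ x)) by rw [hx]; ring]
    exact sub_mem h1 (D.aL x i))
  refine ⟨k, ?_⟩
  rw [show D.r * k - (κ i - (D.L *ᵥ x) i) = D.r * k - (κ i - κ' i) - (κ' i - (D.L *ᵥ x) i) by ring]
  exact sub_mem hk h2

theorem hp_B {m : Ideal S} (hs : D.Soc m) (h3 : GD S m 3)
    (h2 : GD (S ⧸ Ideal.span {D.r}) (m.map D.π) 2) (hB : AF (S ⧸ Ideal.span {D.r})) :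
    HP (D.L.map D.π) (D.π D.b) (D.π D.c) := by
  have := pp_proj D.reg.2 (D.sL.map D.π) (D.perf_B (D.pd_u hs h3)) (h2 _ fun z hz => by
    obtain ⟨x, rfl⟩ := Submodule.Quotient.mk_surjective _ z
    obtain ⟨x, rfl⟩ := D.pi_lift x
    refine (Submodule.Quotient.mk_eq_zero _).2 ((D.rad_iff x).2 ((D.mem_w _).2 fun y hy =>
      hs _ fun μ hμ => ?_))
    have h1 := (Submodule.Quotient.mk_eq_zero _).1 (hz _ (Ideal.mem_map_of_mem D.π hμ))
    have h4 := (D.rad_iff (μ • x)).1 h1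
    rw [dotProduct_smul, smul_eq_mul] at h4
    rw [← mul_assoc]
    exact (D.mem_w _).1 h4 y hy)
  exact hp_of_proj hB D.reg.2 (D.sL.map D.π)

/-- The lifted Lagrangian. -/
structure Lg where
  h : S
  Z : Matrix (Fin D.s) (Fin D.s) S
  G : Submodule S (Fin D.s → S)
  hh : ¬ D.r ∣ h
  hc : Reg2 h D.c
  sZ : Z.IsSymm
  hY : ∀ i j, h * D.L i j - D.c * Z i j ∈ Ideal.span {D.b, D.r}
  pd : PD S ((Fin D.s → S) ⧸ G) 2
  mem : ∀ x, x ∈ G ↔ ∃ y z : Fin D.s → S,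
    (∀ i, D.r ∣ (D.L *ᵥ x - (D.b • y + D.c • z)) i) ∧ ∀ i, D.r ∣ (Z *ᵥ x - h • z) i
  dual : ∀ ξ : Fin D.s → S, (∀ x ∈ G, ξ ⬝ᵥ x ∈ Ideal.span {h, D.r}) → ∃ x y z : Fin D.s → S,
    (∀ i, D.r ∣ (D.L *ᵥ x - (D.b • y + D.c • z)) i) ∧
      ∀ i, D.r ∣ (Z *ᵥ x - h • z - D.b • ξ) i

theorem exists_lg (h : HP (D.L.map D.π) (D.π D.b) (D.π D.c)) : Nonempty D.Lg := by
  have := D.dom
  obtain ⟨t, Y, Z', G, t0, sZ, hY, hG, hm, hd⟩ := h.lag D.reg.2 (D.sL.map D.π)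
  choose sec hsec using (Ideal.Quotient.mk_surjective : Function.Surjective D.π)
  have c0 : D.c ≠ 0 := fun e => D.hc (e ▸ dvd_zero _)
  obtain ⟨j, hj, hP⟩ := davis (x := sec t) (J := Ideal.span {D.r})
    (associatedPrimes.finite S (S ⧸ Ideal.span {D.c})) (fun P hP => IsAssociatedPrime.isPrime hP)
    fun P hP hle => by
      obtain ⟨z, z0, hz⟩ := (biUnion_associatedPrimes_eq_zero_divisors S _).subset
        (Set.mem_iUnion₂_of_mem hP (hle (Ideal.mem_sup_right (Ideal.mem_span_singleton_self _))))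
      obtain ⟨z, rfl⟩ := Submodule.Quotient.mk_surjective _ z
      obtain ⟨k, hk⟩ := Ideal.mem_span_singleton.1 ((Submodule.Quotient.mk_eq_zero _).1 hz)
      obtain ⟨k, rfl⟩ := (D.hr.dvd_or_dvd (show D.r ∣ D.c * k from ⟨z, hk.symm⟩)).resolve_left D.hc
      exact z0 ((Submodule.Quotient.mk_eq_zero _).2 (Ideal.mem_span_singleton.2
        ⟨k, mul_left_cancel₀ D.hr.ne_zero (hk.trans (mul_left_comm _ _ _))⟩))
  have ht : D.π (sec t + j) = t := by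
    rw [map_add, hsec, Ideal.Quotient.eq_zero_iff_mem.2 hj, add_zero]
  generalize sec t + j = g at hP ht
  have hh : ¬ D.r ∣ g := fun e => t0 (ht ▸ D.pi_zero.2 e)
  obtain ⟨Z, rfl, sZ'⟩ : ∃ Z : Matrix (Fin D.s) (Fin D.s) S, Z.map D.π = Z' ∧ Z.IsSymm :=
    ⟨Z'.map sec, by ext i j; exact hsec _, sZ.map sec⟩
  subst ht
  have e1 : ∀ x y z : Fin D.s → S, (∀ i, D.r ∣ (D.L *ᵥ x - (D.b • y + D.c • z)) i) ↔
      (D.L.map D.π *ᵥ fun i => D.π (x i)) =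
        (D.π D.b • fun i => D.π (y i)) + D.π D.c • fun i => D.π (z i) := fun x y z => by
    rw [funext_iff]
    refine forall_congr' fun i => ?_
    rw [← pi_zero, pi_mulVec, Pi.sub_apply, map_sub, sub_eq_zero]
    simp only [Pi.add_apply, Pi.smul_apply, smul_eq_mul, map_add, map_mul]
  have e2 : ∀ x z ξ : Fin D.s → S, (∀ i, D.r ∣ (Z *ᵥ x - g • z - D.b • ξ) i) ↔
      ((Z.map D.π *ᵥ fun i => D.π (x i)) - D.π g • fun i => D.π (z i)) =
        D.π D.b • fun i => D.π (ξ i) := fun x z ξ => by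
    rw [funext_iff]
    refine forall_congr' fun i => ?_
    rw [← pi_zero, Pi.sub_apply, map_sub, sub_eq_zero]
    simp only [pi_mulVec, Pi.sub_apply, Pi.smul_apply, smul_eq_mul, map_sub, map_mul]
  have e3 : ∀ x z : Fin D.s → S, (∀ i, D.r ∣ (Z *ᵥ x - g • z) i) ↔
      (Z.map D.π *ᵥ fun i => D.π (x i)) = D.π g • fun i => D.π (z i) := fun x z => by
    rw [funext_iff]
    refine forall_congr' fun i => ?_
    rw [← pi_zero, pi_mulVec, Pi.sub_apply, map_sub, sub_eq_zero]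
    simp only [Pi.smul_apply, smul_eq_mul, map_mul]
  let G' : Submodule S (Fin D.s → S) :=
    { carrier := {x | (fun i => D.π (x i)) ∈ G}
      add_mem' := fun hx hy => G.add_mem hx hy
      zero_mem' := G.zero_mem
      smul_mem' := fun a _ hx => G.smul_mem (D.π a) hx }
  refine ⟨⟨g, Z, G', hh, ⟨fun x e => (mul_eq_zero.1 e).resolve_left fun e => hh (e ▸ dvd_zero _),
    ?_⟩, sZ', fun i j => ?_, pd_quot (fun x e => (mul_eq_zero.1 e).resolve_left D.hr.ne_zero) G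
      fun _ => Iff.rfl, fun x => (hm _).trans ?_, fun ξ hξ => ?_⟩⟩
  · rintro x ⟨k, hk⟩
    by_cases k0 : (Submodule.Quotient.mk k : S ⧸ Ideal.span {D.c}) = 0
    · obtain ⟨k, rfl⟩ := Ideal.mem_span_singleton.1 ((Submodule.Quotient.mk_eq_zero _).1 k0)
      exact ⟨k, mul_left_cancel₀ c0 (hk.trans (mul_left_comm _ _ _))⟩
    · obtain ⟨P, h1, h2⟩ := Set.mem_iUnion₂.1
        ((biUnion_associatedPrimes_eq_zero_divisors S (S ⧸ Ideal.span {D.c})).superset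
          (show g ∈ _ from ⟨_, k0, (Submodule.Quotient.mk_eq_zero _).2
            (Ideal.mem_span_singleton.2 ⟨x, hk.symm⟩)⟩))
      exact absurd h2 (hP P h1)
  · have h1 : D.π g * D.π (D.L i j) = D.π D.b * Y i j + D.π D.c * D.π (Z i j) :=
      congrFun (congrFun hY i) j
    obtain ⟨k, hk⟩ := D.pi_zero.1 (show D.π (g * D.L i j - D.c * Z i j - D.b * sec (Y i j)) = 0 by
      simp only [map_sub, map_mul, hsec, h1]; ring)
    exact Ideal.mem_span_pair.2 ⟨sec (Y i j), k, by linear_combination -hk⟩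
  · refine ⟨fun ⟨y, z, h1, h2⟩ => ?_, fun ⟨y, z, h1, h2⟩ => ⟨_, _, (e1 x y z).1 h1, (e3 x z).1 h2⟩⟩
    obtain ⟨y, rfl⟩ := D.pi_lift y
    obtain ⟨z, rfl⟩ := D.pi_lift z
    exact ⟨y, z, (e1 x y z).2 h1, (e3 x z).2 h2⟩
  · obtain ⟨x, y, z, h1, h2⟩ := hd (fun i => D.π (ξ i)) fun x hx => by
      obtain ⟨x, rfl⟩ := D.pi_lift x
      obtain ⟨k, l, e⟩ := Ideal.mem_span_pair.1 (hξ x hx)
      exact ⟨D.π k, by rw [pi_dot, ← e, map_add, map_mul, map_mul, D.pi_zero.2 dvd_rfl]; ring⟩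
    obtain ⟨x, rfl⟩ := D.pi_lift x
    obtain ⟨y, rfl⟩ := D.pi_lift y
    obtain ⟨z, rfl⟩ := D.pi_lift z
    exact ⟨x, y, z, (e1 x y z).2 h1, (e2 x z ξ).2 h2⟩

end DD

end Pool.Agent.Lib.MP_a37f0b_ag.Q4
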