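import Pool.Agent.Lib.MP_a37f0b_ag.Q4.Dev
import Pool.Agent.Lib.MP_a37f0b_ag.Q4.Nf

/-! The extended pairing. -/

open Matrix Pool.Agent.Lib.MP_a37f0b_ag.Pop

namespace Pool.Agent.Lib.MP_a37f0b_ag.Q4

theorem dv2_hr {A : Type} [CommRing A] {b c h r θ : A} (e : θ ∈ Ideal.span {b, c}) :
    h * r * θ ∈ Ideal.span {b * h, c * r} := by
  obtain ⟨α, β, rfl⟩ := Ideal.mem_span_pair.1 e
  exact Ideal.mem_span_pair.2 ⟨α * r, β * h, by ring⟩

theorem dv2_one {A κ : Type} [CommRing A] [Fintype κ] [DecidableEq κ] {M : Matrix κ κ A}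
    {v : κ → A} {a b c h r α : A} {i₀ : κ} (h4 : TR A 4) (hr : IsUnit r) (hh : Reg2 h c)
    (hJ : Reg2 (b * h) (c * r)) (hM : M.IsSymm) (H : HP M (b * h) (c * r))
    (hα : a * α - 1 ∈ Ideal.span {b, c}) (hv : v i₀ = a)
    (hθ : ∀ k l, ∃ θ, M k l - h * r * θ ∈ Ideal.span {b * h, c * r} ∧
      a * θ - v k * v l ∈ Ideal.span {b, c}) : Module.Free A (Ker ![a, b, c]) := by
  set q := Ideal.Quotient.mk (Ideal.span {b, c})
  have e1 : q a * q α = 1 := by simpa using Ideal.Quotient.eq.2 hα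
  obtain ⟨θ₀, e2, e3⟩ := hθ i₀ i₀
  have e4 : q θ₀ = q a := by
    have := Ideal.Quotient.eq.2 e3
    simp only [map_mul, hv] at this
    linear_combination q α * this + (q a - q θ₀) * e1
  have e5 : ∀ k, q (if k = i₀ then 1 else v k * α) = q (v k) * q α := fun k => by
    split_ifs with e
    · rw [e, hv, e1, map_one]
    · exact map_mul _ _ _
  have := H.free h4 hJ hM (i₀ := i₀) (γ := fun k => if k = i₀ then 1 else v k * α) (if_pos rfl)
    fun k l => by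
      obtain ⟨θ, e6, e7⟩ := hθ k l
      have e8 : θ - (if k = i₀ then 1 else v k * α) * (if l = i₀ then 1 else v l * α) * θ₀ ∈
          Ideal.span {b, c} := by
        have := Ideal.Quotient.eq.2 e7
        refine Ideal.Quotient.eq.1 ?_
        simp only [map_mul] at this ⊢
        change q _ = q _ * q _ * q _
        rw [e5, e5, e4]
        linear_combination q α * this - (q θ + q (v k) * q (v l) * q α) * e1
      convert add_mem (sub_mem e6 (Ideal.mul_mem_left _ ((if k = i₀ then 1 else v k * α) *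
        (if l = i₀ then 1 else v l * α)) e2)) (dv2_hr (h := h) (r := r) e8) using 1
      ring
  have g : GE ![M i₀ i₀, b * h, c * r] ![h * r * a, b * h, c * r] := by
    refine GE.adds {1, 2} (by rintro _ (rfl | rfl) <;> rfl) fun i hi => ?_
    obtain rfl : i = 0 := by fin_cases i <;> simp_all
    rw [Set.image_pair]
    change h * r * a - M i₀ i₀ ∈ Ideal.span {b * h, c * r}
    convert neg_mem (add_mem e2 (dv2_hr (h := h) (r := r) (Ideal.Quotient.eq.1 e4))) using 1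
    ring
  exact .of_equiv (g.ker.some.trans (ker_mul hr hh).some)

variable {S : Type} [CommRing S] [IsDomain S] [IsNoetherianRing S]

omit [IsNoetherianRing S] in
theorem dv2_pr {r b x : S} (hr : Prime r) (hb : ¬ r ∣ b) (h : b ∣ r * x) : b ∣ x := by
  obtain ⟨y, e⟩ := h
  obtain ⟨z, rfl⟩ := (hr.dvd_or_dvd (e ▸ dvd_mul_right r x)).resolve_left hb
  exact ⟨z, mul_left_cancel₀ hr.ne_zero (by rw [e]; ring)⟩

omit [IsDomain S] [IsNoetherianRing S] in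
theorem dv2_sum {n : ℕ} {I : Ideal S} {M v : Fin n → S} {a k : S} (x : Fin n → S)
    (h : ∀ j, a * M j - k * v j ∈ I) : a * (M ⬝ᵥ x) - k * (v ⬝ᵥ x) ∈ I := by
  rw [dotProduct, dotProduct, Finset.mul_sum, Finset.mul_sum, ← Finset.sum_sub_distrib]
  exact I.sum_mem fun j _ => by convert I.mul_mem_right (x j) (h j) using 1; ring

omit [IsDomain S] [IsNoetherianRing S] in
theorem dv2_span {n : ℕ} {I : Ideal S} {v : Fin n → S} {x : S} (h : ∀ i, x * v i ∈ I) :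
    ∀ y ∈ Ideal.span (Set.range v), x * y ∈ I := fun y hy => by
  obtain ⟨c, rfl⟩ := Ideal.mem_span_range_iff_exists_fun.1 hy
  rw [Finset.mul_sum]
  exact I.sum_mem fun j _ => by convert I.mul_mem_left (c j) (h j) using 1; ring

omit [IsDomain S] [IsNoetherianRing S] in
theorem dv2_dot {n : ℕ} {v : Fin n → S} {x : S} (h : x ∈ Ideal.span (Set.range v)) :
    ∃ y, v ⬝ᵥ y = x := by
  obtain ⟨c, rfl⟩ := Ideal.mem_span_range_iff_exists_fun.1 h
  exact ⟨c, dotProduct_comm _ _⟩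

omit [IsDomain S] [IsNoetherianRing S] in
theorem dv2_three {a b c x θ : S} (h : a * θ - x ∈ Ideal.span {b, c}) :
    x ∈ Ideal.span {a, b, c} := by
  rw [Ideal.span_insert, show x = a * θ - (a * θ - x) by ring]
  exact sub_mem (Ideal.mem_sup_left (Ideal.mem_span_singleton.2 (dvd_mul_right _ _)))
    (Ideal.mem_sup_right h)

namespace DD

section

variable (D : DD S) (x : Fin D.s → S) (y : Fin (D.t + 1) → S)

omit [IsDomain S] [IsNoetherianRing S] in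
theorem dv2_e1 (i : Fin D.s) : D.a * ((D.L *ᵥ x) i + D.r * (D.L1 *ᵥ y) i) -
    D.r * (D.u i * (D.u ⬝ᵥ x + D.w ⬝ᵥ y)) ∈ Ideal.span {D.b, D.c} := by
  convert add_mem (dv2_sum (M := D.L i) (v := D.u) (a := D.a) (k := D.r * D.u i) x fun j => by
    rw [mul_assoc]; exact D.hL i j) (Ideal.mul_mem_left _ D.r (dv2_sum y (D.hL1 i))) using 1
  simp only [mulVec]
  ring

omit [IsDomain S] [IsNoetherianRing S] in
theorem dv2_e2 (j : Fin (D.t + 1)) : D.a * ((D.L1ᵀ *ᵥ x) j + (D.L2 *ᵥ y) j) -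
    D.w j * (D.u ⬝ᵥ x + D.w ⬝ᵥ y) ∈ Ideal.span {D.b, D.c} := by
  convert add_mem (dv2_sum (M := D.L1ᵀ j) (v := D.u) (a := D.a) (k := D.w j) x fun i => by
    rw [mul_comm (D.w j)]; exact D.hL1 i j) (dv2_sum y (D.hL2 j)) using 1
  simp only [mulVec]
  ring

theorem dv2_ux {y z : Fin D.s → S} (h : ∀ i, D.r ∣ (D.L *ᵥ x - (D.b • y + D.c • z)) i) :
    ∃ y', D.u ⬝ᵥ x + D.w ⬝ᵥ y' = 0 := by
  obtain ⟨y', e⟩ := dv2_dot ((D.mem_w (D.u ⬝ᵥ x)).2 (dv2_span fun i => by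
    obtain ⟨θ, e⟩ := h i
    refine dv2_three (θ := θ) (D.r_reg ?_)
    convert sub_mem (D.dv2_e1 x 0 i) (Ideal.mem_span_pair.2 ⟨D.a * y i, D.a * z i, rfl⟩) using 1
    simp only [Pi.sub_apply, Pi.add_apply, Pi.smul_apply, smul_eq_mul] at e
    simp only [mulVec_zero, dotProduct_zero, Pi.zero_apply]
    linear_combination (-D.a) * e))
  exact ⟨-y', by rw [dotProduct_neg, e, add_neg_cancel]⟩

end

variable {D : DD S} (E : D.Lg)

/-- The matrix of the extended pairing. -/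
def Lg.M : Matrix (Fin D.s ⊕ Fin (D.t + 1)) (Fin D.s ⊕ Fin (D.t + 1)) S :=
  fromBlocks (E.h • D.L - D.c • E.Z) ((E.h * D.r) • D.L1) ((E.h * D.r) • D.L1ᵀ)
    ((E.h * D.r) • D.L2)

theorem Lg.symm : E.M.IsSymm := by
  refine IsSymm.fromBlocks ((D.sL.smul _).sub (E.sZ.smul _)) ?_ (D.sL2.smul _)
  rw [transpose_smul]

theorem Lg.reg : Reg2 (D.b * E.h) (D.c * D.r) := by
  have hb : D.b ≠ 0 := fun h => D.hb (h ▸ dvd_zero _)
  refine ⟨fun x h => E.hc.1 x (mul_left_cancel₀ hb (by rw [← mul_assoc, h, mul_zero])), fun x h => ?_⟩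
  rw [mul_assoc] at h
  obtain ⟨y, rfl⟩ := dv2_pr D.hr D.hb (D.bc _ (dvd_of_mul_right_dvd h))
  refine mul_dvd_mul_left _ (dv2_pr D.hr E.hh (E.hc.2 _ ((mul_dvd_mul_iff_left hb).1 ?_)))
  convert h using 1
  ring

omit [IsDomain S] [IsNoetherianRing S] in
theorem Lg.inl (x : Fin D.s → S) (y : Fin (D.t + 1) → S) (i : Fin D.s) :
    (E.M *ᵥ Sum.elim x y) (.inl i) =
      E.h * ((D.L *ᵥ x) i + D.r * (D.L1 *ᵥ y) i) - D.c * (E.Z *ᵥ x) i := by
  simp [Lg.M, fromBlocks_mulVec, sub_mulVec, smul_mulVec]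
  ring

omit [IsDomain S] [IsNoetherianRing S] in
theorem Lg.inr (x : Fin D.s → S) (y : Fin (D.t + 1) → S) (j : Fin (D.t + 1)) :
    (E.M *ᵥ Sum.elim x y) (.inr j) = E.h * D.r * ((D.L1ᵀ *ᵥ x) j + (D.L2 *ᵥ y) j) := by
  simp [Lg.M, fromBlocks_mulVec, smul_mulVec]
  ring

omit [IsDomain S] [IsNoetherianRing S] in
theorem Lg.hr_mem {θ : S} (h : θ ∈ Ideal.span {D.b, D.c}) :
    E.h * D.r * θ ∈ Ideal.span {D.b * E.h, D.c * D.r} := by
  obtain ⟨α, β, rfl⟩ := Ideal.mem_span_pair.1 h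
  exact Ideal.mem_span_pair.2 ⟨α * D.r, β * E.h, by ring⟩

theorem Lg.second {x : Fin D.s → S} {y : Fin (D.t + 1) → S}
    (h : D.u ⬝ᵥ x + D.w ⬝ᵥ y ∈ Ideal.span {D.b, D.c}) (j : Fin (D.t + 1)) :
    (E.M *ᵥ Sum.elim x y) (.inr j) ∈ Ideal.span {D.b * E.h, D.c * D.r} := by
  rw [E.inr]
  exact E.hr_mem (D.a_reg (by
    simpa using add_mem (D.dv2_e2 x y j) (Ideal.mul_mem_left _ (D.w j) h)))

theorem Lg.first {x y' z' : Fin D.s → S} {y : Fin (D.t + 1) → S}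
    (h : D.u ⬝ᵥ x + D.w ⬝ᵥ y ∈ Ideal.span {D.b, D.c})
    (h' : ∀ i, D.r ∣ (D.L *ᵥ x - (D.b • y' + D.c • z')) i) (i : Fin D.s) :
    (E.M *ᵥ Sum.elim x y) (.inl i) + D.c * (E.Z *ᵥ x - E.h • z') i ∈
      Ideal.span {D.b * E.h, D.c * D.r} := by
  obtain ⟨α, ζ, e1⟩ := Ideal.mem_span_pair.1 (D.a_reg (by
    simpa using add_mem (D.dv2_e1 x y i)
      (Ideal.mul_mem_left _ D.r (Ideal.mul_mem_left _ (D.u i) h))))
  obtain ⟨θ, e2⟩ := h' i
  simp only [Pi.sub_apply, Pi.add_apply, Pi.smul_apply, smul_eq_mul] at e2 ⊢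
  obtain ⟨σ, η, e3⟩ := Ideal.mem_span_pair.1 (D.rbc (ζ - z' i) (Ideal.mem_span_pair.2
    ⟨θ + (D.L1 *ᵥ y) i, y' i - α, by linear_combination -e1 - e2⟩))
  rw [E.inl]
  exact Ideal.mem_span_pair.2 ⟨α + D.c * η, E.h * σ, by
    linear_combination E.h * e1 + E.h * D.c * e3⟩

theorem Lg.rad (x : Fin D.s → S) (y : Fin (D.t + 1) → S) :
    Sum.elim x y ∈ Rad E.M (D.b * E.h) (D.c * D.r) ↔
      D.u ⬝ᵥ x + D.w ⬝ᵥ y ∈ Ideal.span {D.b, D.c} ∧ x ∈ E.G := by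
  rw [mem_rad]
  refine ⟨fun h => ?_, fun h => ?_⟩
  · have : ∀ i, ∃ α ζ, α * D.b + ζ * D.c = (D.L *ᵥ x) i + D.r * (D.L1 *ᵥ y) i ∧
        D.r ∣ (E.Z *ᵥ x) i - E.h * ζ := fun i => by
      obtain ⟨α, β, e⟩ := Ideal.mem_span_pair.1 (h (.inl i))
      rw [E.inl] at e
      obtain ⟨ζ, e'⟩ := E.hc.2 ((E.Z *ᵥ x) i + D.r * β)
        ⟨(D.L *ᵥ x) i + D.r * (D.L1 *ᵥ y) i - α * D.b, by linear_combination e⟩
      refine ⟨α, ζ, sub_eq_zero.1 (E.hc.1 _ ?_), -β, by linear_combination e'⟩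
      linear_combination e - D.c * e'
    choose α ζ h1 h2 using this
    refine ⟨D.a_reg ?_, (E.mem x).2 ⟨α, ζ, fun i => ⟨-(D.L1 *ᵥ y) i, ?_⟩, h2⟩⟩
    · rw [mul_comm]
      refine dv2_span (fun i => D.r_reg ?_) _ (D.le (Ideal.subset_span ⟨0, D.w0⟩))
      convert sub_mem (Ideal.mul_mem_left _ D.a (Ideal.mem_span_pair.2 ⟨_, _, h1 i⟩))
        (D.dv2_e1 x y i) using 1
      ring
    · simp only [Pi.sub_apply, Pi.add_apply, Pi.smul_apply, smul_eq_mul]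
      linear_combination -h1 i
  · obtain ⟨y', z', h1, h2⟩ := (E.mem x).1 h.2
    rintro (i | j)
    · obtain ⟨θ, e⟩ := h2 i
      have := E.first h.1 h1 i
      rw [e] at this
      exact (Ideal.add_mem_iff_left _ (Ideal.mem_span_pair.2 ⟨0, θ, by ring⟩)).1 this
    · exact E.second h.1 j

omit [IsDomain S] [IsNoetherianRing S] in
theorem dv_sum {α β : Type} [Fintype β] {I : Ideal S} {a : S} {N : Matrix α β S} {p : α → S}
    {q : β → S} (h : ∀ i j, a * N i j - p i * q j ∈ I) (x : β → S) (i : α) :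
    a * (N *ᵥ x) i - p i * (q ⬝ᵥ x) ∈ I := by
  simp only [mulVec, dotProduct, Finset.mul_sum, ← Finset.sum_sub_distrib, ← mul_assoc, ← sub_mul]
  exact I.sum_mem fun j _ => I.mul_mem_right _ (h i j)

theorem Lg.hr_iff {t : S} : E.h * D.r * t ∈ Ideal.span {D.b * E.h, D.c * D.r} ↔
    t ∈ Ideal.span {D.b, D.c} := by
  simp only [Ideal.mem_span_pair]
  refine ⟨fun ⟨α, β, e⟩ => ?_, fun ⟨α, β, e⟩ => ⟨D.r * α, E.h * β, by rw [← e]; ring⟩⟩
  obtain ⟨α, rfl⟩ := ((D.hr.dvd_or_dvd (show D.r ∣ α * D.b * E.h from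
    ⟨E.h * t - β * D.c, by linear_combination e⟩)).resolve_right E.hh |> D.hr.dvd_or_dvd).resolve_right D.hb
  have e1 : D.c * β = E.h * (t - α * D.b) := mul_left_cancel₀ D.hr.ne_zero (by linear_combination e)
  obtain ⟨β, rfl⟩ := E.hc.2 β ⟨_, e1⟩
  exact ⟨α, β, sub_eq_zero.1 (E.hc.1 _ (by linear_combination e1))⟩

theorem Lg.m_inl (x : Fin D.s → S) (y : Fin (D.t + 1) → S) (i : Fin D.s) :
    (E.M *ᵥ Sum.elim x y) (.inl i) =
      E.h * ((D.L *ᵥ x) i + D.r * (D.L1 *ᵥ y) i) - D.c * (E.Z *ᵥ x) i := by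
  simp only [Lg.M, fromBlocks_mulVec, Sum.elim_comp_inl, Sum.elim_comp_inr, Sum.elim_inl, sub_mulVec,
    smul_mulVec, Pi.add_apply, Pi.sub_apply, Pi.smul_apply, smul_eq_mul]
  ring

theorem Lg.m_inr (x : Fin D.s → S) (y : Fin (D.t + 1) → S) (j : Fin (D.t + 1)) :
    (E.M *ᵥ Sum.elim x y) (.inr j) = E.h * D.r * ((D.L1ᵀ *ᵥ x) j + (D.L2 *ᵥ y) j) := by
  simp only [Lg.M, fromBlocks_mulVec, Sum.elim_comp_inl, Sum.elim_comp_inr, Sum.elim_inr,
    smul_mulVec, Pi.add_apply, Pi.smul_apply, smul_eq_mul]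
  ring

omit [IsDomain S] [IsNoetherianRing S] in
theorem dv_low (x : Fin D.s → S) (y : Fin (D.t + 1) → S) (j : Fin (D.t + 1)) :
    D.a * ((D.L1ᵀ *ᵥ x) j + (D.L2 *ᵥ y) j) - D.w j * (D.u ⬝ᵥ x + D.w ⬝ᵥ y) ∈
      Ideal.span {D.b, D.c} := by
  convert add_mem (dv_sum (N := D.L1ᵀ) (p := D.w) (q := D.u)
    (fun i j => mul_comm (D.u j) _ ▸ D.hL1 j i) x j) (dv_sum D.hL2 y j) using 1
  ring

theorem dv_up {x : Fin D.s → S} {y : Fin (D.t + 1) → S}
    (h : D.u ⬝ᵥ x + D.w ⬝ᵥ y ∈ Ideal.span {D.b, D.c}) (i : Fin D.s) :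
    (D.L *ᵥ x) i + D.r * (D.L1 *ᵥ y) i ∈ Ideal.span {D.b, D.c} := D.a_reg (by
  convert add_mem (add_mem (dv_sum (p := fun i => D.r * D.u i) (q := D.u)
    (fun i j => mul_assoc D.r _ _ ▸ D.hL i j) x i) (Ideal.mul_mem_left _ D.r (dv_sum D.hL1 y i)))
    (Ideal.mul_mem_left _ (D.r * D.u i) h) using 1
  ring)

theorem Lg.low {x : Fin D.s → S} {y : Fin (D.t + 1) → S} :
    (∀ j, (E.M *ᵥ Sum.elim x y) (.inr j) ∈ Ideal.span {D.b * E.h, D.c * D.r}) ↔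
      D.u ⬝ᵥ x + D.w ⬝ᵥ y ∈ Ideal.span {D.b, D.c} := by
  simp only [E.m_inr, E.hr_iff]
  refine ⟨fun h => D.a_reg ?_, fun h j => D.a_reg ?_⟩
  · simpa only [D.w0, sub_sub_cancel] using sub_mem (Ideal.mul_mem_left _ D.a (h 0)) (dv_low x y 0)
  · simpa only [sub_add_cancel] using add_mem (dv_low x y j) (Ideal.mul_mem_left _ (D.w j) h)

theorem Lg.up {x y₀ z : Fin D.s → S} {y : Fin (D.t + 1) → S}
    (h : D.u ⬝ᵥ x + D.w ⬝ᵥ y ∈ Ideal.span {D.b, D.c}) {i : Fin D.s}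
    (h' : D.r ∣ (D.L *ᵥ x - (D.b • y₀ + D.c • z)) i) :
    (E.M *ᵥ Sum.elim x y) (.inl i) + D.c * (E.Z *ᵥ x - E.h • z) i ∈
      Ideal.span {D.b * E.h, D.c * D.r} := by
  obtain ⟨α, β, e⟩ := Ideal.mem_span_pair.1 (dv_up h i)
  obtain ⟨k, hk⟩ := h'
  simp only [Pi.sub_apply, Pi.add_apply, Pi.smul_apply, smul_eq_mul] at hk ⊢
  obtain ⟨γ, δ, e'⟩ := Ideal.mem_span_pair.1 (D.rbc (β - z i) (Ideal.mem_span_pair.2
    ⟨k + (D.L1 *ᵥ y) i, y₀ i - α, by linear_combination -e - hk⟩))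
  exact Ideal.mem_span_pair.2 ⟨α + D.c * δ, E.h * γ, by
    rw [E.m_inl]; linear_combination E.h * e + E.h * D.c * e'⟩

theorem dv_ex {x y₀ z : Fin D.s → S} (h : ∀ i, D.r ∣ (D.L *ᵥ x - (D.b • y₀ + D.c • z)) i) :
    ∃ y, D.u ⬝ᵥ x + D.w ⬝ᵥ y = 0 := by
  obtain ⟨y, hy⟩ := (Submodule.mem_span_range_iff_exists_fun S).1 ((D.mem_w (D.u ⬝ᵥ x)).2 fun t ht => by
    obtain ⟨d, rfl⟩ := (Submodule.mem_span_range_iff_exists_fun S).1 ht
    rw [Finset.mul_sum]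
    refine Ideal.sum_mem _ fun i _ => ?_
    obtain ⟨k, hk⟩ := h i
    simp only [Pi.sub_apply, Pi.add_apply, Pi.smul_apply, smul_eq_mul] at hk
    have h1 := dv_sum (p := fun i => D.r * D.u i) (q := D.u)
      (fun i j => mul_assoc D.r _ _ ▸ D.hL i j) x i
    have h2 : D.a * k - D.u i * D.u ⬝ᵥ x ∈ Ideal.span {D.b, D.c} := D.r_reg (by
      convert sub_mem h1 (Ideal.mem_span_pair.2 ⟨D.a * y₀ i, D.a * z i, rfl⟩) using 1
      linear_combination -D.a * hk)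
    obtain ⟨α, β, e⟩ := Ideal.mem_span_pair.1 h2
    exact Ideal.mem_span_insert.2 ⟨d i * k, _, Ideal.mem_span_pair.2 ⟨-d i * α, -d i * β, rfl⟩, by
      rw [smul_eq_mul]; linear_combination d i * e⟩)
  exact ⟨-y, by rw [dotProduct_neg, dotProduct_comm D.w, ← hy]; exact add_neg_cancel _⟩

theorem Lg.perf : Perf E.M (D.b * E.h) (D.c * D.r) := by
  intro κ hκ
  have h0 : ∀ y, D.w ⬝ᵥ y ∈ Ideal.span {D.b, D.c} →
      (κ ∘ Sum.inr) ⬝ᵥ y ∈ Ideal.span {D.b * E.h, D.c * D.r} := fun y hy => by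
    simpa [dotProduct] using hκ _ ((E.rad 0 y).2 ⟨by simpa using hy, zero_mem _⟩)
  have h1 : ∀ j, ∃ l, κ (.inr j) - E.h * D.r * l ∈ Ideal.span {D.b * E.h, D.c * D.r} := fun j => by
    obtain ⟨α, β, e⟩ := Ideal.mem_span_pair.1 (h0 (Pi.single j D.c) (by
      rw [dotProduct_single]; exact Ideal.mem_span_pair.2 ⟨0, D.w j, by ring⟩))
    obtain ⟨γ, δ, e'⟩ := Ideal.mem_span_pair.1 (h0 (Pi.single j D.b) (by
      rw [dotProduct_single]; exact Ideal.mem_span_pair.2 ⟨D.w j, 0, by ring⟩))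
    rw [dotProduct_single, Function.comp_apply] at e e'
    obtain ⟨k, hk⟩ := D.bc (δ * D.r) ⟨κ (.inr j) - γ * E.h, by linear_combination e'⟩
    obtain ⟨k, rfl⟩ := (D.hr.dvd_or_dvd (show D.r ∣ D.b * k from ⟨δ, by linear_combination -hk⟩)
      ).resolve_left D.hb
    have e1 : κ (.inr j) = γ * E.h + D.c * D.r * k :=
      sub_eq_zero.1 (D.reg.1.1 _ (by linear_combination -e' + D.c * hk))
    obtain ⟨m, hm⟩ := E.hc.2 (β * D.r - D.c * D.r * k) ⟨γ * D.c - α * D.b, by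
      linear_combination e + D.c * e1⟩
    obtain ⟨m, rfl⟩ := (D.hr.dvd_or_dvd (show D.r ∣ E.h * m from ⟨β - D.c * k, by
      linear_combination -hm⟩)).resolve_left E.hh
    obtain ⟨n, hn⟩ := D.bc (γ - D.r * m) ⟨α, sub_eq_zero.1 (E.hc.1 _ (by
      linear_combination -e - D.c * e1 + D.c * hm))⟩
    exact ⟨m, Ideal.mem_span_pair.2 ⟨n, k, by linear_combination -e1 - E.h * hn⟩⟩
  choose l hl using h1
  have h2 : ∀ j, D.a * l j - D.w j * l 0 ∈ Ideal.span {D.b, D.c} := fun j => E.hr_iff.1 (by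
    have := h0 (Pi.single j D.a - Pi.single 0 (D.w j)) (by simp [D.w0, mul_comm])
    rw [dotProduct_sub, dotProduct_single, dotProduct_single] at this
    convert add_mem (sub_mem this (Ideal.mul_mem_left _ D.a (hl j)))
      (Ideal.mul_mem_left _ (D.w j) (hl 0)) using 1
    simp only [Function.comp_apply]
    ring)
  obtain ⟨x₀, hx₀⟩ := (Submodule.mem_span_range_iff_exists_fun S).1 ((D.mem_u (l 0)).2 fun t ht => by
    obtain ⟨d, rfl⟩ := (Submodule.mem_span_range_iff_exists_fun S).1 ht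
    rw [Finset.mul_sum]
    refine Ideal.sum_mem _ fun j _ => ?_
    obtain ⟨α, β, e⟩ := Ideal.mem_span_pair.1 (h2 j)
    exact Ideal.mem_span_insert.2 ⟨d j * l j, _, Ideal.mem_span_pair.2 ⟨-d j * α, -d j * β, rfl⟩, by
      rw [smul_eq_mul]; linear_combination d j * e⟩)
  replace hx₀ : D.u ⬝ᵥ x₀ = l 0 := (dotProduct_comm _ _).trans hx₀
  obtain ⟨η, hη⟩ : ∃ η, η = κ - E.M *ᵥ Sum.elim x₀ 0 := ⟨_, rfl⟩
  have h3 : ∀ j, η (.inr j) ∈ Ideal.span {D.b * E.h, D.c * D.r} := fun j => by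
    have a1 := dv_low x₀ 0 j
    rw [hx₀, dotProduct_zero, add_zero (l 0)] at a1
    have a2 := E.hr_iff.2 (D.a_reg (x := l j - ((D.L1ᵀ *ᵥ x₀) j + (D.L2 *ᵥ 0) j)) (by
      convert sub_mem (h2 j) a1 using 1; ring))
    convert add_mem (hl j) a2 using 1
    rw [hη, Pi.sub_apply, E.m_inr]
    ring
  have h4 : ∀ x ∈ E.G, (η ∘ Sum.inl) ⬝ᵥ x ∈ Ideal.span {D.b * E.h, D.c * D.r} := fun x hx => by
    obtain ⟨y₀, z, a1, -⟩ := (E.mem x).1 hx
    obtain ⟨y, hy⟩ := dv_ex a1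
    have a2 := (E.rad x y).2 ⟨hy ▸ zero_mem _, hx⟩
    have a3 : η ⬝ᵥ Sum.elim x y ∈ Ideal.span {D.b * E.h, D.c * D.r} := by
      rw [hη, sub_dotProduct, dotProduct_comm (E.M *ᵥ _), dotProduct_mulVec, ← mulVec_transpose,
        E.symm.eq]
      exact sub_mem (hκ _ a2) (Ideal.sum_mem _ fun i _ => Ideal.mul_mem_right _ _ (mem_rad.1 a2 i))
    rw [dotProduct, Fintype.sum_sum_type] at a3
    exact (Submodule.add_mem_iff_left _ (Ideal.sum_mem _ fun j _ =>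
      Ideal.mul_mem_right _ _ (h3 j))).1 a3
  have h5 : ∀ i, ∃ ξ, η (.inl i) - D.b * D.c * ξ ∈ Ideal.span {D.b * E.h, D.c * D.r} := fun i => by
    choose p q hY using fun i j => Ideal.mem_span_pair.1 (E.hY i j)
    obtain ⟨α, β, e⟩ := Ideal.mem_span_pair.1 (h4 (Pi.single i D.r) ((E.mem _).2
      ⟨0, 0, fun j => ⟨D.L j i, by simp [mul_comm]⟩, fun j => ⟨E.Z j i, by simp [mul_comm]⟩⟩))
    obtain ⟨γ, δ, e'⟩ := Ideal.mem_span_pair.1 (h4 (Pi.single i E.h) ((E.mem _).2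
      ⟨fun j => p j i, fun j => E.Z j i, fun j => ⟨q j i, by
        simp only [Pi.sub_apply, Pi.add_apply, Pi.smul_apply, smul_eq_mul, mulVec_single,
          MulOpposite.smul_eq_mul_unop, MulOpposite.unop_op, col_apply]
        linear_combination -hY j i⟩, fun j => ⟨0, by simp [mul_comm]⟩⟩))
    rw [dotProduct_single, Function.comp_apply] at e e'
    obtain ⟨α, rfl⟩ := ((D.hr.dvd_or_dvd (show D.r ∣ α * D.b * E.h from ⟨η (.inl i) - β * D.c, by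
      linear_combination e⟩)).resolve_right E.hh |> D.hr.dvd_or_dvd).resolve_right D.hb
    have e1 : η (.inl i) = α * (D.b * E.h) + β * D.c :=
      mul_left_cancel₀ D.hr.ne_zero (by linear_combination -e)
    obtain ⟨m, hm⟩ := E.hc.2 (δ * D.r) ⟨η (.inl i) - γ * D.b, by linear_combination e'⟩
    obtain ⟨m, rfl⟩ := (D.hr.dvd_or_dvd (show D.r ∣ E.h * m from ⟨δ, by
      linear_combination -hm⟩)).resolve_left E.hh
    obtain ⟨n, hn⟩ := D.bc (β - D.r * m) ⟨γ - α * E.h, sub_eq_zero.1 (E.hc.1 _ (by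
      linear_combination -e' - E.h * e1 + D.c * hm))⟩
    exact ⟨n, Ideal.mem_span_pair.2 ⟨α, m, by linear_combination -e1 - D.c * hn⟩⟩
  choose ξ hξ using h5
  obtain ⟨x, y₀, z, a1, a2⟩ := E.dual ξ fun x hx => by
    have a : D.b * D.c * ξ ⬝ᵥ x ∈ Ideal.span {D.b * E.h, D.c * D.r} := by
      convert sub_mem (h4 x hx) (Ideal.sum_mem _ fun i (_ : i ∈ Finset.univ) =>
        Ideal.mul_mem_right (x i) _ (hξ i)) using 1
      simp only [dotProduct, Finset.mul_sum, ← Finset.sum_sub_distrib, Function.comp_apply]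
      exact Finset.sum_congr rfl fun i _ => by ring
    obtain ⟨α, β, e⟩ := Ideal.mem_span_pair.1 a
    obtain ⟨k, hk⟩ := D.bc (β * D.r) ⟨D.c * ξ ⬝ᵥ x - α * E.h, by linear_combination e⟩
    obtain ⟨k, rfl⟩ := (D.hr.dvd_or_dvd (show D.r ∣ D.b * k from ⟨β, by linear_combination -hk⟩)
      ).resolve_left D.hb
    obtain ⟨m, hm⟩ := E.hc.2 (ξ ⬝ᵥ x - D.r * k) ⟨α, sub_eq_zero.1 (D.reg.1.1 _ (by
      linear_combination -e + D.c * hk))⟩
    exact Ideal.mem_span_pair.2 ⟨m, k, by linear_combination -hm⟩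
  obtain ⟨y, hy⟩ := dv_ex a1
  have b1 : D.u ⬝ᵥ x + D.w ⬝ᵥ y ∈ Ideal.span {D.b, D.c} := hy ▸ zero_mem _
  refine ⟨Sum.elim x₀ 0 - Sum.elim x y, fun i => ?_⟩
  rw [mulVec_sub, Pi.sub_apply, ← sub_add, ← Pi.sub_apply, ← hη]
  rcases i with i | j
  · obtain ⟨k, hk⟩ := a2 i
    convert sub_mem (add_mem (hξ i) (E.up b1 (a1 i))) (Ideal.mem_span_pair.2 ⟨0, k, rfl⟩) using 1
    simp only [Pi.sub_apply, Pi.smul_apply, smul_eq_mul] at hk ⊢
    linear_combination -D.c * hk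
  · exact add_mem (h3 j) (E.low.2 b1 j)

theorem Lg.pdM (h : PD S ((Fin (D.t + 1) → S) ⧸ D.Rel D.w) 2) :
    PD S ((Fin D.s ⊕ Fin (D.t + 1) → S) ⧸ Rad E.M (D.b * E.h) (D.c * D.r)) 2 := by
  let i₂ : (Fin (D.t + 1) → S) →ₗ[S] (Fin D.s ⊕ Fin (D.t + 1) → S) :=
    (LinearEquiv.sumArrowLequivProdArrow _ _ S S).symm.toLinearMap ∘ₗ LinearMap.inr S _ _
  have e : ∀ y, i₂ y = Sum.elim (0 : Fin D.s → S) y := fun y => funext fun i => by rcases i with i | i <;> rfl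
  have k : ∀ y, i₂ y ∈ Rad E.M (D.b * E.h) (D.c * D.r) ↔ y ∈ D.Rel D.w := fun y => by
    rw [e, E.rad, dotProduct_zero, zero_add, and_iff_left (zero_mem _), dotProduct_comm]
    rfl
  refine pd_mid (f := Submodule.mapQ _ _ i₂ fun y => (k y).2)
    (g := Submodule.mapQ _ E.G (LinearMap.funLeft S S Sum.inl) fun v hv =>
      ((E.rad (v ∘ Sum.inl) (v ∘ Sum.inr)).1 (by rwa [Sum.elim_comp_inl_inr])).2) ?_ ?_ ?_ h E.pd
  · refine (injective_iff_map_eq_zero _).2 fun y => Submodule.Quotient.induction_on _ y fun y hy => ?_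
    exact (Submodule.Quotient.mk_eq_zero _).2 ((k y).1 ((Submodule.Quotient.mk_eq_zero _).1 hy))
  · exact fun x => Submodule.Quotient.induction_on _ x fun x =>
      ⟨Submodule.Quotient.mk (Sum.elim x 0), rfl⟩
  refine fun v => Submodule.Quotient.induction_on _ v fun v => ⟨fun hv => ?_, ?_⟩
  · have hx : v ∘ Sum.inl ∈ E.G := (Submodule.Quotient.mk_eq_zero _).1 hv
    obtain ⟨y₀, z, a1, -⟩ := (E.mem _).1 hx
    obtain ⟨y, hy⟩ := dv_ex a1
    refine ⟨Submodule.Quotient.mk (v ∘ Sum.inr - y), (Submodule.Quotient.eq _).2 ?_⟩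
    convert neg_mem ((E.rad _ y).2 ⟨hy ▸ zero_mem _, hx⟩) using 1
    rw [e]
    funext i
    rcases i with i | i <;> simp
  · rintro ⟨y, hy⟩
    rw [← hy]
    exact Submodule.Quotient.induction_on _ y fun y => (Submodule.Quotient.mk_eq_zero _).2 E.G.zero_mem

theorem Lg.free {A : Type} [CommRing A] [Algebra S A] [IsLocalization.Away D.r A] (h4 : TR A 4)
    (h : HP E.M (D.b * E.h) (D.c * D.r)) :
    Module.Free A (Ker (algebraMap S A ∘ ![D.a, D.b, D.c])) := by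
  set φ := algebraMap S A
  have hr : IsUnit (φ D.r) := IsLocalization.Away.algebraMap_isUnit D.r
  have hm : ∀ {x : S}, x ∈ Ideal.span {D.b, D.c} → φ x ∈ Ideal.span {φ D.b, φ D.c} := fun h => by
    simpa only [Ideal.map_span, Set.image_pair] using Ideal.mem_map_of_mem φ h
  obtain ⟨N, e⟩ := D.pw
  obtain ⟨k, e⟩ := dv_mem.1 e
  obtain ⟨ν, e1⟩ := (hr.pow N).exists_right_inv
  obtain ⟨ρ, e2⟩ := hr.exists_right_inv
  rw [show φ ∘ ![D.a, D.b, D.c] = ![φ D.a, φ D.b, φ D.c] from funext fun i => by fin_cases i <;> rfl]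
  refine dv2_one (M := E.M.map φ) (v := φ ∘ Sum.elim D.u D.w) (α := φ k * ν) (h := φ E.h) (i₀ := .inr 0) h4 hr
    (E.hc.loc D.r) (by simpa only [map_mul] using E.reg.loc (A := A) D.r) (E.symm.map _)
    (by simpa only [map_mul] using h.loc (A := A) D.r) ?_ (congrArg φ D.w0) ?_
  · convert Ideal.mul_mem_right ν _ (hm e) using 1
    simp only [map_sub, map_mul, map_pow]
    linear_combination e1
  · rintro (i | i) (j | j)
    · refine ⟨φ (D.L i j) * ρ, Ideal.mem_span_pair.2 ⟨0, -φ (E.Z i j) * ρ, ?_⟩, ?_⟩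
      · simp [Lg.M]
        linear_combination (φ E.h * φ (D.L i j) - φ D.c * φ (E.Z i j)) * e2
      · convert Ideal.mul_mem_right ρ _ (hm (D.hL i j)) using 1
        simp
        linear_combination (φ (D.u i) * φ (D.u j)) * e2
    · exact ⟨φ (D.L1 i j), by simp [Lg.M], by simpa using hm (D.hL1 i j)⟩
    · exact ⟨φ (D.L1 j i), by simp [Lg.M], by simpa [mul_comm] using hm (D.hL1 j i)⟩
    · exact ⟨φ (D.L2 i j), by simp [Lg.M], by simpa using hm (D.hL2 i j)⟩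

end DD

theorem dev {a b c r : S} (hr : Prime r) (hb : ¬ r ∣ b) (hc : ¬ r ∣ c)
    (bc : ∀ x, b ∣ c * x → b ∣ x)
    (rbc : ∀ x, c * x ∈ Ideal.span {r, b} → x ∈ Ideal.span {r, b}) {m : Ideal S}
    (hs : ∀ x, (∀ μ ∈ m, μ * x ∈ Ideal.span {r, b, c}) → x ∈ Ideal.span {r, b, c})
    (h3 : GD S m 3) (h2 : GD (S ⧸ Ideal.span {r}) (m.map (Ideal.Quotient.mk _)) 2) (hS : AF S)
    (hB : AF (S ⧸ Ideal.span {r})) {A : Type} [CommRing A] [Algebra S A] [IsLocalization.Away r A]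
    (h4 : TR A 4) (hu : Um (algebraMap S A ∘ ![a, b, c])) :
    Module.Free A (Ker (algebraMap S A ∘ ![a, b, c])) := by
  have pw : ∃ N : ℕ, r ^ N ∈ Ideal.span {a, b, c} := by
    refine Ideal.mem_radical_iff.1 ?_
    rw [Ideal.radical_eq_sInf, Submodule.mem_sInf]
    refine fun Q hQ => nf_pow r hu hQ.2 fun l => hQ.1 (Ideal.subset_span ?_)
    fin_cases l <;> simp
  obtain ⟨D, rfl, rfl, rfl, rfl⟩ := exists_dd hr hb hc bc rbc pw
  obtain ⟨E⟩ := D.exists_lg (D.hp_B (D.soc hs) h3 h2 hB)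
  have := pp_proj E.reg E.symm E.perf (E.pdM (D.pd_w (D.soc hs) h3))
  exact E.free h4 (hp_of_proj hS E.reg E.symm)

end Pool.Agent.Lib.MP_a37f0b_ag.Q4
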