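import Pool.Agent.Lib.MP_a37f0b_ag.Q4.Bass

/-! Rows whose zero set lies on a good curve are trivial. -/

namespace Pool.Agent.Lib.MP_a37f0b_ag.Q4

variable {A : Type} [CommRing A]

/-- The curve `K` passes through the points `I` in a good way. -/
structure Good (I K : Ideal A) (q : ℕ) : Prop where
  le : K ≤ I
  prin : ∃ g, I = K ⊔ Ideal.span {g} ∧ ∀ c, c * g ∈ K → c ∈ K
  unit : ∀ x, I ⊔ Ideal.span {x} = ⊤ → ∃ y, K ⊔ Ideal.span {y} = ⊤ ∧ y - x ∈ I
  dim : ringKrullDim (A ⧸ K) ≤ (1 : ℕ)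
  gen : ∀ a : Fin q → A, (∀ i, a i ∈ K) → K ≤ Ideal.span (Set.range a) ⊔ I * K →
    ∃ b : Fin q → A, (∀ i, b i - a i ∈ I * K) ∧ K ≤ Ideal.span (Set.range b) ⊔ K ^ 2

theorem good_dim_le {K J : Ideal A} {n : ℕ} (h : ringKrullDim (A ⧸ K) ≤ n)
    (p : LTSeries (PrimeSpectrum.zeroLocus (R := A) J)) (hp : K ≤ p.head.1.asIdeal) :
    (p.length : WithBot ℕ∞) ≤ n := by
  rw [ringKrullDim_quotient] at h
  refine le_trans ?_ h
  exact Order.LTSeries.length_le_krullDim (LTSeries.mk p.length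
    (fun i => (⟨(p i).1, fun x hx => (p.head_le i : p.head.1.asIdeal ≤ (p i).1.asIdeal) (hp hx)⟩ :
      PrimeSpectrum.zeroLocus (R := A) K)) (fun i j hij => p.strictMono hij))

theorem good_dim_inf {K K' : Ideal A} {n : ℕ} (h : ringKrullDim (A ⧸ K) ≤ n)
    (h' : ringKrullDim (A ⧸ K') ≤ n) : ringKrullDim (A ⧸ (K ⊓ K')) ≤ n := by
  rw [ringKrullDim_quotient]
  refine iSup_le fun p => ?_
  have hp : K ⊓ K' ≤ p.head.1.asIdeal := p.head.2
  rcases p.head.1.isPrime.inf_le.1 hp with h1 | h1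
  · exact good_dim_le h p h1
  · exact good_dim_le h' p h1

theorem good_inf_sup {K K' J : Ideal A} (h : K ⊔ J = ⊤) (h' : K' ⊔ J = ⊤) :
    (K ⊓ K') ⊔ J = ⊤ := by
  have h1 := (Ideal.isCoprime_iff_sup_eq.2 h).mul_left (Ideal.isCoprime_iff_sup_eq.2 h')
  exact top_le_iff.1 ((Ideal.isCoprime_iff_sup_eq.1 h1).ge.trans
    (sup_le_sup_right Ideal.mul_le_inf _))

theorem good_sup_congr {K : Ideal A} {x y : A} (h : K ⊔ Ideal.span {x} = ⊤) (hy : y - x ∈ K) :
    K ⊔ Ideal.span {y} = ⊤ := by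
  refine top_le_iff.1 (h.ge.trans (sup_le le_sup_left ?_))
  rw [Ideal.span_singleton_le_iff_mem]
  have : x = y - (y - x) := by ring
  rw [this]
  exact sub_mem (Ideal.mem_sup_right (Ideal.mem_span_singleton_self y)) (Ideal.mem_sup_left hy)

theorem good_span_congr {κ : Type} {K L : Ideal A} {b b' : κ → A}
    (h : K ≤ Ideal.span (Set.range b) ⊔ L) (hb : ∀ i, b' i - b i ∈ L) :
    K ≤ Ideal.span (Set.range b') ⊔ L := by
  refine h.trans (sup_le ?_ le_sup_right)
  rw [Ideal.span_le]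
  rintro _ ⟨i, rfl⟩
  have : b i = b' i - (b' i - b i) := by ring
  rw [this]
  exact sub_mem (Ideal.mem_sup_left (Ideal.subset_span ⟨i, rfl⟩)) (Ideal.mem_sup_right (hb i))

theorem good_gen_half {I K I' K' : Ideal A} {q : ℕ} {a : Fin q → A} {e e' : A} (he : e ∈ K ^ 2)
    (he' : e' ∈ K') (hee : e + e' = 1) (le : K ≤ I)
    (h : K ⊓ K' ≤ Ideal.span (Set.range a) ⊔ (I ⊓ I') * (K ⊓ K')) :
    K ≤ Ideal.span (Set.range a) ⊔ I * K := by
  intro k hk
  have h1 : k = e * k + e' * k := by rw [← add_mul, hee, one_mul]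
  rw [h1]
  refine add_mem (Ideal.mem_sup_right (Ideal.mul_mem_mul (le (Ideal.pow_le_self two_ne_zero he)) hk))
    ?_
  have h2 : (I ⊓ I') * (K ⊓ K') ≤ I * K := Ideal.mul_mono inf_le_left inf_le_left
  exact (h.trans (sup_le_sup_left h2 _))
    ⟨Ideal.mul_mem_left _ _ hk, Ideal.mul_mem_right _ _ he'⟩

theorem good_top (q : ℕ) : Good (⊤ : Ideal A) ⊤ q := by
  refine ⟨le_rfl, ⟨1, by simp, fun _ _ => trivial⟩, fun x _ => ⟨x, by simp, trivial⟩, ?_,
    fun a _ _ => ⟨a, fun i => by simp, by simp [← Ideal.one_eq_top]⟩⟩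
  have : Subsingleton (A ⧸ (⊤ : Ideal A)) := Ideal.Quotient.subsingleton_iff.2 rfl
  rw [ringKrullDim_eq_bot_of_subsingleton]
  exact bot_le

theorem Good.inf {I K I' K' : Ideal A} {q : ℕ} (h : Good I K q) (h' : Good I' K' q)
    (hK : K ⊔ K' = ⊤) : Good (I ⊓ I') (K ⊓ K') q := by
  have hK2 : K ^ 2 ⊔ K' ^ 2 = ⊤ := Ideal.pow_sup_pow_eq_top hK
  obtain ⟨e, he, e', he', hee⟩ := Submodule.mem_sup.1 ((Ideal.eq_top_iff_one _).1 hK2)
  have he1 : e ∈ K := Ideal.pow_le_self two_ne_zero he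
  have he1' : e' ∈ K' := Ideal.pow_le_self two_ne_zero he'
  have hE : e' = 1 - e := by rw [← hee]; ring
  have c1 : ∀ x y : A, e' * x + e * y - x ∈ K := fun x y => by
    have : e' * x + e * y - x = e * (y - x) := by rw [hE]; ring
    rw [this]; exact Ideal.mul_mem_right _ _ he1
  have c2 : ∀ x y : A, e' * x + e * y - y ∈ K' := fun x y => by
    have : e' * x + e * y - y = e' * (x - y) := by rw [hE]; ring
    rw [this]; exact Ideal.mul_mem_right _ _ he1'
  refine ⟨inf_le_inf h.le h'.le, ?_, ?_, good_dim_inf h.dim h'.dim, ?_⟩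
  · obtain ⟨g, hg, hr⟩ := h.prin
    obtain ⟨g', hg', hr'⟩ := h'.prin
    have gI : g ∈ I := hg ▸ Ideal.mem_sup_right (Ideal.mem_span_singleton_self g)
    have gI' : g' ∈ I' := hg' ▸ Ideal.mem_sup_right (Ideal.mem_span_singleton_self g')
    refine ⟨e' * g + e * g', le_antisymm ?_ (sup_le (inf_le_inf h.le h'.le) ?_), ?_⟩
    · rintro x ⟨hx, hx'⟩
      rw [hg] at hx
      rw [hg'] at hx'
      obtain ⟨k, hk, _, hc, h1⟩ := Submodule.mem_sup.1 hx
      obtain ⟨k', hk', _, hc', h1'⟩ := Submodule.mem_sup.1 hx'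
      obtain ⟨c, rfl⟩ := Ideal.mem_span_singleton'.1 hc
      obtain ⟨c', rfl⟩ := Ideal.mem_span_singleton'.1 hc'
      refine Submodule.mem_sup.2 ⟨x - (e' * c + e * c') * (e' * g + e * g'), ⟨?_, ?_⟩,
        (e' * c + e * c') * (e' * g + e * g'),
        Ideal.mul_mem_left _ _ (Ideal.mem_span_singleton_self _), by ring⟩
      · have : x - (e' * c + e * c') * (e' * g + e * g') = k - ((e' * c + e * c' - c) *
            (e' * g + e * g') + c * (e' * g + e * g' - g)) := by rw [← h1]; ring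
        rw [this]
        exact sub_mem hk (add_mem (Ideal.mul_mem_right _ _ (c1 c c'))
          (Ideal.mul_mem_left _ _ (c1 g g')))
      · have : x - (e' * c + e * c') * (e' * g + e * g') = k' - ((e' * c + e * c' - c') *
            (e' * g + e * g') + c' * (e' * g + e * g' - g')) := by rw [← h1']; ring
        rw [this]
        exact sub_mem hk' (add_mem (Ideal.mul_mem_right _ _ (c2 c c'))
          (Ideal.mul_mem_left _ _ (c2 g g')))
    · rw [Ideal.span_singleton_le_iff_mem]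
      exact ⟨add_mem (Ideal.mul_mem_left _ _ gI) (Ideal.mul_mem_right _ _ (h.le he1)),
        add_mem (Ideal.mul_mem_right _ _ (h'.le he1')) (Ideal.mul_mem_left _ _ gI')⟩
    · rintro c ⟨hc, hc'⟩
      refine ⟨hr c ?_, hr' c ?_⟩
      · have : c * g = c * (e' * g + e * g') - c * (e' * g + e * g' - g) := by ring
        rw [this]
        exact sub_mem hc (Ideal.mul_mem_left _ _ (c1 g g'))
      · have : c * g' = c * (e' * g + e * g') - c * (e' * g + e * g' - g') := by ring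
        rw [this]
        exact sub_mem hc' (Ideal.mul_mem_left _ _ (c2 g g'))
  · intro x hx
    obtain ⟨y, hy, hyx⟩ := h.unit x (top_le_iff.1 (hx.ge.trans (sup_le_sup_right inf_le_left _)))
    obtain ⟨y', hy', hyx'⟩ :=
      h'.unit x (top_le_iff.1 (hx.ge.trans (sup_le_sup_right inf_le_right _)))
    refine ⟨e' * y + e * y', good_inf_sup (good_sup_congr hy (c1 y y'))
      (good_sup_congr hy' (c2 y y')), ?_, ?_⟩
    · have : e' * y + e * y' - x = (e' * y + e * y' - y) + (y - x) := by ring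
      rw [this]
      exact add_mem (h.le (c1 y y')) hyx
    · have : e' * y + e * y' - x = (e' * y + e * y' - y') + (y' - x) := by ring
      rw [this]
      exact add_mem (h'.le (c2 y y')) hyx'
  · intro a ha hgen
    obtain ⟨b, hb, hbK⟩ := h.gen a (fun i => (ha i).1) (good_gen_half he he1' hee h.le hgen)
    obtain ⟨b', hb', hbK'⟩ := h'.gen a (fun i => (ha i).2)
      (good_gen_half (I' := I) he' he1 (by rw [add_comm, hee]) h'.le
        (by rwa [inf_comm K' K, inf_comm I' I]))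
    have m1 : K' ^ 2 * (I * K) ≤ (I ⊓ I') * (K ⊓ K') := by
      have : K' ^ 2 * (I * K) = (I * K') * (K * K') := by ring
      rw [this]
      exact Ideal.mul_mono (Ideal.mul_le_inf.trans (inf_le_inf le_rfl h'.le)) Ideal.mul_le_inf
    have m2 : K ^ 2 * (I' * K') ≤ (I ⊓ I') * (K ⊓ K') := by
      have : K ^ 2 * (I' * K') = (K * I') * (K * K') := by ring
      rw [this]
      exact Ideal.mul_mono (Ideal.mul_le_inf.trans (inf_le_inf h.le le_rfl)) Ideal.mul_le_inf
    have m3 : K ^ 2 * K' ^ 2 ≤ (K ⊓ K') ^ 2 := by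
      rw [← mul_pow]
      exact Ideal.pow_right_mono Ideal.mul_le_inf 2
    refine ⟨fun i => e' * b i + e * b' i, fun i => ?_, ?_⟩
    · have : e' * b i + e * b' i - a i = e' * (b i - a i) + e * (b' i - a i) := by
        rw [hE]; ring
      rw [this]
      exact add_mem (m1 (Ideal.mul_mem_mul he' (hb i))) (m2 (Ideal.mul_mem_mul he (hb' i)))
    · have s1 := good_span_congr (b' := fun i => e' * b i + e * b' i) hbK fun i => by
        have : e' * b i + e * b' i - b i = e * (b' i - b i) := by rw [hE]; ring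
        rw [this]; exact Ideal.mul_mem_right _ _ he
      have s2 := good_span_congr (b' := fun i => e' * b i + e * b' i) hbK' fun i => by
        have : e' * b i + e * b' i - b' i = e' * (b i - b' i) := by rw [hE]; ring
        rw [this]; exact Ideal.mul_mem_right _ _ he'
      rintro x ⟨hx, hx'⟩
      obtain ⟨s, hs, k, hk, h1⟩ := Submodule.mem_sup.1 (s1 hx)
      obtain ⟨s', hs', k', hk', h1'⟩ := Submodule.mem_sup.1 (s2 hx')
      have : x = (e' * s + e * s') + (k * e' + e * k') := by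
        have h2 : x = e' * x + e * x := by rw [hE]; ring
        rw [h2]
        nth_rewrite 1 [← h1]
        nth_rewrite 1 [← h1']
        ring
      rw [this]
      exact add_mem (Ideal.mem_sup_left (add_mem (Ideal.mul_mem_left _ _ hs)
        (Ideal.mul_mem_left _ _ hs'))) (Ideal.mem_sup_right
          (add_mem (m3 (Ideal.mul_mem_mul hk he')) (m3 (Ideal.mul_mem_mul he hk'))))

theorem dim_inf {K K' : Ideal A} {n : ℕ} (h : ringKrullDim (A ⧸ K) ≤ n)
    (h' : ringKrullDim (A ⧸ K') ≤ n) : ringKrullDim (A ⧸ (K ⊓ K')) ≤ n := by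
  exact good_dim_inf h h'

open Matrix in
/-- Stable range one for matrices over a field. -/
theorem good_sr {k : Type} [Field k] {q : ℕ} (P Q : Matrix (Fin q) (Fin q) k) :
    ∃ X : Matrix (Fin q) (Fin q) k, (P + X * (1 - Q * P)).det ≠ 0 := by
  obtain ⟨C, hC⟩ := Submodule.exists_isCompl (LinearMap.range P.mulVecLin)
  have hfin : Module.finrank k (LinearMap.ker P.mulVecLin) = Module.finrank k C := by
    have h1 := LinearMap.finrank_range_add_finrank_ker P.mulVecLin
    have h2 := Submodule.finrank_add_eq_of_isCompl hC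
    omega
  let e := LinearEquiv.ofFinrankEq _ _ hfin
  obtain ⟨L, hL⟩ := (LinearMap.ker P.mulVecLin).subtype.exists_leftInverse_of_injective
    (Submodule.ker_subtype _)
  refine ⟨LinearMap.toMatrix' (C.subtype ∘ₗ e.toLinearMap ∘ₗ L), fun hd => ?_⟩
  obtain ⟨v, hv0, hv⟩ := Matrix.exists_mulVec_eq_zero_iff.2 hd
  rw [add_mulVec, ← mulVec_mulVec, LinearMap.toMatrix'_mulVec] at hv
  have hPv : P *ᵥ v = 0 := by
    have h1 : P *ᵥ v ∈ LinearMap.range P.mulVecLin := ⟨v, rfl⟩
    have h2 : P *ᵥ v ∈ C := by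
      rw [eq_neg_of_add_eq_zero_left hv]
      exact neg_mem (Subtype.prop _)
    exact (Submodule.disjoint_def.1 hC.disjoint) _ h1 h2
  rw [hPv, zero_add, sub_mulVec, one_mulVec, ← mulVec_mulVec, hPv, mulVec_zero, sub_zero] at hv
  have h3 : L v = ⟨v, hPv⟩ := LinearMap.congr_fun hL ⟨v, hPv⟩
  have h4 : e (L v) = 0 := Subtype.ext hv
  rw [e.map_eq_zero_iff, h3] at h4
  exact hv0 (congrArg Subtype.val h4)

open Matrix in
theorem good_lift {I K : Ideal A} {q : ℕ} (hI : I.IsMaximal)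
    (unit : ∀ x ∉ I, ∃ y, K ⊔ Ideal.span {y} = ⊤ ∧ y - x ∈ I)
    (M : Matrix (Fin q) (Fin q) (A ⧸ I)) (hM : M.det ≠ 0) :
    ∃ G : Matrix (Fin q) (Fin q) A, G.map (Ideal.Quotient.mk I) = M ∧
      K ⊔ Ideal.span {G.det} = ⊤ := by
  let := Ideal.Quotient.field I
  have hmul : ∀ x y : A, K ⊔ Ideal.span {x} = ⊤ → K ⊔ Ideal.span {y} = ⊤ →
      K ⊔ Ideal.span {x * y} = ⊤ := fun x y hx hy => by
    rw [← Ideal.span_singleton_mul_span_singleton]
    exact Ideal.isCoprime_iff_sup_eq.1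
      ((Ideal.isCoprime_iff_sup_eq.2 hx).mul_right (Ideal.isCoprime_iff_sup_eq.2 hy))
  refine Matrix.diagonal_transvection_induction_of_det_ne_zero
    (fun M : Matrix (Fin q) (Fin q) (A ⧸ I) => ∃ G : Matrix (Fin q) (Fin q) A,
      G.map (Ideal.Quotient.mk I) = M ∧ K ⊔ Ideal.span {G.det} = ⊤) M hM ?_ ?_ ?_
  · intro D hD
    rw [det_diagonal, Finset.prod_ne_zero_iff] at hD
    have : ∀ i, ∃ y : A, K ⊔ Ideal.span {y} = ⊤ ∧ Ideal.Quotient.mk I y = D i := fun i => by
      obtain ⟨x, hx⟩ := Ideal.Quotient.mk_surjective (D i)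
      obtain ⟨y, h1, h2⟩ := unit x fun hxI =>
        hD i (Finset.mem_univ i) (hx ▸ Ideal.Quotient.eq_zero_iff_mem.2 hxI)
      exact ⟨y, h1, hx ▸ Ideal.Quotient.eq.2 h2⟩
    choose y h1 h2 using this
    refine ⟨diagonal y, ?_, ?_⟩
    · rw [diagonal_map (map_zero _)]
      exact congrArg diagonal (funext h2)
    · rw [det_diagonal]
      exact Finset.prod_induction y (fun x => K ⊔ Ideal.span {x} = ⊤) hmul (by simp)
        fun i _ => h1 i
  · rintro ⟨i, j, hij, c⟩
    obtain ⟨x, rfl⟩ := Ideal.Quotient.mk_surjective c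
    refine ⟨transvection i j x, ?_, by rw [det_transvection_of_ne i j hij]; simp⟩
    ext s t
    simp only [TransvectionStruct.toMatrix_mk, transvection, map_apply, Matrix.add_apply, map_add,
      one_apply, single_apply]
    split_ifs <;> simp
  · rintro _ _ - - ⟨G, rfl, hG⟩ ⟨G', rfl, hG'⟩
    exact ⟨G * G', Matrix.map_mul, by rw [det_mul]; exact hmul _ _ hG hG'⟩

open Matrix in
theorem good_coef {K L : Ideal A} {q : ℕ} {a m : Fin q → A} (ha : ∀ i, a i ∈ K)
    (h : K ≤ Ideal.span (Set.range m) ⊔ L) :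
    ∃ P : Matrix (Fin q) (Fin q) A, ∀ i, (P *ᵥ m - a) i ∈ L := by
  have : ∀ i, ∃ c : Fin q → A, c ⬝ᵥ m - a i ∈ L := fun i => by
    obtain ⟨s, hs, k, hk, h1⟩ := Submodule.mem_sup.1 (h (ha i))
    obtain ⟨c, rfl⟩ := Ideal.mem_span_range_iff_exists_fun.1 hs
    refine ⟨c, ?_⟩
    have : c ⬝ᵥ m - a i = -k := by rw [← h1, dotProduct]; ring
    rw [this]
    exact neg_mem hk
  choose c hc using this
  exact ⟨Matrix.of c, hc⟩

open Matrix in
theorem good_mulVec_mem {L : Ideal A} {q : ℕ} (P : Matrix (Fin q) (Fin q) A) {v : Fin q → A}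
    (hv : ∀ i, v i ∈ L) (i : Fin q) : (P *ᵥ v) i ∈ L := by
  simp only [mulVec, dotProduct]
  exact Ideal.sum_mem _ fun j _ => Ideal.mul_mem_left _ _ (hv j)

theorem good_max {I K : Ideal A} {q : ℕ} (hI : I.IsMaximal) (le : K ≤ I)
    (prin : ∃ g, I = K ⊔ Ideal.span {g} ∧ ∀ c, c * g ∈ K → c ∈ K)
    (unit : ∀ x ∉ I, ∃ y, K ⊔ Ideal.span {y} = ⊤ ∧ y - x ∈ I)
    (dim : ringKrullDim (A ⧸ K) ≤ (1 : ℕ)) (m : Fin q → A) (hm : ∀ i, m i ∈ K)
    (gen : K ≤ Ideal.span (Set.range m) ⊔ K ^ 2) : Good I K q := by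
  refine ⟨le, prin, fun x hx => unit x fun hxI => hI.ne_top ?_, dim, fun a ha hgen => ?_⟩
  · rw [← hx, sup_eq_left.2 ((Ideal.span_singleton_le_iff_mem _).2 hxI)]
  let := Ideal.Quotient.field I
  have hKK : K ^ 2 ≤ I * K := by rw [sq]; exact Ideal.mul_mono_left le
  obtain ⟨P, hP⟩ := good_coef ha (gen.trans (sup_le_sup_left hKK _))
  obtain ⟨Q, hQ⟩ := good_coef hm hgen
  obtain ⟨X', hX'⟩ := good_sr (P.map (Ideal.Quotient.mk I)) (Q.map (Ideal.Quotient.mk I))
  obtain ⟨G, hG, hdet⟩ := good_lift (K := K) hI unit _ hX'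
  have hX : ∃ X : Matrix (Fin q) (Fin q) A, X.map (Ideal.Quotient.mk I) = X' := by
    choose X hX using fun i j => Ideal.Quotient.mk_surjective (X' i j)
    exact ⟨Matrix.of X, Matrix.ext hX⟩
  obtain ⟨X, rfl⟩ := hX
  have hGI : ∀ i j, (G - (P + X * (1 - Q * P))) i j ∈ I := fun i j => by
    rw [← Ideal.Quotient.eq_zero_iff_mem]
    have h1 : (Ideal.Quotient.mk I).mapMatrix (G - (P + X * (1 - Q * P))) = 0 := by
      simp only [map_sub, map_add, map_mul, map_one, RingHom.mapMatrix_apply]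
      rw [hG, sub_self]
    exact congrFun (congrFun h1 i) j
  refine ⟨G.mulVec m, fun i => ?_, gen.trans (sup_le ?_ le_sup_right)⟩
  · have h1 : G.mulVec m - a = (G - (P + X * (1 - Q * P))).mulVec m + (P.mulVec m - a) -
        X.mulVec ((Q.mulVec a - m) + Q.mulVec (P.mulVec m - a)) := by
      simp only [Matrix.sub_mulVec, Matrix.add_mulVec, ← Matrix.mulVec_mulVec, Matrix.one_mulVec,
        Matrix.mulVec_sub, Matrix.mulVec_add]
      abel
    have h2 : G.mulVec m i - a i = _ := congrFun h1 i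
    rw [h2]
    refine sub_mem (add_mem ?_ (hP i)) (good_mulVec_mem X (fun j => ?_) i)
    · simp only [Matrix.mulVec, dotProduct]
      exact Ideal.sum_mem _ fun j _ => Ideal.mul_mem_mul (hGI i j) (hm j)
    · exact add_mem (hQ j) (good_mulVec_mem Q hP j)
  · rw [Ideal.span_le]
    rintro _ ⟨i, rfl⟩
    obtain ⟨k, hk, _, hc, h1⟩ := Submodule.mem_sup.1 ((Ideal.eq_top_iff_one _).1 hdet)
    obtain ⟨c, rfl⟩ := Ideal.mem_span_singleton'.1 hc
    have h2 : (G.adjugate.mulVec (G.mulVec m)) i = G.det * m i := by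
      rw [Matrix.mulVec_mulVec, Matrix.adjugate_mul, Matrix.smul_mulVec, Matrix.one_mulVec]
      rfl
    have h3 : m i = c * (G.adjugate.mulVec (G.mulVec m)) i + k * m i := by
      rw [h2]; linear_combination (-m i) * h1
    rw [h3]
    refine add_mem (Ideal.mem_sup_left (Ideal.mul_mem_left _ _
      (good_mulVec_mem _ (fun j => Ideal.subset_span (Set.mem_range_self j)) i))) (Ideal.mem_sup_right ?_)
    rw [sq]
    exact Ideal.mul_mem_mul hk (hm i)

open Matrix in
/-- Bass on the curve: all entries but the last go into `K`. -/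
theorem good_row [IsNoetherianRing A] {K : Ideal A} {q : ℕ} (hq : 2 ≤ q) {a : Fin (q + 1) → A}
    (h : Good (Ideal.span (Set.range a)) K q) :
    ∃ a' : Fin (q + 1) → A, GE a a' ∧ (∀ j : Fin q, a' j.castSucc ∈ K) ∧
      ∀ c, c * a' (Fin.last q) ∈ K → c ∈ K := by
  obtain ⟨g, hg, hr⟩ := h.prin
  have h1 : ∀ i, ∃ c : A, a i - c * g ∈ K := fun i => by
    obtain ⟨k, hk, _, hc, h1⟩ :=
      Submodule.mem_sup.1 (hg.le (Ideal.subset_span (Set.mem_range_self i)))
    obtain ⟨c, rfl⟩ := Ideal.mem_span_singleton'.1 hc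
    exact ⟨c, by rw [← h1]; simpa using hk⟩
  choose α hα using h1
  obtain ⟨c, hc⟩ := Ideal.mem_span_range_iff_exists_fun.1
    (hg.ge (Ideal.mem_sup_right (Ideal.mem_span_singleton_self g)))
  have h2 : 1 - ∑ i, c i * α i ∈ K := by
    apply hr
    have : (1 - ∑ i, c i * α i) * g = ∑ i, c i * (a i - α i * g) := by
      simp only [mul_sub, Finset.sum_sub_distrib, hc, sub_mul, one_mul, Finset.sum_mul, mul_assoc]
    rw [this]
    exact Ideal.sum_mem _ fun i _ => Ideal.mul_mem_left _ _ (hα i)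
  have hum : Um (fun i => Ideal.Quotient.mk K (α i)) := by
    rw [Um, Ideal.eq_top_iff_one, Ideal.mem_span_range_iff_exists_fun]
    refine ⟨fun i => Ideal.Quotient.mk K (c i), ?_⟩
    have := Ideal.Quotient.eq.2 h2
    simp only [map_one, map_sum, map_mul] at this
    exact this.symm
  have : Nontrivial (Fin (q + 1)) := Fin.nontrivial_iff_two_le.2 (by omega)
  obtain ⟨τ, hτ, hτα⟩ := (bass h.dim (Fin (q + 1)) (by simp; omega) _ hum).single (Fin.last q)
  obtain ⟨σ, hσ, rfl⟩ := El.lift (Ideal.Quotient.mk_surjective (I := K)) hτ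
  have h3 : ∀ i, Ideal.Quotient.mk K ((σ *ᵥ a) i) =
      (Pi.single (Fin.last q) 1 : Fin (q + 1) → A ⧸ K) i * Ideal.Quotient.mk K g := fun i => by
    rw [← hτα]
    simp only [mulVec, dotProduct, map_sum, map_mul, map_apply, Finset.sum_mul, mul_assoc]
    refine Finset.sum_congr rfl fun j _ => ?_
    rw [Ideal.Quotient.eq.2 (hα j), map_mul]
  refine ⟨σ *ᵥ a, GE.el a hσ, fun j => ?_, fun c hc => hr c ?_⟩
  · rw [← Ideal.Quotient.eq_zero_iff_mem, h3, Pi.single_eq_of_ne (Fin.castSucc_ne_last j), zero_mul]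
  · rw [← Ideal.Quotient.eq_zero_iff_mem] at hc ⊢
    rwa [map_mul, h3, Pi.single_eq_same, one_mul, ← map_mul] at hc

theorem Good.triv [IsNoetherianRing A] {K : Ideal A} {q : ℕ} (hq : 2 ≤ q) {a : Fin (q + 1) → A}
    (h : Good (Ideal.span (Set.range a)) K q) {u : A}
    (hu : Ideal.span (Set.range a) ⊔ Ideal.span {u} = ⊤) :
    Triv (Fin.snoc a u : Fin (q + 2) → A) := by
  obtain ⟨a', hge, haK, hreg⟩ := good_row hq h
  set d := a' (Fin.last q) with hd
  set I := Ideal.span (Set.range a) with hI0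
  have hI : Ideal.span (Set.range a') = I := hge.span
  have hdI : d ∈ I := hI ▸ Ideal.subset_span ⟨_, rfl⟩
  have hdec : ∀ x ∈ I, ∃ (c : Fin q → A) (t : A), x = ∑ j, c j * a' j.castSucc + t * d := by
    intro x hx
    obtain ⟨c, hc⟩ := Ideal.mem_span_range_iff_exists_fun.1 (hI.ge hx)
    exact ⟨fun j => c j.castSucc, c (Fin.last q), by rw [← hc, Fin.sum_univ_castSucc]⟩
  have hIK : ∀ x ∈ I, ∃ t : A, x - t * d ∈ K := fun x hx => by
    obtain ⟨c, t, rfl⟩ := hdec x hx
    exact ⟨t, by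
      rw [add_sub_cancel_right]; exact Ideal.sum_mem _ fun j _ => Ideal.mul_mem_left _ _ (haK j)⟩
  obtain ⟨b, hb, hbK⟩ := h.gen (fun j => a' j.castSucc) haK (fun k hk => by
    obtain ⟨c, t, h1⟩ := hdec k (h.le hk)
    have hs : ∑ j, c j * a' j.castSucc ∈ K :=
      Ideal.sum_mem _ fun j _ => Ideal.mul_mem_left _ _ (haK j)
    have ht : t ∈ K := hreg t (by
      have : t * d = k - ∑ j, c j * a' j.castSucc := by rw [h1]; ring
      rw [this]; exact sub_mem hk hs)
    rw [h1, mul_comm t]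
    exact add_mem (Ideal.mem_sup_left (Ideal.sum_mem _ fun j _ =>
      Ideal.mul_mem_left _ _ (Ideal.subset_span ⟨j, rfl⟩)))
      (Ideal.mem_sup_right (Ideal.mul_mem_mul hdI ht)))
  have hsplit : ∀ x ∈ I * K, ∃ k ∈ K, k * d - x ∈ K ^ 2 := fun x hx => by
    refine Submodule.mul_induction_on hx (fun y hy z hz => ?_) ?_
    · obtain ⟨t, ht⟩ := hIK y hy
      refine ⟨t * z, Ideal.mul_mem_left _ _ hz, ?_⟩
      have : t * z * d - y * z = -((y - t * d) * z) := by ring
      rw [this, sq]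
      exact neg_mem (Ideal.mul_mem_mul ht hz)
    · rintro y z ⟨k, hk, h1⟩ ⟨k', hk', h2⟩
      refine ⟨k + k', add_mem hk hk', ?_⟩
      have : (k + k') * d - (y + z) = (k * d - y) + (k' * d - z) := by ring
      rw [this]
      exact add_mem h1 h2
  choose k hk hk2 using fun j => hsplit _ (hb j)
  set b' : Fin q → A := fun j => a' j.castSucc + k j * d with hb'
  set J := Ideal.span (Set.range b') with hJ
  have hJK : K ≤ J ⊔ K ^ 2 := good_span_congr hbK fun j => by
    have : b' j - b j = k j * d - (b j - a' j.castSucc) := by rw [hb']; ring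
    rw [this]; exact hk2 j
  obtain ⟨r, hr1, hr⟩ := Submodule.exists_sub_one_mem_and_smul_le_of_fg_of_le_sup (I := K)
    (N := J) (N' := K) (P := K) (IsNoetherian.noetherian K) le_rfl (by rwa [smul_eq_mul, ← sq])
  have hrK : ∀ x ∈ K, r * x ∈ J := fun x hx => hr (Submodule.smul_mem_pointwise_smul x r K hx)
  have heK : 1 - r ∈ K := by rw [← neg_sub]; exact neg_mem hr1
  obtain ⟨t, ht⟩ : ∃ t : A, (1 - r) - t * d ∈ J := by
    obtain ⟨c, t, h1⟩ := hdec _ (h.le heK)
    refine ⟨t - ∑ j, c j * k j, ?_⟩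
    have : (1 - r) - (t - ∑ j, c j * k j) * d = ∑ j, c j * b' j := by
      rw [h1]
      simp only [hb', mul_add, Finset.sum_add_distrib, sub_mul, Finset.sum_mul, mul_assoc]
      ring
    rw [this]
    exact Ideal.sum_mem _ fun j _ => Ideal.mul_mem_left _ _ (Ideal.subset_span ⟨j, rfl⟩)
  obtain ⟨y, hy, hyu⟩ := h.unit u hu
  obtain ⟨c, hc⟩ := hIK _ hyu
  set w := u + (r * c + (1 - r) * t * (1 - u)) * d with hw
  have hwK : K ⊔ Ideal.span {w} = ⊤ := good_sup_congr hy (by
    have : w - y = (1 - r) * ((t * (1 - u) - c) * d) - (y - u - c * d) := by rw [hw]; ring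
    rw [this]
    exact sub_mem (Ideal.mul_mem_right _ _ heK) hc)
  have hJw : J ⊔ Ideal.span {w} = ⊤ := by
    have hrm : r ∈ J ⊔ Ideal.span {w} := by
      obtain ⟨k0, hk0, z, hz, h1⟩ := Submodule.mem_sup.1 ((Ideal.eq_top_iff_one _).1 hwK)
      have : r = r * k0 + r * z := by rw [← mul_add, h1, mul_one]
      rw [this]
      exact add_mem (Ideal.mem_sup_left (hrK _ hk0)) (Ideal.mem_sup_right (Ideal.mul_mem_left _ _ hz))
    rw [Ideal.eq_top_iff_one]
    have : (1 : A) = w + (1 - r) * (1 - u) * ((1 - r) - t * d) +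
        r * ((2 - r) * (1 - u) - c * d) := by rw [hw]; ring
    rw [this]
    exact add_mem (add_mem (Ideal.mem_sup_right (Ideal.mem_span_singleton_self w))
      (Ideal.mem_sup_left (Ideal.mul_mem_left _ _ ht))) (Ideal.mul_mem_right _ _ hrm)
  refine Triv.of_ge (hge.snoc u) ?_
  have hdT : ∀ x : A, x * d ∈ Ideal.span ((Fin.snoc a' u : Fin (q + 2) → A) ''
      {(Fin.last q).castSucc}) := fun x =>
    Ideal.mul_mem_left _ _ (Ideal.subset_span ⟨_, rfl, by simp [hd]⟩)
  refine Triv.of_ge (w := (Fin.snoc (Fin.snoc b' d : Fin (q + 1) → A) w : Fin (q + 2) → A))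
    (GE.adds {(Fin.last q).castSucc} ?_ ?_) (Triv.of_sub (Fin.last q).castSucc ?_)
  · rintro i rfl
    simp [hd]
  · intro i
    refine Fin.lastCases (fun _ => ?_) (fun i => Fin.lastCases (fun hi => (hi rfl).elim)
      (fun j _ => ?_) i) i
    · simp only [Fin.snoc_last, hw, add_sub_cancel_left]
      exact hdT _
    · simp only [Fin.snoc_castSucc, hb', add_sub_cancel_left]
      exact hdT _
  · refine top_le_iff.1 (hJw.ge.trans (sup_le ?_ ?_))
    · rw [hJ, Ideal.span_le]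
      rintro _ ⟨j, rfl⟩
      exact Ideal.subset_span ⟨j.castSucc.castSucc,
        fun h1 => Fin.castSucc_ne_last j (Fin.castSucc_injective _ h1), by simp⟩
    · rw [Ideal.span_singleton_le_iff_mem]
      exact Ideal.subset_span ⟨Fin.last _, (Fin.castSucc_ne_last _).symm, by simp⟩

/-- Finitely many points, each with good curves that avoid any given curve. -/
theorem good_iInf {κ : Type} [Finite κ] {q : ℕ} (n : κ → Ideal A) (hn : ∀ i, (n i).IsMaximal)
    (hi : Function.Injective n)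
    (h : ∀ i (J : Ideal A), ringKrullDim (A ⧸ J) ≤ (1 : ℕ) → J ⊔ n i = ⊤ →
      ∃ K, Good (n i) K q ∧ K ⊔ J = ⊤) : ∃ K, Good (⨅ i, n i) K q := by
  classical
  have := Fintype.ofFinite κ
  have key : ∀ (s : Finset κ) (J : Ideal A), ringKrullDim (A ⧸ J) ≤ (1 : ℕ) →
      (∀ i ∈ s, J ⊔ n i = ⊤) → ∃ K, Good (s.inf n) K q ∧ K ⊔ J = ⊤ := by
    intro s
    induction s using Finset.induction_on with
    | empty => exact fun J _ _ => ⟨⊤, by simpa using good_top q, top_sup_eq J⟩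
    | insert i s his ih =>
      intro J hJ hs
      have hd : ringKrullDim (A ⧸ n i) ≤ (1 : ℕ) := by
        have := hn i
        let := Ideal.Quotient.field (n i)
        rw [ringKrullDim_eq_zero_of_field]
        exact_mod_cast zero_le_one
      obtain ⟨K, hK, hKJ⟩ := ih (J ⊓ n i) (dim_inf hJ hd) fun j hj =>
        good_inf_sup (hs j (Finset.mem_insert_of_mem hj))
          ((hn i).coprime_of_ne (hn j) fun hij => his (hi hij ▸ hj))
      have h1 : K ⊔ J = ⊤ := top_le_iff.1 (hKJ.ge.trans (sup_le_sup_left inf_le_left _))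
      have h2 : K ⊔ n i = ⊤ := top_le_iff.1 (hKJ.ge.trans (sup_le_sup_left inf_le_right _))
      obtain ⟨K', hK', hKJ'⟩ := h i (J ⊓ K) (dim_inf hJ hK.dim)
        (good_inf_sup (hs i (Finset.mem_insert_self i s)) h2)
      refine ⟨K' ⊓ K, ?_, good_inf_sup
        (top_le_iff.1 (hKJ'.ge.trans (sup_le_sup_left inf_le_left _))) h1⟩
      rw [Finset.inf_insert]
      exact hK'.inf hK (top_le_iff.1 (hKJ'.ge.trans (sup_le_sup_left inf_le_right _)))
  obtain ⟨K, hK, -⟩ := key Finset.univ ⊤ (good_top (A := A) q).dim fun i _ => top_sup_eq _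
  exact ⟨K, by rwa [Finset.inf_univ_eq_iInf] at hK⟩

end Pool.Agent.Lib.MP_a37f0b_ag.Q4
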