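import Pool.Agent.Lib.MP_a37f0b_ag.Q4.Bass

/-! Closed immersions and their conormal modules. -/

open MvPolynomial

namespace Pool.Agent.Lib.MP_a37f0b_ag.Q4

variable {A : Type} [CommRing A] {σ : Type}

/-- The divided difference of `F` between `x` and `x + τ v`. -/
noncomputable def dd {Ω : Type} [CommRing Ω] (φ : A →+* Ω) (x v : σ → Ω) (τ : Ω)
    (F : MvPolynomial σ A) : Ω :=
  (Polynomial.divX (eval₂ (Polynomial.C.comp φ)
    (fun l => Polynomial.C (x l) + Polynomial.X * Polynomial.C (v l)) F)).eval τ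

section

variable {Ω Ω' : Type} [CommRing Ω] [CommRing Ω'] (φ : A →+* Ω) (x v : σ → Ω) (τ : Ω)

theorem dd_add (F G : MvPolynomial σ A) : dd φ x v τ (F + G) = dd φ x v τ F + dd φ x v τ G := by
  simp [dd, Polynomial.divX_add]

theorem dd_C_mul (a : A) (F : MvPolynomial σ A) : dd φ x v τ (C a * F) = φ a * dd φ x v τ F := by
  simp [dd, Polynomial.divX_C_mul]

theorem dd_C (a : A) : dd φ x v τ (C a) = 0 := by
  simp [dd]

theorem imm_divX (q : Polynomial Ω) (r : Ω) :
    Polynomial.divX (Polynomial.C r + Polynomial.X * q) = q := by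
  ext n
  simp [Polynomial.coeff_divX]

theorem imm_eval (F : MvPolynomial σ A) : (eval₂ (Polynomial.C.comp φ)
    (fun l => Polynomial.C (x l) + Polynomial.X * Polynomial.C (v l)) F).eval τ =
    eval₂ φ (fun l => x l + τ * v l) F := by
  induction F using MvPolynomial.induction_on <;> simp [*, -Polynomial.X_mul_C]

theorem imm_split (F : MvPolynomial σ A) : ∃ q, q.eval τ = dd φ x v τ F ∧
    eval₂ (Polynomial.C.comp φ) (fun l => Polynomial.C (x l) + Polynomial.X * Polynomial.C (v l))
      F = Polynomial.C (eval₂ φ x F) + Polynomial.X * q := by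
  refine ⟨_, rfl, (Polynomial.X_mul_divX_add _).symm.trans ?_⟩
  rw [Polynomial.coeff_zero_eq_eval_zero, imm_eval, add_comm]
  simp

theorem imm_mul_X (F : MvPolynomial σ A) (l : σ) : dd φ x v τ (F * X l) =
    (x l + τ * v l) * dd φ x v τ F + eval₂ φ x F * v l := by
  obtain ⟨q, h, e⟩ := imm_split φ x v τ F
  rw [← h, dd, eval₂_mul, e, eval₂_X, show ∀ a b c d t : Polynomial Ω, (a + t * b) * (c + t * d) =
    a * c + t * ((c + t * d) * b + a * d) from fun _ _ _ _ _ => by ring, ← Polynomial.C_mul,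
    imm_divX]
  simp [mul_comm τ]

theorem dd_X (l : σ) : dd φ x v τ (X l) = v l := by
  simp only [dd, eval₂_X, imm_divX, Polynomial.eval_C]

theorem dd_nat (ψ : Ω →+* Ω') (F : MvPolynomial σ A) :
    ψ (dd φ x v τ F) = dd (ψ.comp φ) (ψ ∘ x) (ψ ∘ v) (ψ τ) F := by
  induction F using MvPolynomial.induction_on with
  | C a => simp [dd_C]
  | add p q hp hq => simp only [dd_add, map_add, hp, hq]
  | mul_X p l hp => simp [imm_mul_X, hp, eval₂_comp_left]

theorem dd_map {R : Type} [CommRing R] (α : R →+* A) (F : MvPolynomial σ R) :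
    dd φ x v τ (map α F) = dd (φ.comp α) x v τ F := by
  simp only [dd, eval₂_map, RingHom.comp_assoc]

theorem dd_spec (F : MvPolynomial σ A) :
    eval₂ φ (fun l => x l + τ * v l) F = eval₂ φ x F + τ * dd φ x v τ F := by
  obtain ⟨q, h, e⟩ := imm_split φ x v τ F
  rw [← imm_eval, e, ← h]
  simp

end

theorem imm_key [Finite σ] {N : ℕ} (F : Fin N → MvPolynomial σ A)
    (h : ∀ (Ω : Type) [Field Ω] (φ : A →+* Ω) (x v : σ → Ω) (τ : Ω) (j : σ), v j = 1 →
      (∀ i, eval₂ φ x (F i) = 0) → ¬ ∀ i, dd φ x v τ (F i) = 0) {B : Type} [CommRing B]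
    (ψ : A →+* B) (x y : σ → B) (hx : ∀ i, eval₂ ψ x (F i) = 0) (hy : ∀ i, eval₂ ψ y (F i) = 0)
    (l : σ) : y l = x l := by
  by_contra n
  let J := Ideal.span (Set.range fun l => y l - x l)
  let ε : σ → J := fun l => ⟨y l - x l, Ideal.subset_span ⟨l, rfl⟩⟩
  have : Module.Finite B J := Module.Finite.span_of_finite B (Set.finite_range _)
  have : Nontrivial J := ⟨ε l, 0, fun e => n (sub_eq_zero.1 (congrArg Subtype.val e))⟩
  obtain ⟨M, hM, -⟩ := (eq_top_or_exists_le_coatom (⊥ : Submodule B J)).resolve_left bot_ne_top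
  obtain ⟨m, hm, ⟨e⟩⟩ := isSimpleModule_iff_quot_maximal.1 (isSimpleModule_iff_isCoatom.2 hM)
  let := Ideal.Quotient.field m
  let f : J →ₗ[B] B ⧸ m := e.toLinearMap ∘ₗ M.mkQ
  let π := Ideal.Quotient.mk m
  have fs : ∀ b z, f (b • z) = π b * f z := fun b z => (f.map_smul b z).trans (Algebra.smul_def ..)
  obtain ⟨j, hj⟩ : ∃ j, f (ε j) ≠ 0 := by
    by_contra! k
    obtain ⟨⟨z, hz⟩, o⟩ := (e.surjective.comp M.mkQ_surjective) 1
    refine one_ne_zero (o.symm.trans (?_ : f ⟨z, hz⟩ = 0))
    clear o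
    induction hz using Submodule.span_induction with
    | mem z hz => obtain ⟨l, rfl⟩ := hz; exact k l
    | zero => exact f.map_zero
    | add a b ha hb h1 h2 => exact (f.map_add ⟨a, ha⟩ ⟨b, hb⟩).trans (by rw [h1, h2, add_zero])
    | smul a b hb h1 => exact (fs a ⟨b, hb⟩).trans (by rw [h1, mul_zero])
  have ev : ∀ l, π (x l) + π (y j - x j) * (f (ε l) / f (ε j)) = π (y l) := fun l => by
    rw [← mul_div_assoc, ← fs, show (y j - x j) • ε l = (y l - x l) • ε j from
      Subtype.ext (mul_comm ..), fs, mul_div_cancel_right₀ _ hj, map_sub, add_sub_cancel]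
  have key : ∀ G : MvPolynomial σ A, ∃ d : J, d.1 = eval₂ ψ y G - eval₂ ψ x G ∧
      dd (π.comp ψ) (π ∘ x) (fun l => f (ε l) / f (ε j)) (π (y j - x j)) G = f d / f (ε j) := by
    intro G
    induction G using MvPolynomial.induction_on with
    | C a => exact ⟨0, by simp, by simp [dd_C]⟩
    | add p q hp hq =>
      obtain ⟨a, a1, a2⟩ := hp
      obtain ⟨b, b1, b2⟩ := hq
      exact ⟨a + b, by simp [a1, b1]; ring, by rw [dd_add, a2, b2, map_add, add_div]⟩
    | mul_X p l hp =>
      obtain ⟨a, a1, a2⟩ := hp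
      refine ⟨y l • a + eval₂ ψ x p • ε l, by simp [a1, ε]; ring, ?_⟩
      rw [imm_mul_X, Function.comp_apply, ev, a2, map_add, fs, fs, ← eval₂_comp_left]
      ring
  refine h (B ⧸ m) (π.comp ψ) (π ∘ x) (fun l => f (ε l) / f (ε j)) (π (y j - x j)) j (div_self hj)
    (fun i => by rw [← eval₂_comp_left, hx, map_zero]) fun i => ?_
  obtain ⟨d, d1, d2⟩ := key (F i)
  rw [d2, show d = 0 from Subtype.ext (by simp [d1, hx, hy]), map_zero, zero_div]

theorem imm_surj [Finite σ] {N : ℕ} (F : Fin N → MvPolynomial σ A)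
    (h : ∀ (Ω : Type) [Field Ω] (φ : A →+* Ω) (x v : σ → Ω) (τ : Ω) (j : σ), v j = 1 →
      (∀ i, eval₂ φ x (F i) = 0) → ¬ ∀ i, dd φ x v τ (F i) = 0) {G : Type} [CommRing G]
    [Algebra A G] [Module.Finite A G] (π : MvPolynomial σ A →ₐ[A] G) (s : Function.Surjective π)
    (hF : ∀ i, π (F i) = 0) : Function.Surjective (algebraMap A G) := by
  have z : ∀ (g : G →ₐ[A] TensorProduct A G G) (i),
      eval₂ (algebraMap A _) (fun l => g (π (X l))) (F i) = 0 := fun g i => by
    rw [← aeval_def, show aeval (fun l => g (π (X l))) = g.comp π from algHom_ext (by simp),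
      AlgHom.comp_apply, hF, map_zero]
  have e : Algebra.TensorProduct.includeRight.comp π =
      (Algebra.TensorProduct.includeLeft (S := A)).comp π :=
    algHom_ext fun l => by
      exact imm_key F h _ _ _ (z (Algebra.TensorProduct.includeLeft (S := A)))
        (z Algebra.TensorProduct.includeRight) l
  refine Algebra.isEpi_iff_surjective_algebraMap_of_finite.1
    ((Algebra.isEpi_iff_forall_one_tmul_eq A _).2 fun a => ?_)
  obtain ⟨a, rfl⟩ := s a
  exact AlgHom.congr_fun e a

/-- A finite map that separates points and tangent vectors is a closed immersion. -/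
theorem imm [Finite σ] {N : ℕ} (F : Fin N → MvPolynomial σ A)
    [Module.Finite A (MvPolynomial σ A ⧸ Ideal.span (Set.range F))]
    (h : ∀ (Ω : Type) [Field Ω] (φ : A →+* Ω) (x v : σ → Ω) (τ : Ω) (j : σ), v j = 1 →
      (∀ i, eval₂ φ x (F i) = 0) → ¬ ∀ i, dd φ x v τ (F i) = 0) (j : σ) :
    ∃ θ : A, X j - C θ ∈ Ideal.span (Set.range F) := by
  obtain ⟨θ, e⟩ := imm_surj F h (Ideal.Quotient.mkₐ A (Ideal.span (Set.range F)))
    (Ideal.Quotient.mkₐ_surjective A _) (fun i => Ideal.Quotient.eq_zero_iff_mem.2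
      (Ideal.subset_span ⟨i, rfl⟩)) (Ideal.Quotient.mk _ (X j))
  exact ⟨θ, Ideal.Quotient.eq.1 e.symm⟩

theorem conorm [IsNoetherianRing A] {s q : ℕ} (hq : 2 ≤ q) (F : Fin (s + q) → MvPolynomial (Fin s) A)
    (h : ∀ j, ∃ θ : A, X j - C θ ∈ Ideal.span (Set.range F)) {K : Ideal A}
    (hK : K = (Ideal.span (Set.range F)).comap C) (hd : ringKrullDim (A ⧸ K) ≤ (1 : ℕ)) :
    ∃ m : Fin q → A, (∀ i, m i ∈ K) ∧ K ≤ Ideal.span (Set.range m) ⊔ K ^ 2 := by
  choose θ h using h
  choose ν h using fun j => Ideal.mem_span_range_iff_exists_fun.1 (h j)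
  have k : ∀ G, G - C (eval θ G) ∈ Ideal.span (Set.range F) := fun G => by
    induction G using MvPolynomial.induction_on with
    | C a => simp
    | add p q hp hq => simpa [add_sub_add_comm] using add_mem hp hq
    | mul_X p l hp =>
      have := add_mem (Ideal.mul_mem_right (X l) _ hp) (Ideal.mul_mem_left _ (C (eval θ p))
        (Ideal.mem_span_range_iff_exists_fun.2 ⟨_, h l⟩))
      simpa [sub_mul, mul_sub] using this
  let f : Fin (s + q) → K := fun i => ⟨eval θ (F i), hK ▸ by
    simpa using sub_mem (Ideal.subset_span (Set.mem_range_self i)) (k (F i))⟩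
  let π := Ideal.Quotient.mk K
  let T := Fintype.linearCombination (A ⧸ K) fun i => K.toCotangent (f i)
  have hT : ∀ (g : Fin (s + q) → A) (a : K), ∑ i, g i * f i = a →
      T (π ∘ g) = K.toCotangent a := fun g a e => by
    rw [show a = ∑ i, g i • f i from Subtype.ext (by simp [← e]), map_sum,
      Fintype.linearCombination_apply]
    exact Finset.sum_congr rfl fun i _ =>
      (algebraMap_smul (A ⧸ K) (g i) _).trans (map_smul _ _ _).symm
  let N := Fintype.linearCombination (A ⧸ K) fun j => π ∘ fun i => eval θ (ν j i)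
  let M := Fintype.linearCombination (A ⧸ K) fun i l => π (eval θ (pderiv l (F i)))
  have MN : M ∘ₗ N = .id := (Pi.basisFun _ _).ext fun j => funext fun l => by
    have := congrArg (fun G => π (eval θ (pderiv l G))) (h j)
    have z : ∀ i, π (eval θ (F i)) = 0 := fun i => Ideal.Quotient.eq_zero_iff_mem.2 (f i).2
    simpa [M, N, Fintype.linearCombination_apply, z, Pi.single_apply, pderiv_X, eq_comm,
      apply_ite] using this
  have TN : LinearMap.range N ≤ LinearMap.ker T := LinearMap.range_le_ker_iff.2 <|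
    (Pi.basisFun _ _).ext fun j => by
      simpa [N] using hT _ 0 (by simpa [f] using congrArg (eval θ) (h j))
  obtain ⟨e⟩ := free_of_stably (m := q) (fun κ _ _ n => bass hd κ (by omega)) s
    (((LinearEquiv.prodComm ..).trans (N.exact_map_mkQ_range.splitInjectiveEquiv
      (Submodule.mkQ_surjective _) ⟨M, MN⟩).1.symm).trans
        (.funCongrLeft _ _ (finCongr (add_comm q s))))
  let S := (LinearMap.range N).liftQ T TN ∘ₗ e.symm.toLinearMap
  choose m hm using fun i => K.toCotangent_surjective (S fun j => if i = j then 1 else 0)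
  refine ⟨fun i => m i, fun i => (m i).2, fun a ha => ?_⟩
  obtain ⟨g, hg⟩ := Ideal.mem_span_range_iff_exists_fun.1 (show C a ∈ _ from (hK ▸ ha :))
  choose c hc using fun i => Ideal.Quotient.mk_surjective
    (e ((LinearMap.range N).mkQ (π ∘ fun i => eval θ (g i))) i)
  have : K.toCotangent ⟨a, ha⟩ = K.toCotangent (∑ i, c i • m i) := by
    rw [← hT (fun i => eval θ (g i)) ⟨a, ha⟩ (by simpa [f] using congrArg (eval θ) hg), map_sum]
    refine Eq.trans (b := S (e ((LinearMap.range N).mkQ (π ∘ fun i => eval θ (g i)))))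
      (by simp [S]) ?_
    rw [S.pi_apply_eq_sum_univ]
    exact Finset.sum_congr rfl fun i _ => by
      rw [← hm, ← hc, map_smul]
      exact algebraMap_smul (A ⧸ K) (c i) _
  rw [← add_sub_cancel (∑ i, c i • m i : K).1 a]
  exact add_mem (Ideal.mem_sup_left (Ideal.mem_span_range_iff_exists_fun.2 ⟨c, by simp⟩))
    (Ideal.mem_sup_right (K.toCotangent_eq.1 this))

end Pool.Agent.Lib.MP_a37f0b_ag.Q4
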