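import Pool.Agent.Lib.MP_a37f0b_ag.Q4.Sym

/-! The symplectic module of a symmetric matrix and a regular sequence of length two. -/

open Matrix

namespace Pool.Agent.Lib.MP_a37f0b_ag.Q4

variable {S : Type} [CommRing S] {ι : Type} [Fintype ι] [DecidableEq ι]

/-- Regular sequences of length two. -/
def Reg2 (f g : S) : Prop := (∀ x, f * x = 0 → x = 0) ∧ ∀ x, f ∣ g * x → f ∣ x

/-- The solutions of `L x = f y + g z`. -/
def PP (L : Matrix ι ι S) (f g : S) : Submodule S ((ι → S) × (ι → S) × (ι → S)) where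
  carrier := {v | L *ᵥ v.1 = f • v.2.1 + g • v.2.2}
  add_mem' := fun {v w} hv hw => by
    simp only [Set.mem_ofPred_eq, Prod.fst_add, Prod.snd_add, mulVec_add, smul_add] at *
    rw [hv, hw]
    abel
  zero_mem' := by simp
  smul_mem' := fun c v hv => by
    simp only [Set.mem_ofPred_eq, Prod.smul_fst, Prod.smul_snd, mulVec_smul] at *
    rw [hv, smul_add, smul_comm c f, smul_comm c g]

/-- The radical of `L` modulo `f` and `g`. -/
def Rad (L : Matrix ι ι S) (f g : S) : Submodule S (ι → S) :=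
  (PP L f g).map (LinearMap.fst S _ _)

/-- The value of the alternating form. -/
def Om (f g : S) (v w : (ι → S) × (ι → S) × (ι → S)) (θ : S) : Prop :=
  g * θ = w.1 ⬝ᵥ v.2.1 - v.1 ⬝ᵥ w.2.1 ∧ f * θ = v.1 ⬝ᵥ w.2.2 - w.1 ⬝ᵥ v.2.2

/-- The module of solutions has a symplectic basis. -/
def HP (L : Matrix ι ι S) (f g : S) : Prop :=
  ∃ (m : ℕ) (p q : Fin m → (ι → S) × (ι → S) × (ι → S)), (∀ i j, Om f g (p i) (p j) 0) ∧
    (∀ i j, Om f g (q i) (q j) 0) ∧ (∀ i j, Om f g (p i) (q j) (if i = j then 1 else 0)) ∧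
    Submodule.span S (Set.range p ∪ Set.range q) = PP L f g

/-- The pairing modulo `f` and `g` is perfect. -/
def Perf (L : Matrix ι ι S) (f g : S) : Prop :=
  ∀ κ : ι → S, (∀ x ∈ Rad L f g, κ ⬝ᵥ x ∈ Ideal.span {f, g}) →
    ∃ x, ∀ i, κ i - (L *ᵥ x) i ∈ Ideal.span {f, g}

variable {L : Matrix ι ι S} {f g : S}

theorem mem_rad {x : ι → S} : x ∈ Rad L f g ↔ ∀ i, (L *ᵥ x) i ∈ Ideal.span {f, g} := by
  simp only [Ideal.mem_span_pair]
  constructor
  · rintro ⟨v, hv, rfl⟩ i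
    exact ⟨v.2.1 i, v.2.2 i, by rw [mul_comm, mul_comm _ g]; exact (congrFun hv i).symm⟩
  · intro h
    choose y z h using h
    exact ⟨(x, y, z), funext fun i => by rw [← h i, mul_comm, mul_comm _ g]; rfl, rfl⟩

theorem ppa_dual (φ : (ι → S) →ₗ[S] S) : ∃ ξ : ι → S, ∀ x, φ x = ξ ⬝ᵥ x :=
  ⟨fun i => φ fun j => if i = j then 1 else 0, fun x => by
    rw [LinearMap.pi_apply_eq_sum_univ, dotProduct_comm]; rfl⟩

theorem Reg2.cancel (h : Reg2 f g) {x y : S} (e : f * x = f * y) : x = y :=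
  sub_eq_zero.1 (h.1 _ (by rw [mul_sub, e, sub_self]))

/-- Linear forms on a submodule that contains `f F + g F` extend. -/
theorem Reg2.ext (h : Reg2 f g) {G : Submodule S (ι → S)} (h1 : ∀ x, f • x ∈ G)
    (h2 : ∀ x, g • x ∈ G) (ψ : G →ₗ[S] S) : ∃ ξ : ι → S, ∀ x : G, ψ x = ξ ⬝ᵥ x := by
  obtain ⟨a, ha⟩ := ppa_dual (ψ ∘ₗ (f • LinearMap.id).codRestrict G h1)
  have h3 : ∀ i, f ∣ a i := fun i => h.2 _ ⟨ψ ⟨_, h2 (Pi.single i 1)⟩, by
    rw [← dotProduct_single_one a i, ← ha, ← smul_eq_mul, ← smul_eq_mul, ← map_smul, ← map_smul]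
    exact congrArg ψ (Subtype.ext (by simp [smul_smul, mul_comm]))⟩
  choose ξ hξ using h3
  refine ⟨ξ, fun x => h.cancel ?_⟩
  rw [← smul_eq_mul, ← smul_eq_mul, ← map_smul, ← smul_dotProduct,
    show f • ξ = a from (funext hξ).symm, ← ha]
  rfl

omit [DecidableEq ι] in
theorem ppa_symm (hL : L.IsSymm) (x y : ι → S) : x ⬝ᵥ L *ᵥ y = y ⬝ᵥ L *ᵥ x := by
  rw [dotProduct_mulVec, ← mulVec_transpose, hL.eq, dotProduct_comm]

theorem exists_om (h : Reg2 f g) (hL : L.IsSymm) :
    ∃ ω : PP L f g →ₗ[S] PP L f g →ₗ[S] S, (∀ v w, Om f g v.1 w.1 (ω v w)) ∧ (∀ v, ω v v = 0) ∧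
      Function.Bijective ω := by
  have ex : ∀ v w : PP L f g, ∃ θ, Om f g v.1 w.1 θ := fun v w => by
    have e := ppa_symm hL v.1.1 w.1.1
    rw [show L *ᵥ v.1.1 = _ from v.2, show L *ᵥ w.1.1 = _ from w.2] at e
    simp only [dotProduct_add, dotProduct_smul, smul_eq_mul] at e
    obtain ⟨θ, hθ⟩ := h.2 (v.1.1 ⬝ᵥ w.1.2.2 - w.1.1 ⬝ᵥ v.1.2.2)
      ⟨w.1.1 ⬝ᵥ v.1.2.1 - v.1.1 ⬝ᵥ w.1.2.1, by linear_combination e⟩
    exact ⟨θ, h.cancel (by linear_combination e - g * hθ), hθ.symm⟩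
  choose θ hθ using ex
  have h2 := fun v w => (hθ v w).2
  let A : (ι → S) →ₗ[S] PP L f g := LinearMap.codRestrict _
    ((f • LinearMap.id).prod (L.mulVecLin.prod 0)) fun x => by simp [PP, mulVec_smul]
  let B : (ι → S) →ₗ[S] PP L f g := LinearMap.codRestrict _
    ((g • LinearMap.id).prod (LinearMap.prod 0 L.mulVecLin)) fun x => by simp [PP, mulVec_smul]
  let I : (ι → S) →ₗ[S] PP L f g := LinearMap.codRestrict _
    (LinearMap.prod 0 ((g • LinearMap.id).prod (-f • LinearMap.id))) fun x => by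
      simp [PP, smul_smul, mul_comm]
  refine ⟨LinearMap.mk₂ S θ (fun a b c => h.cancel ?_) (fun a b c => h.cancel ?_)
    (fun a b c => h.cancel ?_) (fun a b c => h.cancel ?_), hθ, fun v => h.1 _ ?_,
    (injective_iff_map_eq_zero _).2 fun v hv => ?_, fun ψ => ?_⟩
  · simp [mul_add, h2]; ring
  · simp [mul_left_comm f, h2, mul_sub]
  · simp [mul_add, h2]; ring
  · simp [mul_left_comm f, h2, mul_sub]
  · exact (h2 v v).trans (sub_self _)
  · have h3 : ∀ w, θ v w = 0 := DFunLike.congr_fun hv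
    have h4 : v.1.1 = 0 := funext fun i => h.1 _ (by simpa [I, h3] using h2 v (I (Pi.single i 1)))
    have h5 : v.1.2.2 = 0 := funext fun i => h.1 _ (by simpa [A, h3] using h2 v (A (Pi.single i 1)))
    have h6 : L *ᵥ v.1.1 = _ := v.2
    refine Subtype.ext (Prod.ext h4 (Prod.ext (funext fun i => h.1 _ ?_) h5))
    simpa [h4, h5] using congrFun h6.symm i
  · obtain ⟨x, hx⟩ := ppa_dual (ψ ∘ₗ I)
    obtain ⟨y, hy⟩ := ppa_dual (ψ ∘ₗ B)
    obtain ⟨z, hz⟩ := ppa_dual (ψ ∘ₗ A)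
    simp only [LinearMap.comp_apply] at hx hy hz
    refine ⟨⟨(-x, y, -z), funext fun i => ?_⟩, LinearMap.ext fun w => h.cancel ?_⟩
    · have e : I (L *ᵥ Pi.single i 1) = g • A (Pi.single i 1) - f • B (Pi.single i 1) :=
        Subtype.ext (by simp [I, A, B, smul_smul, mul_comm, -mulVec_single])
      have e' := congrArg ψ e
      rw [map_sub, map_smul, map_smul, hx, hy, hz, ppa_symm hL] at e'
      simp only [dotProduct_single_one, single_one_dotProduct, smul_eq_mul] at e'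
      simp only [mulVec_neg, Pi.neg_apply, Pi.add_apply, Pi.smul_apply, smul_eq_mul]
      linear_combination -e'
    · have e : f • w = A w.1.1 - I w.1.2.2 :=
        Subtype.ext (by simp [I, A, Prod.ext_iff, show L *ᵥ w.1.1 = _ from w.2])
      have e' := congrArg ψ e
      rw [map_sub, map_smul, hx, hz, smul_eq_mul] at e'
      rw [LinearMap.mk₂_apply, h2, e']
      simp only [neg_dotProduct, dotProduct_neg, dotProduct_comm z]
      ring

theorem hp_iff (h : Reg2 f g) {ω : PP L f g →ₗ[S] PP L f g →ₗ[S] S}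
    (hω : ∀ v w, Om f g v.1 w.1 (ω v w)) : HP L f g ↔ Hyp ω ⊤ := by
  have key : ∀ {m : ℕ} (p q : Fin m → PP L f g), Submodule.span S (Set.range p ∪ Set.range q) = ⊤ ↔
      Submodule.span S (Set.range (fun i => (p i).1) ∪ Set.range fun i => (q i).1) = PP L f g :=
    fun p q => by
      rw [← (Submodule.map_injective_of_injective (PP L f g).injective_subtype).eq_iff,
        Submodule.map_span, Submodule.map_subtype_top, Set.image_union, ← Set.range_comp,
        ← Set.range_comp]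
      rfl
  have uq : ∀ {v w : PP L f g} {θ}, Om f g v.1 w.1 θ → ω v w = θ := fun a =>
    h.cancel ((hω _ _).2.trans a.2.symm)
  constructor
  · rintro ⟨m, p, q, h1, h2, h3, h4⟩
    have hp : ∀ i, p i ∈ PP L f g := fun i => h4.le (Submodule.subset_span (.inl ⟨i, rfl⟩))
    have hq : ∀ i, q i ∈ PP L f g := fun i => h4.le (Submodule.subset_span (.inr ⟨i, rfl⟩))
    exact ⟨m, fun i => ⟨_, hp i⟩, fun i => ⟨_, hq i⟩, fun i j => uq (h1 i j), fun i j => uq (h2 i j),
      fun i j => uq (h3 i j), (key _ _).2 h4⟩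
  · rintro ⟨m, p, q, h1, h2, h3, h4⟩
    exact ⟨m, fun i => (p i).1, fun i => (q i).1, fun i j => h1 i j ▸ hω _ _,
      fun i j => h2 i j ▸ hω _ _, fun i j => h3 i j ▸ hω _ _, (key _ _).1 h4⟩

theorem hp_of_proj [IsNoetherianRing S] (hS : AF S) (h : Reg2 f g) (hL : L.IsSymm)
    [Module.Projective S (PP L f g)] : HP L f g := by
  obtain ⟨ω, h1, h2, h3⟩ := exists_om h hL
  exact (hp_iff h h1).2 (hyp_of_af hS h2 h3)

theorem HP.loc {A : Type} [CommRing A] [Algebra S A] (r : S) [IsLocalization.Away r A]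
    (h : HP L f g) : HP (L.map (algebraMap S A)) (algebraMap S A f) (algebraMap S A g) := by
  obtain ⟨m, p, q, h1, h2, h3, h4⟩ := h
  let c : (ι → S) →ₗ[S] ι → A := .pi fun i => Algebra.linearMap S A ∘ₗ .proj i
  have : IsLocalizedModule (Submonoid.powers r) c :=
    IsLocalizedModule.pi _ fun _ => Algebra.linearMap S A
  let φ := c.prodMap (c.prodMap c)
  have hc : ∀ x y, c x ⬝ᵥ c y = algebraMap S A (x ⬝ᵥ y) := fun x y =>
    (RingHom.map_dotProduct _ x y).symm
  have hL : ∀ x, L.map (algebraMap S A) *ᵥ c x = c (L *ᵥ x) := fun x => funext fun i =>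
    (RingHom.map_mulVec _ L x i).symm
  have om : ∀ {v w θ}, Om f g v w θ →
      Om (algebraMap S A f) (algebraMap S A g) (φ v) (φ w) (algebraMap S A θ) := fun a =>
    ⟨by rw [← map_mul, a.1, map_sub, ← hc, ← hc]; rfl, by rw [← map_mul, a.2, map_sub, ← hc, ← hc]; rfl⟩
  have mem : ∀ v, φ v ∈ PP (L.map (algebraMap S A)) (algebraMap S A f) (algebraMap S A g) ↔
      c (L *ᵥ v.1) = c (f • v.2.1 + g • v.2.2) := fun v => by
    rw [← hL, map_add, map_smul, map_smul, ← algebraMap_smul A f, ← algebraMap_smul A g]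
    rfl
  refine ⟨m, fun i => φ (p i), fun i => φ (q i), fun i j => by simpa using om (h1 i j),
    fun i j => by simpa using om (h2 i j), fun i j => by simpa using om (h3 i j),
    le_antisymm (Submodule.span_le.2 ?_) fun v hv => ?_⟩
  · rintro _ (⟨i, rfl⟩ | ⟨i, rfl⟩)
    · exact (mem _).2 (congrArg c (h4.le (Submodule.subset_span (.inl ⟨i, rfl⟩))))
    · exact (mem _).2 (congrArg c (h4.le (Submodule.subset_span (.inr ⟨i, rfl⟩))))
  · obtain ⟨⟨u, s⟩, e : s • v = φ u⟩ := IsLocalizedModule.surj (Submonoid.powers r) φ v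
    obtain ⟨t, ht⟩ := IsLocalizedModule.exists_of_eq (S := Submonoid.powers r)
      ((mem u).1 (e ▸ Submodule.smul_of_tower_mem _ s hv))
    have h5 : (t : S) • u ∈ PP L f g := by
      change L *ᵥ ((t : S) • u.1) = f • (t : S) • u.2.1 + g • (t : S) • u.2.2
      rw [mulVec_smul, smul_comm f, smul_comm g, ← smul_add]
      exact ht
    have h6 := Submodule.mem_map_of_mem (f := φ) (h4.ge h5)
    rw [Submodule.map_span, Set.image_union, ← Set.range_comp, ← Set.range_comp, map_smul,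
      ← e] at h6
    have h7 := Submodule.span_le_restrictScalars S A _ h6
    rw [Submodule.restrictScalars_mem, Submonoid.smul_def, smul_smul, ← algebraMap_smul A] at h7
    exact (Submodule.smul_mem_iff_of_isUnit _ (IsLocalization.map_units A (t * s))).1 h7

theorem Reg2.loc {A : Type} [CommRing A] [Algebra S A] (r : S) [IsLocalization.Away r A]
    (h : Reg2 f g) : Reg2 (algebraMap S A f) (algebraMap S A g) := by
  refine ⟨fun x hx => ?_, fun x ⟨y, hy⟩ => ?_⟩
  · obtain ⟨⟨a, s⟩, e⟩ := IsLocalization.surj (Submonoid.powers r) x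
    obtain ⟨t, ht⟩ := (IsLocalization.map_eq_zero_iff (Submonoid.powers r) A (f * a)).1
      (by rw [map_mul, ← e, ← mul_assoc, hx, zero_mul])
    rw [← (IsLocalization.map_units A s).mul_left_eq_zero, e]
    exact (IsLocalization.map_eq_zero_iff (Submonoid.powers r) A a).2
      ⟨t, h.1 _ (by rw [mul_left_comm, ht])⟩
  · obtain ⟨⟨a, s⟩, e⟩ := IsLocalization.surj (Submonoid.powers r) x
    obtain ⟨⟨b, s'⟩, e'⟩ := IsLocalization.surj (Submonoid.powers r) y
    obtain ⟨t, ht⟩ := (IsLocalization.eq_iff_exists (Submonoid.powers r) A).1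
      (show algebraMap S A (g * a * s') = algebraMap S A (f * b * s) by
        simp only [map_mul, ← e, ← e']
        linear_combination algebraMap S A s * algebraMap S A s' * hy)
    have h1 := map_dvd (algebraMap S A) (h.2 (t * s' * a) ⟨t * b * s, by linear_combination ht⟩)
    rw [map_mul, ← e, mul_left_comm, ← map_mul] at h1
    exact (IsLocalization.map_units A (t * s' * s)).dvd_mul_right.1 h1

/-- A matrix of rank one modulo `f` and `g`. -/
theorem HP.free (h4 : TR S 4) (h : Reg2 f g) (hL : L.IsSymm) (H : HP L f g) {i₀ : ι} {γ : ι → S}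
    (h1 : γ i₀ = 1) (h2 : ∀ i j, L i j - γ i * γ j * L i₀ i₀ ∈ Ideal.span {f, g}) :
    Module.Free S (Ker ![L i₀ i₀, f, g]) := by
  obtain ⟨ω, h3, ha, -⟩ := exists_om h hL
  have ex : ∀ p : Sym2 ι, ∃ a b : S, ∀ i j, s(i, j) = p →
      L i j = γ i * γ j * L i₀ i₀ + (f * a + g * b) := fun p => by
    induction p using Sym2.ind with
    | h i j =>
      obtain ⟨a, b, e⟩ := Ideal.mem_span_pair.1 (h2 i j)
      refine ⟨a, b, fun i' j' e' => ?_⟩
      rcases Sym2.eq_iff.1 e' with ⟨rfl, rfl⟩ | ⟨rfl, rfl⟩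
      · linear_combination -e
      · linear_combination hL.apply j' i' - e
  choose a b hab using ex
  let Y : Matrix ι ι S := of fun i j => a s(i, j)
  let Z : Matrix ι ι S := of fun i j => b s(i, j)
  have hZ : ∀ x x' : ι → S, x ⬝ᵥ Z *ᵥ x' = x' ⬝ᵥ Z *ᵥ x := fun x x' => by
    rw [dotProduct_mulVec, ← mulVec_transpose, dotProduct_comm,
      show Zᵀ = Z from Matrix.ext fun i j => congrArg b Sym2.eq_swap]
  have e : ∀ x, L *ᵥ x = (L i₀ i₀ * γ ⬝ᵥ x) • γ + (f • Y *ᵥ x + g • Z *ᵥ x) := fun x => by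
    funext i
    simp only [mulVec, dotProduct, Pi.add_apply, Pi.smul_apply, smul_eq_mul, Finset.mul_sum,
      Finset.sum_mul, ← Finset.sum_add_distrib, Y, Z, of_apply]
    exact Finset.sum_congr rfl fun j _ => by linear_combination x j * hab _ i j rfl
  have val : ∀ v w θ, f * θ = v.1.1 ⬝ᵥ w.1.2.2 - w.1.1 ⬝ᵥ v.1.2.2 → ω v w = θ := fun v w θ e =>
    sub_eq_zero.1 (h.1 _ (by rw [mul_sub, (h3 v w).2, e, sub_self]))
  let x : ι → ι → S := fun i => Pi.single i 1 - Pi.single i₀ (γ i)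
  have hx : ∀ i u, x i ⬝ᵥ u = u i - γ i * u i₀ := fun i u => by simp [x]
  let P : {i // i ≠ i₀} → PP L f g := fun i => ⟨(x i, Y *ᵥ x i, Z *ᵥ x i), by
    change L *ᵥ x i = _
    rw [e, dotProduct_comm, hx, h1, mul_one, sub_self, mul_zero, zero_smul, zero_add]⟩
  let Q : {i // i ≠ i₀} → PP L f g := fun i => ⟨(0, -g • Pi.single i.1 1, f • Pi.single i.1 1), by
    change L *ᵥ 0 = _
    rw [mulVec_zero, smul_smul, smul_smul, ← add_smul, show f * -g + g * f = 0 by ring, zero_smul]⟩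
  have := (Hyp.cancels h4 ha ((hp_iff h h3).1 H) P Q
    (fun i j => val _ _ _ (by simp only [P]; rw [hZ, sub_self, mul_zero]))
    (fun i j => val _ _ _ (by simp [Q])) fun i j => val _ _ _ (by
      simp only [P, Q, hx, zero_dotProduct, sub_zero, Pi.smul_apply, smul_eq_mul,
        Pi.single_eq_of_ne' j.2, mul_zero, Pi.single_apply, Subtype.ext_iff])).free ha
  let Ψ : Ker ![L i₀ i₀, f, g] →ₗ[S] PP L f g :=
    { toFun := fun k => ⟨(Pi.single i₀ (k.1 0), Y *ᵥ Pi.single i₀ (k.1 0) - k.1 1 • γ,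
        Z *ᵥ Pi.single i₀ (k.1 0) - k.1 2 • γ), by
          have hk : L i₀ i₀ * k.1 0 + f * k.1 1 + g * k.1 2 = 0 :=
            (Fin.sum_univ_three _).symm.trans k.2
          change L *ᵥ _ = _
          rw [e, dotProduct_single, h1]
          funext i
          simp only [Pi.add_apply, Pi.smul_apply, Pi.sub_apply, smul_eq_mul]
          linear_combination γ i * hk⟩
      map_add' := fun k k' => Subtype.ext (by
        simp only [Submodule.coe_add, Pi.add_apply, Pi.single_add, mulVec_add, add_smul,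
          Prod.mk_add_mk, Prod.mk.injEq, true_and]
        constructor <;> abel)
      map_smul' := fun c k => Subtype.ext (by
        simp only [Submodule.coe_smul, Pi.smul_apply, Pi.single_smul, mulVec_smul, smul_sub,
          smul_assoc, RingHom.id_apply, Prod.smul_mk]) }
  have inj : Function.Injective Ψ := (injective_iff_map_eq_zero _).2 fun k hk => by
    have := congrArg Subtype.val hk
    simp only [Ψ, LinearMap.coe_mk, AddHom.coe_mk, Submodule.coe_zero, Prod.mk_eq_zero] at this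
    obtain ⟨a1, a2, a3⟩ := this
    rw [a1, mulVec_zero] at a2 a3
    refine Subtype.ext (funext fun i => ?_)
    fin_cases i
    · simpa using congrFun a1 i₀
    · simpa [h1] using congrFun a2 i₀
    · simpa [h1] using congrFun a3 i₀
  have rg : LinearMap.range Ψ = Ort ω (Set.range P ∪ Set.range Q) := by
    ext ⟨⟨u, y, z⟩, hw⟩
    simp only [Ort, Submodule.mem_iInf, LinearMap.mem_ker, Set.mem_union, or_imp, forall_and,
      Set.forall_mem_range, LinearMap.mem_range]
    constructor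
    · rintro ⟨k, hk⟩
      rw [← hk]
      refine ⟨fun i => val _ _ _ ?_, fun i => val _ _ _ ?_⟩
      · change _ = x i ⬝ᵥ (Z *ᵥ Pi.single i₀ (k.1 0) - k.1 2 • γ) - Pi.single i₀ (k.1 0) ⬝ᵥ Z *ᵥ x i
        rw [dotProduct_sub, hZ, dotProduct_smul, hx, h1]
        simp
      · simp [Ψ, Q, Pi.single_eq_of_ne i.2]
    rintro ⟨a1, a2⟩
    have b1 : u = Pi.single i₀ (u i₀) := funext fun i => by
      by_cases hi : i = i₀
      · rw [hi, Pi.single_eq_same]
      have := (h3 (Q ⟨i, hi⟩) ⟨_, hw⟩).2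
      rw [a2] at this
      rw [Pi.single_eq_of_ne hi]
      exact h.1 _ (by simpa [Q] using this)
    have b2 : z = Z *ᵥ u - ((Z *ᵥ u) i₀ - z i₀) • γ := funext fun i => by
      by_cases hi : i = i₀
      · simp [hi, h1]
      have := (h3 (P ⟨i, hi⟩) ⟨_, hw⟩).2
      rw [a1] at this
      simp only [P, ← hZ (x i), hx] at this
      simp only [Pi.sub_apply, Pi.smul_apply, smul_eq_mul]
      linear_combination -this
    have b3 : ∀ i, _ = _ := congrFun ((e u).symm.trans hw)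
    have b4 : γ ⬝ᵥ u = u i₀ := by rw [b1]; simp [h1]
    simp only [Pi.add_apply, Pi.smul_apply, smul_eq_mul, b4] at b3
    have b5 := b3 i₀
    rw [h1] at b5
    refine ⟨⟨![u i₀, (Y *ᵥ u) i₀ - y i₀, (Z *ᵥ u) i₀ - z i₀], (Fin.sum_univ_three _).trans ?_⟩,
      Subtype.ext (Prod.ext b1.symm (Prod.ext ?_ ?_))⟩
    · simp only [cons_val_zero, cons_val_one, cons_val]
      linear_combination b5
    · change Y *ᵥ Pi.single i₀ (u i₀) - ((Y *ᵥ u) i₀ - y i₀) • γ = y
      rw [← b1]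
      refine funext fun i => sub_eq_zero.1 (h.1 _ ?_)
      have := congrFun b2 i
      simp only [Pi.sub_apply, Pi.smul_apply, smul_eq_mul] at this ⊢
      linear_combination b3 i - γ i * b5 + g * this
    · change Z *ᵥ Pi.single i₀ (u i₀) - ((Z *ᵥ u) i₀ - z i₀) • γ = z
      rw [← b1, ← b2]
  exact Module.Free.of_equiv ((LinearEquiv.ofInjective Ψ inj).trans (LinearEquiv.ofEq _ _ rg)).symm

theorem ker_mul {a b c h r : S} (hr : IsUnit r) (hh : Reg2 h c) :
    Nonempty (Ker ![h * r * a, b * h, c * r] ≃ₗ[S] Ker ![a, b, c]) := by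
  obtain ⟨u, hu⟩ := hr.exists_left_inv
  have mem : ∀ (v x : Fin 3 → S), x ∈ Ker v ↔ v 0 * x 0 + v 1 * x 1 + v 2 * x 2 = 0 := fun v x => by
    rw [← Fin.sum_univ_three fun i => v i * x i]
    rfl
  refine ⟨(LinearEquiv.ofBijective ((diagonal ![1, r, h]).mulVecLin.restrict
    (p := Ker ![a, b, c]) (q := Ker ![h * r * a, b * h, c * r]) fun x hx => ?_)
    ⟨(injective_iff_map_eq_zero _).2 fun x hx => Subtype.ext (funext fun i => ?_),
      fun x => ?_⟩).symm⟩
  · rw [mem] at hx ⊢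
    simp [mulVec_diagonal] at hx ⊢
    linear_combination h * r * hx
  · have e := congrFun (congrArg Subtype.val hx) i
    fin_cases i
    · simpa [mulVec_diagonal] using e
    · simpa [mulVec_diagonal, hr.mul_right_eq_zero] using e
    · exact hh.1 _ (by simpa [mulVec_diagonal] using e)
  · have hx := (mem _ _).1 x.2
    simp at hx
    obtain ⟨z, hz⟩ := hr.dvd_mul_left.1 (hh.2 (r * x.1 2)
      ⟨-(r * a * x.1 0 + b * x.1 1), by linear_combination hx⟩)
    refine ⟨⟨![x.1 0, u * x.1 1, z], (mem _ _).2 (hh.1 _ ?_)⟩, Subtype.ext (funext fun i => ?_)⟩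
    · simp
      linear_combination u * hx - u * c * r * hz - (h * a * x.1 0 + h * c * z) * hu
    · fin_cases i
      · simp [mulVec_diagonal]
      · simp [mulVec_diagonal]
        linear_combination x.1 1 * hu
      · simp [mulVec_diagonal, hz]

/-- An isotropic submodule is transversal to a coordinate Lagrangian. -/
theorem lag_swap [IsDomain S] {V κ : Type} [AddCommGroup V] [Module S V] [Fintype κ] [DecidableEq κ]
    (B : V →ₗ[S] V →ₗ[S] S) (hB : ∀ v w, B v w = -B w v) (hf : f ≠ 0) (N : Submodule S V)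
    (hN : ∀ v ∈ N, ∀ w ∈ N, B v w = 0) {p q : κ → V} (h1 : ∀ i j, B (p i) (p j) = 0)
    (h2 : ∀ i j, B (q i) (q j) = 0) (h3 : ∀ i j, B (p i) (q j) = if i = j then f else 0) :
    ∃ p' q' : κ → V, (∀ i j, B (p' i) (p' j) = 0) ∧
      (∀ i j, B (p' i) (q' j) = if i = j then f else 0) ∧
      Submodule.span S (Set.range p' ∪ Set.range q') = Submodule.span S (Set.range p ∪ Set.range q) ∧
      ∀ c : κ → S, ∑ i, c i • p' i ∈ N → c = 0 := by
  classical
  obtain ⟨T, hT, hm⟩ := Finset.exists_max_image (Finset.univ.filter fun T : Finset κ =>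
    ∀ c : κ → S, (∀ i ∉ T, c i = 0) → ∑ i, c i • p i ∈ N → c = 0) Finset.card
    ⟨∅, Finset.mem_filter.2 ⟨Finset.mem_univ _, fun c h _ => funext fun i => h i (by simp)⟩⟩
  simp only [Finset.mem_filter, Finset.mem_univ, true_and] at hT hm
  refine ⟨fun i => if i ∈ T then p i else q i, fun i => if i ∈ T then q i else -p i,
    fun i j => ?_, fun i j => ?_, le_antisymm ?_ ?_, fun c hc => ?_⟩
  · dsimp only
    split_ifs with a b b
    · exact h1 i j
    · rw [h3, if_neg fun e : i = j => b (e ▸ a)]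
    · rw [hB, h3, if_neg fun e : j = i => a (e ▸ b), neg_zero]
    · exact h2 i j
  · by_cases a : i ∈ T <;> by_cases b : j ∈ T <;> simp only [a, b, if_true, if_false]
    · exact h3 i j
    · rw [map_neg, h1, neg_zero, if_neg fun e : i = j => b (e ▸ a)]
    · rw [h2, if_neg fun e : i = j => a (e ▸ b)]
    · rw [map_neg, ← hB, h3]
      exact if_congr eq_comm rfl rfl
  · rw [Submodule.span_le]
    rintro _ (⟨i, rfl⟩ | ⟨i, rfl⟩) <;> dsimp only <;> split_ifs
    exacts [Submodule.subset_span (.inl ⟨i, rfl⟩), Submodule.subset_span (.inr ⟨i, rfl⟩),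
      Submodule.subset_span (.inr ⟨i, rfl⟩), neg_mem (Submodule.subset_span (.inl ⟨i, rfl⟩))]
  · rw [Submodule.span_le]
    rintro _ (⟨i, rfl⟩ | ⟨i, rfl⟩) <;> by_cases a : i ∈ T
    exacts [Submodule.subset_span (.inl ⟨i, if_pos a⟩),
      neg_mem_iff.1 (Submodule.subset_span (.inr ⟨i, if_neg a⟩)),
      Submodule.subset_span (.inr ⟨i, if_pos a⟩), Submodule.subset_span (.inl ⟨i, if_neg a⟩)]
  have h4 : ∀ i ∉ T, c i = 0 := fun i hi => by
    have := mt (hm (insert i T)) (by rw [Finset.card_insert_of_notMem hi]; omega)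
    push Not at this
    obtain ⟨d, a1, a2, a3⟩ := this
    have a4 : ∀ j ∉ T, j ≠ i → d j = 0 := fun j hj e => a1 j (by simp [hj, e])
    have a5 : d i ≠ 0 := fun e => a3 (hT d (fun j hj => by
      by_cases e' : j = i
      exacts [e' ▸ e, a4 j hj e']) a2)
    have a6 := hN _ a2 _ hc
    simp only [map_sum, map_smul, LinearMap.sum_apply, LinearMap.smul_apply, smul_eq_mul,
      apply_ite (B _), h1, h3] at a6
    rw [Finset.sum_eq_single i (fun j _ e => by by_cases a : j ∈ T <;> simp [a, a4, e])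
      (by simp)] at a6
    simpa [hi, a5, hf] using a6
  refine hT c h4 ?_
  convert hc using 2 with i
  by_cases a : i ∈ T <;> simp [a, h4]

/-- A Lagrangian in general position. -/
theorem HP.lag [IsDomain S] (h : Reg2 f g) (hL : L.IsSymm) (H : HP L f g) :
    ∃ (t : S) (Y Z : Matrix ι ι S) (G : Submodule S (ι → S)), t ≠ 0 ∧ Z.IsSymm ∧
      t • L = f • Y + g • Z ∧ Module.Free S G ∧
      (∀ x, x ∈ G ↔ ∃ y z, L *ᵥ x = f • y + g • z ∧ Z *ᵥ x = t • z) ∧
      ∀ ξ : ι → S, (∀ x ∈ G, t ∣ ξ ⬝ᵥ x) →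
        ∃ x y z, L *ᵥ x = f • y + g • z ∧ Z *ᵥ x - t • z = f • ξ := by
  let B : ((ι → S) × (ι → S) × (ι → S)) →ₗ[S] ((ι → S) × (ι → S) × (ι → S)) →ₗ[S] S :=
    LinearMap.mk₂ S (fun v w => v.1 ⬝ᵥ w.2.2 - w.1 ⬝ᵥ v.2.2)
      (fun _ _ _ => by simp only [Prod.fst_add, Prod.snd_add, add_dotProduct, dotProduct_add]; ring)
      (fun _ _ _ => by simp [mul_sub])
      (fun _ _ _ => by simp only [Prod.fst_add, Prod.snd_add, add_dotProduct, dotProduct_add]; ring)
      (fun _ _ _ => by simp [mul_sub])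
  have hB : ∀ v w, B v w = v.1 ⬝ᵥ w.2.2 - w.1 ⬝ᵥ v.2.2 := fun _ _ => rfl
  have hf : f ≠ 0 := fun e => one_ne_zero (h.1 1 (by rw [e, zero_mul]))
  obtain ⟨m, p, q, h1, h2, h3, h4⟩ := H
  obtain ⟨p, q, h1, h3, h4', h5⟩ := lag_swap B (fun _ _ => by rw [hB, hB, neg_sub]) hf
    (LinearMap.ker (LinearMap.fst S _ _)) (fun v (a : v.1 = 0) w (b : w.1 = 0) => by simp [hB, a, b])
    (p := p) (q := q) (fun i j => by rw [hB, ← (h1 i j).2, mul_zero])
    (fun i j => by rw [hB, ← (h2 i j).2, mul_zero]) fun i j => by rw [hB, ← (h3 i j).2]; simp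
  replace h4 := h4'.trans h4
  clear h2 h4'
  have mx : ∀ v ∈ PP L f g, (∀ j, B (p j) v = 0) → ∃ c : Fin m → S, ∑ i, c i • p i = v := by
    intro v hv h0
    rw [← h4, Submodule.span_union, Submodule.mem_sup] at hv
    obtain ⟨_, ha, _, hb, rfl⟩ := hv
    obtain ⟨a, rfl⟩ := (Submodule.mem_span_range_iff_exists_fun _).1 ha
    obtain ⟨b, rfl⟩ := (Submodule.mem_span_range_iff_exists_fun _).1 hb
    have : ∀ j, b j = 0 := fun j => by simpa [h1, h3, hf] using h0 j
    exact ⟨a, by simp [this]⟩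
  have hp : ∀ j, p j ∈ PP L f g := fun j => h4 ▸ Submodule.subset_span (.inl ⟨j, rfl⟩)
  have hq : ∀ j, q j ∈ PP L f g := fun j => h4 ▸ Submodule.subset_span (.inr ⟨j, rfl⟩)
  let X₀ : Matrix ι (Fin m) S := of fun i j => (p j).1 i
  have sm : ∀ c : Fin m → S, (∑ i, c i • p i).1 = X₀ *ᵥ c := fun c => by
    funext i
    simp [X₀, Prod.fst_sum, mulVec, dotProduct, mul_comm]
  have i1 : ∀ c, X₀ *ᵥ c = 0 → c = 0 := fun c hc => h5 c ((sm c).trans hc)
  have i2 : ∀ ξ : ι → S, (∀ j, (p j).1 ⬝ᵥ ξ = 0) → ξ = 0 := fun ξ hξ => by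
    obtain ⟨c, hc⟩ := mx (0, -g • ξ, f • ξ) (by
      change L *ᵥ 0 = _
      rw [mulVec_zero, smul_smul, smul_smul, ← add_smul, show f * -g + g * f = 0 by ring, zero_smul])
      fun j => by simp [hB, hξ]
    obtain rfl := h5 c (congrArg Prod.fst hc)
    simpa [hf] using (congrArg (·.2.2) hc).symm
  obtain ⟨e⟩ : Nonempty (ι ≃ Fin m) := Fintype.card_eq.1 (le_antisymm
    (card_le_of_injective S X₀ᵀ.mulVecLin ((injective_iff_map_eq_zero _).2 fun ξ hξ =>
      i2 ξ (congrFun hξ)))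
    (card_le_of_injective S X₀.mulVecLin ((injective_iff_map_eq_zero _).2 i1)))
  let X : Matrix ι ι S := X₀.submatrix id e
  let Y : Matrix ι ι S := of fun i j => (p (e j)).2.1 i
  let Z : Matrix ι ι S := of fun i j => (p (e j)).2.2 i
  have sx : ∀ c, X₀ *ᵥ c = X *ᵥ (c ∘ e) := fun c => by
    rw [submatrix_mulVec_equiv]
    simp [Function.comp_def]
  have ht : X.det ≠ 0 := fun h0 => by
    obtain ⟨c, a, b⟩ := exists_mulVec_eq_zero_iff.2 h0
    refine a ?_
    have := i1 (c ∘ e.symm) (by rw [sx, ← b]; simp [Function.comp_def])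
    exact funext fun i => by simpa using congrFun this (e i)
  have e1 : L * X = f • Y + g • Z := Matrix.ext fun i j => congrFun (hp (e j)) i
  have e2 : Xᵀ * Z = Zᵀ * X := Matrix.ext fun i j =>
    (sub_eq_zero.1 ((hB _ _).symm.trans (h1 (e i) (e j)))).trans (dotProduct_comm _ _)
  have e3 : Z * X.adjugate * X = X.det • Z := by
    rw [Matrix.mul_assoc, adjugate_mul, Matrix.mul_smul, Matrix.mul_one]
  have e4 : Xᵀ * (Z * X.adjugate) = X.det • Zᵀ := by
    rw [← Matrix.mul_assoc, e2, Matrix.mul_assoc, mul_adjugate, Matrix.mul_smul, Matrix.mul_one]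
  have e5 : ∀ (j) (x z : ι → S), (p j).1 ⬝ᵥ ((Z * X.adjugate) *ᵥ x - X.det • z) =
      X.det * (x ⬝ᵥ (p j).2.2 - (p j).1 ⬝ᵥ z) := fun j x z => by
    obtain ⟨j, rfl⟩ := e.surjective j
    have : (p (e j)).1 ⬝ᵥ (Z * X.adjugate) *ᵥ x = (Xᵀ *ᵥ (Z * X.adjugate) *ᵥ x) j := rfl
    rw [dotProduct_sub, this, mulVec_mulVec, e4, smul_mulVec, dotProduct_smul, mul_sub,
      dotProduct_comm x]
    rfl
  refine ⟨X.det, Y * X.adjugate, Z * X.adjugate, LinearMap.range X₀.mulVecLin, ht, ?_, ?_,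
    Module.Free.of_equiv (LinearEquiv.ofInjective _ ((injective_iff_map_eq_zero _).2 i1)),
    fun x => ⟨?_, ?_⟩, fun ξ hξ => ?_⟩
  · have := congrArg (X.adjugateᵀ * ·) e4
    simp only [← Matrix.mul_assoc, ← transpose_mul, mul_adjugate, transpose_smul, transpose_one,
      Matrix.smul_mul, Matrix.one_mul, Matrix.mul_smul] at this
    exact (smul_right_injective _ ht this).symm
  · rw [← Matrix.smul_mul, ← Matrix.smul_mul, ← Matrix.add_mul, ← e1, Matrix.mul_assoc, mul_adjugate,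
      Matrix.mul_smul, Matrix.mul_one]
  · rintro ⟨c, rfl⟩
    rw [mulVecLin_apply, sx]
    exact ⟨Y *ᵥ _, Z *ᵥ _, by rw [mulVec_mulVec, e1, add_mulVec, smul_mulVec, smul_mulVec],
      by rw [mulVec_mulVec, e3, smul_mulVec]⟩
  · rintro ⟨y, z, a, b⟩
    obtain ⟨c, hc⟩ := mx (x, y, z) a fun j => by
      have := e5 j x z
      rw [b, sub_self, dotProduct_zero, eq_comm, mul_eq_zero, or_iff_right ht] at this
      rw [hB, ← neg_sub, this, neg_zero]
    exact ⟨c, (sm c).symm.trans (congrArg Prod.fst hc)⟩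
  · choose c hc using fun j => hξ (p j).1 ⟨Pi.single j 1, by ext i; simp [X₀]⟩
    obtain ⟨v, hv⟩ : ∃ v, v = -∑ j, c j • q j := ⟨_, rfl⟩
    refine ⟨v.1, v.2.1, v.2.2, show v ∈ PP L f g from hv ▸ neg_mem (sum_mem fun j _ =>
      Submodule.smul_mem _ _ (hq j)), sub_eq_zero.1 (i2 _ fun j => ?_)⟩
    have : B (p j) v = -(c j * f) := by simp [hv, h3]
    rw [dotProduct_sub, e5, ← neg_sub ((p j).1 ⬝ᵥ v.2.2), ← hB, this, dotProduct_smul, dotProduct_comm, hc]
    simp only [smul_eq_mul]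
    ring

end Pool.Agent.Lib.MP_a37f0b_ag.Q4
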