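import Mathlib

/-! Rows and elementary matrices. -/

open Matrix

namespace Pool.Agent.Lib.MP_a37f0b_ag.Q4

variable {A B : Type} [CommRing A] [CommRing B] {ι : Type} [Fintype ι] [DecidableEq ι]

variable (A ι) in
/-- Products of transvections. -/
def El : Submonoid (Matrix ι ι A) :=
  Submonoid.closure {M | ∃ i j c, i ≠ j ∧ M = transvection i j c}

/-- Unimodular rows. -/
def Um {κ : Type} (v : κ → A) : Prop := Ideal.span (Set.range v) = ⊤

/-- Equivalence under elementary and diagonal matrices. -/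
def GE (v w : ι → A) : Prop :=
  ∃ σ ∈ El A ι, ∃ d : ι → A, (∀ i, IsUnit (d i)) ∧ ∀ i, w i = d i * (σ *ᵥ v) i

/-- Rows that can be brought to a row with an invertible entry. -/
def Triv (v : ι → A) : Prop := ∃ σ ∈ El A ι, ∃ i, IsUnit ((σ *ᵥ v) i)

/-- The kernel of a row. -/
def Ker (v : ι → A) : Submodule A (ι → A) where
  carrier := {x | v ⬝ᵥ x = 0}
  add_mem' := fun {x y} hx hy => by
    simp only [Set.mem_ofPred_eq] at *
    rw [dotProduct_add, hx, hy, add_zero]
  zero_mem' := dotProduct_zero v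
  smul_mem' := fun c x hx => by
    simp only [Set.mem_ofPred_eq] at *
    rw [dotProduct_smul, hx, smul_zero]

variable (A) in
/-- All finitely generated projective modules are free. -/
def AF : Prop := ∀ (P : Type) [AddCommGroup P] [Module A P] [Module.Finite A P]
  [Module.Projective A P], Module.Free A P

variable (A) in
/-- All unimodular rows of length at least `m` are trivial. -/
def TR (m : ℕ) : Prop :=
  ∀ (κ : Type) [Fintype κ] [DecidableEq κ], m ≤ Fintype.card κ → ∀ v : κ → A, Um v → Triv v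

theorem El.tv {i j : ι} (h : i ≠ j) (c : A) : transvection i j c ∈ El A ι := by
  exact Submonoid.subset_closure ⟨i, j, c, h, rfl⟩

theorem El.inv {σ : Matrix ι ι A} (h : σ ∈ El A ι) : ∃ τ ∈ El A ι, τ * σ = 1 ∧ σ * τ = 1 := by
  induction h using Submonoid.closure_induction with
  | mem M hM =>
    obtain ⟨i, j, c, hij, rfl⟩ := hM
    refine ⟨transvection i j (-c), El.tv hij _, ?_, ?_⟩
    · rw [transvection_mul_transvection_same i j hij, neg_add_cancel, transvection_zero]
    · rw [transvection_mul_transvection_same i j hij, add_neg_cancel, transvection_zero]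
  | one => exact ⟨1, one_mem _, one_mul _, one_mul _⟩
  | mul M N _ _ hM hN =>
    obtain ⟨M', hM', a1, a2⟩ := hM
    obtain ⟨N', hN', b1, b2⟩ := hN
    refine ⟨N' * M', mul_mem hN' hM', ?_, ?_⟩
    · rw [mul_assoc, ← mul_assoc M', a1, one_mul, b1]
    · rw [mul_assoc, ← mul_assoc N, b2, one_mul, a2]

theorem El.transpose {σ : Matrix ι ι A} (h : σ ∈ El A ι) : σᵀ ∈ El A ι := by
  induction h using Submonoid.closure_induction with
  | mem M hM =>
    obtain ⟨i, j, c, hij, rfl⟩ := hM
    have e : (transvection i j c)ᵀ = transvection j i c := by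
      simp only [transvection, transpose_add, transpose_one, transpose_single]
    rw [e]
    exact El.tv hij.symm _
  | one => rw [transpose_one]; exact one_mem _
  | mul M N _ _ hM hN => rw [transpose_mul]; exact mul_mem hN hM

omit [Fintype ι] in
theorem row_tv_map (φ : A →+* B) (i j : ι) (c : A) :
    (transvection i j c).map φ = transvection i j (φ c) := by
  unfold transvection
  rw [Matrix.map_add _ (map_add φ), Matrix.map_one _ (map_zero φ) (map_one φ), map_single]

theorem row_tv_mulVec (i j : ι) (c : A) (u : ι → A) :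
    transvection i j c *ᵥ u = Function.update u i (u i + c * u j) := by
  unfold transvection
  rw [add_mulVec, one_mulVec, single_mulVec]
  funext k
  by_cases hk : k = i
  · subst hk; simp
  · simp [Function.update_of_ne hk]

theorem El.map (φ : A →+* B) {σ : Matrix ι ι A} (h : σ ∈ El A ι) : σ.map φ ∈ El B ι := by
  induction h using Submonoid.closure_induction with
  | mem M hM =>
    obtain ⟨i, j, c, hij, rfl⟩ := hM
    rw [row_tv_map]
    exact El.tv hij _
  | one => rw [Matrix.map_one _ (map_zero φ) (map_one φ)]; exact one_mem _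
  | mul M N _ _ hM hN => rw [Matrix.map_mul]; exact mul_mem hM hN

theorem El.lift {φ : A →+* B} (hφ : Function.Surjective φ) {τ : Matrix ι ι B} (h : τ ∈ El B ι) :
    ∃ σ ∈ El A ι, σ.map φ = τ := by
  induction h using Submonoid.closure_induction with
  | mem M hM =>
    obtain ⟨i, j, c, hij, rfl⟩ := hM
    obtain ⟨c, rfl⟩ := hφ c
    exact ⟨_, El.tv hij c, row_tv_map φ i j c⟩
  | one => exact ⟨1, one_mem _, Matrix.map_one _ (map_zero φ) (map_one φ)⟩
  | mul M N _ _ hM hN =>
    obtain ⟨M', hM', rfl⟩ := hM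
    obtain ⟨N', hN', rfl⟩ := hN
    exact ⟨M' * N', mul_mem hM' hN', Matrix.map_mul⟩

/-- Diagonal units normalise the elementary matrices. -/
theorem row_conj {d : ι → A} (hd : ∀ i, IsUnit (d i)) {σ : Matrix ι ι A} (h : σ ∈ El A ι) :
    ∃ τ ∈ El A ι, ∀ u : ι → A, (σ *ᵥ fun i => d i * u i) = fun i => d i * (τ *ᵥ u) i := by
  induction h using Submonoid.closure_induction with
  | mem M hM =>
    obtain ⟨i, j, c, hij, rfl⟩ := hM
    obtain ⟨e, he⟩ := (hd i).exists_right_inv
    refine ⟨_, El.tv hij (e * c * d j), fun u => ?_⟩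
    rw [row_tv_mulVec, row_tv_mulVec]
    funext k
    by_cases hk : k = i
    · subst hk
      simp only [Function.update_self]
      linear_combination (-(c * d j * u j)) * he
    · simp only [Function.update_of_ne hk]
  | one => exact ⟨1, one_mem _, fun u => by simp only [one_mulVec]⟩
  | mul M N _ _ hM hN =>
    obtain ⟨M', hM', a⟩ := hM
    obtain ⟨N', hN', b⟩ := hN
    refine ⟨M' * N', mul_mem hM' hN', fun u => ?_⟩
    rw [← mulVec_mulVec, ← mulVec_mulVec, b, a]

theorem GE.refl (v : ι → A) : GE v v := by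
  exact ⟨1, one_mem _, fun _ => 1, fun _ => isUnit_one, fun i => by simp⟩

theorem GE.symm {v w : ι → A} (h : GE v w) : GE w v := by
  obtain ⟨σ, hσ, d, hd, hw⟩ := h
  obtain ⟨τ, hτ, h1, -⟩ := El.inv hσ
  choose e he using fun i => (hd i).exists_left_inv
  have hu : ∀ i, IsUnit (e i) := fun i => IsUnit.of_mul_eq_one _ (he i)
  obtain ⟨ρ, hρ, h2⟩ := row_conj hu hτ
  refine ⟨ρ, hρ, e, hu, fun i => ?_⟩
  have h3 : (fun i => e i * w i) = σ *ᵥ v := by
    funext k
    rw [hw, ← mul_assoc, he, one_mul]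
  have h4 := h2 w
  rw [h3, mulVec_mulVec, h1, one_mulVec] at h4
  exact congrFun h4 i

theorem GE.trans {u v w : ι → A} (h : GE u v) (h' : GE v w) : GE u w := by
  obtain ⟨σ, hσ, d, hd, hv⟩ := h
  obtain ⟨τ, hτ, e, he, hw⟩ := h'
  obtain ⟨ρ, hρ, h2⟩ := row_conj hd hτ
  refine ⟨ρ * σ, mul_mem hρ hσ, fun i => e i * d i, fun i => (he i).mul (hd i), fun i => ?_⟩
  have h3 : v = fun i => d i * (σ *ᵥ u) i := funext hv
  rw [hw, h3, h2, ← mulVec_mulVec, mul_assoc]

theorem GE.el (v : ι → A) {σ : Matrix ι ι A} (h : σ ∈ El A ι) : GE v (σ *ᵥ v) := by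
  exact ⟨σ, h, fun _ => 1, fun _ => isUnit_one, fun i => (one_mul _).symm⟩

theorem GE.scale (v : ι → A) {d : ι → A} (h : ∀ i, IsUnit (d i)) : GE v fun i => d i * v i := by
  exact ⟨1, one_mem _, d, h, fun i => by rw [one_mulVec]⟩

theorem row_add_aux (v : ι → A) (i : ι) {x : A} (h : x ∈ Ideal.span (v '' {j | j ≠ i})) (a : A) :
    ∃ σ ∈ El A ι, ∀ y : A, σ *ᵥ Function.update v i y = Function.update v i (y + a * x) := by
  induction h using Submodule.span_induction generalizing a with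
  | mem x hx =>
    obtain ⟨j, hj, rfl⟩ := hx
    have hj' : j ≠ i := hj
    refine ⟨_, El.tv hj'.symm a, fun y => ?_⟩
    rw [row_tv_mulVec, Function.update_idem, Function.update_self, Function.update_of_ne hj']
  | zero => exact ⟨1, one_mem _, fun y => by rw [one_mulVec, mul_zero, add_zero]⟩
  | add x z _ _ hx hz =>
    obtain ⟨M, hM, h1⟩ := hx a
    obtain ⟨N, hN, h2⟩ := hz a
    refine ⟨N * M, mul_mem hN hM, fun y => ?_⟩
    rw [← mulVec_mulVec, h1, h2, mul_add, add_assoc]
  | smul b x _ hx =>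
    obtain ⟨M, hM, h1⟩ := hx (a * b)
    exact ⟨M, hM, fun y => by rw [h1, smul_eq_mul, mul_assoc]⟩

/-- Adding to one entry a combination of the other entries. -/
theorem El.add (v : ι → A) (i : ι) {x : A} (h : x ∈ Ideal.span (v '' {j | j ≠ i})) :
    ∃ σ ∈ El A ι, σ *ᵥ v = Function.update v i (v i + x) := by
  obtain ⟨σ, hσ, h1⟩ := row_add_aux v i h 1
  refine ⟨σ, hσ, ?_⟩
  have h2 := h1 (v i)
  rwa [Function.update_eq_self, one_mul] at h2

theorem GE.add (v : ι → A) (i : ι) {x : A} (h : x ∈ Ideal.span (v '' {j | j ≠ i})) :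
    GE v (Function.update v i (v i + x)) := by
  obtain ⟨σ, hσ, h1⟩ := El.add v i h
  rw [← h1]
  exact GE.el v hσ

theorem row_el_adds {v w : ι → A} (T : Set ι) (h1 : ∀ i ∈ T, w i = v i)
    (h2 : ∀ i ∉ T, w i - v i ∈ Ideal.span (v '' T)) : ∃ σ ∈ El A ι, σ *ᵥ v = w := by
  have key : ∀ s : Finset ι, ∃ σ ∈ El A ι, σ *ᵥ v = fun i => if i ∈ s then w i else v i := by
    intro s
    induction s using Finset.induction_on with
    | empty => exact ⟨1, one_mem _, by simp⟩
    | insert a s ha ih =>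
      obtain ⟨σ, hσ, h3⟩ := ih
      have h4 : w a - v a ∈
          Ideal.span ((fun i => if i ∈ s then w i else v i) '' {j | j ≠ a}) := by
        by_cases hT : a ∈ T
        · rw [h1 a hT, sub_self]; exact Ideal.zero_mem _
        · refine Ideal.span_mono ?_ (h2 a hT)
          rintro _ ⟨j, hj, rfl⟩
          refine ⟨j, fun e => hT (e ▸ hj), ?_⟩
          simp only [h1 j hj, ite_self]
      obtain ⟨τ, hτ, h5⟩ := El.add _ a h4
      refine ⟨τ * σ, mul_mem hτ hσ, ?_⟩
      rw [← mulVec_mulVec, h3, h5]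
      funext k
      by_cases hk : k = a
      · subst hk; simp [ha]
      · simp [hk]
  obtain ⟨σ, hσ, h3⟩ := key Finset.univ
  exact ⟨σ, hσ, by simpa using h3⟩

/-- Adding to the entries outside `T` combinations of the entries in `T`. -/
theorem GE.adds {v w : ι → A} (T : Set ι) (h1 : ∀ i ∈ T, w i = v i)
    (h2 : ∀ i ∉ T, w i - v i ∈ Ideal.span (v '' T)) : GE v w := by
  obtain ⟨σ, hσ, h3⟩ := row_el_adds T h1 h2
  rw [← h3]
  exact GE.el v hσ

theorem row_span_le {v w : ι → A} (h : GE v w) :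
    Ideal.span (Set.range w) ≤ Ideal.span (Set.range v) := by
  obtain ⟨σ, -, d, -, hw⟩ := h
  rw [Ideal.span_le]
  rintro _ ⟨i, rfl⟩
  rw [hw]
  refine Ideal.mul_mem_left _ _ (Ideal.sum_mem _ fun j _ => Ideal.mul_mem_left _ _ ?_)
  exact Ideal.subset_span ⟨j, rfl⟩

theorem GE.span {v w : ι → A} (h : GE v w) :
    Ideal.span (Set.range w) = Ideal.span (Set.range v) := by
  exact le_antisymm (row_span_le h) (row_span_le h.symm)

theorem GE.map (φ : A →+* B) {v w : ι → A} (h : GE v w) : GE (φ ∘ v) (φ ∘ w) := by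
  obtain ⟨σ, hσ, d, hd, hw⟩ := h
  refine ⟨σ.map φ, El.map φ hσ, fun i => φ (d i), fun i => (hd i).map φ, fun i => ?_⟩
  rw [Function.comp_apply, hw, map_mul, RingHom.map_mulVec]

/-- Elementary matrices on a subfamily of the indices. -/
theorem row_el_emb {κ : Type} [Fintype κ] [DecidableEq κ] {e : κ → ι} (he : Function.Injective e)
    {σ : Matrix κ κ A} (h : σ ∈ El A κ) : ∃ τ ∈ El A ι, ∀ u : ι → A,
      (τ *ᵥ u) ∘ e = σ *ᵥ (u ∘ e) ∧ ∀ i, (∀ k, e k ≠ i) → (τ *ᵥ u) i = u i := by
  induction h using Submonoid.closure_induction with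
  | mem M hM =>
    obtain ⟨i, j, c, hij, rfl⟩ := hM
    refine ⟨_, El.tv (he.ne hij) c, fun u => ⟨?_, fun k hk => ?_⟩⟩
    · rw [row_tv_mulVec, row_tv_mulVec, Function.update_comp_eq_of_injective _ he]
      rfl
    · rw [row_tv_mulVec, Function.update_of_ne (hk i).symm]
  | one => exact ⟨1, one_mem _, fun u => by simp only [one_mulVec, implies_true, and_self]⟩
  | mul M N _ _ hM hN =>
    obtain ⟨M', hM', a⟩ := hM
    obtain ⟨N', hN', b⟩ := hN
    refine ⟨M' * N', mul_mem hM' hN', fun u => ⟨?_, fun k hk => ?_⟩⟩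
    · rw [← mulVec_mulVec, ← mulVec_mulVec, (a _).1, (b _).1]
    · rw [← mulVec_mulVec, (a _).2 k hk, (b _).2 k hk]

/-- An elementary matrix acting on the first entries. -/
theorem GE.snoc {n : ℕ} {v w : Fin n → A} (h : GE v w) (u : A) :
    GE (Fin.snoc v u : Fin (n + 1) → A) (Fin.snoc w u) := by
  obtain ⟨σ, hσ, d, hd, hw⟩ := h
  obtain ⟨τ, hτ, h1⟩ := row_el_emb (Fin.castSucc_injective n) hσ
  obtain ⟨h2, h3⟩ := h1 (Fin.snoc v u : Fin (n + 1) → A)
  refine ⟨τ, hτ, Fin.snoc d 1, fun i => ?_, fun i => ?_⟩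
  · refine Fin.lastCases ?_ (fun k => ?_) i
    · simp
    · simpa using hd k
  · refine Fin.lastCases ?_ (fun k => ?_) i
    · rw [h3 _ fun k => (Fin.castSucc_lt_last k).ne]
      simp
    · have h4 := congrFun h2 k
      rw [Function.comp_apply, Fin.snoc_comp_castSucc] at h4
      rw [h4]
      simpa using hw k

theorem Triv.of_ge {v w : ι → A} (h : GE v w) (hw : Triv w) : Triv v := by
  obtain ⟨σ, hσ, d, hd, h1⟩ := h
  obtain ⟨τ, hτ, i, hi⟩ := hw
  obtain ⟨ρ, hρ, h2⟩ := row_conj hd hτ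
  have h3 : w = fun i => d i * (σ *ᵥ v) i := funext h1
  rw [h3, h2] at hi
  refine ⟨ρ * σ, mul_mem hρ hσ, i, ?_⟩
  rw [← mulVec_mulVec]
  exact isUnit_of_mul_isUnit_right hi

theorem Triv.of_unit {v : ι → A} {i : ι} (h : IsUnit (v i)) : Triv v := by
  exact ⟨1, one_mem _, i, by rwa [one_mulVec]⟩

theorem row_one {v : ι → A} (i : ι) (h : Ideal.span (v '' {j | j ≠ i}) = ⊤) :
    ∃ σ ∈ El A ι, (σ *ᵥ v) i = 1 := by
  obtain ⟨σ, hσ, h1⟩ := El.add v i (x := 1 - v i) (h ▸ Submodule.mem_top)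
  exact ⟨σ, hσ, by rw [h1, Function.update_self, add_sub_cancel]⟩

theorem row_one_of_unit {v : ι → A} {i k : ι} (hk : k ≠ i) (h : IsUnit (v k)) :
    ∃ σ ∈ El A ι, (σ *ᵥ v) i = 1 :=
  row_one i (Ideal.eq_top_of_isUnit_mem _ (Ideal.subset_span ⟨k, hk, rfl⟩) h)

theorem Triv.of_sub {v : ι → A} (i : ι) (h : Ideal.span (v '' {j | j ≠ i}) = ⊤) : Triv v := by
  obtain ⟨σ, hσ, h1⟩ := row_one i h
  exact ⟨σ, hσ, i, h1 ▸ isUnit_one⟩

theorem Triv.single [Nontrivial ι] {v : ι → A} (h : Triv v) (i : ι) :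
    ∃ σ ∈ El A ι, σ *ᵥ v = Pi.single i 1 := by
  have key : ∃ σ ∈ El A ι, (σ *ᵥ v) i = 1 := by
    obtain ⟨σ, hσ, k, hk⟩ := h
    by_cases hki : k = i
    · subst hki
      obtain ⟨j, hj⟩ := exists_ne k
      obtain ⟨τ, hτ, h1⟩ := row_one_of_unit hj.symm hk
      obtain ⟨ρ, hρ, h2⟩ := row_one_of_unit hj (h1 ▸ isUnit_one)
      exact ⟨ρ * (τ * σ), mul_mem hρ (mul_mem hτ hσ), by
        rw [← mulVec_mulVec, ← mulVec_mulVec, h2]⟩
    · obtain ⟨τ, hτ, h1⟩ := row_one_of_unit hki hk
      exact ⟨τ * σ, mul_mem hτ hσ, by rw [← mulVec_mulVec, h1]⟩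
  obtain ⟨σ, hσ, h1⟩ := key
  obtain ⟨τ, hτ, h2⟩ := row_el_adds (v := σ *ᵥ v) (w := Pi.single i 1) {i}
    (fun j hj => by rw [Set.mem_singleton_iff.1 hj, h1, Pi.single_eq_same])
    (fun j _ => by rw [Set.image_singleton, h1, Ideal.span_singleton_one]; exact Submodule.mem_top)
  exact ⟨τ * σ, mul_mem hτ hσ, by rw [← mulVec_mulVec, h2]⟩

theorem Triv.reindex {κ : Type} [Fintype κ] [DecidableEq κ] (e : κ ≃ ι) {v : ι → A}
    (h : Triv (v ∘ e)) : Triv v := by
  obtain ⟨σ, hσ, k, hk⟩ := h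
  obtain ⟨τ, hτ, h1⟩ := row_el_emb e.injective hσ
  refine ⟨τ, hτ, e k, ?_⟩
  rw [← (h1 v).1] at hk
  exact hk

omit [Fintype ι] in
theorem row_split (u : ι → A) (a : ι) {z : A} (hz : z ∈ Ideal.span (Set.range u)) :
    ∃ c : A, z - c * u a ∈ Ideal.span (u '' {j | j ≠ a}) := by
  induction hz using Submodule.span_induction with
  | mem x hx =>
    obtain ⟨j, rfl⟩ := hx
    by_cases hj : j = a
    · exact ⟨1, by rw [hj, one_mul, sub_self]; exact Ideal.zero_mem _⟩
    · exact ⟨0, by rw [zero_mul, sub_zero]; exact Ideal.subset_span ⟨j, hj, rfl⟩⟩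
  | zero => exact ⟨0, by rw [zero_mul, sub_zero]; exact Ideal.zero_mem _⟩
  | add x y _ _ hx hy =>
    obtain ⟨c, hc⟩ := hx
    obtain ⟨d, hd⟩ := hy
    refine ⟨c + d, ?_⟩
    have e : x + y - (c + d) * u a = (x - c * u a) + (y - d * u a) := by ring
    rw [e]
    exact Ideal.add_mem _ hc hd
  | smul b x _ hx =>
    obtain ⟨c, hc⟩ := hx
    refine ⟨b * c, ?_⟩
    have e : b • x - b * c * u a = b * (x - c * u a) := by rw [smul_eq_mul]; ring
    rw [e]
    exact Ideal.mul_mem_left _ _ hc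

theorem row_pert_one [IsLocalRing A] (u : ι → A) (a : ι) {y : A}
    (hy : y ∈ IsLocalRing.maximalIdeal A * Ideal.span (Set.range u)) :
    GE u (Function.update u a (u a + y)) := by
  have key : ∃ m ∈ IsLocalRing.maximalIdeal A, y - m * u a ∈ Ideal.span (u '' {j | j ≠ a}) := by
    refine Submodule.mul_induction_on hy (fun r hr z hz => ?_) (fun x z hx hz => ?_)
    · obtain ⟨c, hc⟩ := row_split u a hz
      refine ⟨r * c, Ideal.mul_mem_right _ _ hr, ?_⟩
      have e : r * z - r * c * u a = r * (z - c * u a) := by ring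
      rw [e]
      exact Ideal.mul_mem_left _ _ hc
    · obtain ⟨c, hc, h1⟩ := hx
      obtain ⟨d, hd, h2⟩ := hz
      refine ⟨c + d, Ideal.add_mem _ hc hd, ?_⟩
      have e : x + z - (c + d) * u a = (x - c * u a) + (z - d * u a) := by ring
      rw [e]
      exact Ideal.add_mem _ h1 h2
  obtain ⟨m, hm, h1⟩ := key
  have hu : IsUnit (1 + m) := by
    have := IsLocalRing.isUnit_one_sub_self_of_mem_nonunits (-m) (neg_mem hm)
    rwa [sub_neg_eq_add] at this
  obtain ⟨e, he⟩ := hu.exists_right_inv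
  have h2 := GE.add u a (Ideal.mul_mem_left _ e h1)
  have h3 := GE.scale (Function.update u a (u a + e * (y - m * u a)))
    (d := Function.update (fun _ => 1) a (1 + m)) (fun i => by
      by_cases hi : i = a
      · subst hi; rwa [Function.update_self]
      · rw [Function.update_of_ne hi]; exact isUnit_one)
  have h4 := h2.trans h3
  convert h4 using 1
  funext i
  by_cases hi : i = a
  · subst hi
    simp only [Function.update_self]
    linear_combination (-(y - m * u i)) * he
  · simp only [Function.update_of_ne hi, one_mul]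

/-- Small changes of generators over a local ring. -/
theorem GE.pert [IsLocalRing A] {v w : ι → A}
    (h : ∀ i, w i - v i ∈ IsLocalRing.maximalIdeal A * Ideal.span (Set.range v)) : GE v w := by
  have key : ∀ s : Finset ι, GE v fun i => if i ∈ s then w i else v i := by
    intro s
    induction s using Finset.induction_on with
    | empty => simpa using GE.refl v
    | insert a s ha ih =>
      have h1 := h a
      rw [← ih.span] at h1
      have h2 := ih.trans (row_pert_one _ a h1)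
      convert h2 using 1
      funext k
      by_cases hk : k = a
      · subst hk; simp [ha]
      · simp [hk]
  simpa using key Finset.univ

omit [DecidableEq ι] in
theorem row_ker_mem {v x : ι → A} : x ∈ Ker v ↔ v ⬝ᵥ x = 0 := Iff.rfl

theorem row_ker_mat (v : ι → A) {M N : Matrix ι ι A} (h1 : N * M = 1) (h2 : M * N = 1) :
    Nonempty (Ker v ≃ₗ[A] Ker (M *ᵥ v)) := by
  have a1 : ∀ x ∈ Ker v, Nᵀ.mulVecLin x ∈ Ker (M *ᵥ v) := by
    intro x hx
    rw [row_ker_mem, mulVecLin_apply, dotProduct_mulVec, vecMul_transpose, mulVec_mulVec, h1,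
      one_mulVec]
    exact hx
  have a2 : ∀ x ∈ Ker (M *ᵥ v), Mᵀ.mulVecLin x ∈ Ker v := by
    intro x hx
    rw [row_ker_mem, mulVecLin_apply, dotProduct_mulVec, vecMul_transpose]
    exact hx
  refine ⟨LinearEquiv.ofLinearMap (Nᵀ.mulVecLin.restrict a1) (Mᵀ.mulVecLin.restrict a2) ?_ ?_⟩
  · ext x i
    change (Nᵀ *ᵥ (Mᵀ *ᵥ x.1)) i = x.1 i
    rw [mulVec_mulVec, ← transpose_mul, h2, transpose_one, one_mulVec]
  · ext x i
    change (Mᵀ *ᵥ (Nᵀ *ᵥ x.1)) i = x.1 i
    rw [mulVec_mulVec, ← transpose_mul, h1, transpose_one, one_mulVec]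

theorem GE.ker {v w : ι → A} (h : GE v w) : Nonempty (Ker v ≃ₗ[A] Ker w) := by
  obtain ⟨σ, hσ, d, hd, hw⟩ := h
  obtain ⟨τ, -, h1, h2⟩ := El.inv hσ
  choose e he using fun i => (hd i).exists_left_inv
  have b1 : diagonal e * diagonal d = 1 := by
    rw [diagonal_mul_diagonal, ← diagonal_one]
    exact congrArg diagonal (funext he)
  have b2 : diagonal d * diagonal e = 1 := by
    rw [diagonal_mul_diagonal, ← diagonal_one]
    exact congrArg diagonal (funext fun i => (mul_comm _ _).trans (he i))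
  have h3 : w = (diagonal d * σ) *ᵥ v := by
    funext i
    rw [hw, ← mulVec_mulVec, mulVec_diagonal]
  rw [h3]
  refine row_ker_mat v (N := τ * diagonal e) ?_ ?_
  · rw [mul_assoc, ← mul_assoc (diagonal e), b1, one_mul, h1]
  · rw [mul_assoc, ← mul_assoc σ, h2, one_mul, b2]

theorem AF.of_equiv (h : AF A) (e : A ≃+* B) : AF B := by
  intro P _ _ _ _
  let _ : Module A P := Module.compHom P (e : A →+* B)
  have := RingHomInvPair.of_ringEquiv e
  have := RingHomInvPair.of_ringEquiv_symm e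
  let f : P ≃ₛₗ[(e : A →+* B)] P := { AddEquiv.refl P with map_smul' := fun _ _ => rfl }
  have : Module.Projective A P := Module.Projective.of_equiv f.symm
  have : Module.Finite A P := Module.Finite.of_surjective f.symm.toLinearMap f.symm.surjective
  have : Module.Free A P := h P
  exact Module.Free.of_equiv f

end Pool.Agent.Lib.MP_a37f0b_ag.Q4
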