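import Pool.Agent.Lib.MP_a37f0b_ag.Q4.PP

/-! Linear forms on a second syzygy. -/

open Matrix

namespace Pool.Agent.Lib.MP_a37f0b_ag.Q4

variable {S : Type} [CommRing S]

/-- Regular sequences of length two on a module. -/
def SerRM (T : Type) [AddCommGroup T] [Module S T] (f g : S) : Prop :=
  (∀ t : T, f • t = 0 → t = 0) ∧ ∀ t t' : T, g • t = f • t' → ∃ s, t = f • s

theorem serb_rm_alg {T : Type} [CommRing T] [Algebra S T] {f g : S}
    (h : Reg2 (algebraMap S T f) (algebraMap S T g)) : SerRM T f g := by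
  refine ⟨fun t ht => h.1 t (by rwa [Algebra.smul_def] at ht), fun t t' ht => ?_⟩
  obtain ⟨s, hs⟩ := h.2 t ⟨t', by rwa [Algebra.smul_def, Algebra.smul_def] at ht⟩
  exact ⟨s, by rw [Algebra.smul_def]; exact hs⟩

theorem serb_rm_self {f g : S} (h : Reg2 f g) : SerRM S f g :=
  serb_rm_alg (T := S) h

theorem serb_rm_pi {f g : S} (h : Reg2 f g) (ι : Type) : SerRM (ι → S) f g := by
  refine ⟨fun t ht => funext fun i => h.1 _ (congrFun ht i), fun t t' ht => ?_⟩
  choose s hs using fun i => h.2 (t i) ⟨t' i, congrFun ht i⟩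
  exact ⟨s, funext hs⟩

section

variable {N T : Type} [AddCommGroup N] [Module S N] [AddCommGroup T] [Module S T] {f g : S}

theorem SerRM.canc (h : SerRM T f g) {a b : T} (e : f • a = f • b) : a = b :=
  sub_eq_zero.1 (h.1 _ (by rw [smul_sub, e, sub_self]))

/-- Koszul relation for linear maps. -/
theorem SerRM.div (h : SerRM T f g) (α β : N →ₗ[S] T) (e : ∀ u, f • α u = g • β u) :
    ∃ η : N →ₗ[S] T, ∀ u, α u = g • η u ∧ β u = f • η u := by
  choose η hη using fun u => h.2 (β u) (α u) (e u).symm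
  refine ⟨⟨⟨η, fun u v => h.canc ?_⟩, fun c u => h.canc ?_⟩, fun u => ⟨h.canc ?_, hη u⟩⟩
  · rw [smul_add, ← hη, ← hη, ← hη, map_add]
  · change f • η (c • u) = f • c • η u
    rw [smul_comm f c, ← hη, ← hη, map_smul]
  · change f • α u = f • g • η u
    rw [smul_comm f g, ← hη, e]

end

section

variable {F E : Type} [AddCommGroup F] [Module S F] [AddCommGroup E] [Module S E]
  {d : E →ₗ[S] F} {f g : S} {s t : F →ₗ[S] E}

/-- The second order homotopy. -/
def serbW (hs : ∀ x, d (s x) = f • x) (ht : ∀ x, d (t x) = g • x) : F →ₗ[S] LinearMap.ker d :=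
  LinearMap.codRestrict _ (g • s - f • t) fun x => by
    simp [LinearMap.mem_ker, hs, ht, smul_comm f g]

/-- The first order homotopy. -/
def serbH (hs : ∀ x, d (s x) = f • x) : E →ₗ[S] LinearMap.ker d :=
  LinearMap.codRestrict _ (s ∘ₗ d - f • LinearMap.id) fun x => by
    simp [LinearMap.mem_ker, hs]

theorem serbW_val (hs : ∀ x, d (s x) = f • x) (ht : ∀ x, d (t x) = g • x) (x : F) :
    (serbW hs ht x : E) = g • s x - f • t x := rfl

theorem serbH_val (hs : ∀ x, d (s x) = f • x) (y : E) : (serbH hs y : E) = s (d y) - f • y := rfl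

theorem serbW_d (hs : ∀ x, d (s x) = f • x) (ht : ∀ x, d (t x) = g • x) (y : E) :
    serbW hs ht (d y) = g • serbH hs y - f • serbH ht y := by
  apply Subtype.ext
  simp only [serbW_val, serbH_val, Submodule.coe_sub, Submodule.coe_smul, smul_sub,
    smul_comm f g]
  abel

theorem serbH_ker (hs : ∀ x, d (s x) = f • x) (u : LinearMap.ker d) : serbH hs u = -(f • u) := by
  apply Subtype.ext
  have : d u = 0 := u.2
  simp [serbH_val, this]

variable {T : Type} [AddCommGroup T] [Module S T]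

/-- The form attached to the class of a form is the form. -/
theorem serb_cong (h : SerRM T f g) (hs : ∀ x, d (s x) = f • x) (ht : ∀ x, d (t x) = g • x)
    (κ : F →ₗ[S] T) (α β : E →ₗ[S] T) (η : LinearMap.ker d →ₗ[S] T)
    (hκ : ∀ y, κ (d y) = f • α y + g • β y)
    (hβ : ∀ u : LinearMap.ker d, β u = -(f • η u)) (x : F) :
    ∃ a b, κ x - η (serbW hs ht x) = f • a + g • b := by
  have e1 : f • κ x = f • α (s x) + g • β (s x) := by rw [← hκ, hs, map_smul]
  have e2 : g • κ x = f • α (t x) + g • β (t x) := by rw [← hκ, ht, map_smul]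
  have e3 : g • β (s x) - f • β (t x) = -(f • η (serbW hs ht x)) := by
    rw [← hβ, serbW_val, map_sub, map_smul, map_smul]
  obtain ⟨a, ha⟩ := h.2 (β (s x)) (κ x - α (s x)) (by rw [smul_sub, e1]; abel)
  obtain ⟨b, hb⟩ := h.2 (κ x - β (t x)) (α (t x)) (by rw [smul_sub, e2]; abel)
  have e4 : κ x = α (s x) + g • a := by
    apply h.canc
    rw [e1, ha, smul_add, smul_comm f g]
  have e5 : η (serbW hs ht x) = β (t x) - g • a := by
    apply h.canc
    rw [smul_sub, smul_comm f g, ← ha, ← neg_inj, ← e3]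
    abel
  refine ⟨b, a, ?_⟩
  rw [e5, ← hb]
  abel

/-- A form on the syzygy whose class vanishes extends. -/
theorem serb_ext (h : SerRM T f g) (hs : ∀ x, d (s x) = f • x) (ht : ∀ x, d (t x) = g • x)
    (η : LinearMap.ker d →ₗ[S] T) (a b : F →ₗ[S] T)
    (e : ∀ x, η (serbW hs ht x) = f • a x + g • b x) :
    ∃ μ : E →ₗ[S] T, ∀ u : LinearMap.ker d, μ u = η u := by
  obtain ⟨μ, hμ⟩ := h.div (a ∘ₗ d + η ∘ₗ serbH ht) (η ∘ₗ serbH hs - b ∘ₗ d) fun y => by
    have := e (d y)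
    rw [serbW_d, map_sub, map_smul, map_smul] at this
    simp only [LinearMap.add_apply, LinearMap.sub_apply, LinearMap.comp_apply, smul_add, smul_sub]
    rw [sub_eq_iff_eq_add.1 this]
    abel
  refine ⟨-μ, fun u => h.canc ?_⟩
  have h0 : d u = 0 := u.2
  have := (hμ u).2
  simp only [LinearMap.sub_apply, LinearMap.comp_apply, serbH_ker, h0, map_zero, sub_zero,
    map_neg, map_smul] at this
  rw [LinearMap.neg_apply, smul_neg, ← this, neg_neg]

end

/-- A map from a finite projective module whose dual map is onto has a left inverse. -/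
theorem serb_split {K N : Type} [AddCommGroup K] [Module S K] [AddCommGroup N] [Module S N]
    [Module.Finite S K] [Module.Projective S K] (j : K →ₗ[S] N)
    (h : ∀ η : K →ₗ[S] S, ∃ μ : N →ₗ[S] S, ∀ u, μ (j u) = η u) :
    ∃ l : N →ₗ[S] K, l ∘ₗ j = LinearMap.id := by
  obtain ⟨n, p, q, -, -, e⟩ := Module.Finite.exists_comp_eq_id_of_projective S K
  choose μ hμ using fun i => h (LinearMap.proj i ∘ₗ q)
  refine ⟨p ∘ₗ LinearMap.pi μ, ?_⟩
  rw [← e, LinearMap.comp_assoc]
  congr 1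
  ext u i
  exact hμ i u

theorem serb_lift {E F P : Type} [AddCommGroup E] [Module S E] [AddCommGroup F] [Module S F]
    [AddCommGroup P] [Module S P] [Module.Projective S P] (d : E →ₗ[S] F) (φ : P →ₗ[S] F)
    (h : ∀ x, φ x ∈ LinearMap.range d) : ∃ s : P →ₗ[S] E, ∀ x, d (s x) = φ x := by
  obtain ⟨s, hs⟩ := Module.projective_lifting_property d.rangeRestrict
    (φ.codRestrict _ h) d.surjective_rangeRestrict
  exact ⟨s, fun x => congrArg Subtype.val (LinearMap.congr_fun hs x)⟩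

variable {ι : Type} [Fintype ι] [DecidableEq ι]

/-- The linear form of a vector. -/
def serbD (κ : ι → S) : (ι → S) →ₗ[S] S where
  toFun x := κ ⬝ᵥ x
  map_add' x y := dotProduct_add κ x y
  map_smul' c x := dotProduct_smul c κ x

omit [DecidableEq ι] in
theorem serbD_apply (κ x : ι → S) : serbD κ x = κ ⬝ᵥ x := rfl

theorem serb_form (φ : (ι → S) →ₗ[S] S) (x : ι → S) :
    (fun i => φ (Pi.single i 1)) ⬝ᵥ x = φ x := by
  conv_rhs => rw [← Finset.univ_sum_single x, map_sum]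
  refine Finset.sum_congr rfl fun i _ => ?_
  rw [mul_comm, ← smul_eq_mul, ← map_smul, ← Pi.single_smul', smul_eq_mul, mul_one]

theorem serb_pp [IsNoetherianRing S] {L : Matrix ι ι S} {f g : S} (h : Reg2 f g) (hL : L.IsSymm)
    (hp : Perf L f g) {m : ℕ} (d : (Fin m → S) →ₗ[S] (ι → S)) (hd : LinearMap.range d = Rad L f g)
    [Module.Projective S (LinearMap.ker d)] : Module.Projective S (PP L f g) := by
  have hf : ∀ x, f • x ∈ Rad L f g := fun x =>
    ⟨(f • x, L *ᵥ x, 0), by change L *ᵥ (f • x) = _; simp [mulVec_smul], rfl⟩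
  have hg : ∀ x, g • x ∈ Rad L f g := fun x =>
    ⟨(g • x, 0, L *ᵥ x), by change L *ᵥ (g • x) = _; simp [mulVec_smul], rfl⟩
  obtain ⟨s, hs⟩ := serb_lift d (f • LinearMap.id) fun x => hd ▸ hf x
  obtain ⟨t, ht⟩ := serb_lift d (g • LinearMap.id) fun x => hd ▸ hg x
  replace hs : ∀ x, d (s x) = f • x := hs
  replace ht : ∀ x, d (t x) = g • x := ht
  obtain ⟨D, hD⟩ := serb_lift (LinearMap.fst S _ _ ∘ₗ (PP L f g).subtype) d fun y => by
    obtain ⟨v, hv, e⟩ : d y ∈ Rad L f g := hd ▸ LinearMap.mem_range_self d y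
    exact ⟨⟨v, hv⟩, e⟩
  replace hD : ∀ y, (D y).1.1 = d y := hD
  let Y : (Fin m → S) →ₗ[S] (ι → S) :=
    LinearMap.fst S _ _ ∘ₗ LinearMap.snd S _ _ ∘ₗ (PP L f g).subtype ∘ₗ D
  let Z : (Fin m → S) →ₗ[S] (ι → S) :=
    LinearMap.snd S _ _ ∘ₗ LinearMap.snd S _ _ ∘ₗ (PP L f g).subtype ∘ₗ D
  have hYZ : ∀ y, L *ᵥ d y = f • Y y + g • Z y := fun y => by rw [← hD]; exact (D y).2
  have hF := serb_rm_pi h ι
  obtain ⟨θ, hθ⟩ := hF.div (-Y ∘ₗ (LinearMap.ker d).subtype) (Z ∘ₗ (LinearMap.ker d).subtype)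
    fun u => by
      have h0 : d u = 0 := u.2
      have := hYZ u
      rw [h0, mulVec_zero] at this
      change f • (-Y u) = g • Z u
      rw [smul_neg, neg_eq_iff_add_eq_zero, ← this]
  replace hθ : ∀ u : LinearMap.ker d, -Y u = g • θ u ∧ Z u = f • θ u := hθ
  let io : (ι → S) →ₗ[S] PP L f g := LinearMap.codRestrict _
    (LinearMap.prod 0 (LinearMap.prod (g • LinearMap.id) (-(f • LinearMap.id)))) fun ξ => by
      change L *ᵥ 0 = f • g • ξ + g • (-(f • ξ))
      rw [mulVec_zero, smul_neg, smul_comm f g, add_neg_cancel]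
  have hio : ∀ ξ, (io ξ).1 = (0, g • ξ, -(f • ξ)) := fun ξ => rfl
  have hDv : ∀ y, (D y).1 = (d y, Y y, Z y) := fun y => Prod.ext (hD y) rfl
  let Φ : ((ι → S) × (Fin m → S)) →ₗ[S] PP L f g := io.coprod D
  have hΦ : ∀ ξ y, (Φ (ξ, y)).1 = (d y, g • ξ + Y y, -(f • ξ) + Z y) := fun ξ y => by
    change (io ξ).1 + (D y).1 = _
    rw [hio, hDv]
    simp
  let j : LinearMap.ker d →ₗ[S] ((ι → S) × (Fin m → S)) := θ.prod (LinearMap.ker d).subtype
  have hj : ∀ u, j u = (θ u, u.1) := fun u => rfl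
  have hsurj : Function.Surjective Φ := by
    rintro ⟨⟨x, y, z⟩, hv⟩
    have hv' : L *ᵥ x = f • y + g • z := hv
    obtain ⟨u, rfl⟩ : x ∈ LinearMap.range d := hd ▸ ⟨_, hv, rfl⟩
    have e : g • (Z u - z) = f • (y - Y u) := by
      rw [smul_sub, smul_sub, sub_eq_sub_iff_add_eq_add, add_comm, ← hYZ, hv']
    obtain ⟨ξ, hξ⟩ := hF.2 _ _ e
    have e' : y - Y u = g • ξ := hF.canc (by rw [← e, hξ, smul_comm])
    refine ⟨(ξ, u), Subtype.ext ?_⟩
    rw [hΦ, ← e', ← hξ]
    simp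
  have hex : Function.Exact j Φ := by
    rintro ⟨ξ, y⟩
    constructor
    · intro h0
      have h1 := hΦ ξ y
      rw [h0] at h1
      have h2 : d y = 0 := (congrArg Prod.fst h1).symm
      have h3 : -(f • ξ) + Z y = 0 := (congrArg (fun v => v.2.2) h1).symm
      refine ⟨⟨y, h2⟩, ?_⟩
      rw [hj]
      refine Prod.ext (hF.canc ?_) rfl
      change f • θ ⟨y, h2⟩ = f • ξ
      rw [← (hθ ⟨y, h2⟩).2]
      exact (neg_add_eq_zero.1 h3).symm
    · rintro ⟨u, hu⟩
      rw [← hu, hj]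
      apply Subtype.ext
      have h0 : d u = 0 := u.2
      rw [hΦ, ← (hθ u).1, ← (hθ u).2, h0]
      simp
  obtain ⟨l, hl⟩ := serb_split j fun η => by
    have hS := serb_rm_self h
    obtain ⟨x, hx⟩ := hp (fun i => η (serbW hs ht (Pi.single i 1))) fun y hy => by
      obtain ⟨u, rfl⟩ : y ∈ LinearMap.range d := hd ▸ hy
      have := serb_form (η ∘ₗ serbW hs ht) (d u)
      simp only [LinearMap.comp_apply] at this
      rw [this, serbW_d, map_sub, map_smul, map_smul]
      exact Ideal.sub_mem _ (Ideal.mul_mem_right _ _ (Ideal.subset_span (by simp)))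
        (Ideal.mul_mem_right _ _ (Ideal.subset_span (by simp)))
    have hc := serb_cong hS hs ht (serbD (L *ᵥ x)) (serbD x ∘ₗ Y) (serbD x ∘ₗ Z)
      (-(serbD x ∘ₗ θ))
      (fun y => by
        simp only [LinearMap.comp_apply, serbD_apply]
        rw [← dotProduct_smul, ← dotProduct_smul, ← dotProduct_add, ← hYZ, dotProduct_mulVec,
          ← mulVec_transpose, hL.eq])
      (fun u => by
        simp only [LinearMap.comp_apply, LinearMap.neg_apply]
        rw [smul_neg, neg_neg, ← map_smul, ← (hθ u).2])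
    have hm : ∀ i, ∃ a b, (η + serbD x ∘ₗ θ) (serbW hs ht (Pi.single i 1)) = f * a + g * b := by
      intro i
      obtain ⟨a, b, e⟩ := hc (Pi.single i 1)
      obtain ⟨a', b', e'⟩ := Ideal.mem_span_pair.1 (hx i)
      refine ⟨a + a', b + b', ?_⟩
      simp only [serbD_apply, dotProduct_single, mul_one, smul_eq_mul, LinearMap.neg_apply,
        LinearMap.comp_apply, LinearMap.add_apply] at e ⊢
      linear_combination e - e'
    choose a b hab using hm
    obtain ⟨μ, hμ⟩ := serb_ext hS hs ht (η + serbD x ∘ₗ θ) (serbD a) (serbD b) fun y => by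
      have := serb_form ((η + serbD x ∘ₗ θ) ∘ₗ serbW hs ht) y
      simp only [LinearMap.comp_apply (η + serbD x ∘ₗ θ), hab] at this
      rw [← this, serbD_apply, serbD_apply, ← smul_dotProduct, ← smul_dotProduct, ← add_dotProduct]
      rfl
    refine ⟨(-serbD x).coprod μ, fun u => ?_⟩
    rw [hj, LinearMap.coprod_apply, hμ]
    simp
  have hinj : Function.Injective j := LinearMap.injective_of_comp_eq_id _ _ hl
  have hl' : ∃ l, l ∘ₗ j = LinearMap.id := ⟨l, hl⟩
  obtain ⟨σ, hσ⟩ : ∃ σ, Φ ∘ₗ σ = LinearMap.id := ((hex.split_tfae hinj hsurj).out 1 0).1 hl'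
  exact Module.Projective.of_split σ Φ hσ

theorem serb_hom {G : Submodule S (ι → S)} {b c r : S}
    (h' : Reg2 (Ideal.Quotient.mk (Ideal.span {r}) b) (Ideal.Quotient.mk (Ideal.span {r}) c))
    (hb : ∀ x, b • x ∈ G) (hc : ∀ x, c • x ∈ G) {m : ℕ} (d : (Fin m → S) →ₗ[S] (ι → S))
    (hd : LinearMap.range d = G) [Module.Projective S (LinearMap.ker d)] (κ : ι → S)
    (hκ : ∀ x ∈ G, κ ⬝ᵥ x ∈ Ideal.span {b, c, r}) :
    ∃ κ' : ι → S, (∀ x ∈ G, κ' ⬝ᵥ x ∈ Ideal.span {b, c}) ∧
      ∀ i, κ i - κ' i ∈ Ideal.span {b, c, r} := by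
  subst hd
  obtain ⟨s, hs⟩ := serb_lift d (b • LinearMap.id) hb
  obtain ⟨t, ht⟩ := serb_lift d (c • LinearMap.id) hc
  replace hs : ∀ x, d (s x) = b • x := hs
  replace ht : ∀ x, d (t x) = c • x := ht
  have hB : SerRM (S ⧸ Ideal.span {r}) b c := serb_rm_alg h'
  let π : S →ₗ[S] S ⧸ Ideal.span {r} := Algebra.linearMap S _
  have hπ : Function.Surjective π := Ideal.Quotient.mk_surjective
  have hr : π r = 0 := Ideal.Quotient.eq_zero_iff_mem.2 (Ideal.mem_span_singleton_self r)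
  have hm : ∀ k, ∃ α β, π (serbD κ (d (Pi.single k 1))) = π (b * α + c * β) := fun k => by
    obtain ⟨α, z, hz, e⟩ := Ideal.mem_span_insert.1 (hκ _ (LinearMap.mem_range_self d
      (Pi.single k 1)))
    obtain ⟨β, γ, rfl⟩ := Ideal.mem_span_pair.1 hz
    refine ⟨α, β, ?_⟩
    rw [serbD_apply, e, ← add_assoc, map_add, ← smul_eq_mul γ, map_smul, hr, smul_zero, add_zero,
      mul_comm α, mul_comm β]
  choose α β hαβ using hm
  have h1 : ∀ y, (π ∘ₗ serbD κ) (d y) = b • (π ∘ₗ serbD α) y + c • (π ∘ₗ serbD β) y := by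
    have : (π ∘ₗ serbD κ) ∘ₗ d = b • (π ∘ₗ serbD α) + c • (π ∘ₗ serbD β) := by
      refine LinearMap.pi_ext' fun k => LinearMap.ext_ring ?_
      change π (serbD κ (d (Pi.single k 1))) =
        b • π (α ⬝ᵥ Pi.single k 1) + c • π (β ⬝ᵥ Pi.single k 1)
      rw [hαβ, dotProduct_single, dotProduct_single, mul_one, mul_one, map_add, ← smul_eq_mul,
        ← smul_eq_mul, map_smul, map_smul]
    exact LinearMap.congr_fun this
  obtain ⟨η₀, hη₀⟩ := hB.div ((π ∘ₗ serbD α) ∘ₗ (LinearMap.ker d).subtype)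
    (-(π ∘ₗ serbD β) ∘ₗ (LinearMap.ker d).subtype) fun u => by
      have h0 : d u = 0 := u.2
      have := h1 u
      rw [h0, map_zero] at this
      change b • (π ∘ₗ serbD α) u = c • (-(π ∘ₗ serbD β) u)
      rw [smul_neg, eq_neg_iff_add_eq_zero, ← this]
  obtain ⟨η, rfl⟩ := Module.projective_lifting_property π η₀ hπ
  refine ⟨fun i => η (serbW hs ht (Pi.single i 1)), ?_, fun i => ?_⟩
  · rintro _ ⟨u, rfl⟩
    have := serb_form (η ∘ₗ serbW hs ht) (d u)
    simp only [LinearMap.comp_apply] at this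
    rw [this, serbW_d, map_sub, map_smul, map_smul]
    exact Ideal.sub_mem _ (Ideal.mul_mem_right _ _ (Ideal.subset_span (by simp)))
      (Ideal.mul_mem_right _ _ (Ideal.subset_span (by simp)))
  · obtain ⟨x, y, e⟩ := serb_cong hB hs ht (π ∘ₗ serbD κ) (π ∘ₗ serbD α) (π ∘ₗ serbD β) (π ∘ₗ η)
      h1 (fun u => neg_eq_iff_eq_neg.1 (hη₀ u).2) (Pi.single i 1)
    obtain ⟨x, rfl⟩ := hπ x
    obtain ⟨y, rfl⟩ := hπ y
    simp only [LinearMap.comp_apply, serbD_apply, dotProduct_single, mul_one] at e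
    rw [← map_sub, ← map_smul, ← map_smul, ← map_add] at e
    obtain ⟨z, hz⟩ := Ideal.mem_span_singleton'.1 (Ideal.Quotient.eq.1 e)
    refine Ideal.mem_span_insert.2 ⟨x, y * c + z * r, Ideal.mem_span_pair.2 ⟨y, z, rfl⟩, ?_⟩
    change z * r = κ i - η (serbW hs ht (Pi.single i 1)) - (b * x + c * y) at hz
    change κ i - η (serbW hs ht (Pi.single i 1)) = _
    linear_combination -hz

end Pool.Agent.Lib.MP_a37f0b_ag.Q4
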