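import Pool.Agent.Lib.MP_a37f0b_ag.Q4.PP
import Pool.Agent.Lib.MP_a37f0b_ag.Q4.Ser2
import Pool.Agent.Lib.MP_a37f0b_ag.PopPD

/-! Modules of projective dimension two. -/

open Matrix Pool.Agent.Lib.MP_a37f0b_ag.Pop

namespace Pool.Agent.Lib.MP_a37f0b_ag.Q4

variable {S : Type} [CommRing S] {ι : Type} [Fintype ι] [DecidableEq ι]

section

variable {M N K : Type} [AddCommGroup M] [Module S M] [AddCommGroup N] [Module S N]
  [AddCommGroup K] [Module S K] {f : K →ₗ[S] M} {g : M →ₗ[S] N} {n : ℕ}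

theorem pd_zero : PD S M 0 ↔ Module.Projective S M := by
  unfold PD
  rw [← CategoryTheory.projective_iff_hasProjectiveDimensionLE_zero, IsProjective.iff_projective]

theorem pd_mid (hf : Function.Injective f) (hg : Function.Surjective g) (e : Function.Exact f g)
    (h1 : PD S K n) (h2 : PD S N n) : PD S M n := by
  exact (ModuleCat.shortComplex_shortExact (ModuleCat.shortComplexOfCompEqZero f g
    e.linearMap_comp_eq_zero) e hf hg).hasProjectiveDimensionLT_X₂ (n + 1) h1 h2

theorem pd_left (hf : Function.Injective f) (hg : Function.Surjective g) (e : Function.Exact f g)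
    (h1 : PD S M n) (h2 : PD S N (n + 1)) : PD S K n := by
  exact (ModuleCat.shortComplex_shortExact (ModuleCat.shortComplexOfCompEqZero f g
    e.linearMap_comp_eq_zero) e hf hg).hasProjectiveDimensionLT_X₁ (n + 1) h1 h2

theorem pd_right (hf : Function.Injective f) (hg : Function.Surjective g) (e : Function.Exact f g)
    (h1 : PD S K n) (h2 : PD S M (n + 1)) : PD S N (n + 1) := by
  exact (ModuleCat.shortComplex_shortExact (ModuleCat.shortComplexOfCompEqZero f g
    e.linearMap_comp_eq_zero) e hf hg).hasProjectiveDimensionLT_X₃ (n + 1) h1 h2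

end

/-- The second syzygy is projective. -/
theorem res_two [IsNoetherianRing S] {G : Submodule S (ι → S)} (h : PD S ((ι → S) ⧸ G) 2) :
    ∃ (m : ℕ) (d : (Fin m → S) →ₗ[S] (ι → S)), LinearMap.range d = G ∧
      Module.Projective S (LinearMap.ker d) := by
  obtain ⟨m, d, hd⟩ := Module.Finite.exists_fin' S G
  have h1 : PD S G 1 := pd_left G.subtype_injective G.mkQ_surjective
    (LinearMap.exact_subtype_mkQ G) (pd_succ (pd_zero.2 inferInstance)) h
  have h0 : PD S (LinearMap.ker d) 0 := pd_left (LinearMap.ker d).subtype_injective hd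
    (LinearMap.exact_subtype_ker_map d) (pd_zero.2 inferInstance) h1
  refine ⟨m, G.subtype ∘ₗ d, ?_, ?_⟩
  · rw [LinearMap.range_comp_of_range_eq_top _ (LinearMap.range_eq_top.2 hd),
      Submodule.range_subtype]
  · rw [LinearMap.ker_comp_of_ker_eq_bot _ (Submodule.ker_subtype G)]
    exact pd_zero.1 h0

/-- The construction of Serre. -/
theorem pp_proj [IsNoetherianRing S] {L : Matrix ι ι S} {f g : S} (h : Reg2 f g) (hL : L.IsSymm)
    (hp : Perf L f g) (hd : PD S ((ι → S) ⧸ Rad L f g) 2) : Module.Projective S (PP L f g) := by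
  obtain ⟨m, d, e, _⟩ := res_two hd
  exact serb_pp h hL hp d e

/-- Lifting of linear forms modulo a regular element. -/
theorem lift_hom [IsNoetherianRing S] {G : Submodule S (ι → S)} {b c r : S} (h : Reg2 b c)
    (h' : Reg2 (Ideal.Quotient.mk (Ideal.span {r}) b) (Ideal.Quotient.mk (Ideal.span {r}) c))
    (hb : ∀ x, b • x ∈ G) (hc : ∀ x, c • x ∈ G) (hr : ∀ x, r • x ∈ G → x ∈ G)
    (hd : PD S ((ι → S) ⧸ G) 2) (κ : ι → S) (hκ : ∀ x ∈ G, κ ⬝ᵥ x ∈ Ideal.span {b, c, r}) :
    ∃ κ' : ι → S, (∀ x ∈ G, κ' ⬝ᵥ x ∈ Ideal.span {b, c}) ∧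
      ∀ i, κ i - κ' i ∈ Ideal.span {b, c, r} := by
  have _ := h
  have _ := hr
  obtain ⟨m, d, e, _⟩ := res_two hd
  exact serb_hom h' hb hc d e κ hκ

/-- Free modules over `S / r` have projective dimension at most one. -/
lemma serA_free {r : S} (hr : ∀ x, r * x = 0 → x = 0) (N : Type) [AddCommGroup N] [Module S N]
    [Module (S ⧸ Ideal.span {r}) N] [IsScalarTower S (S ⧸ Ideal.span {r}) N]
    [Module.Free (S ⧸ Ideal.span {r}) N] : PD S N 1 := by
  let b := Module.Free.chooseBasis (S ⧸ Ideal.span {r}) N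
  let g := Finsupp.mapRange.linearMap (α := Module.Free.ChooseBasisIndex (S ⧸ Ideal.span {r}) N)
    (Algebra.linearMap S (S ⧸ Ideal.span {r}))
  have hg : Function.Surjective g :=
    Finsupp.mapRange_surjective _ (map_zero _) Ideal.Quotient.mk_surjective
  refine pd_equiv (b.repr.symm.restrictScalars S) ?_
  refine pd_right (f := r • LinearMap.id) (g := g) ?_ hg ?_ (pd_zero.2 inferInstance)
    (pd_succ (pd_zero.2 inferInstance))
  · refine (injective_iff_map_eq_zero _).2 fun y hy => Finsupp.ext fun k => hr _ ?_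
    exact congrArg (fun z => z k) hy
  · intro x
    constructor
    · intro hx
      have h1 : ∀ k, ∃ c, c * r = x k := fun k => Ideal.mem_span_singleton'.1
        (Ideal.Quotient.eq_zero_iff_mem.1 (congrArg (fun z => z k) hx))
      choose c hc using h1
      refine ⟨Finsupp.onFinset x.support c fun k hk => Finsupp.mem_support_iff.2 fun e =>
        hk (hr _ (by rw [mul_comm, hc, e])), Finsupp.ext fun k => ?_⟩
      rw [← hc, mul_comm]
      rfl
    · rintro ⟨y, rfl⟩
      refine Finsupp.ext fun k => ?_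
      exact Ideal.Quotient.eq_zero_iff_mem.2 (Ideal.mem_span_singleton'.2 ⟨y k, mul_comm _ _⟩)

/-- A module with a free resolution of length one over `S / r`. -/
theorem pd_quot {r : S} (hr : ∀ x, r * x = 0 → x = 0) (G : Submodule (S ⧸ Ideal.span {r})
    (ι → S ⧸ Ideal.span {r})) [Module.Free (S ⧸ Ideal.span {r}) G] {G' : Submodule S (ι → S)}
    (h : ∀ x, x ∈ G' ↔ (fun i => Ideal.Quotient.mk (Ideal.span {r}) (x i)) ∈ G) :
    PD S ((ι → S) ⧸ G') 2 := by
  have hz : ∀ y : ι → S, (fun i => Ideal.Quotient.mk (Ideal.span {r}) ((r • y) i)) = 0 :=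
    fun y => funext fun i =>
      Ideal.Quotient.eq_zero_iff_mem.2 (Ideal.mem_span_singleton'.2 ⟨y i, mul_comm _ _⟩)
  let f : (ι → S) →ₗ[S] G' := LinearMap.codRestrict G' (r • LinearMap.id) fun y =>
    (h _).2 (by rw [show (r • LinearMap.id : (ι → S) →ₗ[S] (ι → S)) y = r • y from rfl, hz]
                exact G.zero_mem)
  let g : G' →ₗ[S] G :=
    { toFun := fun x => ⟨fun i => Ideal.Quotient.mk (Ideal.span {r}) (x.1 i), (h _).1 x.2⟩
      map_add' := fun x y => Subtype.ext (funext fun i => map_add _ _ _)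
      map_smul' := fun c x => Subtype.ext (funext fun i => rfl) }
  have hf : Function.Injective f := (injective_iff_map_eq_zero _).2 fun y hy =>
    funext fun i => hr _ (congrArg (fun z : G' => z.1 i) hy)
  have hg : Function.Surjective g := fun y => by
    choose x hx using fun i => Ideal.Quotient.mk_surjective (y.1 i)
    have e : (fun i => Ideal.Quotient.mk (Ideal.span {r}) (x i)) = y.1 := funext hx
    exact ⟨⟨x, (h _).2 (e ▸ y.2)⟩, Subtype.ext e⟩
  have ex : Function.Exact f g := fun x => by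
    constructor
    · intro hx
      have h1 : ∀ i, ∃ c, c * r = x.1 i := fun i => Ideal.mem_span_singleton'.1
        (Ideal.Quotient.eq_zero_iff_mem.1 (congrArg (fun z : G => z.1 i) hx))
      choose c hc using h1
      exact ⟨c, Subtype.ext (funext fun i => (mul_comm _ _).trans (hc i))⟩
    · rintro ⟨y, rfl⟩
      exact Subtype.ext (hz y)
  have h1 : PD S G' 1 := pd_mid hf hg ex (pd_succ (pd_zero.2 inferInstance)) (serA_free hr G)
  exact pd_right G'.subtype_injective G'.mkQ_surjective (LinearMap.exact_subtype_mkQ G') h1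
    (pd_succ (pd_succ (pd_zero.2 inferInstance)))

theorem pd_reg2 {b c : S} (h : Reg2 b c) : PD S (S ⧸ Ideal.span {b, c}) 2 := by
  have h1 : PD S (S ⧸ (⊥ ⊔ Ideal.span {b})) 1 :=
    (pd_ses ⊥ ⊥ b (fun μ => ⟨fun e => Ideal.mul_mem_left _ b e, h.1 μ⟩) 0).2 pd_bot (pd_succ pd_bot)
  rw [bot_sup_eq] at h1
  have h2 := (pd_ses (Ideal.span {b}) (Ideal.span {b}) c (fun μ => ⟨fun e => Ideal.mul_mem_left _ c e,
    fun e => Ideal.mem_span_singleton.2 (h.2 μ (Ideal.mem_span_singleton.1 e))⟩) 1).2 h1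
    (pd_succ h1)
  rwa [← Ideal.span_insert] at h2

variable (S) in
/-- Finite modules without elements killed by `m` have projective dimension at most `n`. -/
def GD (m : Ideal S) (n : ℕ) : Prop := ∀ (M : Type) [AddCommGroup M] [Module S M]
  [Module.Finite S M], (∀ z : M, (∀ μ ∈ m, μ • z = 0) → z = 0) → PD S M n

/-- Maximal integral lattices. -/
theorem lattice [IsNoetherianRing S] (I : Ideal S) {r : S} {N : ℕ} (h : r ^ N ∈ I) :
    ∃ l l' : Ideal S, I ≤ l ∧ l ≤ l' ∧ (∀ x, x ∈ l' ↔ ∀ y ∈ l, x * y ∈ I) ∧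
      (∀ x, x ∈ l ↔ ∀ y ∈ l', x * y ∈ I) ∧ ∀ x ∈ l', r * x ∈ l := by
  obtain ⟨l, hl, hmax⟩ := set_has_maximal_iff_noetherian.2 (inferInstance : IsNoetherian S S)
    {l : Ideal S | ∀ x ∈ l, ∀ y ∈ l, x * y ∈ I}
    ⟨⊥, fun x hx y _ => by rw [Ideal.mem_bot.1 hx, zero_mul]; exact I.zero_mem⟩
  have key : ∀ y, y * y ∈ I → (∀ z ∈ l, y * z ∈ I) → y ∈ l := fun y h1 h2 => by
    by_contra hy
    refine hmax (l ⊔ Ideal.span {y}) (fun u hu v hv => ?_) (lt_of_le_of_ne le_sup_left fun e =>
      hy (e ▸ Ideal.mem_sup_right (Ideal.mem_span_singleton_self y)))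
    obtain ⟨u, hu1, _, hu', rfl⟩ := Submodule.mem_sup.1 hu
    obtain ⟨a, rfl⟩ := Ideal.mem_span_singleton'.1 hu'
    obtain ⟨v, hv1, _, hv', rfl⟩ := Submodule.mem_sup.1 hv
    obtain ⟨b, rfl⟩ := Ideal.mem_span_singleton'.1 hv'
    have e : (u + a * y) * (v + b * y) =
        u * v + b * (y * u) + a * (y * v) + a * b * (y * y) := by ring
    rw [e]
    exact I.add_mem (I.add_mem (I.add_mem (hl u hu1 v hv1) (I.mul_mem_left _ (h2 u hu1)))
      (I.mul_mem_left _ (h2 v hv1))) (I.mul_mem_left _ h1)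
  let l' : Ideal S :=
    { carrier := {x | ∀ y ∈ l, x * y ∈ I}
      add_mem' := fun {x z} hx hz y hy => by
        rw [add_mul]; exact I.add_mem (hx y hy) (hz y hy)
      zero_mem' := fun y _ => by rw [zero_mul]; exact I.zero_mem
      smul_mem' := fun c x hx y hy => by
        rw [smul_eq_mul, mul_assoc]; exact I.mul_mem_left c (hx y hy) }
  have hl' : ∀ x, x ∈ l' ↔ ∀ y ∈ l, x * y ∈ I := fun x => Iff.rfl
  have hI : I ≤ l := fun x hx => key x (I.mul_mem_right _ hx) fun z _ => I.mul_mem_right _ hx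
  have hle : l ≤ l' := fun x hx => (hl' x).2 (hl x hx)
  refine ⟨l, l', hI, hle, hl', fun x => ⟨fun hx y hy => ?_, fun hx => ?_⟩, fun x hx => ?_⟩
  · rw [mul_comm]; exact (hl' y).1 hy x hx
  · have h1 : ∀ z ∈ l, x * z ∈ I := fun z hz => hx z (hle hz)
    exact key x (hx x ((hl' x).2 h1)) h1
  · have step : ∀ k, r ^ (k + 2) * x ∈ l → r ^ (k + 1) * x ∈ l := fun k hk => by
      refine key _ ?_ ((hl' _).1 (l'.mul_mem_left _ hx))
      have e : r ^ (k + 1) * x * (r ^ (k + 1) * x) = r ^ k * (x * (r ^ (k + 2) * x)) := by ring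
      rw [e]
      exact I.mul_mem_left _ ((hl' x).1 hx _ hk)
    have all : ∀ k, r ^ (k + 1) * x ∈ l → r * x ∈ l := fun k => by
      induction k with
      | zero => exact fun hk => by simpa using hk
      | succ k ih => exact fun hk => ih (step k hk)
    refine all N (hI ?_)
    rw [pow_succ, mul_assoc]
    exact I.mul_mem_right _ h

end Pool.Agent.Lib.MP_a37f0b_ag.Q4
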