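import Pool.Agent.Lib.MP_a37f0b_ag.Q4.Sym1

/-! Alternating forms: symplectic bases and cancellation. -/

open Matrix

namespace Pool.Agent.Lib.MP_a37f0b_ag.Q4

variable {A : Type} [CommRing A] {P : Type} [AddCommGroup P] [Module A P]

/-- The submodule `Q` has a symplectic basis. -/
def Hyp (ω : P →ₗ[A] P →ₗ[A] A) (Q : Submodule A P) : Prop :=
  ∃ (m : ℕ) (p q : Fin m → P), (∀ i j, ω (p i) (p j) = 0) ∧ (∀ i j, ω (q i) (q j) = 0) ∧
    (∀ i j, ω (p i) (q j) = if i = j then 1 else 0) ∧
    Submodule.span A (Set.range p ∪ Set.range q) = Q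

/-- The vectors orthogonal to a set. -/
def Ort (ω : P →ₗ[A] P →ₗ[A] A) (T : Set P) : Submodule A P := ⨅ t ∈ T, LinearMap.ker (ω t)

variable {ω : P →ₗ[A] P →ₗ[A] A}

theorem sym_mem_ort {T : Set P} {x : P} : x ∈ Ort ω T ↔ ∀ t ∈ T, ω t x = 0 := by
  simp [Ort, Submodule.mem_iInf]

theorem sym_bot : Hyp ω ⊥ :=
  ⟨0, Fin.elim0, Fin.elim0, fun i => i.elim0, fun i => i.elim0, fun i => i.elim0, by simp⟩

/-- Adding a hyperbolic plane. -/
theorem sym_cons (ha : ∀ v, ω v v = 0) {e f : P} (hef : ω e f = 1) (h : Hyp ω (Ort ω {e, f})) :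
    Hyp ω ⊤ := by
  obtain ⟨m, p, q, hp, hq, hpq, hs⟩ := h
  have mp : ∀ i, ω e (p i) = 0 ∧ ω f (p i) = 0 := fun i => by
    have : p i ∈ Ort ω {e, f} := hs ▸ Submodule.subset_span (Or.inl ⟨i, rfl⟩)
    rw [sym_mem_ort] at this
    exact ⟨this e (by simp), this f (by simp)⟩
  have mq : ∀ i, ω e (q i) = 0 ∧ ω f (q i) = 0 := fun i => by
    have : q i ∈ Ort ω {e, f} := hs ▸ Submodule.subset_span (Or.inr ⟨i, rfl⟩)
    rw [sym_mem_ort] at this
    exact ⟨this e (by simp), this f (by simp)⟩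
  refine ⟨m + 1, Fin.cons e p, Fin.cons f q, ?_, ?_, ?_, ?_⟩
  · intro i j
    refine Fin.cases ?_ (fun i => ?_) i <;> refine Fin.cases ?_ (fun j => ?_) j
    · simpa using ha e
    · simpa using (mp j).1
    · simp [sym_skew ha (p i) e, (mp i).1]
    · simpa using hp i j
  · intro i j
    refine Fin.cases ?_ (fun i => ?_) i <;> refine Fin.cases ?_ (fun j => ?_) j
    · simpa using ha f
    · simpa using (mq j).2
    · simp [sym_skew ha (q i) f, (mq i).2]
    · simpa using hq i j
  · intro i j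
    refine Fin.cases ?_ (fun i => ?_) i <;> refine Fin.cases ?_ (fun j => ?_) j
    · simpa using hef
    · simp [(mq j).1, (Fin.succ_ne_zero j).symm]
    · simp [sym_skew ha (p i) f, (mp i).2]
    · simpa using hpq i j
  · rw [eq_top_iff]
    intro x _
    have hy : x - ω x f • e - ω e x • f ∈ Ort ω {e, f} := by
      rw [sym_mem_ort]
      rintro t (rfl | rfl)
      · simp [ha, hef]
      · simp [ha, sym_skew ha t e, hef, sym_skew ha t x]
    rw [← hs, sym_mem_span] at hy
    obtain ⟨a, b, hab⟩ := hy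
    rw [sym_mem_span]
    refine ⟨Fin.cons (ω x f) a, Fin.cons (ω e x) b, ?_⟩
    simp only [Fin.sum_univ_succ, Fin.cons_zero, Fin.cons_succ]
    have : x = (x - ω x f • e - ω e x • f) + ω x f • e + ω e x • f := by abel
    conv_lhs => rw [this, hab]
    abel

/-- Removing the first plane. -/
theorem sym_peel (ha : ∀ v, ω v v = 0) {m : ℕ} {p q : Fin (m + 1) → P}
    (hp : ∀ i j, ω (p i) (p j) = 0) (hq : ∀ i j, ω (q i) (q j) = 0)
    (hpq : ∀ i j, ω (p i) (q j) = if i = j then 1 else 0) {f : P} (hef : ω (p 0) f = 1) :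
    Hyp ω (Submodule.span A (Set.range p ∪ Set.range q) ⊓ Ort ω {p 0, f}) := by
  have h0 : ∀ j : Fin m, ω (p 0) (q j.succ) = 0 := fun j => by
    simp [hpq, (Fin.succ_ne_zero j).symm]
  have h0' : ∀ j : Fin m, ω (q j.succ) (p 0) = 0 := fun j => by
    rw [sym_skew ha, h0, neg_zero]
  refine ⟨m, fun j => p j.succ - ω (p j.succ) f • p 0, fun j => q j.succ - ω (q j.succ) f • p 0,
    ?_, ?_, ?_, ?_⟩
  · intro i j
    simp [hp]
  · intro i j
    simp [hq, h0, h0', hp]
  · intro i j
    simp [hpq, hp, (Fin.succ_ne_zero j).symm]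
  · apply le_antisymm
    · rw [Submodule.span_le]
      have e0 : p 0 ∈ Submodule.span A (Set.range p ∪ Set.range q) :=
        Submodule.subset_span (Or.inl ⟨0, rfl⟩)
      rintro x (⟨j, rfl⟩ | ⟨j, rfl⟩)
      · refine ⟨Submodule.sub_mem _ (Submodule.subset_span (Or.inl ⟨_, rfl⟩))
          (Submodule.smul_mem _ _ e0), sym_mem_ort.2 ?_⟩
        rintro t (rfl | rfl)
        · simp [hp]
        · simp [sym_skew ha t (p 0), hef, sym_skew ha t (p j.succ)]
      · refine ⟨Submodule.sub_mem _ (Submodule.subset_span (Or.inr ⟨_, rfl⟩))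
          (Submodule.smul_mem _ _ e0), sym_mem_ort.2 ?_⟩
        rintro t (rfl | rfl)
        · simp [hp, h0]
        · simp [sym_skew ha t (p 0), hef, sym_skew ha t (q j.succ)]
    · rintro x ⟨hx, hx'⟩
      obtain ⟨a, b, hab⟩ := sym_mem_span.1 hx
      have hx1 : ω (p 0) x = 0 := sym_mem_ort.1 hx' _ (by simp)
      have hx2 : ω x f = 0 := by
        rw [sym_skew ha, sym_mem_ort.1 hx' f (by simp), neg_zero]
      have hb : b 0 = 0 := by rw [← sym_coef_q hp hpq a b 0, ← hab, hx1]
      rw [sym_mem_span]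
      refine ⟨fun j => a j.succ, fun j => b j.succ, ?_⟩
      have e1 : x = a 0 • p 0 + (∑ j : Fin m, a j.succ • p j.succ +
          ∑ j : Fin m, b j.succ • q j.succ) := by
        rw [hab]
        simp only [Fin.sum_univ_succ, hb, zero_smul, zero_add]
        abel
      have e2 : a 0 + (∑ j : Fin m, a j.succ * ω (p j.succ) f +
          ∑ j : Fin m, b j.succ * ω (q j.succ) f) = 0 := by
        rw [← hx2]
        conv_rhs => rw [e1]
        simp [map_sum, LinearMap.sum_apply, hef]
      have e3 : a 0 = - (∑ j : Fin m, a j.succ * ω (p j.succ) f +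
          ∑ j : Fin m, b j.succ * ω (q j.succ) f) := eq_neg_of_add_eq_zero_left e2
      rw [e1, e3]
      simp only [smul_sub, Finset.sum_sub_distrib, smul_smul, neg_smul, add_smul, Finset.sum_smul]
      abel

theorem Hyp.free {Q : Submodule A P} (ha : ∀ v, ω v v = 0) (h : Hyp ω Q) : Module.Free A Q := by
  have _ := ha
  obtain ⟨m, p, q, hp, hq, hpq, hs⟩ := h
  rw [← hs, ← sym_range]
  exact Module.Free.of_basis (Module.Basis.span (sym_li hp hq hpq))

/-- The projection away from a hyperbolic plane. -/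
def symPr (ω : P →ₗ[A] P →ₗ[A] A) (ha : ∀ v, ω v v = 0) {e f : P} (hef : ω e f = 1) :
    P →ₗ[A] Ort ω {e, f} :=
  LinearMap.codRestrict _
    (LinearMap.id - (ω.flip f).smulRight e - (ω e).smulRight f) fun x => by
      rw [sym_mem_ort]
      rintro t (rfl | rfl)
      · simp [ha, hef]
      · simp [ha, sym_skew ha t e, hef, sym_skew ha t x]

theorem symPr_val (ha : ∀ v, ω v v = 0) {e f : P} (hef : ω e f = 1) (x : P) :
    (symPr ω ha hef x : P) = x - ω x f • e - ω e x • f := rfl

theorem sym_ort_e {e f : P} (y : Ort ω {e, f}) : ω e y = 0 := sym_mem_ort.1 y.2 e (by simp)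

theorem sym_ort_f {e f : P} (y : Ort ω {e, f}) : ω f y = 0 := sym_mem_ort.1 y.2 f (by simp)

theorem symPr_coe (ha : ∀ v, ω v v = 0) {e f : P} (hef : ω e f = 1) (y : Ort ω {e, f}) :
    symPr ω ha hef y = y := by
  apply Subtype.ext
  rw [symPr_val, sym_skew ha (y : P) f, sym_ort_e y, sym_ort_f y]
  simp

/-- The splitting along a hyperbolic plane. -/
def symSp (ω : P →ₗ[A] P →ₗ[A] A) (ha : ∀ v, ω v v = 0) {e f : P} (hef : ω e f = 1) :
    P ≃ₗ[A] (A × A) × Ort ω {e, f} :=
  LinearEquiv.ofLinearMap (((ω.flip f).prod (ω e)).prod (symPr ω ha hef))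
    ((((LinearMap.id : A →ₗ[A] A).smulRight e).coprod
      ((LinearMap.id : A →ₗ[A] A).smulRight f)).coprod (Ort ω {e, f}).subtype)
    (by
      apply LinearMap.ext
      rintro ⟨⟨a, b⟩, y⟩
      have h1 : ω (a • e + b • f + (y : P)) f = a := by
        simp [hef, ha, sym_skew ha (y : P) f, sym_ort_f y]
      have h2 : ω e (a • e + b • f + (y : P)) = b := by
        simp [hef, ha, sym_ort_e y]
      refine Prod.ext (Prod.ext h1 h2) (Subtype.ext ?_)
      change (a • e + b • f + (y : P)) - ω (a • e + b • f + (y : P)) f • e -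
        ω e (a • e + b • f + (y : P)) • f = y
      rw [h1, h2]
      abel)
    (by
      apply LinearMap.ext
      intro x
      change ω x f • e + ω e x • f + (x - ω x f • e - ω e x • f) = x
      abel)

theorem sym_bij (ha : ∀ v, ω v v = 0) (hb : Function.Bijective ω) {e f : P} (hef : ω e f = 1) :
    Function.Bijective (ω.domRestrict₁₂ (Ort ω {e, f}) (Ort ω {e, f})) := by
  have key : ∀ (y : Ort ω {e, f}) (x : P), ω y x = ω y (symPr ω ha hef x) := fun y x => by
    simp [symPr_val, sym_skew ha (y : P) e, sym_skew ha (y : P) f, sym_ort_e y, sym_ort_f y]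
  constructor
  · rw [injective_iff_map_eq_zero]
    intro y hy
    apply Subtype.ext
    apply hb.1
    apply LinearMap.ext
    intro x
    rw [key]
    have := LinearMap.congr_fun hy (symPr ω ha hef x)
    rw [LinearMap.domRestrict₁₂_apply] at this
    rw [this]
    simp
  · intro l
    obtain ⟨v, hv⟩ := hb.2 (l ∘ₗ symPr ω ha hef)
    refine ⟨symPr ω ha hef v, ?_⟩
    apply LinearMap.ext
    intro y
    have := LinearMap.congr_fun hv y
    rw [LinearMap.comp_apply, symPr_coe] at this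
    rw [← this, LinearMap.domRestrict₁₂_apply, symPr_val]
    simp [sym_ort_e y, sym_ort_f y]

theorem sym_push {Q : Submodule A P} (h : Hyp (ω.domRestrict₁₂ Q Q) ⊤) : Hyp ω Q := by
  obtain ⟨m, p, q, hp, hq, hpq, hs⟩ := h
  refine ⟨m, fun i => p i, fun i => q i, hp, hq, hpq, ?_⟩
  have := congrArg (Submodule.map Q.subtype) hs
  rw [Submodule.map_span, Submodule.map_top, Submodule.range_subtype, Set.image_union,
    ← Set.range_comp, ← Set.range_comp] at this
  exact this

theorem sym_af [Nontrivial A] (h : AF A) (n : ℕ) : ∀ (P : Type) [AddCommGroup P] [Module A P]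
    [Module.Finite A P] [Module.Projective A P] (ω : P →ₗ[A] P →ₗ[A] A), (∀ v, ω v v = 0) →
    Function.Bijective ω → Module.finrank A P ≤ n → Hyp ω ⊤ := by
  induction n with
  | zero =>
    intro P _ _ _ _ ω _ _ hn
    have := h P
    have : Subsingleton P := (Module.finrank_eq_zero_iff_of_free A P).1 (Nat.le_zero.1 hn)
    rw [Subsingleton.elim (⊤ : Submodule A P) ⊥]
    exact sym_bot
  | succ n ih =>
    intro P _ _ _ _ ω ha hb hn
    have := h P
    rcases subsingleton_or_nontrivial P with h0 | h0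
    · rw [Subsingleton.elim (⊤ : Submodule A P) ⊥]
      exact sym_bot
    let b := Module.Free.chooseBasis A P
    obtain ⟨i⟩ := b.index_nonempty
    obtain ⟨e, he⟩ := hb.2 (b.coord i)
    have hef : ω e (b i) = 1 := by simp [he]
    refine sym_cons ha hef (sym_push ?_)
    have : Module.Finite A (Ort ω {e, b i}) :=
      Module.Finite.of_surjective (symPr ω ha hef) fun y => ⟨y, symPr_coe ha hef y⟩
    have : Module.Projective A (Ort ω {e, b i}) :=
      Module.Projective.of_split (Ort ω {e, b i}).subtype (symPr ω ha hef)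
        (LinearMap.ext fun y => symPr_coe ha hef y)
    have := h (Ort ω {e, b i})
    refine ih _ _ (fun v => ha v) (sym_bij ha hb hef) ?_
    have := (symSp ω ha hef).finrank_eq
    rw [Module.finrank_prod, Module.finrank_prod, Module.finrank_self] at this
    omega

theorem hyp_of_af (h : AF A) [Module.Finite A P] [Module.Projective A P] (ha : ∀ v, ω v v = 0)
    (hb : Function.Bijective ω) : Hyp ω ⊤ := by
  rcases subsingleton_or_nontrivial A with h0 | h0
  · have := Module.subsingleton A P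
    rw [Subsingleton.elim (⊤ : Submodule A P) ⊥]
    exact sym_bot
  · exact sym_af h _ P ω ha hb le_rfl

/-- The lemma of Vaserstein. -/
theorem vas {ι : Type} [Fintype ι] [DecidableEq ι] (i : ι) {σ : Matrix ι ι A} (hσ : σ ∈ El A ι)
    (φ : (ι → A) →ₗ[A] (ι → A) →ₗ[A] A) (ha : ∀ v, φ v v = 0) (hb : Function.Bijective φ) :
    ∃ g : (ι → A) ≃ₗ[A] (ι → A), (∀ x y, φ (g x) (g y) = φ x y) ∧
      g (Pi.single i 1) = σ *ᵥ Pi.single i 1 ∧
      ∀ x, x i = 0 → ∃ y, y i = 0 ∧ g x = σ *ᵥ y := by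
  induction hσ using Submonoid.closure_induction generalizing φ with
  | mem M hM =>
    obtain ⟨k, l, c, hkl, rfl⟩ := hM
    by_cases hl : l = i
    · subst hl
      obtain ⟨f, hf⟩ := hb.2 (LinearMap.proj l)
      have hf' : ∀ z, φ f z = z l := fun z => by rw [hf]; rfl
      have hfl : f l = 0 := (hf' f).symm.trans (ha f)
      obtain ⟨g, g1, g2⟩ := sym_es ha (f := f) (v := c • Pi.single k 1)
        (by simp [hf', hkl.symm]) (-φ (c • Pi.single k 1) (Pi.single l 1))
      refine ⟨g, g1, ?_, fun x hx => ⟨g x, ?_, ?_⟩⟩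
      · rw [g2, sym_tv, hf']
        simp
      · simp [g2, hf', hx, hfl]
      · have : g x l = 0 := by simp [g2, hf', hx, hfl]
        simp [sym_tv, this]
    · by_cases hk : k = i
      · subst hk
        obtain ⟨v, hv⟩ := hb.2 (c • LinearMap.proj l)
        have hv' : ∀ z, φ v z = c * z l := fun z => by rw [hv]; rfl
        have h0 : φ (Pi.single k 1) v = 0 := by
          rw [sym_skew ha, hv']
          simp [hl]
        obtain ⟨g, g1, g2⟩ := sym_es ha h0 (c * v l - v k)
        refine ⟨g, g1, ?_, fun x hx => ⟨g x - (c * g x l) • Pi.single k 1, ?_, ?_⟩⟩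
        · rw [g2, sym_tv, hv', ha]
          simp [hl]
        · simp [g2, hv', hx, hl]
          ring
        · rw [sym_tv]
          simp [hl]
      · refine ⟨LinearEquiv.refl A _, fun _ _ => rfl, ?_,
          fun x hx => ⟨x - (c * x l) • Pi.single k 1, ?_, ?_⟩⟩
        · rw [sym_tv]
          simp [hl]
        · simp [hx, Ne.symm hk]
        · rw [sym_tv]
          simp [hkl.symm]
  | one =>
    exact ⟨LinearEquiv.refl A _, fun _ _ => rfl, (one_mulVec _).symm,
      fun x hx => ⟨x, hx, (one_mulVec _).symm⟩⟩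
  | mul σ₁ σ₂ h₁ _ ih₁ ih₂ =>
    obtain ⟨τ, -, t1, t2⟩ := El.inv (show σ₁ ∈ El A ι from h₁)
    let s : (ι → A) ≃ₗ[A] (ι → A) := LinearEquiv.ofLinearMap (mulVecLin σ₁) (mulVecLin τ)
      (by rw [← mulVecLin_mul, t2, mulVecLin_one]) (by rw [← mulVecLin_mul, t1, mulVecLin_one])
    have hs : ∀ x, s x = σ₁ *ᵥ x := fun _ => rfl
    obtain ⟨g₁, a1, a2, a3⟩ := ih₁ φ ha hb
    have hb' : Function.Bijective (φ.compl₁₂ s.toLinearMap s.toLinearMap) := by
      have : ⇑(φ.compl₁₂ s.toLinearMap s.toLinearMap) = s.dualMap ∘ φ ∘ s := rfl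
      rw [this]
      exact s.dualMap.bijective.comp (hb.comp s.bijective)
    obtain ⟨g₂, b1, b2, b3⟩ := ih₂ (φ.compl₁₂ s.toLinearMap s.toLinearMap) (fun v => ha _) hb'
    refine ⟨g₁.trans (s.symm.trans (g₂.trans s)), fun x y => ?_, ?_, fun x hx => ?_⟩
    · have := b1 (s.symm (g₁ x)) (s.symm (g₁ y))
      simp only [LinearMap.compl₁₂_apply, LinearEquiv.coe_coe, LinearEquiv.apply_symm_apply] at this
      simp only [LinearEquiv.trans_apply]
      rw [this, a1]
    · simp only [LinearEquiv.trans_apply]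
      rw [a2, ← hs, s.symm_apply_apply, b2, hs, mulVec_mulVec]
    · obtain ⟨y, y1, y2⟩ := a3 x hx
      obtain ⟨z, z1, z2⟩ := b3 y y1
      refine ⟨z, z1, ?_⟩
      simp only [LinearEquiv.trans_apply]
      rw [y2, ← hs, s.symm_apply_apply, z2, hs, mulVec_mulVec]

theorem sym_one (ha : ∀ v, ω v v = 0) {p q : Fin 1 → P}
    (hpq : ∀ i j, ω (p i) (q j) = if i = j then 1 else 0) {e f : P}
    (he : e ∈ Submodule.span A (Set.range p ∪ Set.range q))
    (hf : f ∈ Submodule.span A (Set.range p ∪ Set.range q)) (hef : ω e f = 1) :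
    Submodule.span A (Set.range p ∪ Set.range q) ⊓ Ort ω {e, f} = ⊥ := by
  rw [eq_bot_iff]
  rintro x ⟨hx, hx'⟩
  obtain ⟨a, b, rfl⟩ := sym_mem_span.1 he
  obtain ⟨c, d, rfl⟩ := sym_mem_span.1 hf
  obtain ⟨s, t, rfl⟩ := sym_mem_span.1 hx
  have h1 := sym_mem_ort.1 hx' _ (Or.inl rfl)
  have h2 := sym_mem_ort.1 hx' _ (Or.inr rfl)
  have k1 : ω (p 0) (q 0) = 1 := by simp [hpq]
  have k2 : ω (q 0) (p 0) = -1 := by rw [sym_skew ha, k1]
  simp only [Fin.sum_univ_one, map_add, map_smul, LinearMap.add_apply, LinearMap.smul_apply,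
    smul_eq_mul, ha, k1, k2] at h1 h2 hef
  have hs : s 0 = 0 := by linear_combination (-s 0) * hef + c 0 * h1 - a 0 * h2
  have ht : t 0 = 0 := by linear_combination (-t 0) * hef + d 0 * h1 - b 0 * h2
  simp [hs, ht]

theorem Hyp.cancel (h4 : TR A 4) (ha : ∀ v, ω v v = 0) {Q : Submodule A P} (h : Hyp ω Q) {e f : P}
    (he : e ∈ Q) (hf : f ∈ Q) (hef : ω e f = 1) : Hyp ω (Q ⊓ Ort ω {e, f}) := by
  obtain ⟨m, p, q, hp, hq, hpq, rfl⟩ := h
  match m, p, q, hp, hq, hpq, he, hf with
  | 0, p, q, _, _, _, _, _ =>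
    have : Submodule.span A (Set.range p ∪ Set.range q) = ⊥ := by simp
    rw [this, bot_inf_eq]
    exact sym_bot
  | 1, p, q, _, _, hpq, he, hf =>
    rw [sym_one ha hpq he hf hef]
    exact sym_bot
  | m + 2, p, q, hp, hq, hpq, he, hf =>
    let T : (Fin (m + 2) ⊕ Fin (m + 2) → A) →ₗ[A] P := Fintype.linearCombination A (Sum.elim p q)
    have hT : ∀ x, T x = ∑ i, x (Sum.inl i) • p i + ∑ i, x (Sum.inr i) • q i := fun x => by
      simp [T, Fintype.linearCombination_apply, Fintype.sum_sum_type]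
    have hR : LinearMap.range T = Submodule.span A (Set.range p ∪ Set.range q) := by
      rw [Fintype.range_linearCombination, sym_range]
    have Tp : ∀ i, T (Pi.single (Sum.inl i) 1) = p i := fun i => by simp [T]
    have Tq : ∀ i, T (Pi.single (Sum.inr i) 1) = q i := fun i => by simp [T]
    let φ := ω.compl₁₂ T T
    have hφ : ∀ x y, φ x y = ω (T x) (T y) := fun _ _ => rfl
    have c1 : ∀ x k, φ x (Pi.single (Sum.inr k) 1) = x (Sum.inl k) := fun x k => by
      rw [hφ, Tq, hT, sym_coef_p hq hpq]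
    have c2 : ∀ x k, φ x (Pi.single (Sum.inl k) 1) = -x (Sum.inr k) := fun x k => by
      rw [hφ, Tp, sym_skew ha, hT, sym_coef_q hp hpq]
    have hb : Function.Bijective φ := by
      constructor
      · rw [injective_iff_map_eq_zero]
        intro x hx
        ext (k | k)
        · rw [← c1 x k, hx]; rfl
        · have := c2 x k
          rw [hx] at this
          simpa using this
      · intro l
        refine ⟨Sum.elim (fun k => l (Pi.single (Sum.inr k) 1))
          (fun k => -l (Pi.single (Sum.inl k) 1)), ?_⟩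
        apply (Pi.basisFun A _).ext
        rintro (k | k)
        · rw [Pi.basisFun_apply, c2]; simp
        · rw [Pi.basisFun_apply, c1]; simp
    obtain ⟨x, rfl⟩ : e ∈ LinearMap.range T := hR ▸ he
    obtain ⟨y, rfl⟩ : f ∈ LinearMap.range T := hR ▸ hf
    have hu : Um x := by
      rw [Um, Ideal.eq_top_iff_one, ← hef, hT x]
      simp only [map_add, map_sum, map_smul, LinearMap.add_apply, LinearMap.sum_apply,
        LinearMap.smul_apply, smul_eq_mul]
      refine Ideal.add_mem _ (Ideal.sum_mem _ fun i _ => ?_) (Ideal.sum_mem _ fun i _ => ?_) <;>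
        exact Ideal.mul_mem_right _ _ (Ideal.subset_span ⟨_, rfl⟩)
    have : Nontrivial (Fin (m + 2) ⊕ Fin (m + 2)) := ⟨⟨Sum.inl 0, Sum.inr 0, by simp⟩⟩
    obtain ⟨σ, hσ, hx⟩ := (h4 _ (by simp; omega) x hu).single (Sum.inl 0)
    obtain ⟨τ, hτ, t1, -⟩ := El.inv hσ
    obtain ⟨g, g1, g2, -⟩ := vas (Sum.inl 0) hτ φ (fun v => ha _) hb
    have g3 : g (Pi.single (Sum.inl 0) 1) = x := by rw [g2, ← hx, mulVec_mulVec, t1, one_mulVec]
    have := sym_peel ha (p := fun i => T (g (Pi.single (Sum.inl i) 1)))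
      (q := fun i => T (g (Pi.single (Sum.inr i) 1)))
      (fun i j => by rw [← hφ, g1, hφ, Tp, Tp, hp]) (fun i j => by rw [← hφ, g1, hφ, Tq, Tq, hq])
      (fun i j => by rw [← hφ, g1, hφ, Tp, Tq, hpq]) (f := T y) (by rw [g3, hef])
    rw [g3, ← sym_range] at this
    have e1 : Sum.elim (fun i => T (g (Pi.single (Sum.inl i) 1)))
        (fun i => T (g (Pi.single (Sum.inr i) 1))) = (T ∘ₗ g.toLinearMap) ∘ Pi.basisFun A _ := by
      ext (k | k) <;> simp
    rw [e1, Set.range_comp, ← Submodule.map_span, Module.Basis.span_eq, Submodule.map_top,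
      LinearMap.range_comp, LinearEquiv.range, Submodule.map_top, hR] at this
    exact this

theorem Hyp.cancels (h4 : TR A 4) (ha : ∀ v, ω v v = 0) (h : Hyp ω ⊤) {κ : Type} [Finite κ]
    [DecidableEq κ] (e f : κ → P) (h1 : ∀ i j, ω (e i) (e j) = 0) (h2 : ∀ i j, ω (f i) (f j) = 0)
    (h3 : ∀ i j, ω (e i) (f j) = if i = j then 1 else 0) :
    Hyp ω (Ort ω (Set.range e ∪ Set.range f)) := by
  have key : ∀ s : Finset κ, Hyp ω (Ort ω (e '' s ∪ f '' s)) := by
    intro s
    induction s using Finset.induction_on with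
    | empty =>
      have : Ort ω (e '' ((∅ : Finset κ) : Set κ) ∪ f '' ((∅ : Finset κ) : Set κ)) = ⊤ := by
        simp [Ort]
      rwa [this]
    | insert k s hk ih =>
      have hne : ∀ j ∈ s, j ≠ k := fun j hj hjk => hk (hjk ▸ hj)
      have := ih.cancel h4 ha (e := e k) (f := f k) ?_ ?_ (by simp [h3])
      · refine Eq.mpr (congrArg (Hyp ω) ?_) this
        ext x
        simp only [Submodule.mem_inf, sym_mem_ort, Finset.coe_insert, Set.image_insert_eq,
          Set.mem_union, Set.mem_insert_iff, Set.mem_singleton_iff]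
        constructor
        · intro H
          exact ⟨fun t ht => H t (by tauto), fun t ht => H t (by tauto)⟩
        · rintro ⟨H1, H2⟩ t ((ht | ht) | (ht | ht))
          exacts [H2 t (Or.inl ht), H1 t (Or.inl ht), H2 t (Or.inr ht), H1 t (Or.inr ht)]
      · rw [sym_mem_ort]
        rintro t (⟨j, hj, rfl⟩ | ⟨j, hj, rfl⟩)
        · exact h1 j k
        · rw [sym_skew ha, h3, if_neg (hne j hj).symm, neg_zero]
      · rw [sym_mem_ort]
        rintro t (⟨j, hj, rfl⟩ | ⟨j, hj, rfl⟩)
        · rw [h3, if_neg (hne j hj)]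
        · exact h2 j k
  have := Fintype.ofFinite κ
  simpa using key Finset.univ

end Pool.Agent.Lib.MP_a37f0b_ag.Q4
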