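import Pool.Agent.Lib.MP_a37f0b_ag.Q4.Row

/-! Alternating forms: coordinates and Eichler transformations. -/

open Matrix

namespace Pool.Agent.Lib.MP_a37f0b_ag.Q4

variable {A : Type} [CommRing A] {P : Type} [AddCommGroup P] [Module A P]
variable {ω : P →ₗ[A] P →ₗ[A] A}

theorem sym_skew (ha : ∀ v, ω v v = 0) (v w : P) : ω v w = - ω w v := by
  have h := ha (v + w)
  simp only [map_add, LinearMap.add_apply, ha, zero_add, add_zero] at h
  exact eq_neg_of_add_eq_zero_right h

omit [AddCommGroup P] in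
theorem sym_range {m : ℕ} (p q : Fin m → P) :
    Set.range (Sum.elim p q) = Set.range p ∪ Set.range q := Set.Sum.elim_range p q

theorem sym_mem_span {m : ℕ} {p q : Fin m → P} {x : P} :
    x ∈ Submodule.span A (Set.range p ∪ Set.range q) ↔
      ∃ a b : Fin m → A, x = ∑ i, a i • p i + ∑ i, b i • q i := by
  rw [← sym_range, Submodule.mem_span_range_iff_exists_fun]
  constructor
  · rintro ⟨c, rfl⟩
    exact ⟨fun i => c (Sum.inl i), fun i => c (Sum.inr i), by simp [Fintype.sum_sum_type]⟩
  · rintro ⟨a, b, rfl⟩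
    exact ⟨Sum.elim a b, by simp [Fintype.sum_sum_type]⟩

theorem sym_coef_p {m : ℕ} {p q : Fin m → P} (hq : ∀ i j, ω (q i) (q j) = 0)
    (hpq : ∀ i j, ω (p i) (q j) = if i = j then 1 else 0) (a b : Fin m → A) (k : Fin m) :
    ω (∑ i, a i • p i + ∑ i, b i • q i) (q k) = a k := by
  simp [map_sum, LinearMap.sum_apply, hq, hpq]

theorem sym_coef_q {m : ℕ} {p q : Fin m → P} (hp : ∀ i j, ω (p i) (p j) = 0)
    (hpq : ∀ i j, ω (p i) (q j) = if i = j then 1 else 0) (a b : Fin m → A) (k : Fin m) :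
    ω (p k) (∑ i, a i • p i + ∑ i, b i • q i) = b k := by
  simp [map_sum, hp, hpq]

theorem sym_li {m : ℕ} {p q : Fin m → P} (hp : ∀ i j, ω (p i) (p j) = 0)
    (hq : ∀ i j, ω (q i) (q j) = 0) (hpq : ∀ i j, ω (p i) (q j) = if i = j then 1 else 0) :
    LinearIndependent A (Sum.elim p q) := by
  rw [Fintype.linearIndependent_iff]
  intro c hc
  rw [Fintype.sum_sum_type] at hc
  simp only [Sum.elim_inl, Sum.elim_inr] at hc
  rintro (k | k)
  · have := sym_coef_p hq hpq (fun i => c (Sum.inl i)) (fun i => c (Sum.inr i)) k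
    rw [hc] at this
    simpa using this.symm
  · have := sym_coef_q hp hpq (fun i => c (Sum.inl i)) (fun i => c (Sum.inr i)) k
    rw [hc] at this
    simpa using this.symm

/-- The Eichler transformation. -/
def symEs (ω : P →ₗ[A] P →ₗ[A] A) (f v : P) (c : A) : P →ₗ[A] P :=
  LinearMap.id + (ω f).smulRight v + (ω v).smulRight f + c • (ω f).smulRight f

theorem symEs_apply (f v : P) (c : A) (z : P) :
    symEs ω f v c z = z + ω f z • v + ω v z • f + (c * ω f z) • f := by
  simp [symEs, smul_smul]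

theorem symEs_inv (ha : ∀ v, ω v v = 0) {f v : P} (h : ω f v = 0) (c : A) (z : P) :
    symEs ω f (-v) (-c) (symEs ω f v c z) = z := by
  have h' : ω v f = 0 := by rw [sym_skew ha, h, neg_zero]
  have a1 : ω f (symEs ω f v c z) = ω f z := by simp [symEs_apply, h, ha]
  have a2 : ω v (symEs ω f v c z) = ω v z := by simp [symEs_apply, h', ha]
  rw [symEs_apply, map_neg, LinearMap.neg_apply, a1, a2, symEs_apply]
  simp only [smul_neg, neg_smul, neg_mul]
  abel

theorem sym_es (ha : ∀ v, ω v v = 0) {f v : P} (h : ω f v = 0) (c : A) :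
    ∃ g : P ≃ₗ[A] P, (∀ x y, ω (g x) (g y) = ω x y) ∧
      ∀ z, g z = z + ω f z • v + ω v z • f + (c * ω f z) • f := by
  have h' : ω v f = 0 := by rw [sym_skew ha, h, neg_zero]
  have hn : ω f (-v) = 0 := by rw [map_neg, h, neg_zero]
  refine ⟨LinearEquiv.ofLinearMap (symEs ω f v c) (symEs ω f (-v) (-c)) ?_ ?_, ?_,
    symEs_apply f v c⟩
  · apply LinearMap.ext
    intro z
    simpa using symEs_inv ha hn (-c) z
  · exact LinearMap.ext (symEs_inv ha h c)
  · intro x y
    change ω (symEs ω f v c x) (symEs ω f v c y) = ω x y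
    simp only [symEs_apply, map_add, map_smul, LinearMap.add_apply, LinearMap.smul_apply,
      smul_eq_mul, ha, h, h', sym_skew ha x f, sym_skew ha x v]
    ring

theorem sym_tv {ι : Type} [Fintype ι] [DecidableEq ι] (k l : ι) (c : A) (x : ι → A) :
    transvection k l c *ᵥ x = x + (c * x l) • Pi.single k 1 := by
  rw [transvection, add_mulVec, one_mulVec, single_mulVec]
  congr 1
  ext j
  by_cases hj : j = k
  · subst hj
    simp
  · simp [hj]

end Pool.Agent.Lib.MP_a37f0b_ag.Q4
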