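import Pool.Agent.Lib.MP_a37f0b_ag.Q4.Br
import Pool.Agent.Lib.MP_a37f0b_ag.Q4.Jet

/-! Generators of maximal ideals of polynomial rings, and branches with a given jet. -/

open MvPolynomial IsLocalRing

namespace Pool.Agent.Lib.MP_a37f0b_ag.Q4

theorem topa_poly {S : Type} [CommRing S] [IsJacobsonRing S] (M : Ideal (Polynomial S))
    (hM : M.IsMaximal) :
    ∃ f, M = (M.comap Polynomial.C).map Polynomial.C ⊔ Ideal.span {f} := by
  have h0 : (M.comap (Polynomial.C : S →+* Polynomial S)).IsMaximal :=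
    Polynomial.isMaximal_comap_C_of_isJacobsonRing M
  set M0 := M.comap (Polynomial.C : S →+* Polynomial S) with hM0
  let : Field (S ⧸ M0) := Ideal.Quotient.field M0
  let φ := Polynomial.mapRingHom (Ideal.Quotient.mk M0)
  have hφ : Function.Surjective φ := Polynomial.map_surjective _ Ideal.Quotient.mk_surjective
  have hk : RingHom.ker φ = M0.map Polynomial.C := by
    rw [Polynomial.ker_mapRingHom, Ideal.mk_ker]
  have hle : M0.map Polynomial.C ≤ M := Ideal.map_comap_le
  obtain ⟨g, hg⟩ := (IsPrincipalIdealRing.principal (M.map φ)).principal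
  obtain ⟨f, rfl⟩ := hφ g
  refine ⟨f, ?_⟩
  have h1 : M.map φ = (Ideal.span {f}).map φ := by
    rw [hg, Ideal.map_span, Set.image_singleton]
  have h2 := congrArg (Ideal.comap φ) h1
  rw [Ideal.comap_map_of_surjective _ hφ, Ideal.comap_map_of_surjective _ hφ,
    ← RingHom.ker_eq_comap_bot, hk, sup_eq_left.2 hle] at h2
  rw [sup_comm]
  exact h2

theorem topa_max_gen {k : Type} [Field k] (s : ℕ) : ∀ (M : Ideal (MvPolynomial (Fin s) k)),
    M.IsMaximal → ∃ P : Fin s → MvPolynomial (Fin s) k, M = Ideal.span (Set.range P) := by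
  induction s with
  | zero =>
    intro M hM
    refine ⟨fun i => i.elim0, ?_⟩
    rw [Set.range_eq_empty, Ideal.span_empty, eq_bot_iff]
    intro x hx
    by_contra h
    apply hM.ne_top
    rw [eq_C_of_isEmpty x] at hx h
    refine Ideal.eq_top_of_isUnit_mem _ hx (IsUnit.map C (Ne.isUnit ?_))
    intro h0
    apply h
    rw [h0, C_0]
    exact Ideal.zero_mem _
  | succ s ih =>
    intro M hM
    let e := (finSuccEquiv k s).toRingEquiv
    have hM' : (M.comap e.symm.toRingHom).IsMaximal :=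
      Ideal.comap_isMaximal_of_surjective _ e.symm.surjective
    obtain ⟨f, hf⟩ := topa_poly _ hM'
    obtain ⟨P, hP⟩ := ih _ (Polynomial.isMaximal_comap_C_of_isJacobsonRing
      (M.comap e.symm.toRingHom))
    rw [hP] at hf
    refine ⟨Fin.cons (e.symm f) fun i => e.symm (Polynomial.C (P i)), ?_⟩
    have h1 : M = (M.comap e.symm.toRingHom).map e.symm.toRingHom :=
      (Ideal.map_comap_of_surjective _ e.symm.surjective M).symm
    rw [h1, hf, Ideal.map_sup, Ideal.map_span, Ideal.map_span, Ideal.map_span, Fin.range_cons,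
      Set.image_singleton, Ideal.span_insert, sup_comm, ← Set.range_comp, ← Set.range_comp]
    rfl

variable {R : Type} [CommRing R]

/-- A monic relation can be added with large degree. -/
theorem topa_lead [Nontrivial R] {σ : Type} (a : MvPolynomial σ R) (j : σ) {m : Polynomial R}
    (hm : m.Monic) : ∃ w L, 2 ≤ L ∧
      (a + w * Polynomial.aeval (X j : MvPolynomial σ R) m ^ 2 - X j ^ L).totalDegree < L := by
  have hp : (Polynomial.X ^ (a.totalDegree + 2) * m ^ 2).Monic :=
    (Polynomial.monic_X_pow _).mul (hm.pow 2)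
  have hd : a.totalDegree + 2 ≤ (Polynomial.X ^ (a.totalDegree + 2) * m ^ 2).natDegree := by
    rw [(Polynomial.monic_X_pow _).natDegree_mul (hm.pow 2), Polynomial.natDegree_X_pow]
    omega
  refine ⟨X j ^ (a.totalDegree + 2), (Polynomial.X ^ (a.totalDegree + 2) * m ^ 2).natDegree,
    by omega, ?_⟩
  have h1 : X j ^ (a.totalDegree + 2) * Polynomial.aeval (X j : MvPolynomial σ R) m ^ 2 =
      Polynomial.aeval (X j : MvPolynomial σ R) (Polynomial.X ^ (a.totalDegree + 2) * m ^ 2) := by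
    simp
  rw [h1]
  generalize Polynomial.X ^ (a.totalDegree + 2) * m ^ 2 = p at hp hd
  have h2 : a + Polynomial.aeval (X j : MvPolynomial σ R) p - X j ^ p.natDegree =
      a + ∑ i ∈ Finset.range p.natDegree, C (p.coeff i) * X j ^ i := by
    conv_lhs => rw [hp.as_sum]
    rw [← hp.as_sum]
    conv_lhs => enter [1, 2]; rw [hp.as_sum]
    simp only [map_add, map_pow, Polynomial.aeval_X, map_sum, map_mul, Polynomial.aeval_C,
      algebraMap_eq]
    ring
  rw [h2]
  have h3 : (∑ i ∈ Finset.range p.natDegree,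
      C (p.coeff i) * (X j : MvPolynomial σ R) ^ i).totalDegree ≤ p.natDegree - 1 := by
    refine totalDegree_finsetSum_le fun i hi => ?_
    have := Finset.mem_range.1 hi
    have h4 := totalDegree_mul (C (p.coeff i)) ((X j : MvPolynomial σ R) ^ i)
    rw [totalDegree_C, totalDegree_X_pow] at h4
    omega
  have h5 := totalDegree_add a
    (∑ i ∈ Finset.range p.natDegree, C (p.coeff i) * (X j : MvPolynomial σ R) ^ i)
  omega

/-- A maximal ideal with monic relations lies over the maximal ideal. -/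
theorem topa_over [IsLocalRing R] {σ : Type} [Finite σ] (M : Ideal (MvPolynomial σ R))
    (hM : M.IsMaximal) (h : ∀ j, ∃ f ∈ M, ∃ L, (f - X j ^ L).totalDegree < L) :
    (maximalIdeal R).map C ≤ M := by
  have := fin_of_lead M h
  have h1 : (⊥ : Ideal (MvPolynomial σ R ⧸ M)).IsMaximal :=
    (Ideal.bot_quotient_isMaximal_iff M).2 hM
  have h2 := Ideal.isMaximal_comap_of_isIntegral_of_isMaximal (R := R)
    (⊥ : Ideal (MvPolynomial σ R ⧸ M))
  rw [Ideal.map_le_iff_le_comap, ← eq_maximalIdeal h2]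
  intro x hx
  rw [Ideal.mem_comap, Ideal.mem_bot] at hx
  rw [Ideal.mem_comap, ← Ideal.Quotient.eq_zero_iff_mem]
  exact hx

/-- An element that separates one point of a finite scheme from the others. -/
theorem topa_sep [IsLocalRing R] {S : Type} [CommRing S] [Algebra R S] (I M : Ideal S)
    [Module.Finite R (S ⧸ I)] (hM : M.IsMaximal) (n : ℕ) : ∃ ε ∈ M ^ n,
      ∀ M' : Ideal S, M'.IsMaximal → I ≤ M' → M' ≠ M → 1 - ε ∈ M' := by
  have hfin : {M' : Ideal S | M'.IsMaximal ∧ I ≤ M' ∧ M' ≠ M}.Finite := by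
    refine ((Algebra.QuasiFinite.finite_primesOver (S := S ⧸ I) (maximalIdeal R)).image
      (Ideal.comap (Ideal.Quotient.mk I))).subset ?_
    rintro M' ⟨h1, h2, -⟩
    have h3 : (M'.map (Ideal.Quotient.mk I)).comap (Ideal.Quotient.mk I) = M' := by
      rw [Ideal.comap_map_of_surjective _ Ideal.Quotient.mk_surjective,
        ← RingHom.ker_eq_comap_bot, Ideal.mk_ker, sup_eq_left.2 h2]
    have h4 : (M'.map (Ideal.Quotient.mk I)).IsMaximal := by
      rcases Ideal.map_eq_top_or_isMaximal_of_surjective (Ideal.Quotient.mk I)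
        Ideal.Quotient.mk_surjective h1 with h | h
      · rw [h, Ideal.comap_top] at h3
        exact absurd h3.symm h1.ne_top
      · exact h
    refine ⟨_, ⟨h4.isPrime, ⟨?_⟩⟩, h3⟩
    exact (eq_maximalIdeal (Ideal.isMaximal_comap_of_isIntegral_of_isMaximal (R := R) _)).symm
  have h1 : M ^ n ⊔ ⨅ M' ∈ hfin.toFinset, M' = ⊤ := by
    refine Ideal.sup_iInf_eq_top fun M' hM' => Ideal.pow_sup_eq_top ?_
    rw [Set.Finite.mem_toFinset] at hM'
    exact hM.coprime_of_ne hM'.1 hM'.2.2.symm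
  obtain ⟨ε, hε, ν, hν, h2⟩ := Submodule.mem_sup.1 ((Ideal.eq_top_iff_one _).1 h1)
  refine ⟨ε, hε, fun M' h3 h4 h5 => ?_⟩
  rw [← h2, add_sub_cancel_left]
  simp only [Ideal.mem_iInf, Set.Finite.mem_toFinset] at hν
  exact hν M' ⟨h3, h4, h5⟩

/-- Generators of a maximal ideal over the closed point. -/
theorem topa_par [IsLocalRing R] {s : ℕ} (M : Ideal (MvPolynomial (Fin (s + 1)) R))
    (hM : M.IsMaximal) (h1 : (maximalIdeal R).map C ≤ M) (h2 : X 0 ∈ M) :
    ∃ P : Fin s → MvPolynomial (Fin (s + 1)) R,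
      M = ((maximalIdeal R).map C ⊔ Ideal.span {X 0}) ⊔ Ideal.span (Set.range P) := by
  set K : Ideal (MvPolynomial (Fin (s + 1)) R) := (maximalIdeal R).map C ⊔ Ideal.span {X 0}
    with hK
  have hKM : K ≤ M := sup_le h1 ((Ideal.span_singleton_le_iff_mem _).2 h2)
  let c : ResidueField R →+* MvPolynomial (Fin (s + 1)) R ⧸ K :=
    Ideal.Quotient.lift (maximalIdeal R) ((Ideal.Quotient.mk K).comp C) fun a ha =>
      Ideal.Quotient.eq_zero_iff_mem.2 (Ideal.mem_sup_left (Ideal.mem_map_of_mem _ ha))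
  let χ : MvPolynomial (Fin s) (ResidueField R) →+* MvPolynomial (Fin (s + 1)) R ⧸ K :=
    eval₂Hom c fun i => Ideal.Quotient.mk K (X i.succ)
  have hχ : Function.Surjective χ := by
    intro z
    obtain ⟨y, rfl⟩ := Ideal.Quotient.mk_surjective z
    induction y using MvPolynomial.induction_on with
    | C a => exact ⟨C (residue R a), by simp only [χ, eval₂Hom_C]; rfl⟩
    | add p q hp hq =>
      obtain ⟨p', hp⟩ := hp
      obtain ⟨q', hq⟩ := hq
      exact ⟨p' + q', by rw [map_add, map_add, hp, hq]⟩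
    | mul_X p j hp =>
      obtain ⟨p', hp⟩ := hp
      refine Fin.cases ⟨0, ?_⟩ (fun i => ⟨p' * X i, ?_⟩) j
      · rw [map_zero, eq_comm, Ideal.Quotient.eq_zero_iff_mem]
        exact Ideal.mul_mem_left _ _ (Ideal.mem_sup_right (Ideal.mem_span_singleton_self _))
      · rw [map_mul, map_mul, hp]
        simp only [χ, eval₂Hom_X']
  have h3 : (M.map (Ideal.Quotient.mk K)).comap (Ideal.Quotient.mk K) = M := by
    rw [Ideal.comap_map_of_surjective _ Ideal.Quotient.mk_surjective,
      ← RingHom.ker_eq_comap_bot, Ideal.mk_ker, sup_eq_left.2 hKM]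
  have h4 : (M.map (Ideal.Quotient.mk K)).IsMaximal := by
    rcases Ideal.map_eq_top_or_isMaximal_of_surjective (Ideal.Quotient.mk K)
      Ideal.Quotient.mk_surjective hM with h | h
    · rw [h, Ideal.comap_top] at h3
      exact absurd h3.symm hM.ne_top
    · exact h
  obtain ⟨P0, hP0⟩ := topa_max_gen s ((M.map (Ideal.Quotient.mk K)).comap χ)
    (Ideal.comap_isMaximal_of_surjective _ hχ)
  choose P hP using fun i => Ideal.Quotient.mk_surjective (χ (P0 i))
  refine ⟨P, ?_⟩
  have h5 : M.map (Ideal.Quotient.mk K) = (Ideal.span (Set.range P)).map (Ideal.Quotient.mk K) := by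
    rw [← Ideal.map_comap_of_surjective χ hχ (M.map _), hP0, Ideal.map_span, Ideal.map_span,
      ← Set.range_comp, ← Set.range_comp]
    congr 2
    funext i
    exact (hP i).symm
  rw [← h3, h5, Ideal.comap_map_of_surjective _ Ideal.Quotient.mk_surjective,
    ← RingHom.ker_eq_comap_bot, Ideal.mk_ker, sup_comm]

/-- Orders along a principal ideal. -/
theorem topa_ord {S : Type} [CommRing S] {P M : Ideal S} {T : S} (h : M ≤ P ⊔ Ideal.span {T})
    (y : S) (n : ℕ) :
    y ∈ P ⊔ Ideal.span {T ^ n} ∨ ∃ i < n, ∃ u ∉ M, y - u * T ^ i ∈ P := by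
  induction n with
  | zero =>
    left
    rw [pow_zero, Ideal.span_singleton_one, sup_top_eq]
    trivial
  | succ n ih =>
    rcases ih with h1 | ⟨i, hi, h1⟩
    · obtain ⟨p, hp, z, hz, rfl⟩ := Submodule.mem_sup.1 h1
      obtain ⟨u, rfl⟩ := Ideal.mem_span_singleton'.1 hz
      by_cases hu : u ∈ M
      · left
        obtain ⟨p', hp', z', hz', rfl⟩ := Submodule.mem_sup.1 (h hu)
        obtain ⟨v, rfl⟩ := Ideal.mem_span_singleton'.1 hz'
        refine Submodule.mem_sup.2 ⟨p + p' * T ^ n, P.add_mem hp (P.mul_mem_right _ hp'),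
          v * T ^ (n + 1), Ideal.mem_span_singleton'.2 ⟨v, rfl⟩, by ring⟩
      · right
        exact ⟨n, by omega, u, hu, by rwa [add_sub_cancel_right]⟩
    · exact Or.inr ⟨i, by omega, h1⟩

/-- Nakayama for a maximal ideal. -/
theorem topa_nak {S : Type} [CommRing S] {I M : Ideal S} (hM : M.IsMaximal) (hfg : M.FG)
    (h1 : M ≤ I ⊔ M ^ 2) (h2 : ∀ M' : Ideal S, M'.IsMaximal → I ≤ M' → M' = M) : M ≤ I := by
  obtain ⟨e, he, he'⟩ := Submodule.exists_sub_one_mem_and_smul_le_of_fg_of_le_sup (I := M)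
    (N := I) (N' := M) (P := M) hfg le_rfl (by rwa [Ideal.smul_eq_mul, ← sq])
  have h3 : I ⊔ Ideal.span {e} = ⊤ := by
    by_contra h
    obtain ⟨M', hM', h4⟩ := Ideal.exists_le_maximal _ h
    have h5 := h2 M' hM' (le_sup_left.trans h4)
    have h6 : e ∈ M := h5 ▸ h4 (Ideal.mem_sup_right (Ideal.mem_span_singleton_self e))
    apply hM.ne_top
    rw [Ideal.eq_top_iff_one]
    have := M.sub_mem h6 he
    rwa [sub_sub_cancel] at this
  obtain ⟨a, ha, z, hz, h4⟩ := Submodule.mem_sup.1 ((Ideal.eq_top_iff_one _).1 h3)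
  obtain ⟨b, rfl⟩ := Ideal.mem_span_singleton'.1 hz
  intro y hy
  have h5 : e * y ∈ I := he' (Submodule.smul_mem_pointwise_smul y e M hy)
  have h6 : y = a * y + b * (e * y) := by rw [← mul_assoc, ← add_mul, h4, one_mul]
  rw [h6]
  exact I.add_mem (I.mul_mem_right _ ha) (I.mul_mem_left _ h5)

theorem topa_jet_br [IsLocalRing R] {r : R} {q : ℕ} (hq : 0 < q) (x : Fin (q + 1) → R)
    (hx : maximalIdeal R = Ideal.span {r} ⊔ Ideal.span (Set.range x)) {ρ : R} {N : ℕ}
    (hN : 0 < N) (j : Jet R ρ N) :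
    ∃ (s : ℕ) (B : Br R r s q) (ψ : MvPolynomial (Fin (s + 1)) R →ₐ[R] j.J),
      Function.Surjective ψ ∧ ψ (X 0) = j.π ∧
      ∀ y, ψ y = 0 ↔ y ∈ B.P ⊔ Ideal.span {X 0 ^ (j.f * N)} := by
  obtain ⟨s, θ, hθ⟩ := Module.Finite.exists_fin (R := R) (M := j.J)
  let ψ : MvPolynomial (Fin (s + 1)) R →ₐ[R] j.J := aeval (Fin.cons j.π θ)
  have hT : ψ (X 0) = j.π := by simp [ψ]
  have hψ : Function.Surjective ψ := by
    have h1 : Submodule.span R (Set.range θ) ≤ LinearMap.range ψ.toLinearMap := by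
      rw [Submodule.span_le]
      rintro _ ⟨i, rfl⟩
      exact ⟨X i.succ, by simp [ψ]⟩
    intro z
    exact h1 (hθ ▸ Submodule.mem_top)
  have hn : 0 < j.f * N := Nat.mul_pos j.pos hN
  set n := j.f * N with hn'
  let M : Ideal (MvPolynomial (Fin (s + 1)) R) := (maximalIdeal j.J).comap ψ.toRingHom
  have hM : M.IsMaximal := Ideal.comap_isMaximal_of_surjective _ hψ
  have hmem : ∀ y, y ∈ M ↔ ψ y ∈ maximalIdeal j.J := fun y => Iff.rfl
  let K : Ideal (MvPolynomial (Fin (s + 1)) R) := RingHom.ker ψ.toRingHom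
  have hK : ∀ y, y ∈ K ↔ ψ y = 0 := fun y => Iff.rfl
  have hKM : K ≤ M := fun y hy => by
    rw [hmem, (hK y).1 hy]
    exact Ideal.zero_mem _
  have hTM : X 0 ∈ M := by
    rw [hmem, hT, j.max]
    exact Ideal.mem_span_singleton_self _
  have hlies : (maximalIdeal R).map C ≤ M := by
    rw [Ideal.map_le_iff_le_comap, ← eq_maximalIdeal
      (Ideal.isMaximal_comap_of_isIntegral_of_isMaximal (R := R) (maximalIdeal j.J))]
    intro a ha
    rw [Ideal.mem_comap, hmem, ← algebraMap_eq, AlgHom.commutes]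
    exact ha
  have hdec : ∀ y ∈ M, ∃ h, y - X 0 * h ∈ K := fun y hy => by
    rw [hmem, j.max] at hy
    obtain ⟨η, hη⟩ := Ideal.mem_span_singleton'.1 hy
    obtain ⟨h, rfl⟩ := hψ η
    exact ⟨h, by rw [hK, map_sub, map_mul, hT, ← hη, mul_comm, sub_self]⟩
  have hMn : M ^ n ≤ K := by
    have h1 : (M ^ n).map ψ.toRingHom = ⊥ := by
      rw [Ideal.map_pow, Ideal.map_comap_of_surjective ψ.toRingHom hψ, j.max,
        Ideal.span_singleton_pow, j.nil, Ideal.span_singleton_eq_bot]
    exact (Ideal.map_eq_bot_iff_le_ker _).1 h1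
  obtain ⟨P, hP⟩ := topa_par M hM hlies hTM
  have hr : r ∈ maximalIdeal R := hx ▸ Ideal.mem_sup_left (Ideal.mem_span_singleton_self r)
  have hxm : ∀ i, x i ∈ maximalIdeal R := fun i =>
    hx ▸ Ideal.mem_sup_right (Ideal.subset_span ⟨i, rfl⟩)
  let G : Fin (s + 1) → MvPolynomial (Fin (s + 1)) R := Fin.cons (-C r) P
  have hG : ∀ i, G i ∈ M := fun i => by
    refine Fin.cases ?_ (fun i => ?_) i
    · exact M.neg_mem (hlies (Ideal.mem_map_of_mem _ hr))
    · exact hP ▸ Ideal.mem_sup_right (Ideal.subset_span ⟨i, rfl⟩)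
  choose h hh using fun i => hdec _ (hG i)
  choose h' hh' using fun i => hdec _ (hlies (Ideal.mem_map_of_mem C (hxm i)))
  have hmon : ∀ i : Fin (s + 1), ∃ m : Polynomial R, m.Monic ∧
      Polynomial.aeval (X i : MvPolynomial (Fin (s + 1)) R) m ∈ K ∧
      X i ∣ Polynomial.aeval (X i : MvPolynomial (Fin (s + 1)) R) m := fun i => by
    obtain ⟨m, hm, hm'⟩ : IsIntegral R (ψ (X i)) := Algebra.IsIntegral.isIntegral _
    refine ⟨Polynomial.X * m, Polynomial.monic_X.mul hm, ?_, ?_⟩
    · rw [hK, ← Polynomial.aeval_algHom_apply, map_mul, Polynomial.aeval_def _ m, hm', mul_zero]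
    · rw [map_mul, Polynomial.aeval_X]
      exact dvd_mul_right _ _
  choose m hm hmK hmX using hmon
  choose w L hL hdeg using fun i => topa_lead (G i - X 0 * h i) i (hm i)
  let F1 : Fin (s + 1) → MvPolynomial (Fin (s + 1)) R := fun i =>
    G i - X 0 * h i + w i * Polynomial.aeval (X i : MvPolynomial (Fin (s + 1)) R) (m i) ^ 2
  have hF1 : ∀ i, F1 i ∈ K := fun i =>
    K.add_mem (hh i) (K.mul_mem_left _ (K.pow_mem_of_mem (hmK i) 2 two_pos))
  have hfin := fin_of_lead (Ideal.span (Set.range F1)) fun i =>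
    ⟨F1 i, Ideal.subset_span ⟨i, rfl⟩, L i, hdeg i⟩
  obtain ⟨ε, hε, hε'⟩ := topa_sep (R := R) (Ideal.span (Set.range F1)) M hM (n + 2)
  have hεK : ε ∈ K := hMn (Ideal.pow_le_pow_right (by omega) hε)
  have hε2 : ε ∈ M ^ 2 := Ideal.pow_le_pow_right (by omega) hε
  let y : Fin (q + 1) → MvPolynomial (Fin (s + 1)) R := fun i => C (x i) - X 0 * h' i
  let F2 : Fin q → MvPolynomial (Fin (s + 1)) R := fun i =>
    y i.castSucc + ε * (1 - y i.castSucc)
  have hF2 : ∀ i, F2 i ∈ K := fun i => K.add_mem (hh' _) (K.mul_mem_right _ hεK)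
  let F : Fin (s + 1 + q) → MvPolynomial (Fin (s + 1)) R := Fin.append F1 F2
  have hFl : ∀ i, F (Fin.castAdd q i) = F1 i := fun i => Fin.append_left _ _ i
  have hFr : ∀ i, F (Fin.natAdd (s + 1) i) = F2 i := fun i => Fin.append_right _ _ i
  have hF : Ideal.span (Set.range F) ≤ K := by
    rw [Ideal.span_le]
    rintro _ ⟨i, rfl⟩
    refine Fin.addCases (fun i => ?_) (fun i => ?_) i
    · rw [hFl]; exact hF1 i
    · rw [hFr]; exact hF2 i
  have hl : ∀ i, F1 i ∈ Ideal.span (Set.range F) := fun i => Ideal.subset_span ⟨_, hFl i⟩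
  have hr' : ∀ i, F2 i ∈ Ideal.span (Set.range F) := fun i => Ideal.subset_span ⟨_, hFr i⟩
  have hloc : ∀ M' : Ideal (MvPolynomial (Fin (s + 1)) R), M'.IsMaximal →
      Ideal.span (Set.range F) ≤ M' → M' = M := fun M' hM' hle => by
    by_contra hne
    have h1 := hε' M' hM' (Ideal.span_le.2 (by rintro _ ⟨i, rfl⟩; exact hle (hl i))) hne
    have h2 := hle (hr' ⟨0, hq⟩)
    apply hM'.ne_top
    rw [Ideal.eq_top_iff_one]
    have h3 : (1 : MvPolynomial (Fin (s + 1)) R) = F2 ⟨0, hq⟩ +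
        (1 - ε) * (1 - y (Fin.castSucc ⟨0, hq⟩)) := by
      simp only [F2]
      ring
    rw [h3]
    exact M'.add_mem h2 (M'.mul_mem_right _ h1)
  set I : Ideal (MvPolynomial (Fin (s + 1)) R) :=
    Ideal.span (Set.range F) ⊔ Ideal.span {y (Fin.last q), X 0} with hI
  have hTI : X 0 ∈ I := Ideal.mem_sup_right (Ideal.subset_span (by simp))
  have hgI : y (Fin.last q) ∈ I := Ideal.mem_sup_right (Ideal.subset_span (by simp))
  have hIM : I ≤ M := by
    refine sup_le (hF.trans hKM) (Ideal.span_le.2 ?_)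
    rintro _ (rfl | rfl)
    · exact hKM (hh' _)
    · exact hTM
  have hGI : ∀ i, G i ∈ I ⊔ M ^ 2 := fun i => by
    have h1 : G i = (F1 i + X 0 * h i) -
        w i * Polynomial.aeval (X i : MvPolynomial (Fin (s + 1)) R) (m i) ^ 2 := by
      simp only [F1]
      ring
    rw [h1]
    exact Ideal.sub_mem _ (Ideal.mem_sup_left (I.add_mem (Ideal.mem_sup_left (hl i))
      (I.mul_mem_right _ hTI))) (Ideal.mem_sup_right (Ideal.mul_mem_left _ _
        (Ideal.pow_mem_pow (hKM (hmK i)) 2)))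
  have hxI : ∀ i, C (x i) ∈ I ⊔ M ^ 2 := fun i => by
    have h1 : C (x i) = y i + X 0 * h' i := by
      simp only [y]
      ring
    rw [h1]
    refine Ideal.add_mem _ ?_ (Ideal.mem_sup_left (I.mul_mem_right _ hTI))
    refine Fin.lastCases (Ideal.mem_sup_left hgI) (fun i => ?_) i
    have h2 : y i.castSucc = F2 i - ε * (1 - y i.castSucc) := by
      simp only [F2]
      ring
    rw [h2]
    exact Ideal.sub_mem _ (Ideal.mem_sup_left (Ideal.mem_sup_left (hr' i)))
      (Ideal.mem_sup_right (Ideal.mul_mem_right _ _ hε2))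
  have hP' : M = (Ideal.span {C r} ⊔ Ideal.span (Set.range fun i => C (x i)) ⊔
      Ideal.span {X 0}) ⊔ Ideal.span (Set.range P) := by
    rw [hx, Ideal.map_sup, Ideal.map_span, Ideal.map_span, Set.image_singleton,
      ← Set.range_comp] at hP
    exact hP
  have hfg : M.FG := by
    rw [hP']
    exact (((Submodule.fg_span (Set.finite_singleton _)).sup
      (Submodule.fg_span (Set.finite_range _))).sup
      (Submodule.fg_span (Set.finite_singleton _))).sup (Submodule.fg_span (Set.finite_range _))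
  have hMI : M ≤ I := by
    refine topa_nak hM hfg (hP'.le.trans ?_) fun M' hM' hle => hloc M' hM' (le_sup_left.trans hle)
    refine sup_le (sup_le (sup_le ?_ ?_) ?_) ?_
    · rw [Ideal.span_singleton_le_iff_mem, ← Ideal.neg_mem_iff]
      exact hGI 0
    · rw [Ideal.span_le]
      rintro _ ⟨i, rfl⟩
      exact hxI i
    · rw [Ideal.span_singleton_le_iff_mem]
      exact Ideal.mem_sup_left hTI
    · rw [Ideal.span_le]
      rintro _ ⟨i, rfl⟩
      exact hGI i.succ
  obtain ⟨z, hz⟩ := hmX 0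
  let B : Br R r s q :=
    { F := F, g := y (Fin.last q), M := M, max := hM, lies := hlies
      gen := le_antisymm hMI hIM
      loc := fun M' hM' hle => hloc M' hM' (le_sup_left.trans hle)
      lead := fun i => ⟨Fin.castAdd q i, L i, hL i, by rw [hFl]; exact hdeg i⟩
      rT := ⟨Fin.castAdd q 0, 1, -h 0 + w 0 * X 0 * z ^ 2,
        fun h1 => hM.ne_top ((Ideal.eq_top_iff_one _).2 h1), by
          rw [hFl]
          simp only [F1, G, Fin.cons_zero, hz]
          ring⟩ }
  have hBP : B.P = Ideal.span (Set.range F) ⊔ Ideal.span {y (Fin.last q)} := rfl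
  have hPK : B.P ≤ K := by
    rw [hBP]
    exact sup_le hF ((Ideal.span_singleton_le_iff_mem _).2 (hh' _))
  refine ⟨s, B, ψ, hψ, hT, fun y0 => ⟨fun h0 => ?_, fun h0 => ?_⟩⟩
  · have h1 : M ≤ B.P ⊔ Ideal.span {X 0} := by
      rw [hBP, sup_assoc, ← Ideal.span_insert]
      exact hMI
    rcases topa_ord h1 y0 n with h2 | ⟨i, hi, u, hu, h2⟩
    · exact h2
    · exfalso
      have h3 := (hK _).1 (hPK h2)
      rw [map_sub, h0, zero_sub, neg_eq_zero, map_mul, map_pow, hT] at h3
      have h4 : IsUnit (ψ u) := by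
        by_contra h5
        exact hu ((hmem u).2 ((mem_maximalIdeal _).2 h5))
      have h5 := (h4.mul_right_eq_zero).1 h3
      apply j.nz
      rw [show n - 1 = i + (n - 1 - i) by omega, pow_add, h5, zero_mul]
  · refine (hK _).1 (sup_le hPK ?_ h0)
    rw [Ideal.span_singleton_le_iff_mem, hK, map_pow, hT, j.nil]

end Pool.Agent.Lib.MP_a37f0b_ag.Q4
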